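import Pool.Agent.P.MP_1307d3_al.Sandwich

/-! From a sandwich to an abelian ideal in an Engel Lie ring. -/

namespace Pool.Agent.P.MP_1307d3_al.Thick

variable {L : Type*} [LieRing L]

/-- The left normed bracket `⁅x, a₁, …, a_k⁆`. -/
abbrev br (x : L) (w : List L) : L := w.foldl (fun a b => ⁅a, b⁆) x

theorem br_add (w : List L) (x y : L) : br (x + y) w = br x w + br y w := by
  induction w generalizing x y with
  | nil => rfl
  | cons a w ih => simp only [br, List.foldl_cons, add_lie]; exact ih _ _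

theorem G_br {z : L} (w : List L) {y : L} (h : G z (w.length + 1) y) : ⁅br y w, z⁆ = 0 := by
  induction w generalizing y with
  | nil => exact h.1
  | cons a w ih => exact ih (h.2 a)

theorem G_of_br {z : L} : ∀ (k : ℕ) {y : L}, (∀ w : List L, w.length < k → ⁅br y w, z⁆ = 0) →
    G z k y
  | 0, _, _ => trivial
  | k + 1, _, h => ⟨h [] (by simp), fun a => G_of_br k fun w hw => h (a :: w) (by simpa using hw)⟩

theorem br_perm {z : L} {w w' : List L} (p : w.Perm w') :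
    ∀ y : L, G z w.length y → ⁅br y w, z⁆ = ⁅br y w', z⁆ := by
  induction p with
  | nil => intro _ _; rfl
  | cons a _ ih => intro y h; exact ih _ (h.2 a)
  | swap a b l =>
    intro y h
    change ⁅br ⁅⁅y, b⁆, a⁆ l, z⁆ = ⁅br ⁅⁅y, a⁆, b⁆ l, z⁆
    rw [jac y b a, br_add, add_lie, G_br l (h.2 ⁅b, a⁆), add_zero]
  | trans p _ ih ih' => intro y h; rw [ih y h, ih' y (p.length_eq ▸ h)]

/-- The linearised Engel identity of degree `n`. -/
def Engel (L : Type*) [LieRing L] (n : ℕ) : Prop :=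
  ∀ (a : Fin n → L) (x : L), ∑ σ : Equiv.Perm (Fin n), br x (List.ofFn fun i => a (σ i)) = 0

theorem Engel.red {n : ℕ} (E : Engel L n) (tf : ∀ x : L, n.factorial • x = 0 → x = 0)
    {z y : L} (h : G z n y) : G z (n + 1) y := by
  refine G_of_br _ fun w hw => ?_
  rcases Nat.lt_succ_iff_lt_or_eq.1 hw with e | e
  · exact G_br w (G_mono e h)
  subst e
  apply tf
  have := congrArg (rm z) (E w.get y)
  rw [map_sum, map_zero, Finset.sum_congr rfl (g := fun _ => ⁅br y w, z⁆)] at this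
  · simpa [Fintype.card_perm] using this
  · intro σ _
    have p : w.Perm (List.ofFn fun i => w.get (σ i)) := by
      conv_lhs => rw [← List.ofFn_get w]
      exact (Equiv.Perm.ofFn_comp_perm σ w.get).symm
    exact (br_perm p y h).symm

theorem inf_of_red {n : ℕ} (red : ∀ z y : L, G z n y → G z (n + 1) y) {z : L} :
    ∀ (k : ℕ) {y : L}, G z n y → G z k y
  | 0, _, _ => trivial
  | k + 1, _, h => ⟨(red _ _ h).1, fun a => inf_of_red red k ((red _ _ h).2 a)⟩

/-- Every set invariant under all automorphisms spans an ideal. -/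
def Inv (L : Type*) [LieRing L] : Prop :=
  ∀ T : Set L, (∀ φ : L ≃+ L, (∀ a b, φ ⁅a, b⁆ = ⁅φ a, φ b⁆) → ∀ t ∈ T, φ t ∈ T) →
    ∀ t ∈ T, ∀ a : L, ⁅t, a⁆ ∈ AddSubgroup.closure T

theorem G_map (φ : L ≃+ L) (hφ : ∀ a b, φ ⁅a, b⁆ = ⁅φ a, φ b⁆) {z : L} :
    ∀ {k : ℕ} {y : L}, G z k y → G (φ z) k (φ y)
  | 0, _, _ => trivial
  | _ + 1, _, h => ⟨by rw [← hφ, h.1, map_zero], fun a => by
      rw [← φ.apply_symm_apply a, ← hφ]; exact G_map φ hφ (h.2 _)⟩

theorem closure_lie {T : Set L} (h : ∀ t ∈ T, ∀ a : L, ⁅t, a⁆ ∈ AddSubgroup.closure T) {y : L}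
    (hy : y ∈ AddSubgroup.closure T) (a : L) : ⁅y, a⁆ ∈ AddSubgroup.closure T :=
  (AddSubgroup.closure_le (K := (AddSubgroup.closure T).comap (rm a))).2 (fun t ht => h t ht a) hy

theorem closure_br {T : Set L} (h : ∀ t ∈ T, ∀ a : L, ⁅t, a⁆ ∈ AddSubgroup.closure T) (w : List L)
    {y : L} (hy : y ∈ AddSubgroup.closure T) : br y w ∈ AddSubgroup.closure T := by
  induction w generalizing y with
  | nil => exact hy
  | cons a w ih => exact ih (closure_lie h hy a)

theorem closure_comm {T : Set L} {z : L} (h : ∀ t ∈ T, ⁅t, z⁆ = 0) {y : L}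
    (hy : y ∈ AddSubgroup.closure T) : ⁅y, z⁆ = 0 :=
  (AddSubgroup.closure_le (K := (rm z).ker)).2 (fun t ht => h t ht) hy

theorem thicker {k : ℕ} {e c : L} (he : G e (k + 4) e) (hc : G c (k + 4) c) :
    G ⁅e, c⁆ (k + 5) ⁅e, c⁆ := by
  have h1 : G ⁅e, c⁆ (k + 3) e := G_symm (he.2 c)
  have h2 : G ⁅e, c⁆ (k + 3) c := G_symm (by rw [← lie_skew]; exact G_neg (hc.2 e))
  exact G_lie _ h1 h2 (by omega)

theorem inf_of_thick {n : ℕ} (red : ∀ z y : L, G z n y → G z (n + 1) y) (inv : Inv L)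
    {c : L} (c0 : c ≠ 0) (hc : G c 4 c) : ∃ z : L, z ≠ 0 ∧ ∀ w : List L, ⁅br z w, z⁆ = 0 := by
  by_contra q
  have key : ∀ k, ∃ z : L, z ≠ 0 ∧ G z (k + 4) z := by
    intro k
    induction k with
    | zero => exact ⟨c, c0, hc⟩
    | succ k ih =>
      obtain ⟨z, z0, hz⟩ := ih
      by_contra q'
      refine q ⟨z, z0, fun w => closure_comm (T := {y | G y (k + 4) y}) (fun t ht => ?_)
        (closure_br (inv {y | G y (k + 4) y} fun φ hφ t ht => G_map φ hφ ht) w (AddSubgroup.subset_closure hz))⟩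
      by_contra ne
      exact q' ⟨_, ne, thicker ht hz⟩
  obtain ⟨z, z0, hz⟩ := key n
  exact q ⟨z, z0, fun w => G_br w (inf_of_red red _ (G_mono (by omega) hz))⟩

/-- Sandwiches of a Lie ring. -/
def Sw (s : L) : Prop := (∀ x : L, ⁅⁅x, s⁆, s⁆ = 0) ∧ ∀ x y : L, ⁅⁅⁅x, s⁆, y⁆, s⁆ = 0

theorem lie_eq (x a b : L) : ⁅x, ⁅a, b⁆⁆ = ⁅⁅x, a⁆, b⁆ - ⁅⁅x, b⁆, a⁆ := by
  rw [jac x a b]; abel

theorem Sw.lie {a b : L} (ha : Sw a) (hb : Sw b) : Sw ⁅a, b⁆ := by
  have h1 : ∀ x y : L, ⁅⁅⁅⁅⁅x, a⁆, b⁆, y⁆, a⁆, b⁆ = 0 := fun x y => by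
    rw [jac ⁅x, a⁆ b y, add_lie, add_lie, ha.2, hb.2 _ a]
    simp
  have h2 : ∀ x y : L, ⁅⁅⁅⁅⁅x, b⁆, a⁆, y⁆, b⁆, a⁆ = 0 := fun x y => by
    rw [jac ⁅x, b⁆ a y, add_lie, add_lie, hb.2, ha.2 _ b]
    simp
  constructor
  · intro x
    simp only [lie_eq _ a b, sub_lie, ha.1, hb.1, ha.2, hb.2, zero_lie, sub_self]
  · intro x y
    simp only [lie_eq _ a b, sub_lie, ha.2, hb.2, h1, h2, zero_lie, sub_self]

theorem Sw.map (φ : L ≃+ L) (hφ : ∀ a b, φ ⁅a, b⁆ = ⁅φ a, φ b⁆) {s : L} (h : Sw s) : Sw (φ s) :=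
  ⟨fun x => by rw [← φ.apply_symm_apply x, ← hφ, ← hφ, h.1, map_zero], fun x y => by
    rw [← φ.apply_symm_apply x, ← φ.apply_symm_apply y, ← hφ, ← hφ, ← hφ, h.2, map_zero]⟩

/-- The automorphism `1 + ad t` of a sandwich `t`. -/
def expS {t : L} (h : Sw t) : L ≃+ L where
  toFun y := y + ⁅y, t⁆
  invFun y := y - ⁅y, t⁆
  left_inv y := by simp only [add_lie, h.1]; abel
  right_inv y := by simp only [sub_lie, h.1]; abel
  map_add' a b := by simp only [add_lie]; abel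

theorem expS_lie {t : L} (h : Sw t) (a b : L) : expS h ⁅a, b⁆ = ⁅expS h a, expS h b⁆ := by
  change ⁅a, b⁆ + ⁅⁅a, b⁆, t⁆ = ⁅a + ⁅a, t⁆, b + ⁅b, t⁆⁆
  rw [add_lie, lie_add, lie_add, lie_eq ⁅a, t⁆ b t, h.1, h.2, jac a b t, zero_lie]; abel

theorem inv_of_span (span : ∀ x : L, x ∈ AddSubgroup.closure {s : L | Sw s}) : Inv L := by
  intro T hT t ht a
  refine (AddSubgroup.closure_le (K := (AddSubgroup.closure T).comap (lm t))).2
    (fun s hs => ?_) (span a)
  have := sub_mem (AddSubgroup.subset_closure (hT (expS hs) (expS_lie hs) t ht))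
    (AddSubgroup.subset_closure ht)
  change t + ⁅t, s⁆ - t ∈ _ at this
  rwa [add_sub_cancel_left] at this

theorem inf_of_span {n : ℕ} (red : ∀ z y : L, G z n y → G z (n + 1) y)
    (span : ∀ x : L, x ∈ AddSubgroup.closure {s : L | Sw s}) {c : L} (hc : Sw c) (c0 : c ≠ 0) :
    ∃ z : L, z ≠ 0 ∧ ∀ w : List L, ⁅br z w, z⁆ = 0 := by
  obtain ⟨z, hz, z0, h⟩ := Sandwich.exists_thick' {s : L | Sw s} (fun s hs => hs.1)
    (fun s hs => hs.2) (fun a ha b hb => Sw.lie ha hb) span hc c0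
  refine inf_of_thick red (inv_of_span span) z0
    ⟨lie_self z, fun a => ⟨?_, fun b => ⟨?_, fun e => G_one.2 (h a b e)⟩⟩⟩
  · rw [← lie_skew z a, neg_lie, hz.1, neg_zero]
  · rw [← lie_skew z a, neg_lie, neg_lie, hz.2, neg_zero]

section Fit

variable (M : AddSubgroup L)

/-- The centraliser of the ideal of `M` generated by `c`. -/
def J (c v : L) : Prop := ∀ w : List L, (∀ a ∈ w, a ∈ M) → ⁅br c w, v⁆ = 0

/-- The filtration of the ideal `M` attached to an element `v`. -/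
def D (v : L) : ℕ → L → Prop
  | 0, y => y ∈ M
  | k + 1, y => (y ∈ M ∧ J M y v) ∧ ∀ a, D v k ⁅y, a⁆

variable {M}

theorem J.right {c v s : L} (h : J M c v) (hs : s ∈ M) : J M c ⁅v, s⁆ := by
  intro w hw
  have := h (w ++ [s]) fun a ha => by
    rcases List.mem_append.1 ha with e | e
    exacts [hw a e, List.mem_singleton.1 e ▸ hs]
  rw [br, List.foldl_append] at this
  rw [lie_eq, h w hw, zero_lie, zero_sub]
  exact neg_eq_zero.2 this

theorem J.left {c v s : L} (h : J M c v) (hs : s ∈ M) : J M ⁅c, s⁆ v := fun w hw =>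
  h (s :: w) fun a ha => by
    rcases List.mem_cons.1 ha with e | e
    exacts [e ▸ hs, hw a e]

theorem br_neg (w : List L) (x : L) : br (-x) w = -br x w := by
  induction w generalizing x with
  | nil => rfl
  | cons a w ih => simp only [br, List.foldl_cons, neg_lie]; exact ih _

theorem D.mem {v : L} : ∀ {k : ℕ} {y : L}, D M v k y → y ∈ M
  | 0, _, h => h
  | _ + 1, _, h => h.1.1

theorem D.pred {v : L} : ∀ {k : ℕ} {y : L}, D M v (k + 1) y → D M v k y
  | 0, _, h => h.1.1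
  | _ + 1, _, h => ⟨h.1, fun a => D.pred (h.2 a)⟩

theorem D.add {v : L} : ∀ {k : ℕ} {y y' : L}, D M v k y → D M v k y' → D M v k (y + y')
  | 0, _, _, h, h' => add_mem h h'
  | _ + 1, _, _, h, h' => ⟨⟨add_mem h.1.1 h'.1.1, fun w hw => by
      rw [br_add, add_lie, h.1.2 w hw, h'.1.2 w hw, add_zero]⟩, fun a => by
      rw [add_lie]; exact D.add (h.2 a) (h'.2 a)⟩

theorem D.lie (hM : ∀ y ∈ M, ∀ a : L, ⁅y, a⁆ ∈ M) {v : L} :
    ∀ (k : ℕ) {i j : ℕ} {a b : L}, D M v i a → D M v j b → k ≤ i + j → D M v k ⁅a, b⁆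
  | 0, _, _, _, b, ha, _, _ => hM _ ha.mem b
  | k + 1, 0, 0, _, _, _, _, h => by omega
  | k + 1, 0, j + 1, a, b, ha, hb, h => by
      refine ⟨⟨hM _ ha b, fun w hw => ?_⟩, fun c => ?_⟩
      · rw [← lie_skew a b, br_neg, neg_lie, hb.1.2.left ha w hw, neg_zero]
      · rw [jac]
        exact D.add (D.lie hM k (i := 0) (hM _ ha c) hb (by omega))
          (D.lie hM k (i := 0) ha (hb.2 c) (by omega))
  | k + 1, i + 1, 0, a, b, ha, hb, h => by
      refine ⟨⟨hM _ ha.mem b, ha.1.2.left hb⟩, fun c => ?_⟩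
      rw [jac]
      exact D.add (D.lie hM k (j := 0) (ha.2 c) hb (by omega))
        (D.lie hM k (j := 0) ha (hM _ hb c) (by omega))
  | k + 1, i + 1, j + 1, a, b, ha, hb, h => by
      refine ⟨⟨hM _ ha.mem b, ha.1.2.left hb.mem⟩, fun c => ?_⟩
      rw [jac]
      exact D.add (D.lie hM k (ha.2 c) hb (by omega)) (D.lie hM k ha (hb.2 c) (by omega))

theorem D.toG {v : L} : ∀ {k : ℕ} {y : L}, D M v k y → G v k y
  | 0, _, _ => trivial
  | _ + 1, _, h => ⟨h.1.2 [] (by simp), fun a => D.toG (h.2 a)⟩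

theorem D.br (hM : ∀ y ∈ M, ∀ a : L, ⁅y, a⁆ ∈ M) {v : L} (l : List L) (hl : ∀ c ∈ l, D M v 1 c) :
    ∀ {i : ℕ} {y : L}, D M v i y → D M v (i + l.length) (br y l) := by
  induction l with
  | nil => intro _ _ h; exact h
  | cons c l ih =>
    intro i y h
    have := ih (fun a ha => hl a (List.mem_cons_of_mem _ ha))
      (D.lie hM (i + 1) h (hl c List.mem_cons_self) le_rfl)
    rwa [add_assoc, add_comm 1] at this

theorem J.br (hM : ∀ y ∈ M, ∀ a : L, ⁅y, a⁆ ∈ M) {c : L} (hc : J M c c) (l : List L)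
    (hl : ∀ a ∈ l, a ∈ M) : ∀ {y : L}, y ∈ M → (J M c y ∨ c ∈ l) → J M c (br y l) := by
  induction l with
  | nil => intro y _ h; exact h.resolve_right (by simp)
  | cons a l ih =>
    intro y hy h
    refine ih (fun b hb => hl b (List.mem_cons_of_mem _ hb)) (hM _ hy a) ?_
    rcases h with h | h
    · exact .inl (h.right (hl a List.mem_cons_self))
    · rcases List.mem_cons.1 h with e | e
      · left; intro w hw
        change ⁅_, ⁅y, a⁆⁆ = 0
        rw [← e, ← lie_skew y c, lie_neg, hc.right hy w hw, neg_zero]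
      · exact .inr e

theorem inf_of_fit {n : ℕ} (red : ∀ z y : L, G z n y → G z (n + 1) y)
    (hM : ∀ y ∈ M, ∀ a : L, ⁅y, a⁆ ∈ M) {T : Set L} (h1 : ∀ t ∈ T, t ∈ M ∧ J M t t)
    (h2 : ∀ t ∈ T, ∀ a : L, ⁅t, a⁆ ∈ AddSubgroup.closure T) {c : L} (hc : c ∈ T) (c0 : c ≠ 0) :
    ∃ z : L, z ≠ 0 ∧ ∀ w : List L, ⁅br z w, z⁆ = 0 := by
  by_contra q
  have key : ∀ k, ∃ l : List L, l.length = k ∧ (∀ a ∈ l, a ∈ T) ∧ br c l ≠ 0 := by
    intro k
    induction k with
    | zero => exact ⟨[], rfl, by simp, c0⟩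
    | succ k ih =>
      obtain ⟨l, a1, a2, a3⟩ := ih
      by_contra q'
      refine q ⟨_, a3, fun w => closure_comm (T := T) (fun t ht => ?_)
        (closure_br h2 w (closure_br h2 l (AddSubgroup.subset_closure hc)))⟩
      by_contra ne
      refine q' ⟨l ++ [t], by simp [a1], fun a ha => ?_, fun e => ne ?_⟩
      · rcases List.mem_append.1 ha with e | e
        exacts [a2 a e, List.mem_singleton.1 e ▸ ht]
      · rw [br, List.foldl_append] at e
        rw [← lie_skew]; exact neg_eq_zero.2 e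
  obtain ⟨l, a1, a2, a3⟩ := key n
  have lM : ∀ a ∈ l, a ∈ M := fun a ha => (h1 a (a2 a ha)).1
  have := D.br hM (v := br c l) l (fun a ha => ⟨⟨lM a ha,
    J.br hM (h1 a (a2 a ha)).2 l lM (h1 c hc).1 (.inr ha)⟩, fun b => hM _ (lM a ha) b⟩)
    (i := 0) (h1 c hc).1
  rw [zero_add, a1] at this
  exact q ⟨_, a3, fun w => G_br w (inf_of_red red _ this.toG)⟩

end Fit

theorem br_map {L' : Type*} [LieRing L'] (φ : L → L') (hφ : ∀ a b, φ ⁅a, b⁆ = ⁅φ a, φ b⁆)
    (w : List L) (x : L) : φ (br x w) = br (φ x) (w.map φ) := by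
  induction w generalizing x with
  | nil => rfl
  | cons a w ih => simp only [br, List.foldl_cons, List.map_cons, ← hφ]; exact ih _

/-- An Engel Lie ring with enough automorphisms and a nonzero sandwich has a nonzero element
which generates an abelian ideal. -/
theorem exists_abelian {n : ℕ} (E : Engel L n) (tf : ∀ x : L, n.factorial • x = 0 → x = 0)
    (inv : Inv L) {c : L} (hc : Sw c) (c0 : c ≠ 0) :
    ∃ z : L, z ≠ 0 ∧ ∀ w : List L, ⁅br z w, z⁆ = 0 := by
  let M := AddSubgroup.closure {s : L | Sw s}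
  have hM : ∀ y ∈ M, ∀ a : L, ⁅y, a⁆ ∈ M := fun y hy a =>
    closure_lie (inv {s : L | Sw s} fun φ hφ t ht => Sw.map φ hφ ht) hy a
  let K : LieSubalgebra ℤ L := { M.toIntSubmodule with lie_mem' := fun ha _ => hM _ ha _ }
  have hK : ∀ a b : K, ((⁅a, b⁆ : K) : L) = ⁅(a : L), (b : L)⁆ := fun _ _ => rfl
  have sw : ∀ s : K, Sw (s : L) → Sw s := fun s hs =>
    ⟨fun x => Subtype.ext (hs.1 x), fun x y => Subtype.ext (hs.2 x y)⟩
  have EK : Engel K n := fun a x => Subtype.ext (by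
    have := E (fun i => a i) x
    rw [ZeroMemClass.coe_zero, ← this, AddSubmonoidClass.coe_finsetSum]
    refine Finset.sum_congr rfl fun σ _ => ?_
    rw [br_map _ hK, List.map_ofFn]; rfl)
  have span : ∀ x : K, x ∈ AddSubgroup.closure {s : K | Sw s} := by
    rintro ⟨x, hx⟩
    induction hx using AddSubgroup.closure_induction with
    | mem x hx => exact AddSubgroup.subset_closure (sw _ hx)
    | zero => exact zero_mem _
    | add x y _ _ a b => exact add_mem a b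
    | neg x _ a => exact neg_mem a
  obtain ⟨z, z0, hz⟩ := inf_of_span (L := K) (fun _ _ h => EK.red (fun x e => Subtype.ext
    (tf _ (by simpa using congrArg Subtype.val e))) h) span
    (sw ⟨c, AddSubgroup.subset_closure hc⟩ hc) fun e => c0 (congrArg Subtype.val e)
  have Mφ : ∀ φ : L ≃+ L, (∀ a b, φ ⁅a, b⁆ = ⁅φ a, φ b⁆) → ∀ y ∈ M, φ y ∈ M := fun φ hφ y hy =>
    (AddSubgroup.closure_le (K := M.comap φ.toAddMonoidHom)).2
      (fun t ht => AddSubgroup.subset_closure (Sw.map φ hφ ht)) hy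
  refine inf_of_fit (fun _ _ h => E.red tf h) hM (T := {t | t ∈ M ∧ J M t t}) (fun _ h => h)
    (inv _ fun φ hφ t ht => ⟨Mφ φ hφ t ht.1, fun w hw => ?_⟩) (c := z) ⟨z.2, fun w hw => ?_⟩
    fun e => z0 (Subtype.ext e)
  · have hs : ∀ a b, φ.symm ⁅a, b⁆ = ⁅φ.symm a, φ.symm b⁆ := fun a b => φ.injective (by
      rw [hφ]; simp)
    have := ht.2 (w.map φ.symm) fun a ha => by
      obtain ⟨b, hb, rfl⟩ := List.mem_map.1 ha
      exact Mφ _ hs b (hw b hb)
    have := congrArg φ this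
    rwa [hφ, br_map _ hφ, List.map_map, φ.self_comp_symm, List.map_id, map_zero] at this
  · lift w to List K using hw
    have := congrArg Subtype.val (hz w)
    rwa [hK, br_map _ hK] at this

theorem abelian_of_inf {z : L} (h : ∀ w : List L, ⁅br z w, z⁆ = 0) (w w' : List L) :
    ⁅br z w, br z w'⁆ = 0 := by
  induction w' using List.reverseRecOn generalizing w with
  | nil => exact h w
  | append_singleton l a ih =>
    have := ih (w ++ [a])
    simp only [br, List.foldl_append, List.foldl_cons, List.foldl_nil] at this ⊢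
    rw [lie_eq, this, ih w, zero_lie, sub_zero]

end Pool.Agent.P.MP_1307d3_al.Thick
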