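import Mathlib

/-! Products of `p - 1` augmentation elements of a commuting family vanish. -/

namespace Pool.Agent.P.MP_1307d3_al.End

open Polynomial

/-- Polarisation by iterated differences. -/
theorem polar {T : Type*} [CommRing T] (L : AddSubmonoid T) :
    ∀ (n : ℕ) (f : T[X]), f.natDegree ≤ n → (∀ y ∈ L, f.eval y = 0) →
      ∀ xs : List T, xs.length = n → (∀ x ∈ xs, x ∈ L) →
        (n.factorial : T) * xs.prod * f.coeff n = 0 := by
  intro n
  induction n with
  | zero =>
    intro f _ h xs hx _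
    have h0 := h 0 L.zero_mem
    rw [← coeff_zero_eq_eval_zero] at h0
    simp [h0]
  | succ n ih =>
    intro f hf h xs hx hL
    obtain _ | ⟨x, xs⟩ := xs
    · simp at hx
    have hxL : x ∈ L := hL x (by simp)
    have hco : ∀ k, n ≤ k → (taylor x f - f).coeff k = (k + 1 : ℕ) * f.coeff (k + 1) * x := by
      intro k hk
      have hd : (hasseDeriv k f).natDegree < 2 := by
        have := natDegree_hasseDeriv_le f k
        omega
      rw [coeff_sub, taylor_coeff, eval_eq_sum_range' hd]
      simp [Finset.sum_range_succ, hasseDeriv_coeff, add_comm 1 k]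
    have hdeg : (taylor x f - f).natDegree ≤ n := by
      rw [natDegree_le_iff_coeff_eq_zero]
      intro k hk
      rw [hco k hk.le, coeff_eq_zero_of_natDegree_lt (by omega)]
      simp
    have := ih (taylor x f - f) hdeg (fun y hy => by
      rw [eval_sub, taylor_eval, h _ (L.add_mem hy hxL), h y hy, sub_zero]) xs
      (by simpa using hx) (fun y hy => hL y (by simp [hy]))
    rw [hco n le_rfl] at this
    rw [Nat.factorial_succ, List.prod_cons]
    push_cast at this ⊢
    linear_combination this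

theorem unit_fact {T : Type*} [CommRing T] {p : ℕ} (hp : p.Prime) (h0 : (p : T) = 0) :
    ∃ c : T, c * ((p - 1).factorial : T) = 1 := by
  have hc : Nat.Coprime (p - 1).factorial p :=
    (Nat.Coprime.symm ((Nat.Prime.coprime_iff_not_dvd hp).2 (by
      rw [hp.dvd_factorial]; have := hp.pos; omega)))
  obtain ⟨a, b, hab⟩ := (Nat.isCoprime_iff_coprime.2 hc : IsCoprime ((p - 1).factorial : ℤ) p)
  refine ⟨(a : T), ?_⟩
  have := congrArg (Int.cast : ℤ → T) hab
  push_cast at this
  rw [h0] at this
  simpa using this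

/-- Commutative version. -/
theorem omega_comm {T : Type*} [CommRing T] {p : ℕ} (hp : p.Prime) (h0 : (p : T) = 0)
    (U : Submonoid T) (hU : ∀ t ∈ U, (t - 1) ^ (p - 1) = 0) (ts : List T)
    (hl : ts.length = p - 1) (hts : ∀ t ∈ ts, t ∈ U) : (ts.map (· - 1)).prod = 0 := by
  classical
  set m := p - 1 with hm
  have hm1 : 1 ≤ m := by have := hp.two_le; omega
  set s : Set T := {x | ∃ t ∈ ts, x = t - 1} with hs
  set I : Ideal T := Ideal.span s with hI
  have hsf : s.Finite := by
    refine ((ts.finite_toSet).image (· - 1)).subset ?_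
    rintro x ⟨t, ht, rfl⟩
    exact ⟨t, ht, rfl⟩
  -- products of `m` generators lie in `I ^ (m + 1)`
  have key : ∀ xs : List T, xs.length = m → (∀ x ∈ xs, x ∈ s) → xs.prod ∈ I ^ (m + 1) := by
    intro xs hx hxs
    let q := Ideal.Quotient.mk (I ^ (m + 1))
    let L : AddSubmonoid T :=
      { carrier := {y | y ∈ I ∧ ∃ t ∈ U, t - 1 ∈ I ∧ y - (t - 1) ∈ I ^ 2}
        zero_mem' := ⟨I.zero_mem, 1, U.one_mem, by simp, by simp⟩
        add_mem' := by
          rintro a b ⟨ha, t, ht, ht1, ht2⟩ ⟨hb, u, hu, hu1, hu2⟩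
          refine ⟨I.add_mem ha hb, t * u, U.mul_mem ht hu, ?_, ?_⟩
          · have : t * u - 1 = (t - 1) * u + (u - 1) := by ring
            rw [this]
            exact I.add_mem (I.mul_mem_right _ ht1) hu1
          · have : a + b - (t * u - 1) = (a - (t - 1)) + (b - (u - 1)) - (t - 1) * (u - 1) := by
              ring
            rw [this]
            refine Ideal.sub_mem _ (Ideal.add_mem _ ht2 hu2) ?_
            rw [pow_two]
            exact Ideal.mul_mem_mul ht1 hu1 }
    have hL : ∀ y ∈ L.map q.toAddMonoidHom, (X ^ m : (T ⧸ I ^ (m + 1))[X]).eval y = 0 := by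
      rintro _ ⟨y, ⟨hy, t, ht, ht1, ht2⟩, rfl⟩
      simp only [eval_pow, eval_X, RingHom.toAddMonoidHom_eq_coe, AddMonoidHom.coe_coe]
      rw [← map_pow, Ideal.Quotient.eq_zero_iff_mem]
      have e : y ^ m = (∑ i ∈ Finset.range m, y ^ i * (t - 1) ^ (m - 1 - i)) * (y - (t - 1)) := by
        rw [(Commute.all y (t - 1)).geom_sum₂_mul, hU t ht, sub_zero]
      rw [e]
      have e2 : I ^ (m + 1) = I ^ (m - 1) * I ^ 2 := by
        rw [← pow_add]; congr 1; omega
      rw [e2]
      refine Ideal.mul_mem_mul (Ideal.sum_mem _ fun i hi => ?_) ht2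
      have hi' := Finset.mem_range.1 hi
      have e3 : I ^ (m - 1) = I ^ i * I ^ (m - 1 - i) := by
        rw [← pow_add]; congr 1; omega
      rw [e3]
      exact Ideal.mul_mem_mul (Ideal.pow_mem_pow hy _) (Ideal.pow_mem_pow ht1 _)
    have h1 := polar (L.map q.toAddMonoidHom) m (X ^ m) (natDegree_X_pow_le m) hL (xs.map q)
      (by simpa using hx) (by
        intro x hx'
        obtain ⟨y, hy, rfl⟩ := List.mem_map.1 hx'
        obtain ⟨t, ht, rfl⟩ := hxs y hy
        have : t - 1 ∈ I := Ideal.subset_span ⟨t, ht, rfl⟩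
        exact ⟨t - 1, ⟨this, t, hts t ht, this, by simp⟩, rfl⟩)
    obtain ⟨c, hc⟩ := unit_fact hp h0
    rw [← Ideal.Quotient.eq_zero_iff_mem, map_list_prod]
    have hc' := congrArg q hc
    rw [map_mul, map_natCast, map_one] at hc'
    simp only [coeff_X_pow, if_true, mul_one] at h1
    calc (xs.map q).prod = q c * (((p - 1).factorial : T ⧸ I ^ (m + 1)) * (xs.map q).prod) := by
          rw [← mul_assoc, hc', one_mul]
      _ = 0 := by rw [← hm, h1, mul_zero]
  have hle : I ^ m ≤ I ^ (m + 1) := by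
    conv_lhs => rw [hI, Ideal.span, Submodule.span_pow]
    refine Submodule.span_le.2 fun a ha => ?_
    obtain ⟨f, rfl⟩ := Set.mem_pow.1 ha
    refine key _ (by simp) fun x hx => ?_
    obtain ⟨i, rfl⟩ := List.mem_ofFn.1 hx
    exact (f i).2
  have hnil : IsNilpotent I := by
    rw [Ideal.FG.isNilpotent_iff_le_nilradical (Submodule.fg_span hsf)]
    refine Ideal.span_le.2 ?_
    rintro x ⟨t, ht, rfl⟩
    exact ⟨m, hU t (hts t ht)⟩
  obtain ⟨N, hN⟩ := hnil
  have hall : ∀ k, I ^ m ≤ I ^ (m + k) := by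
    intro k
    induction k with
    | zero => simp
    | succ k ih =>
      refine hle.trans ?_
      rw [pow_succ, ← add_assoc, pow_succ]
      exact Ideal.mul_mono_left ih
  have hz : I ^ m ≤ ⊥ := by
    refine (hall N).trans ?_
    rw [pow_add, hN]
    simp
  have hmem : ∀ l : List T, (∀ t ∈ l, t ∈ ts) → (l.map (· - 1)).prod ∈ I ^ l.length := by
    intro l
    induction l with
    | nil => simp
    | cons t l ih =>
      intro h
      rw [List.map_cons, List.prod_cons, List.length_cons, pow_succ']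
      exact Ideal.mul_mem_mul (Ideal.subset_span ⟨t, h t (by simp), rfl⟩)
        (ih fun u hu => h u (by simp [hu]))
  have := hmem ts fun _ h => h
  rw [hl] at this
  simpa using hz this

/-- Version for a commuting submonoid of an arbitrary ring. -/
theorem omega_ring {R : Type*} [Ring R] {p : ℕ} (hp : p.Prime) (h0 : (p : R) = 0)
    (U : Submonoid R) (hc : ∀ a ∈ U, ∀ b ∈ U, a * b = b * a)
    (hU : ∀ t ∈ U, (t - 1) ^ (p - 1) = 0) (ts : List R)
    (hl : ts.length = p - 1) (hts : ∀ t ∈ ts, t ∈ U) : (ts.map (· - 1)).prod = 0 := by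
  let S := Subring.closure (U : Set R)
  have : IsMulCommutative S := Subring.isMulCommutative_closure hc
  let : CommRing S := { (inferInstance : Ring S) with mul_comm := fun a b => mul_comm' a b }
  let ts' : List S := ts.attach.map fun t => ⟨t.1, Subring.subset_closure (hts t.1 t.2)⟩
  have h := omega_comm (T := S) hp (Subtype.ext (by simpa using h0))
    (U.comap S.subtype.toMonoidHom) (fun t ht => Subtype.ext (by simpa using hU t.1 ht)) ts'
    (by simpa [ts'] using hl) (by
      intro t ht
      obtain ⟨u, -, rfl⟩ := List.mem_map.1 ht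
      exact hts u.1 u.2)
  have h2 := congrArg S.subtype h
  rw [map_list_prod, map_zero] at h2
  have e : (ts'.map (· - 1)).map S.subtype = ts.map (· - 1) := by
    simp only [ts', List.map_map]
    conv_rhs => rw [← List.attach_map_subtype_val ts, List.map_map]
    rfl
  rw [← e]
  exact h2

/-- `(x - 1) ^ (p - 1) = 1 + x + ... + x ^ (p - 1)` when `p = 0`. -/
theorem sub_one_pow {R : Type*} [Ring R] {p : ℕ} (hp : p.Prime) (h0 : (p : R) = 0) (x : R) :
    (x - 1) ^ (p - 1) = ∑ i ∈ Finset.range p, x ^ i := by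
  have := Fact.mk hp
  have h1 : ((X - 1) ^ (p - 1) - ∑ i ∈ Finset.range p, X ^ i : (ZMod p)[X]) = 0 := by
    have hne : (X - 1 : (ZMod p)[X]) ≠ 0 := by simpa using X_sub_C_ne_zero (1 : ZMod p)
    apply mul_right_cancel₀ hne
    rw [sub_mul, geom_sum_mul, ← pow_succ, Nat.sub_add_cancel hp.one_le, sub_pow_char]
    simp
  have h2 : C (p : ℤ) ∣ ((X - 1) ^ (p - 1) - ∑ i ∈ Finset.range p, X ^ i : ℤ[X]) := by
    rw [C_dvd_iff_dvd_coeff]
    intro i
    rw [← ZMod.intCast_zmod_eq_zero_iff_dvd]
    have := congrArg (fun f => coeff f i) h1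
    rw [← eq_intCast (Int.castRingHom (ZMod p)), ← coeff_map]
    simpa [Polynomial.map_sum] using this
  obtain ⟨g, hg⟩ := h2
  have := congrArg (aeval x) hg
  simp only [map_sub, map_pow, aeval_X, map_one, map_sum, map_mul, map_natCast, h0,
    zero_mul] at this
  exact sub_eq_zero.1 this

end Pool.Agent.P.MP_1307d3_al.End
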