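import Mathlib
import Pool.Agent.P.MP_1307d3_al.Omega

/-! The end game: restricted Burnside and abelian normal subgroups exclude an abelian
conjugate cover. -/

namespace Pool.Agent.P.MP_1307d3_al.End

open scoped commutatorElement

/-- `nest [a₁, …, a_r] k = ⁅⋯⁅⁅k, a_r⁆, a_{r-1}⁆⋯, a₁⁆`. -/
def nest {Q : Type*} [Group Q] : List Q → Q → Q
  | [], k => k
  | a :: l, k => ⁅nest l k, a⁆

section nest
variable {Q Q' : Type*} [Group Q] [Group Q']

theorem nest_append (l l' : List Q) (k : Q) : nest (l ++ l') k = nest l (nest l' k) := by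
  induction l with
  | nil => rfl
  | cons a l ih => simp only [List.cons_append, nest, ih]

theorem map_nest (f : Q →* Q') (l : List Q) (k : Q) : f (nest l k) = nest (l.map f) (f k) := by
  induction l with
  | nil => rfl
  | cons a l ih => simp only [List.map_cons, nest, map_commutatorElement, ih]

theorem nest_one (l : List Q) : nest l 1 = 1 := by
  induction l with
  | nil => rfl
  | cons a l ih => simp only [nest, ih, commutatorElement_one_left]

/-- On an abelian normal subgroup of a group of exponent `p`, `p - 1` commuting elements kill. -/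
theorem nest_abelian {p : ℕ} (hp : p.Prime) (hQ : ∀ g : Q, g ^ p = 1) (V : Subgroup Q)
    [V.Normal] (hV : ∀ a ∈ V, ∀ b ∈ V, a * b = b * a) (ds : List Q) (hl : ds.length = p - 1)
    (hc : ∀ a ∈ ds, ∀ b ∈ ds, a * b = b * a) {v : Q} (hv : v ∈ V) : nest ds v = 1 := by
  let _ : CommGroup V :=
    { (inferInstance : Group V) with mul_comm := fun a b => Subtype.ext (hV a a.2 b b.2) }
  let φ : Q →* Module.End ℤ (Additive V) :=
    { toFun := fun g =>
        (MonoidHom.toAdditive (MulAut.conjNormal (H := V) g).toMonoidHom).toIntLinearMap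
      map_one' := by ext x; simp
      map_mul' := fun g h => by ext x; simp }
  have hφ : ∀ g (x : V), ((Additive.toMul (φ g (Additive.ofMul x)) : V) : Q) = g * x * g⁻¹ :=
    fun g x => rfl
  have h0 : (p : Module.End ℤ (Additive V)) = 0 := by
    ext x
    have : (Additive.toMul x) ^ p = 1 := Subtype.ext (by simpa using hQ (Additive.toMul x : V))
    simp only [Module.End.natCast_apply, LinearMap.zero_apply, toMul_zero, toMul_nsmul, this]
  have hsum : ∀ (g : Q) (x : V) (n : ℕ),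
      ((Additive.toMul ((∑ i ∈ Finset.range n, φ g ^ i) (Additive.ofMul x)) : V) : Q) * g ^ n =
        ((x : Q) * g) ^ n := by
    intro g x n
    induction n with
    | zero => simp
    | succ n ih =>
      rw [Finset.sum_range_succ, LinearMap.add_apply, toMul_add, Subgroup.coe_mul, ← map_pow, hφ,
        pow_succ ((x : Q) * g), ← ih]
      group
  have hU : ∀ g : Q, (φ g - 1) ^ (p - 1) = 0 := by
    intro g
    rw [sub_one_pow hp h0]
    ext x
    have := hsum g (Additive.toMul x) p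
    rw [hQ, hQ, mul_one] at this
    simpa using this
  have hz := omega_ring hp h0 ((Submonoid.closure {a | a ∈ ds}).map φ) (by
      rintro _ ⟨a, ha, rfl⟩ _ ⟨b, hb, rfl⟩
      have := Submonoid.isMulCommutative_closure Q (s := {a | a ∈ ds}) hc
      rw [← map_mul, ← map_mul, setLike_mul_comm ha hb]) (by
      rintro _ ⟨a, -, rfl⟩
      exact hU a) (ds.map φ) (by simpa using hl) (by
      intro t ht
      obtain ⟨a, ha, rfl⟩ := List.mem_map.1 ht
      exact ⟨a, Submonoid.subset_closure ha, rfl⟩)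
  have hn : ∀ l : List Q, nest l v =
      ((Additive.toMul (((((l.map φ).map (· - 1)).map Neg.neg).prod :
        Module.End ℤ (Additive V)) (Additive.ofMul ⟨v, hv⟩)) : V) : Q) := by
    intro l
    induction l with
    | nil => rfl
    | cons a l ih =>
      simp only [List.map_cons, List.prod_cons, Module.End.mul_apply, nest]
      rw [ih]
      generalize ((((l.map φ).map (· - 1)).map Neg.neg).prod : Module.End ℤ (Additive V))
        (Additive.ofMul ⟨v, hv⟩) = x
      rw [neg_sub, LinearMap.sub_apply, toMul_sub, Subgroup.coe_div]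
      have := hφ a (Additive.toMul x)
      rw [ofMul_toMul] at this
      rw [this, commutatorElement_def, div_eq_mul_inv]
      simp [mul_assoc]
  rw [hn, List.prod_map_neg, hz]
  simp

/-- `v` lies in an abelian normal subgroup. -/
def Ab (v : Q) : Prop :=
  ∃ V : Subgroup Q, V.Normal ∧ (∀ a ∈ V, ∀ b ∈ V, a * b = b * a) ∧ v ∈ V

theorem Ab.map {v : Q} (h : Ab v) (f : Q →* Q') (hf : Function.Surjective f) : Ab (f v) := by
  obtain ⟨V, hn, hc, hv⟩ := h
  refine ⟨V.map f, hn.map f hf, ?_, v, hv, rfl⟩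
  rintro _ ⟨a, ha, rfl⟩ _ ⟨b, hb, rfl⟩
  rw [← map_mul, ← map_mul, hc a ha b hb]

end nest

theorem nest_list {p : ℕ} (hp : p.Prime) : ∀ (c : ℕ) (Q : Type) [Group Q],
    (∀ g : Q, g ^ p = 1) → ∀ l : List Q, l.length = c → (∀ v ∈ l, Ab v) → ∀ ds : List Q,
      c * (p - 1) ≤ ds.length → (∀ a ∈ ds, ∀ b ∈ ds, a * b = b * a) → nest ds l.prod = 1 := by
  intro c
  induction c with
  | zero =>
    intro Q _ _ l hl _ ds _ _
    rw [List.length_eq_zero_iff.1 hl, List.prod_nil, nest_one]
  | succ c ih =>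
    intro Q _ hQ l hl hA ds hd hc
    obtain _ | ⟨v, l⟩ := l
    · simp at hl
    obtain ⟨V, hn, hV, hv⟩ := hA v (by simp)
    have h1 := ih (Q ⧸ V) (fun g => by
        obtain ⟨g, rfl⟩ := QuotientGroup.mk'_surjective V g
        rw [← map_pow, hQ, map_one]) (l.map (QuotientGroup.mk' V)) (by simpa using hl) (by
        intro x hx
        obtain ⟨y, hy, rfl⟩ := List.mem_map.1 hx
        exact (hA y (by simp [hy])).map _ (QuotientGroup.mk'_surjective V))
      ((ds.drop (p - 1)).map (QuotientGroup.mk' V)) (by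
        rw [List.length_map, List.length_drop]
        rw [add_mul, one_mul] at hd
        omega) (by
        intro x hx' y hy'
        obtain ⟨x, hx, rfl⟩ := List.mem_map.1 hx'
        obtain ⟨y, hy, rfl⟩ := List.mem_map.1 hy'
        rw [← map_mul, ← map_mul, hc x (List.mem_of_mem_drop hx) y (List.mem_of_mem_drop hy)])
    have h2 : nest (ds.drop (p - 1)) (v :: l).prod ∈ V := by
      rw [← QuotientGroup.eq_one_iff, ← QuotientGroup.mk'_apply, map_nest, List.prod_cons, map_mul,
        map_list_prod, QuotientGroup.mk'_apply V v, (QuotientGroup.eq_one_iff v).2 hv, one_mul, h1]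
    rw [← List.take_append_drop (p - 1) ds, nest_append]
    refine nest_abelian hp hQ V hV _ ?_ (fun a ha b hb =>
      hc a (List.mem_of_mem_take ha) b (List.mem_of_mem_take hb)) h2
    rw [List.length_take]
    rw [add_mul, one_mul] at hd
    omega

theorem nest_mem {p : ℕ} (hp : p.Prime) {Q : Type} [Group Q] (hQ : ∀ g : Q, g ^ p = 1)
    (l : List Q) (hA : ∀ v ∈ l, Ab v) (ds : List Q) (hd : l.length * (p - 1) ≤ ds.length)
    (R : Subgroup Q) [R.Normal] (hR : ∀ a ∈ ds, ∀ b ∈ ds, ⁅a, b⁆ ∈ R) : nest ds l.prod ∈ R := by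
  rw [← QuotientGroup.eq_one_iff, ← QuotientGroup.mk'_apply, map_nest, map_list_prod]
  refine nest_list hp l.length (Q ⧸ R) (fun g => ?_) _ (by simp) ?_ _ (by simpa using hd) ?_
  · obtain ⟨g, rfl⟩ := QuotientGroup.mk'_surjective R g
    rw [← map_pow, hQ, map_one]
  · intro x hx
    obtain ⟨y, hy, rfl⟩ := List.mem_map.1 hx
    exact (hA y hy).map _ (QuotientGroup.mk'_surjective R)
  · intro x hx' y hy'
    obtain ⟨x, hx, rfl⟩ := List.mem_map.1 hx'
    obtain ⟨y, hy, rfl⟩ := List.mem_map.1 hy'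
    rw [← commutatorElement_eq_one_iff_mul_comm, ← map_commutatorElement, QuotientGroup.mk'_apply,
      QuotientGroup.eq_one_iff]
    exact hR x hx y hy

/-- A finitely generated nilpotent group of finite exponent is finite. -/
theorem finite_of_nilpotent {p : ℕ} (hp : 0 < p) (E : Type) [Group E] [Group.IsNilpotent E] :
    Group.FG E → (∀ g : E, g ^ p = 1) → Finite E := by
  refine Group.nilpotent_center_quotient_ind
    (P := fun E _ _ => Group.FG E → (∀ g : E, g ^ p = 1) → Finite E) E ?_ ?_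
  · intro E _ _ _ _
    infer_instance
  · intro E _ _ ih hfg hE
    have h1 : Finite (E ⧸ Subgroup.center E) := ih inferInstance fun g => by
      obtain ⟨g, rfl⟩ := QuotientGroup.mk'_surjective _ g
      rw [← map_pow, hE, map_one]
    have h2 : (Subgroup.center E).FiniteIndex := Subgroup.finiteIndex_of_finite_quotient
    have h3 : Finite (Subgroup.center E) := by
      let _ : CommGroup (Subgroup.center E) :=
        { (inferInstance : Group (Subgroup.center E)) with mul_comm := fun a b => mul_comm' a b }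
      exact CommGroup.finite_of_fg_isMulTorsion _ fun g =>
        isOfFinOrder_iff_pow_eq_one.2 ⟨p, hp, Subtype.ext (hE g)⟩
    exact Finite.of_subgroup_quotient (Subgroup.center E)

section free
variable (G : Type) [Group G]

/-- The relatively free group of the variety of `G` on variables indexed by `ℤ`. -/
def Fr : Subgroup ((ℤ → G) → G) := Subgroup.closure (Set.range fun (j : ℤ) (y : ℤ → G) => y j)

variable {G}

/-- Evaluation. -/
def ev (y : ℤ → G) : Fr G →* G := (Pi.evalMonoidHom (fun _ : ℤ → G => G) y).comp (Fr G).subtype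

theorem ev_apply (y : ℤ → G) (f : Fr G) : ev y f = f.1 y := rfl

theorem shift_mem (t : ℤ) {f : (ℤ → G) → G} (hf : f ∈ Fr G) :
    (fun y : ℤ → G => f fun j => y (j + t)) ∈ Fr G := by
  induction hf using Subgroup.closure_induction with
  | mem x hx =>
    obtain ⟨j, rfl⟩ := hx
    exact Subgroup.subset_closure ⟨j + t, rfl⟩
  | one => exact (Fr G).one_mem
  | mul a b _ _ ha hb => exact (Fr G).mul_mem ha hb
  | inv a _ ha => exact (Fr G).inv_mem ha

/-- Renaming of the variables. -/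
def shift (t : ℤ) : Fr G ≃* Fr G where
  toFun f := ⟨fun y => f.1 fun j => y (j + t), shift_mem t f.2⟩
  invFun f := ⟨fun y => f.1 fun j => y (j + -t), shift_mem (-t) f.2⟩
  left_inv f := Subtype.ext (funext fun y => by simp)
  right_inv f := Subtype.ext (funext fun y => by simp)
  map_mul' _ _ := rfl

theorem ev_shift (t : ℤ) (y : ℤ → G) (f : Fr G) :
    ev y (shift t f) = ev (fun j => y (j + t)) f := rfl

theorem ev_conj (g : G) (y : ℤ → G) (f : Fr G) :
    g * ev y f * g⁻¹ = ev (fun j => g * y j * g⁻¹) f := by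
  obtain ⟨f, hf⟩ := f
  simp only [ev_apply]
  induction hf using Subgroup.closure_induction with
  | mem x hx =>
    obtain ⟨j, rfl⟩ := hx
    rfl
  | one => simp
  | mul a b _ _ ha hb => simp only [Pi.mul_apply, ← ha, ← hb]; group
  | inv a _ ha => simp only [Pi.inv_apply, ← ha]; group

/-- `f` depends only on the variables in `[-m, m]`. -/
def Dep (m : ℕ) (f : Fr G) : Prop :=
  ∀ y y' : ℤ → G, (∀ j : ℤ, |j| ≤ m → y j = y' j) → ev y f = ev y' f

theorem Dep.mono {m n : ℕ} {f : Fr G} (h : Dep m f) (hmn : m ≤ n) : Dep n f :=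
  fun y y' hy => h y y' fun j hj => hy j (hj.trans (by exact_mod_cast hmn))

theorem exists_dep (f : Fr G) : ∃ m, Dep m f := by
  obtain ⟨f, hf⟩ := f
  induction hf using Subgroup.closure_induction with
  | mem x hx =>
    obtain ⟨j, rfl⟩ := hx
    exact ⟨j.natAbs, fun y y' h => h j (by simp)⟩
  | one => exact ⟨0, fun _ _ _ => rfl⟩
  | mul a b _ _ ha hb =>
    obtain ⟨m, hm⟩ := ha
    obtain ⟨n, hn⟩ := hb
    refine ⟨max m n, fun y y' h => ?_⟩
    have h1 := hm.mono (le_max_left m n) y y' h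
    have h2 := hn.mono (le_max_right m n) y y' h
    simp only [ev_apply] at h1 h2 ⊢
    rw [Pi.mul_apply, Pi.mul_apply, h1, h2]
  | inv a _ ha =>
    obtain ⟨m, hm⟩ := ha
    refine ⟨m, fun y y' h => ?_⟩
    have h1 := hm y y' h
    simp only [ev_apply] at h1 ⊢
    rw [Pi.inv_apply, Pi.inv_apply, h1]

theorem exists_glue (m : ℕ) (Y : ℤ → ℤ → G) :
    ∃ y : ℤ → G, ∀ (i : ℤ) (f : Fr G), Dep m f → ev y (shift ((2 * m + 1) * i) f) = ev (Y i) f := by
  refine ⟨fun j => Y ((j + m) / (2 * m + 1)) (j - (2 * m + 1) * ((j + m) / (2 * m + 1))),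
    fun i f hf => ?_⟩
  rw [ev_shift]
  refine hf _ _ fun j hj => ?_
  have hj' := abs_le.1 hj
  have e : (j + (2 * m + 1) * i + m) / (2 * m + 1 : ℤ) = i := by
    have : j + (2 * m + 1) * i + m = (j + m) + (2 * m + 1) * i := by ring
    rw [this, Int.add_mul_ediv_left _ _ (by omega), Int.ediv_eq_zero_of_lt (by omega) (by omega),
      zero_add]
  simp only [e, add_sub_cancel_right]

end free

/-- Every finite subset generates a finite subgroup. -/
def LocFin (G : Type) [Group G] : Prop :=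
  ∀ s : Set G, s.Finite → (Subgroup.closure s : Set G).Finite

/-- Restricted Burnside for exponent `p`, in the form of a bound for the class. -/
def RBP (p : ℕ) : Prop :=
  ∀ d : ℕ, ∃ c : ℕ, ∀ (H : Type) [Group H] [Finite H], (∀ g : H, g ^ p = 1) → ∀ x : Fin d → H,
    Subgroup.closure (Set.range x) = ⊤ → (⊤ : Subgroup H).lowerCentralSeries c = ⊥

/-- Some characteristic subgroup has a nontrivial abelian normal subgroup. -/
def T3 (p : ℕ) : Prop :=
  ∀ (G : Type) [Group G] [Nontrivial G], LocFin G → (∀ g : G, g ^ p = 1) →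
    ∃ N V : Subgroup G, N.Characteristic ∧ V ≤ N ∧ V ≠ ⊥ ∧ (∀ a ∈ V, ∀ b ∈ V, a * b = b * a) ∧
      ∀ n ∈ N, ∀ a ∈ V, n * a * n⁻¹ ∈ V

theorem LocFin.map {G G' : Type} [Group G] [Group G'] (h : LocFin G) (f : G →* G')
    (hf : Function.Surjective f) : LocFin G' := by
  intro s hs
  obtain ⟨g, hg⟩ := hf.hasRightInverse
  have e : s = f '' (g '' s) := by
    rw [Set.image_image]
    simp [hg.eq]
  rw [e, ← MonoidHom.map_closure, Subgroup.coe_map]
  exact (h _ (hs.image g)).image f

theorem locFin_Fr {p : ℕ} (hp : 0 < p) (hR : RBP p) {G : Type} [Group G] (hG : LocFin G)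
    (hE : ∀ g : G, g ^ p = 1) : LocFin (Fr G) := by
  intro s hs
  obtain ⟨d, x, -, rfl⟩ := hs.fin_param
  obtain ⟨c, hc⟩ := hR d
  have h1 : (Subgroup.closure (Set.range x)).lowerCentralSeries c = ⊥ := by
    rw [eq_bot_iff]
    intro f hf
    rw [Subgroup.mem_bot]
    refine Subtype.ext (funext fun y => ?_)
    have hfin : Finite (Subgroup.closure (Set.range fun i => ev y (x i))) :=
      (hG _ (Set.finite_range _)).to_subtype
    have h2 := hc (Subgroup.closure (Set.range fun i => ev y (x i)))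
      (fun g => Subtype.ext (hE g)) (fun i => ⟨ev y (x i), Subgroup.subset_closure ⟨i, rfl⟩⟩) (by
        rw [eq_top_iff, ← Subgroup.closure_closure_coe_preimage]
        refine Subgroup.closure_mono ?_
        rintro ⟨_, _⟩ ⟨i, rfl⟩
        exact ⟨i, rfl⟩)
    have h3 := congrArg (Subgroup.map (Subgroup.subtype _)) h2
    rw [Subgroup.top_subtype_lowerCentralSeries, Subgroup.map_bot] at h3
    have h4 : ev y f ∈ ((Subgroup.closure (Set.range x)).lowerCentralSeries c).map (ev y) :=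
      ⟨f, hf, rfl⟩
    rw [Subgroup.map_lowerCentralSeries, MonoidHom.map_closure, ← Set.range_comp] at h4
    exact Subgroup.mem_bot.1 (h3 ▸ h4)
  have h2 : Group.IsNilpotent (Subgroup.closure (Set.range x)) :=
    (Subgroup.isNilpotent_iff_lowerCentralSeries _).2 ⟨c, h1⟩
  have h3 : Finite (Subgroup.closure (Set.range x)) :=
    finite_of_nilpotent hp _ (Group.closure_finite_fg _)
      fun g => Subtype.ext (Subtype.ext (funext fun y => hE _))
  exact Set.toFinite _

/-- The chain of commutators coming from the conjugate cover. -/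
theorem chain {G : Type} [Group G] (A : Subgroup G) (hA : ∀ a ∈ A, ∀ b ∈ A, a * b = b * a)
    (hcov : ∀ x : G, ∃ g : G, ∃ a ∈ A, x = g⁻¹ * a * g) (S : Set G)
    (hS : ∀ g, ∀ s ∈ S, g * s * g⁻¹ ∈ S) (hP : ∀ g : G, ∃ s ∈ S, ∃ a ∈ A, g = s * a) :
    ∀ r : ℕ, ∀ h ∈ S, ∃ d : Fin r → G, (∀ i, d i ∈ A ∧ d i ∈ S) ∧ ∃ k ∈ S, ∃ a ∈ A,
      h = nest (List.ofFn d) k * a := by
  intro r
  induction r with
  | zero => exact fun h hh => ⟨Fin.elim0, fun i => i.elim0, h, hh, 1, A.one_mem, by simp [nest]⟩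
  | succ r ih =>
    intro h hh
    obtain ⟨g, a, ha, e⟩ := hcov h
    obtain ⟨k, hk, b, hb, e2⟩ := hP g⁻¹
    have e3 : h = k * a * k⁻¹ := by
      have : g = b⁻¹ * k⁻¹ := by rw [← mul_inv_rev, ← e2, inv_inv]
      rw [e, e2, this, mul_assoc k, ← hA a ha b hb]
      group
    obtain ⟨d, hd, k', hk', a', ha', e4⟩ := ih k hk
    refine ⟨Fin.cons a d, fun i => ?_, k', hk', a, ha, ?_⟩
    · refine Fin.cases ⟨ha, ?_⟩ (fun i => hd i) i
      have := hS k⁻¹ h hh
      rw [e3] at this
      simpa [mul_assoc] using this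
    · rw [List.ofFn_succ]
      simp only [Fin.cons_zero, Fin.cons_succ, nest]
      rw [e3, e4, commutatorElement_def, mul_assoc _ a' a, ← hA a ha a' ha']
      group

theorem endgame {p : ℕ} (hp : p.Prime) (hR : RBP p) (hT : T3 p) {G : Type} [Group G]
    (hG : LocFin G) (hE : ∀ g : G, g ^ p = 1) (A : Subgroup G)
    (hA : ∀ a ∈ A, ∀ b ∈ A, a * b = b * a)
    (hcov : ∀ x : G, ∃ g : G, ∃ a ∈ A, x = g⁻¹ * a * g) : A = ⊤ := by
  classical
  by_contra hne
  let P : Set (Fr G) → Prop := fun W => ∀ g : G, ∃ w ∈ W, ∃ y, ∃ a ∈ A, g = ev y w * a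
  let C : Set (Subgroup (Fr G)) :=
    {B | B.Characteristic ∧ ∀ W : Set (Fr G), W.Finite → W ⊆ B → ¬ P W}
  have hbot : (⊥ : Subgroup (Fr G)) ∈ C := by
    refine ⟨inferInstance, fun W _ hW hP => hne ?_⟩
    rw [eq_top_iff]
    intro g _
    obtain ⟨w, hw, y, a, ha, rfl⟩ := hP g
    rw [Subgroup.mem_bot.1 (hW hw), map_one, one_mul]
    exact ha
  obtain ⟨B, -, hBmax⟩ := zorn_le_nonempty₀ C (fun c hc hch y hy => by
    have hdir : DirectedOn (· ≤ ·) c := hch.directedOn
    refine ⟨sSup c, ⟨?_, fun W hW hWs => ?_⟩, fun z hz => le_sSup hz⟩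
    · rw [Subgroup.characteristic_iff_map_le]
      rintro φ _ ⟨x, hx, rfl⟩
      obtain ⟨K, hK, hx⟩ := (Subgroup.mem_sSup_of_directedOn ⟨y, hy⟩ hdir).1 hx
      exact le_sSup hK (Subgroup.characteristic_iff_map_le.1 (hc hK).1 φ ⟨x, hx, rfl⟩)
    · have : ∃ K ∈ c, W ⊆ K := by
        induction W, hW using Set.Finite.induction_on with
        | empty => exact ⟨y, hy, Set.empty_subset _⟩
        | @insert w W _ _ ih =>
          obtain ⟨K, hK, hWK⟩ := ih fun _ h => hWs (Set.mem_insert_of_mem _ h)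
          obtain ⟨K', hK', hw⟩ := (Subgroup.mem_sSup_of_directedOn ⟨y, hy⟩ hdir).1
            (hWs (Set.mem_insert _ _))
          obtain ⟨K'', hK'', h1, h2⟩ := hdir K hK K' hK'
          exact ⟨K'', hK'', Set.insert_subset (h2 hw) fun _ h => h1 (hWK h)⟩
      obtain ⟨K, hK, hWK⟩ := this
      exact (hc hK).2 W hW hWK) ⊥ hbot
  obtain ⟨hBc, hBP⟩ := hBmax.1
  have hBt : B ≠ ⊤ := by
    rintro rfl
    refine hBP {⟨fun y => y 0, Subgroup.subset_closure ⟨0, rfl⟩⟩} (Set.finite_singleton _)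
      (fun _ _ => trivial) fun g => ⟨_, rfl, fun _ => g, 1, A.one_mem, by simp [ev_apply]⟩
  have hnt : Nontrivial (Fr G ⧸ B) := QuotientGroup.nontrivial_iff.2 hBt
  have hsurj := QuotientGroup.mk'_surjective B
  have hEq : ∀ g : Fr G ⧸ B, g ^ p = 1 := fun g => by
    obtain ⟨g, rfl⟩ := hsurj g
    have : g ^ p = 1 := Subtype.ext (funext fun y => hE _)
    rw [← map_pow, this, map_one]
  obtain ⟨N, V, hN, hVN, hV0, hVc, hVn⟩ :=
    hT (Fr G ⧸ B) ((locFin_Fr hp.pos hR hG hE).map _ hsurj) hEq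
  let M0 : Subgroup N := Subgroup.closure {v | Ab v}
  have hM0 : M0.Characteristic := by
    rw [Subgroup.characteristic_iff_map_le]
    intro φ
    rw [MonoidHom.map_closure]
    refine Subgroup.closure_mono ?_
    rintro _ ⟨v, hv, rfl⟩
    exact Ab.map hv φ.toMonoidHom φ.surjective
  have hM0l : ∀ x ∈ M0, ∃ l : List N, (∀ v ∈ l, Ab v) ∧ l.prod = x := by
    intro x hx
    induction hx using Subgroup.closure_induction'' with
    | mem v hv => exact ⟨[v], by simpa using hv, by simp⟩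
    | inv_mem v hv =>
      obtain ⟨K, h1, h2, h3⟩ := hv
      exact ⟨[v⁻¹], by simpa using ⟨K, h1, h2, K.inv_mem h3⟩, by simp⟩
    | one => exact ⟨[], by simp, rfl⟩
    | mul a b _ _ ha hb =>
      obtain ⟨l, hl, rfl⟩ := ha
      obtain ⟨l', hl', rfl⟩ := hb
      exact ⟨l ++ l', fun v hv => (List.mem_append.1 hv).elim (hl v) (hl' v), List.prod_append⟩
  let M : Subgroup (Fr G) := (M0.map N.subtype).comap (QuotientGroup.mk' B)
  have hMc : M.Characteristic := Subgroup.Characteristic.comap_quotient_mk inferInstance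
  have hBM : B ≤ M := fun b hb => by
    change QuotientGroup.mk' B b ∈ M0.map N.subtype
    rw [QuotientGroup.mk'_apply, (QuotientGroup.eq_one_iff b).2 hb]
    exact Subgroup.one_mem _
  have hMC : M ∉ C := fun h => by
    have hMB := hBmax.2 h hBM
    refine hV0 (eq_bot_iff.2 fun v hv => ?_)
    obtain ⟨f, rfl⟩ := hsurj v
    have : f ∈ M := ⟨⟨_, hVN hv⟩, Subgroup.subset_closure ⟨V.subgroupOf N,
      ⟨fun a ha n => hVn n n.2 a ha⟩, fun a ha b hb => Subtype.ext (hVc a ha b hb), hv⟩, rfl⟩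
    exact (QuotientGroup.eq_one_iff f).2 (hMB this)
  have : ∃ W : Set (Fr G), W.Finite ∧ W ⊆ M ∧ P W := by
    by_contra h
    exact hMC ⟨hMc, fun W h1 h2 h3 => h ⟨W, h1, h2, h3⟩⟩
  obtain ⟨W, hW, hWM, hPW⟩ := this
  have hWf : Finite W := hW.to_subtype
  -- uniform bounds
  have hl : ∀ w : W, ∃ l : List N, (∀ v ∈ l, Ab v) ∧
      ((l.prod : N) : Fr G ⧸ B) = QuotientGroup.mk' B w.1 := fun w => by
    obtain ⟨x, hx, e⟩ := hWM w.2
    obtain ⟨l, hl, rfl⟩ := hM0l x hx
    exact ⟨l, hl, e⟩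
  choose l hl1 hl2 using hl
  obtain ⟨c, hc⟩ := (Set.finite_range fun w => (l w).length).bddAbove
  choose m0 hm0 using fun w : W => exists_dep w.1
  obtain ⟨m, hm⟩ := (Set.finite_range m0).bddAbove
  have hdep : ∀ w : W, Dep m w.1 := fun w => (hm0 w).mono (hm ⟨w, rfl⟩)
  set r := c * (p - 1) with hr
  let D : (Fin r → W) → Fin r → Fr G := fun ws i => shift ((2 * m + 1) * ((i : ℕ) + 1 : ℤ)) (ws i).1
  have key : ∀ q : (Fin r → W) × W, ∃ b ∈ B, ∀ y : ℤ → G,
      (∀ i, ev y (D q.1 i) ∈ A) → ev y (nest (List.ofFn (D q.1)) q.2.1) = ev y b := by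
    rintro ⟨ws, w⟩
    let R : Subgroup (Fr G) := Subgroup.normalClosure {x | ∃ i j, x = ⁅D ws i, D ws j⁆}
    have hDM : ∀ i, QuotientGroup.mk' B (D ws i) ∈ N := fun i => by
      have : D ws i ∈ M := Subgroup.characteristic_iff_map_le.1 hMc _ ⟨_, hWM (ws i).2, rfl⟩
      obtain ⟨x, -, e⟩ := this
      exact e ▸ x.2
    have hRn : (R.map (QuotientGroup.mk' B)).Normal := Subgroup.Normal.map inferInstance _ hsurj
    have h1 := nest_mem hp (Q := N) (fun g => Subtype.ext (hEq g)) (l w) (hl1 w)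
      (List.ofFn fun i => ⟨_, hDM i⟩) (by
        rw [List.length_ofFn]
        exact Nat.mul_le_mul_right _ (hc ⟨w, rfl⟩))
      ((R.map (QuotientGroup.mk' B)).comap N.subtype) (by
        intro a ha b hb
        obtain ⟨i, rfl⟩ := List.mem_ofFn.1 ha
        obtain ⟨j, rfl⟩ := List.mem_ofFn.1 hb
        refine ⟨⁅D ws i, D ws j⁆, Subgroup.subset_normalClosure ⟨i, j, rfl⟩, ?_⟩
        rw [map_commutatorElement, map_commutatorElement]
        rfl)
    obtain ⟨ρ, hρ, e⟩ := h1
    rw [map_nest, Subgroup.subtype_apply, hl2, List.map_ofFn] at e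
    have e2 : QuotientGroup.mk' B ρ = QuotientGroup.mk' B (nest (List.ofFn (D ws)) w.1) := by
      rw [e, map_nest, List.map_ofFn]
      rfl
    refine ⟨ρ⁻¹ * nest (List.ofFn (D ws)) w.1, QuotientGroup.eq.1 e2, fun y hy => ?_⟩
    have h2 : R ≤ (ev y).ker := Subgroup.normalClosure_le_normal (by
      rintro _ ⟨i, j, rfl⟩
      rw [SetLike.mem_coe, MonoidHom.mem_ker, map_commutatorElement,
        commutatorElement_eq_one_iff_mul_comm]
      exact hA _ (hy i) _ (hy j))
    rw [map_mul, map_inv, MonoidHom.mem_ker.1 (h2 hρ), inv_one, one_mul]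
  choose b hb1 hb2 using key
  refine hBP (Set.range b) (Set.finite_range b) (by rintro _ ⟨q, rfl⟩; exact hb1 q) fun g => ?_
  let S : Set G := {s | ∃ w : W, ∃ y, s = ev y w.1}
  have hPS : ∀ g : G, ∃ s ∈ S, ∃ a ∈ A, g = s * a := fun g => by
    obtain ⟨w, hw, y, a, ha, e⟩ := hPW g
    exact ⟨_, ⟨⟨w, hw⟩, y, rfl⟩, a, ha, e⟩
  obtain ⟨h, hh, a0, ha0, rfl⟩ := hPS g
  obtain ⟨d, hd, _, ⟨w, y0, rfl⟩, a, ha, rfl⟩ := chain A hA hcov S (by
    rintro g _ ⟨w, y, rfl⟩
    exact ⟨w, _, ev_conj g y w.1⟩) hPS r h hh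
  choose ws ys hys using fun i => (hd i).2
  obtain ⟨y, hy⟩ := exists_glue m fun t : ℤ =>
    if ht : 0 < t ∧ (t - 1).toNat < r then ys ⟨(t - 1).toNat, ht.2⟩ else y0
  have e1 : ∀ i, ev y (D ws i) = d i := fun i => by
    have ht : (0 : ℤ) < (i : ℕ) + 1 ∧ (((i : ℕ) + 1 : ℤ) - 1).toNat < r := by
      have := i.2
      omega
    rw [hy _ _ (hdep (ws i)), dif_pos ht, hys i]
    congr 3
    simp
  have e2 : ev y w.1 = ev y0 w.1 := by
    have := hy 0 _ (hdep w)
    rw [dif_neg (by simp), ev_shift] at this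
    simpa using this
  refine ⟨b (ws, w), ⟨_, rfl⟩, y, a * a0, A.mul_mem ha ha0, ?_⟩
  rw [← hb2 (ws, w) y (fun i => by rw [e1]; exact (hd i).1), map_nest, List.map_ofFn, e2, mul_assoc]
  congr 3
  exact funext fun i => (e1 i).symm

/-- The frozen negation follows from `RBP` and `T3` for all primes. -/
theorem final (hR : ∀ p, p.Prime → RBP p) (hT : ∀ p, p.Prime → T3 p) :
    ¬ (∃ p : ℕ, p.Prime ∧
      ∃ (G : Type) (_ : Group G),
        (∀ s : Set G, s.Finite → (Subgroup.closure s : Set G).Finite) ∧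
        (∀ g : G, g ^ p = 1) ∧
        ∃ A : Subgroup G, A ≠ ⊤ ∧
          (∀ a ∈ A, ∀ b ∈ A, a * b = b * a) ∧
          ∀ x : G, ∃ g : G, ∃ a ∈ A, x = g⁻¹ * a * g) := by
  rintro ⟨p, hp, G, _, hG, hE, A, hne, hA, hcov⟩
  exact hne (endgame hp (hR p hp) (hT p hp) hG hE A hA hcov)

end Pool.Agent.P.MP_1307d3_al.End
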