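import Mathlib

/-! The filtration of a Lie ring attached to an element. -/

namespace Pool.Agent.P.MP_1307d3_al.Thick

variable {L : Type*} [LieRing L]

/-- `G z (k+1) y` says that `⁅y, a₁, …, a_j, z⁆ = 0` for all `j ≤ k`. -/
def G (z : L) : ℕ → L → Prop
  | 0, _ => True
  | k + 1, y => ⁅y, z⁆ = 0 ∧ ∀ a, G z k ⁅y, a⁆

theorem G_zero (z y : L) : G z 0 y := trivial

theorem G_succ {z y : L} {k : ℕ} : G z (k + 1) y ↔ ⁅y, z⁆ = 0 ∧ ∀ a, G z k ⁅y, a⁆ := Iff.rfl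

theorem G_one {z y : L} : G z 1 y ↔ ⁅y, z⁆ = 0 := ⟨fun h => h.1, fun h => ⟨h, fun _ => trivial⟩⟩

theorem G_pred {z : L} : ∀ {k : ℕ} {y : L}, G z (k + 1) y → G z k y
  | 0, _, _ => trivial
  | _ + 1, _, h => ⟨h.1, fun a => G_pred (h.2 a)⟩

theorem G_mono {z y : L} {k j : ℕ} (hk : k ≤ j) (h : G z j y) : G z k y := by
  induction hk with
  | refl => exact h
  | step _ ih => exact ih (G_pred h)

theorem G_add {z : L} : ∀ {k : ℕ} {y y' : L}, G z k y → G z k y' → G z k (y + y')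
  | 0, _, _, _, _ => trivial
  | _ + 1, _, _, h, h' => ⟨by rw [add_lie, h.1, h'.1, add_zero], fun a => by
      rw [add_lie]; exact G_add (h.2 a) (h'.2 a)⟩

theorem G_neg {z : L} : ∀ {k : ℕ} {y : L}, G z k y → G z k (-y)
  | 0, _, _ => trivial
  | _ + 1, _, h => ⟨by rw [neg_lie, h.1, neg_zero], fun a => by
      rw [neg_lie]; exact G_neg (h.2 a)⟩

theorem jac (a b c : L) : ⁅⁅a, b⁆, c⁆ = ⁅⁅a, c⁆, b⁆ + ⁅a, ⁅b, c⁆⁆ := by
  rw [lie_lie, ← lie_skew ⁅a, c⁆ b]; abel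

theorem G_lie {z : L} : ∀ (k : ℕ) {i j : ℕ} {a b : L}, G z i a → G z j b → k + 1 ≤ i + j →
    G z k ⁅a, b⁆
  | 0, _, _, _, _, _, _, _ => trivial
  | k + 1, 0, j, a, b, _, hb, h => by
      have hb' : G z (k + 1 + 1) b := G_mono (by omega) hb
      rw [← lie_skew]; exact G_neg (hb'.2 a)
  | k + 1, i + 1, 0, a, b, ha, _, h => by
      have ha' : G z (k + 1 + 1) a := G_mono (by omega) ha
      exact ha'.2 b
  | k + 1, i + 1, j + 1, a, b, ha, hb, h => by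
      refine ⟨by rw [lie_lie, ha.1, hb.1, lie_zero, lie_zero, sub_zero], fun c => ?_⟩
      rw [jac]
      exact G_add (G_lie k (ha.2 c) hb (by omega)) (G_lie k ha (hb.2 c) (by omega))

theorem G_shift {z a : L} : ∀ {k : ℕ} {y : L}, G z (k + 1) y → G ⁅z, a⁆ k y
  | 0, _, _ => trivial
  | k + 1, y, h => by
      refine ⟨?_, fun b => G_shift (h.2 b)⟩
      rw [leibniz_lie, h.1, zero_lie, zero_add, ← lie_skew, (h.2 a).1, neg_zero]

theorem G_symm : ∀ {k : ℕ} {z y : L}, G z k y → G y k z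
  | 0, _, _, _ => trivial
  | _ + 1, _, _, h => ⟨by rw [← lie_skew, h.1, neg_zero], fun _ => G_symm (G_shift h)⟩

end Pool.Agent.P.MP_1307d3_al.Thick
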