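import Pool.Agent.P.MP_1307d3_al.GDefs

/-! The canonical representation on the reduced product of abelian subgroups. -/

namespace Pool.Agent.P.MP_1307d3_al.Grp

open End

theorem map_cm_iter {G Γ : Type*} [Group G] [Group Γ] (f : G →* Γ) (a b : G) (k : ℕ) :
    f ((cm a)^[k] b) = (cm (f a))^[k] (f b) := by
  induction k with
  | zero => rfl
  | succ k ih => simp only [Function.iterate_succ_apply', ← ih, cm, map_mul, map_inv]

/-- The conjugation representation on an abelian subgroup normalised by the image of `c`. The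
last clause describes the action of the additive span of the image. -/
theorem exists_conj_rep {p : ℕ} (hp : p.Prime) {G Γ : Type} [Group G] [Group Γ]
    (hE : ∀ g : Γ, g ^ p = 1) (V : Subgroup Γ) (hV : Abel V) (c : G →* Γ)
    (hc : ∀ g, ∀ v ∈ V, c g * v * (c g)⁻¹ ∈ V) :
    ∃ (M : Type) (_ : AddCommGroup M) (e : Additive V ≃+ M) (ρ : G →* Module.End ℤ M),
      (p : Module.End ℤ M) = 0 ∧ (∀ g, (ρ g - 1) ^ (p - 1) = 0) ∧
      (∀ g (v : V), ((Additive.toMul (e.symm (ρ g (e (Additive.ofMul v)))) : V) : Γ) =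
        c g * v * (c g)⁻¹) ∧
      ∀ g k (v : V), ((Additive.toMul (e.symm (((ρ g - 1) ^ k) (e (Additive.ofMul v)))) : V) : Γ) =
        (cm (c g))^[k] v := by
  let _ : CommGroup V :=
    { (inferInstance : Group V) with mul_comm := fun a b => Subtype.ext (hV a a.2 b b.2) }
  let ψ : G → V →* V := fun g =>
    { toFun := fun v => ⟨c g * v * (c g)⁻¹, hc g v v.2⟩
      map_one' := Subtype.ext (by simp)
      map_mul' := fun a b => Subtype.ext (by simp [mul_assoc]) }
  let φ : G →* Module.End ℤ (Additive V) :=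
    { toFun := fun g => (MonoidHom.toAdditive (ψ g)).toIntLinearMap
      map_one' := by ext x; simp [ψ]
      map_mul' := fun g h => by ext x; simp [ψ, mul_assoc] }
  have hφ : ∀ g (x : V), ((Additive.toMul (φ g (Additive.ofMul x)) : V) : Γ) =
      c g * x * (c g)⁻¹ := fun g x => rfl
  have h0 : (p : Module.End ℤ (Additive V)) = 0 := by
    ext x
    have : (Additive.toMul x) ^ p = 1 := Subtype.ext (by simpa using hE (Additive.toMul x : V))
    simp only [Module.End.natCast_apply, LinearMap.zero_apply, toMul_zero, toMul_nsmul, this]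
  have hsum : ∀ (g : G) (x : V) (n : ℕ),
      ((Additive.toMul ((∑ i ∈ Finset.range n, φ g ^ i) (Additive.ofMul x)) : V) : Γ) * c g ^ n =
        ((x : Γ) * c g) ^ n := by
    intro g x n
    induction n with
    | zero => simp
    | succ n ih =>
      rw [Finset.sum_range_succ, LinearMap.add_apply, toMul_add, Subgroup.coe_mul, ← map_pow, hφ,
        pow_succ ((x : Γ) * c g), ← ih, map_pow]
      group
  refine ⟨Additive V, inferInstance, AddEquiv.refl _, φ, h0, fun g => ?_, hφ, fun g k v => ?_⟩
  · rw [sub_one_pow hp h0]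
    ext x
    have := hsum g (Additive.toMul x) p
    rw [hE, hE, mul_one] at this
    simpa using this
  · simp only [AddEquiv.refl_symm, AddEquiv.refl_apply]
    induction k with
    | zero => rfl
    | succ k ih =>
      rw [pow_succ', Module.End.mul_apply, Function.iterate_succ_apply', ← ih]
      generalize ((φ g - 1) ^ k) (Additive.ofMul v) = x
      rw [LinearMap.sub_apply, toMul_sub, Subgroup.coe_div]
      have := hφ g (Additive.toMul x)
      rw [ofMul_toMul] at this
      rw [this, cm, div_eq_mul_inv]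
      rfl

theorem exists_canon {p : ℕ} (hp : p.Prime) (G : Type) [Group G] (hE : ∀ g : G, g ^ p = 1) :
    ∃ (R : Type) (_ : Ring R) (ρ : G →* R), Canon p ρ := by
  classical
  let ι := {B : Subgroup G // Abel B}
  let s : Finset G → Set ι := fun S => {B | Nz (S : Set G) B.1}
  have hd : Directed (· ≥ ·) s := fun S T =>
    ⟨S ∪ T, fun B hB x hx => hB x (by simp [Finset.mem_coe.1 hx]),
      fun B hB x hx => hB x (by simp [Finset.mem_coe.1 hx])⟩
  let l : Filter ι := ⨅ S, Filter.principal (s S)
  have hl : ∀ P : ι → Prop, (∀ᶠ i in l, P i) ↔ ∃ S, ∀ i ∈ s S, P i := fun P => by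
    rw [(Filter.hasBasis_iInf_principal hd).eventually_iff]
    simp
  let q : (ι → G) →* Filter.Germ l G := Filter.Germ.coeMulHom l
  have hq : ∀ f g, q f = q g ↔ ∀ᶠ i in l, f i = g i := fun f g => Filter.Germ.coe_eq
  let W : Subgroup (ι → G) :=
    { carrier := {f | ∀ᶠ i in l, f i ∈ i.1}
      one_mem' := Filter.Eventually.of_forall fun i => i.1.one_mem
      mul_mem' := fun ha hb => (ha.and hb).mono fun i h => i.1.mul_mem h.1 h.2
      inv_mem' := fun ha => ha.mono fun i h => i.1.inv_mem h }
  let c : G →* Filter.Germ l G := q.comp (Pi.constMonoidHom ι G)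
  obtain ⟨M, _, e, ρ, h0, h1, -, h2⟩ := exists_conj_rep hp (G := G) (Γ := Filter.Germ l G)
    (fun g => by
      induction g using Filter.Germ.inductionOn with
      | h f =>
        change q f ^ p = 1
        rw [← map_pow, show f ^ p = 1 from funext fun i => hE _, map_one]) (W.map q) (by
      rintro _ ⟨f, hf, rfl⟩ _ ⟨g, hg, rfl⟩
      rw [← map_mul, ← map_mul, hq]
      exact (Filter.Eventually.and hf hg).mono fun i h => i.2 _ h.1 _ h.2) c (by
      rintro g _ ⟨f, hf, rfl⟩
      refine ⟨fun i => g * f i * g⁻¹, ?_, rfl⟩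
      refine (Filter.Eventually.and hf ((hl (· ∈ s {g})).2 ⟨{g}, fun i h => h⟩)).mono fun i h => ?_
      exact h.2 g (by simp) _ h.1)
  have h3 : ∀ k a (f : ι → G), (cm (c a))^[k] (q f) = 1 ↔ ∀ᶠ i in l, (cm a)^[k] (f i) = 1 := by
    intro k a f
    change (cm (q (Pi.constMonoidHom ι G a)))^[k] (q f) = 1 ↔ _
    rw [← map_cm_iter, ← map_one q, hq]
    refine Filter.eventually_congr (Filter.Eventually.of_forall fun i => ?_)
    have := map_cm_iter (Pi.evalMonoidHom (fun _ : ι => G) i) (Pi.constMonoidHom ι G a) f k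
    exact this ▸ Iff.rfl
  refine ⟨_, inferInstance, ρ, h0, h1, fun k a => ⟨fun h => ?_, fun h => ?_⟩⟩
  · let f : ι → G := fun i => if h : ∃ b ∈ i.1, (cm a)^[k] b ≠ 1 then h.choose else 1
    have hf : f ∈ W := Filter.Eventually.of_forall fun i => by
      simp only [f]
      split_ifs with h
      exacts [h.choose_spec.1, i.1.one_mem]
    have h4 := h2 a k ⟨q f, f, hf, rfl⟩
    rw [h] at h4
    obtain ⟨S, hS⟩ := (hl _).1 ((h3 k a f).1 (by simpa using h4.symm))
    refine ⟨insert a S, Finset.mem_insert_self _ _, fun B hB hN b hb => ?_⟩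
    by_contra hne
    have h5 : ∃ b ∈ B, (cm a)^[k] b ≠ 1 := ⟨b, hb, hne⟩
    have h6 := hS ⟨B, hB⟩ fun x hx => hN x (by simp [Finset.mem_coe.1 hx])
    simp only [f, dif_pos h5] at h6
    exact h5.choose_spec.2 h6
  · obtain ⟨S, -, hS⟩ := h
    ext x
    obtain ⟨y, rfl⟩ := e.surjective x
    obtain ⟨f, hf, hy⟩ := (Additive.toMul y).2
    have h4 := h2 a k (Additive.toMul y)
    rw [← hy, (h3 k a f).2 ((Filter.Eventually.and hf ((hl (· ∈ s S)).2 ⟨S, fun i h => h⟩)).mono
      fun i h => hS i.1 i.2 h.2 _ h.1), ofMul_toMul] at h4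
    have h5 : e.symm (((ρ a - 1) ^ k) (e y)) = 0 := Additive.toMul.injective (Subtype.ext h4)
    simpa using h5

end Pool.Agent.P.MP_1307d3_al.Grp
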