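import Pool.Agent.P.MP_1307d3_al.End

/-! Definitions for the group level descent. -/

namespace Pool.Agent.P.MP_1307d3_al.Grp

variable {G : Type*} [Group G] {R : Type*} [Ring R]

/-- The commutator `a b a⁻¹ b⁻¹`. -/
def cm (a b : G) : G := a * b * a⁻¹ * b⁻¹

/-- Abelian subgroups. -/
def Abel (B : Subgroup G) : Prop := ∀ a ∈ B, ∀ b ∈ B, a * b = b * a

/-- `B` is normalised by the elements of `S`. -/
def Nz (S : Set G) (B : Subgroup G) : Prop := ∀ s ∈ S, ∀ b ∈ B, s * b * s⁻¹ ∈ B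

/-- `a` acts with index at most `k` on all abelian subgroups normalised by a large finite set. -/
def Idx (k : ℕ) (a : G) : Prop :=
  ∃ S : Finset G, a ∈ S ∧ ∀ B : Subgroup G, Abel B → Nz (S : Set G) B → ∀ b ∈ B, (cm a)^[k] b = 1

/-- The canonical representation. -/
structure Canon (p : ℕ) (ρ : G →* R) : Prop where
  char : (p : R) = 0
  nil : ∀ g, (ρ g - 1) ^ (p - 1) = 0
  idx : ∀ k a, (ρ a - 1) ^ k = 0 ↔ Idx k a

/-- The properties of the logarithm. -/
structure IsLog (ρ : G →* R) (lg : G → R) : Prop where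
  add : ∀ a b, a * b = b * a → lg (a * b) = lg a + lg b
  conj : ∀ g a, lg (g * a * g⁻¹) = ρ g * lg a * ρ g⁻¹
  pow : ∀ k a, lg a ^ k = 0 ↔ (ρ a - 1) ^ k = 0
  cubic : ∀ a, (ρ a - 1) ^ 3 = 0 → 2 • lg a = 2 • (ρ a - 1) - (ρ a - 1) ^ 2
  mem : ∀ a, lg a ∈ AddSubgroup.closure (Set.range fun i : ℕ => ρ (a ^ i) - 1)
  back : ∀ a, ρ a ∈ Subring.closure {lg a}

/-- The additive span of the elements `ρ h - 1`, `h ∈ H`. -/
def Om (ρ : G →* R) (H : Subgroup G) : AddSubgroup R :=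
  AddSubgroup.closure ((fun h => ρ h - 1) '' (H : Set G))

/-- All products of at least `N` elements of `M` vanish. -/
def NilAt (M : AddSubgroup R) (N : ℕ) : Prop :=
  ∀ l : List R, N ≤ l.length → (∀ x ∈ l, x ∈ M) → l.prod = 0

/-- Theorem (N): a ring generated by a Lie ring which is spanned by square zero elements and is nil
of index `p - 1` is not semiprime. -/
def ThmN (p : ℕ) : Prop :=
  ∀ (T : Type) [Ring T], (p : T) = 0 → ∀ Q : Set T, (∀ y ∈ Q, y * y = 0) →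
    (∀ y ∈ Q, ∀ z ∈ Q, y * z - z * y ∈ AddSubgroup.closure Q ∧ y * z * y ∈ AddSubgroup.closure Q) →
    (∀ u ∈ AddSubgroup.closure Q, u ^ (p - 1) = 0) → Subring.closure Q = ⊤ →
    (∃ y ∈ Q, y ≠ 0) → ∃ f : T, f ≠ 0 ∧ ∀ r, f * r * f = 0

end Pool.Agent.P.MP_1307d3_al.Grp
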