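import Pool.Agent.P.MP_1307d3_al.GDefs

/-! The canonical representation is faithful if there is no abelian normal subgroup. -/

namespace Pool.Agent.P.MP_1307d3_al.Grp

open End
open scoped commutatorElement

/-- A finite nilpotent group has a self-centralising abelian normal subgroup. -/
theorem exists_selfcent (H : Type*) [Group H] [Finite H] [Group.IsNilpotent H] :
    ∃ B : Subgroup H, B.Normal ∧ Abel B ∧ ∀ x, (∀ b ∈ B, x * b = b * x) → x ∈ B := by
  obtain ⟨B, hB⟩ := (Set.toFinite {B : Subgroup H | B.Normal ∧ Abel B}).exists_maximal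
    ⟨⊥, inferInstance, fun a ha b hb => by rw [Subgroup.mem_bot.1 ha, one_mul, mul_one]⟩
  obtain ⟨hn, ha⟩ := hB.1
  have key : ∀ i, ∀ x ∈ Subgroup.upperCentralSeries H i, (∀ b ∈ B, x * b = b * x) → x ∈ B := by
    intro i
    induction i with
    | zero => intro x hx _; rw [Subgroup.mem_bot.1 hx]; exact B.one_mem
    | succ i ih =>
      intro x hx hc
      have h1 : ∀ y, y * x * y⁻¹ * x⁻¹ ∈ B := fun y => by
        have h2 := (Subgroup.upperCentralSeries H i).inv_mem
          (Subgroup.mem_upperCentralSeries_succ_iff.1 hx y)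
        rw [commutatorElement_inv] at h2
        refine ih _ h2 fun b hb => ?_
        have h3 := hc b hb
        have h4 := hc _ (hn.conj_mem b hb y⁻¹)
        have h5 : x⁻¹ * b = b * x⁻¹ := by
          rw [inv_mul_eq_iff_eq_mul, ← mul_assoc, h3, mul_inv_cancel_right]
        rw [mul_assoc, h5]
        calc y * x * y⁻¹ * (b * x⁻¹) = y * (x * (y⁻¹ * b * y⁻¹⁻¹)) * y⁻¹ * x⁻¹ := by group
          _ = _ := by rw [h4]; group
      have h6 : B ≤ Subgroup.closure (insert x (B : Set H)) := fun b hb =>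
        Subgroup.subset_closure (Set.mem_insert_of_mem _ hb)
      have hx' : x ∈ Subgroup.closure (insert x (B : Set H)) :=
        Subgroup.subset_closure (Set.mem_insert _ _)
      refine hB.2 (y := Subgroup.closure (insert x (B : Set H))) ⟨⟨fun z hz y => ?_⟩, ?_⟩ h6 hx'
      · induction hz using Subgroup.closure_induction with
        | mem z hz =>
          rcases hz with rfl | hz
          · simpa using mul_mem (h6 (h1 y)) hx'
          · exact h6 (hn.conj_mem z hz y)
        | one => simp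
        | mul a b _ _ h2 h3 => simpa [mul_assoc] using mul_mem h2 h3
        | inv a _ h2 => simpa [mul_assoc] using inv_mem h2
      · have := Subgroup.isMulCommutative_closure (k := insert x (B : Set H)) (by
          rintro a (rfl | h2) b (rfl | h3)
          exacts [rfl, hc b h3, (hc a h2).symm, ha a h2 b h3])
        exact fun a h2 b h3 => setLike_mul_comm h2 h3
  obtain ⟨c, hc⟩ := Group.IsNilpotent.nilpotent H
  exact ⟨B, hn, ha, fun x => key c x (hc ▸ trivial)⟩

theorem canon_inj {p : ℕ} (hp : p.Prime) {G : Type} [Group G] (hL : LocFin G)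
    (hE : ∀ g : G, g ^ p = 1) {R : Type} [Ring R] {ρ : G →* R} (C : Canon p ρ)
    (hA : ∀ V : Subgroup G, V.Normal → Abel V → V = ⊥) : Function.Injective ρ := by
  classical
  rw [← MonoidHom.ker_eq_bot_iff]
  refine hA _ inferInstance fun g hg h hh => ?_
  obtain ⟨S, hgS, hS⟩ := (C.idx 1 g).1 (by rw [MonoidHom.mem_ker.1 hg]; simp)
  obtain ⟨T, hhT, hT⟩ := (C.idx 1 h).1 (by rw [MonoidHom.mem_ker.1 hh]; simp)
  let H := Subgroup.closure ((S ∪ T : Finset G) : Set G)
  have : Finite H := (hL _ (Finset.finite_toSet _)).to_subtype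
  have := Fact.mk hp
  have hP : IsPGroup p H := fun g => ⟨1, Subtype.ext (by simpa using hE g)⟩
  have := hP.isNilpotent
  obtain ⟨B, hn, ha, hc⟩ := exists_selfcent H
  have h1 : Abel (B.map H.subtype) := by
    rintro _ ⟨a, h2, rfl⟩ _ ⟨b, h3, rfl⟩
    rw [← map_mul, ← map_mul, ha a h2 b h3]
  have h2 : ∀ s ∈ S ∪ T, ∀ b ∈ B.map H.subtype, s * b * s⁻¹ ∈ B.map H.subtype := by
    rintro s hs _ ⟨b, hb, rfl⟩
    exact ⟨_, hn.conj_mem b hb ⟨s, Subgroup.subset_closure hs⟩, rfl⟩
  have h3 := hS _ h1 fun s hs => h2 s (Finset.mem_union_left _ hs)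
  have h4 := hT _ h1 fun s hs => h2 s (Finset.mem_union_right _ hs)
  have h5 : (⟨g, Subgroup.subset_closure (Finset.mem_union_left _ hgS)⟩ : H) ∈ B :=
    hc _ fun b hb => Subtype.ext (commutatorElement_eq_one_iff_mul_comm.1 (h3 _ ⟨b, hb, rfl⟩))
  exact (commutatorElement_eq_one_iff_mul_comm.1 (h4 g ⟨_, h5, rfl⟩)).symm

end Pool.Agent.P.MP_1307d3_al.Grp
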