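import Pool.Agent.P.MP_1307d3_al.Kostrikin

/-! From elements with `ad ^ 3 = 0` to sandwiches in an Engel Lie ring. -/

namespace Pool.Agent.P.MP_1307d3_al.Kos

variable {L : Type*} [LieRing L]

/-- The square of the adjoint operator. -/
def Q (x : L) : Module.End ℤ L := ad x * ad x

theorem Q_apply (x y : L) : Q x y = ⁅x, ⁅x, y⁆⁆ := rfl

@[simp] theorem Q_zero : Q (0 : L) = 0 := by simp [Q]

theorem ad_Q (x a : L) : ad (Q x a) = ad x * ad x * ad a - 2 • (ad x * ad a * ad x)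
    + ad a * ad x * ad x := by
  rw [Q_apply, ad_lie, ad_lie]; noncomm_ring

theorem ad_cube (x a : L) : ad ⁅x, ⁅x, ⁅x, a⁆⁆⁆ = ad x * ad x * ad x * ad a
    - 3 • (ad x * ad x * ad a * ad x) + 3 • (ad x * ad a * ad x * ad x)
    - ad a * ad x * ad x * ad x := by
  rw [ad_lie, ad_lie, ad_lie]; noncomm_ring

section cubic
variable (tf : TF 3 L) {x : L} (hx : ad x ^ 3 = 0)
include tf hx

omit tf in
theorem cube0 : ad x * ad x * ad x = 0 := by simpa [pow_succ] using hx

theorem F1 (a : L) : ad x * ad x * ad a * ad x = ad x * ad a * ad x * ad x := by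
  have h := ad_cube x a
  have h0 : ⁅x, ⁅x, ⁅x, a⁆⁆⁆ = 0 := LinearMap.congr_fun (cube0 hx) a
  have h1 : ad a * ad x * ad x * ad x = 0 := by
    rw [mul_assoc, mul_assoc, ← mul_assoc (ad x), cube0 hx, mul_zero]
  rw [h0, ad_zero, cube0 hx, h1] at h
  rw [← sub_eq_zero]
  apply tf.end 3 (by omega) le_rfl
  rw [smul_sub, ← neg_eq_zero, h]; simp only [zero_mul]; abel

theorem F1' (a : L) : Q x * ad a * Q x = 0 := by
  have : Q x * ad a * Q x = ad x * (ad x * ad a * ad x * ad x) := by simp only [Q, mul_assoc]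
  rw [this, ← F1 tf hx]
  simp only [← mul_assoc, cube0 hx, zero_mul]

/-- The fundamental formula. -/
theorem FF (a : L) : Q (Q x a) = Q x * Q a * Q x := by
  have f1 := F1 tf hx a
  have f2 := F1' tf hx a
  have c := cube0 hx
  rw [Q, ad_Q]
  simp only [Q] at f2 ⊢
  set X := ad x
  set A := ad a
  have e1 : X * X * A * (X * X * A) = 0 := by
    rw [← zero_mul A, ← f2]; simp only [mul_assoc]
  have e2 : X * X * A * (X * A * X) = X * A * X * X * A * X := by
    rw [← f1]; simp only [mul_assoc]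
  have e3 : X * A * X * (X * X * A) = 0 := by
    have : X * A * X * (X * X * A) = X * A * (X * X * X) * A := by simp only [mul_assoc]
    rw [this, c]; simp
  have e4 : X * A * X * (A * X * X) = X * A * X * X * A * X := by
    calc _ = X * A * (X * A * X * X) := by simp only [mul_assoc]
      _ = X * A * (X * X * A * X) := by rw [f1]
      _ = _ := by simp only [mul_assoc]
  have e5 : A * X * X * (X * X * A) = 0 := by
    have : A * X * X * (X * X * A) = A * (X * X * X) * X * A := by simp only [mul_assoc]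
    rw [this, c]; simp
  have e6 : A * X * X * (X * A * X) = 0 := by
    have : A * X * X * (X * A * X) = A * (X * X * X) * A * X := by simp only [mul_assoc]
    rw [this, c]; simp
  have e7 : A * X * X * (A * X * X) = 0 := by
    rw [← mul_zero A, ← f2]; simp only [mul_assoc]
  have e8 : X * A * X * (X * A * X) = X * A * X * X * A * X := by simp only [mul_assoc]
  simp only [add_mul, sub_mul, mul_add, mul_sub, smul_mul_assoc, mul_smul_comm, e1, e2, e3, e4,
    e5, e6, e7, e8]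
  simp only [mul_assoc, smul_zero]
  abel

theorem Q_ad (a : L) : Q x * ad (Q x a) = 0 := by
  have f2 := F1' tf hx a
  have c := cube0 hx
  rw [ad_Q]
  simp only [Q] at f2 ⊢
  simp only [mul_add, mul_sub, mul_smul_comm, ← mul_assoc, c] at f2 ⊢
  simp [f2]

theorem cubic_Q (a : L) : ad (Q x a) ^ 3 = 0 := by
  have : ad (Q x a) ^ 3 = Q (Q x a) * ad (Q x a) := by rw [pow_succ, pow_two]; rfl
  rw [this, FF tf hx, mul_assoc, Q_ad tf hx, mul_zero]

theorem FFp (z b : L) :
    Q x * Q (Q z (Q x b)) * Q x = Q x * Q z * Q (Q x b) * Q z * Q x := by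
  have e : Q x (Q z (Q x b)) = Q (Q x z) b := by rw [FF tf hx]; rfl
  rw [← FF tf hx, e, FF tf (cubic_Q tf hx z), FF tf hx, FF tf hx]
  simp only [mul_assoc]

theorem Q_add (a : L) : Q (x + Q x a) = (1 - 2 • (ad x * ad a) + Q x * Q a) * Q x := by
  have f1 := F1 tf hx a
  have c := cube0 hx
  have e : Q (x + Q x a) = Q x + ad x * ad (Q x a) + ad (Q x a) * ad x + Q (Q x a) := by
    rw [Q, ad_add]; simp only [Q]; noncomm_ring
  rw [e, FF tf hx, ad_Q]
  simp only [Q]
  set X := ad x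
  set A := ad a
  have c' : A * X * X * X = 0 := by rw [mul_assoc, mul_assoc, ← mul_assoc X, c, mul_zero]
  simp only [add_mul, sub_mul, mul_add, mul_sub, smul_mul_assoc, mul_smul_comm, ← mul_assoc, c, c',
    f1, one_mul, zero_mul]
  abel

theorem Q_LR (a : L) : ad x * ad a * Q x = Q x * (ad a * ad x) := by
  simp only [Q, ← mul_assoc, F1 tf hx]

theorem Q_add' (a : L) : Q (x + Q x a) = Q x * (1 - 2 • (ad a * ad x) + Q a * Q x) := by
  rw [Q_add tf hx]
  simp only [add_mul, sub_mul, mul_add, mul_sub, smul_mul_assoc, mul_smul_comm, Q_LR tf hx,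
    one_mul, mul_one, mul_assoc (Q x)]

theorem jordan_id (a : L) :
    ad x * ad a * (Q x * Q a) * Q x = Q x * Q a * (ad x * ad a) * Q x := by
  have h := F1' tf hx ⁅a, ⁅a, ⁅a, x⁆⁆⁆
  have c := cube0 hx
  have f1 := F1 tf hx a
  rw [ad_cube] at h
  simp only [Q] at h ⊢
  set X := ad x
  set A := ad a
  have c' : X * X * A * A * A * X * X * X = 0 := by
    have : X * X * A * A * A * X * X * X = X * X * A * A * A * (X * X * X) := by
      simp only [mul_assoc]
    rw [this, c, mul_zero]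
  simp only [add_mul, sub_mul, mul_add, mul_sub, smul_mul_assoc, mul_smul_comm, ← mul_assoc, c, c',
    zero_mul] at h ⊢
  rw [← f1, ← sub_eq_zero]
  apply tf.end 3 (by omega) le_rfl
  rw [smul_sub, ← h]; abel

theorem L_pow (a : L) (k : ℕ) : (ad x * ad a) ^ k * Q x = Q x * ad ⁅a, x⁆ ^ k := by
  induction k with
  | zero => simp
  | succ k ih =>
    have : ad x * ad a * Q x = Q x * ad ⁅a, x⁆ := by
      rw [Q_LR tf hx, ad_lie, mul_sub]
      simp only [Q, ← mul_assoc, cube0 hx, zero_mul, sub_zero]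
    rw [pow_succ, mul_assoc, this, ← mul_assoc, ih, mul_assoc, ← pow_succ]

theorem U_L_comm (a : L) (k : ℕ) :
    Q x * Q a * (ad x * ad a) ^ k * Q x = (ad x * ad a) ^ k * (Q x * Q a) * Q x := by
  induction k with
  | zero => simp
  | succ k ih =>
    calc Q x * Q a * (ad x * ad a) ^ (k + 1) * Q x
        = Q x * Q a * (ad x * ad a) ^ k * Q x * (ad a * ad x) := by
          rw [pow_succ, mul_assoc, mul_assoc, mul_assoc, Q_LR tf hx]; simp only [mul_assoc]
      _ = (ad x * ad a) ^ k * (Q x * Q a * (ad x * ad a) * Q x) := by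
          rw [ih, mul_assoc, ← Q_LR tf hx]; simp only [mul_assoc]
      _ = _ := by rw [← jordan_id tf hx, pow_succ]; simp only [mul_assoc]

theorem U_eq_L (a : L) : (Q x * Q a) (Q x a) = ((ad x * ad a) ^ 2) (Q x a) := by
  have e : ⁅a, Q x a⁆ = -⁅x, ⁅a, ⁅a, x⁆⁆⁆ := by
    rw [Q_apply, leibniz_lie a x, ← lie_skew x a, lie_neg, lie_neg, lie_neg, lie_self, neg_zero,
      zero_add]
  have f := LinearMap.congr_fun (Q_LR tf hx a) ⁅a, ⁅a, x⁆⁆
  simp only [Module.End.mul_apply, ad_apply, pow_two] at f ⊢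
  rw [Q_apply a, e, lie_neg, map_neg, lie_neg, lie_neg, lie_neg, ← f, Q_apply]

theorem U_pow (a : L) (j : ℕ) :
    ((Q x * Q a) ^ j) (Q x a) = ((ad x * ad a) ^ (2 * j)) (Q x a) := by
  induction j with
  | zero => simp
  | succ j ih =>
    have := LinearMap.congr_fun (U_L_comm tf hx a (2 * j)) a
    rw [pow_succ', Module.End.mul_apply, ih, mul_add, mul_one, pow_add,
      Module.End.mul_apply _ (_ ^ 2), ← U_eq_L tf hx]
    simpa only [Module.End.mul_apply] using this

theorem Q_U_pow (a : L) (j : ℕ) : ∃ o, ((Q x * Q a) ^ j) (Q x a) = Q x o ∧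
    Q (Q x o) = (Q x * Q a) ^ (2 * j + 1) * Q x := by
  induction j with
  | zero => exact ⟨a, by simp, by simp [FF tf hx]⟩
  | succ j ih =>
    obtain ⟨o, h1, h2⟩ := ih
    refine ⟨Q a (Q x o), by rw [pow_succ', Module.End.mul_apply, h1]; rfl, ?_⟩
    rw [FF tf hx, FFp tf hx, h2, show 2 * (j + 1) + 1 = (2 * j + 1) + 1 + 1 by ring,
      pow_succ _ (2 * j + 1 + 1), pow_succ' _ (2 * j + 1)]
    simp only [mul_assoc]

theorem U_nil {n : ℕ} (hE : ∀ a : L, ad a ^ n = 0) (a : L) :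
    (Q x * Q a) ^ (2 * n + 1) * Q x = 0 := by
  obtain ⟨o, h1, h2⟩ := Q_U_pow tf hx a n
  have h3 := LinearMap.congr_fun (L_pow tf hx a (2 * n)) a
  rw [pow_eq_zero_of_le (show n ≤ 2 * n by omega) (hE _), mul_zero, Module.End.mul_apply,
    ← U_pow tf hx, h1] at h3
  rw [← h2, h3]; simp

/-- Cancelling the unipotent factors. -/
theorem cancel {n : ℕ} (hE : ∀ a : L, ad a ^ n = 0) (a : L) (M M' : Module.End ℤ L)
    (hM : Q x * M = M' * Q x)
    (h : (1 - 2 • (ad x * ad a) + Q x * Q a) * (Q x * M) * (1 - 2 • (ad a * ad x) + Q a * Q x)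
      = 0) : Q x * M = 0 := by
  set V := LinearMap.range (Q x) with hV
  have hl : ∀ v ∈ V, (ad x * ad a) v ∈ V := by
    rintro _ ⟨w, rfl⟩
    exact ⟨(ad a * ad x) w, (LinearMap.congr_fun (Q_LR tf hx a) w).symm⟩
  have hu : ∀ v ∈ V, (Q x * Q a) v ∈ V := fun v _ => ⟨_, rfl⟩
  set l : Module.End ℤ V := (ad x * ad a).restrict hl with dl
  set u : Module.End ℤ V := (Q x * Q a).restrict hu with du
  have nl : IsNilpotent l := ⟨n, by
    rw [dl, Module.End.pow_restrict]
    ext ⟨_, w, rfl⟩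
    have := LinearMap.congr_fun (L_pow tf hx a n) w
    rw [hE, mul_zero] at this
    simpa using this⟩
  have nu : IsNilpotent u := ⟨2 * n + 1, by
    rw [du, Module.End.pow_restrict]
    ext ⟨_, w, rfl⟩
    simpa using LinearMap.congr_fun (U_nil tf hx hE a) w⟩
  have cm : Commute l u := by
    ext ⟨_, w, rfl⟩
    simpa [dl, du] using LinearMap.congr_fun (jordan_id tf hx a) w
  have hN : IsNilpotent (-(2 • l) + u) :=
    Commute.isNilpotent_add (cm.smul_left 2).neg_left (nl.smul 2).neg nu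
  have hU := (Module.End.isUnit_iff _).1 hN.isUnit_one_add
  have ev : ∀ v : V, (((1 + (-(2 • l) + u) : Module.End ℤ V) v : V) : L)
      = (1 - 2 • (ad x * ad a) + Q x * Q a : Module.End ℤ L) v := fun v => by
    simp [dl, du, sub_eq_add_neg, add_assoc]
  have h1 : Q x * M * (1 - 2 • (ad a * ad x) + Q a * Q x) = 0 := by
    ext w
    have := LinearMap.congr_fun h w
    have q : (1 + (-(2 • l) + u) : Module.End ℤ V)
        ⟨(Q x * M * (1 - 2 • (ad a * ad x) + Q a * Q x) : Module.End ℤ L) w, _, rfl⟩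
        = 0 := Subtype.ext (by rw [ev]; exact this)
    exact congrArg Subtype.val (hU.1 (q.trans (map_zero _).symm))
  rw [hM, mul_assoc, ← Q_add' tf hx, Q_add tf hx] at h1
  rw [hM]
  ext w
  obtain ⟨⟨_, w', rfl⟩, hw⟩ := hU.2 ⟨Q x w, w, rfl⟩
  have := congrArg Subtype.val hw
  rw [ev] at this
  have h2 := LinearMap.congr_fun h1 w'
  simp only [Module.End.mul_apply] at h2 this ⊢
  rw [← this]; exact h2

/-- One step down in the nil index. -/
theorem step {n : ℕ} (hE : ∀ a : L, ad a ^ n = 0) (g z a : L) (r : ℕ)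
    (hz : Q (Q x g) (Q z (Q x g)) = 0)
    (h : (Q (Q x g + Q (Q x g) a) * Q z) ^ (r + 1) * Q (Q x g + Q (Q x g) a) = 0) :
    (Q (Q (Q x g) z) * Q a) ^ r * Q (Q (Q x g) z) = 0 := by
  have hb := cubic_Q tf hx g
  have e0 : Q x g + Q (Q x g) a = Q x (g + Q g (Q x a)) := by
    rw [FF tf hx, map_add]; rfl
  have key : Q (Q x g) * Q z * Q (Q x g + Q (Q x g) a) * Q z * Q (Q x g)
      = Q (Q (Q x g) z) * Q a * Q (Q (Q x g) z) := by
    have e1 : Q (Q x g) (Q z (Q x g + Q (Q x g) a)) = Q (Q (Q x g) z) a := by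
      rw [map_add, map_add, hz, zero_add, FF tf hb]; rfl
    rw [← FF tf (cubic_Q tf hb z), ← e1, FF tf hb, e0]
    have := FFp tf hx z (g + Q g (Q x a))
    rw [FF tf hx g]
    calc _ = Q x * Q g * (Q x * Q z * Q (Q x (g + Q g (Q x a))) * Q z * Q x) * Q g * Q x := by
          simp only [mul_assoc]
      _ = _ := by rw [← this]; simp only [mul_assoc]
  set b := Q x g
  set b' := b + Q b a
  set c := Q b z
  have hG : ∀ j : ℕ, ∃ G, (Q b' * Q z) ^ j * Q b = Q b * G := by
    intro j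
    cases j with
    | zero => exact ⟨1, by simp⟩
    | succ j =>
      refine ⟨(1 - 2 • (ad a * ad b) + Q a * Q b) * Q z * (Q b' * Q z) ^ j * Q b, ?_⟩
      rw [pow_succ']
      nth_rewrite 1 [show Q b' = _ from Q_add' tf hb a]
      simp only [mul_assoc]
  have hF : ∀ j : ℕ, Q b * Q z * ((Q b' * Q z) ^ j * Q b) = (Q c * Q a) ^ j * Q c := by
    intro j
    induction j with
    | zero => simp [c, FF tf hb]
    | succ j ih =>
      obtain ⟨G, hG⟩ := hG j
      calc _ = Q b * Q z * Q b' * Q z * ((Q b' * Q z) ^ j * Q b) := by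
            rw [pow_succ']; simp only [mul_assoc]
        _ = Q c * Q a * (Q b * Q z * (Q b * G)) := by
            rw [hG, ← mul_assoc, key]; simp only [c, FF tf hb, mul_assoc]
        _ = _ := by rw [← hG, ih, pow_succ']; simp only [mul_assoc]
  rw [← hF, mul_assoc]
  refine cancel tf hb hE a _ (Q b * Q z * (Q b' * Q z) ^ r) (by simp only [mul_assoc]) ?_
  rw [← h, pow_succ']
  nth_rewrite 2 [show Q b' = _ from Q_add tf hb a]
  nth_rewrite 3 [show Q b' = _ from Q_add' tf hb a]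
  simp only [mul_assoc]

theorem exists_sq {n : ℕ} (hE : ∀ a : L, ad a ^ n = 0) (g a : L) (ha : Q (Q x g) a ≠ 0) :
    ∃ z, Q (Q x g) z ≠ 0 ∧ Q (Q x g) (Q z (Q x g)) = 0 := by
  by_contra q
  push Not at q
  let z : ℕ → L := fun i => (fun w => Q w (Q x g))^[i] a
  have zs : ∀ i, z (i + 1) = Q (z i) (Q x g) := fun i => Function.iterate_succ_apply' _ _ _
  have h1 : ∀ i, Q (Q x g) (z i) ≠ 0 := by
    intro i
    induction i with
    | zero => exact ha
    | succ i ih => rw [zs]; exact q _ ih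
  have h2 : ∀ i, Q x * Q (z (i + 1)) * Q x
      = Q x * Q (z i) * Q x * Q g * (Q x * Q (z i) * Q x) := fun i => by
    rw [zs, FFp tf hx, FF tf hx]; simp only [mul_assoc]
  have h3 : ∀ i, Q x * Q (z i) * Q x * Q g = (Q (Q x a) * Q g) ^ (2 ^ i) := by
    intro i
    induction i with
    | zero => simp [z, FF tf hx]
    | succ i ih => rw [h2, mul_assoc, ih, pow_succ, pow_mul, pow_two]
  have h4 : (Q (Q x a) * Q g) ^ (2 * n + 2) = 0 := by
    rw [pow_succ, ← mul_assoc, U_nil tf (cubic_Q tf hx a) hE, zero_mul]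
  have h5 := h2 (2 * n + 2)
  rw [h3, pow_eq_zero_of_le Nat.lt_two_pow_self.le h4, zero_mul] at h5
  apply h1 (2 * n + 2 + 1 + 1)
  rw [zs, FF tf hx]
  have := LinearMap.congr_fun h5 g
  simp only [Module.End.mul_apply] at this ⊢
  rw [this]; simp

end cubic

theorem exists_sandwich_aux (tf : TF 3 L) {n : ℕ} (hE : ∀ a : L, ad a ^ n = 0) :
    ∀ (r : ℕ) (x : L), ad x ^ 3 = 0 → x ≠ 0 →
      (∀ h a, (Q (Q x h) * Q a) ^ r * Q (Q x h) = 0) → ∃ c : L, c ≠ 0 ∧ Q c = 0 := by
  intro r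
  induction r with
  | zero =>
    intro x _ x0 h
    by_cases q : ∀ g, Q x g = 0
    · exact ⟨x, x0, LinearMap.ext q⟩
    push Not at q
    obtain ⟨g, hg⟩ := q
    exact ⟨_, hg, by simpa using h g 0⟩
  | succ r ih =>
    intro x hx x0 h
    by_cases q : ∀ g, Q x g = 0
    · exact ⟨x, x0, LinearMap.ext q⟩
    push Not at q
    obtain ⟨g, hg⟩ := q
    by_cases q : ∀ a, Q (Q x g) a = 0
    · exact ⟨_, hg, LinearMap.ext q⟩
    push Not at q
    obtain ⟨a, ha⟩ := q
    obtain ⟨z, z1, z2⟩ := exists_sq tf hx hE g a ha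
    have hb := cubic_Q tf hx g
    refine ih (Q (Q x g) z) (cubic_Q tf hb z) z1 fun k a => ?_
    have e1 : Q (Q (Q x g) z) k = Q (Q x g) (Q z (Q (Q x g) k)) := by rw [FF tf hb]; rfl
    rw [e1]
    refine step tf hx hE g _ a r ?_ ?_
    · have e2 : Q (Q x g) k = Q x (Q g (Q x k)) := by rw [FF tf hx]; rfl
      have e3 := LinearMap.congr_fun (FFp tf hx z (Q g (Q x k))) g
      rw [← e2, FF tf hb] at e3
      simp only [Module.End.mul_apply] at e3
      rw [z2] at e3
      have e4 : ∀ w, Q (Q x g) w = Q x (Q g (Q x w)) := fun w => by rw [FF tf hx]; rfl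
      rw [e4 (Q _ _), e3]; simp
    · have e0 : Q x g + Q (Q x g) a = Q x (g + Q g (Q x a)) := by
        rw [FF tf hx, map_add]; rfl
      rw [e0]; exact h _ _

/-- A nonzero Engel Lie ring without small torsion contains a nonzero sandwich. -/
theorem exists_sandwich {n : ℕ} (tf : TF n L) (hE : ∀ a : L, ad a ^ n = 0) {x : L} (x0 : x ≠ 0) :
    ∃ c : L, c ≠ 0 ∧ (∀ y : L, ⁅c, ⁅c, y⁆⁆ = 0) ∧ ∀ a y : L, ⁅c, ⁅a, ⁅c, y⁆⁆⁆ = 0 := by
  by_cases h1 : n ≤ 1
  · have : ∀ y : L, ⁅x, y⁆ = 0 := fun y => by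
      simpa using LinearMap.congr_fun (pow_eq_zero_of_le h1 (hE x)) y
    exact ⟨x, x0, fun _ => this _, fun _ _ => this _⟩
  suffices ∃ c : L, c ≠ 0 ∧ Q c = 0 by
    obtain ⟨c, c0, hc⟩ := this
    refine ⟨c, c0, fun y => LinearMap.congr_fun hc y, fun a y => ?_⟩
    have h := ad_Q c a
    rw [hc] at h
    rw [mul_assoc (ad a), show ad c * ad c = 0 from hc] at h
    apply tf 2 (by omega) (by omega)
    simpa using LinearMap.congr_fun h y
  by_cases h2 : n ≤ 2
  · exact ⟨x, x0, by simpa [pow_two, Q] using pow_eq_zero_of_le h2 (hE x)⟩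
  have tf3 := tf.mono (show 3 ≤ n by omega)
  obtain ⟨y, y0, hy⟩ := exists_cubic tf x0 (hE x)
  exact exists_sandwich_aux tf3 hE (2 * n + 1) y hy y0 fun h a =>
    U_nil tf3 (cubic_Q tf3 hy h) hE a

end Pool.Agent.P.MP_1307d3_al.Kos
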