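import Pool.Agent.P.MP_1307d3_al.GSupply
import Pool.Agent.P.MP_1307d3_al.Jordan

/-! From a cubic element to a quadratic element. -/

namespace Pool.Agent.P.MP_1307d3_al.Grp

open End Kos

attribute [local instance 100] LieRing.ofAssociativeRing

section lie
variable {L : Type*} [LieRing L]

theorem Q_comm (tf : TF 3 L) {x : L} (hx : ad x ^ 3 = 0) (a b : L) : ⁅Q x a, Q x b⁆ = 0 := by
  have f2 := F1' tf hx a
  have c := cube0 hx
  have : ad (Q x a) * Q x = 0 := by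
    rw [ad_Q]
    simp only [Q] at f2 ⊢
    have c1 : ad x * (ad x * ad x) = 0 := by rw [← mul_assoc, c]
    simp only [add_mul, sub_mul, smul_mul_assoc, mul_assoc, c1, mul_zero, smul_zero] at f2 ⊢
    simpa using f2
  exact LinearMap.congr_fun this b

theorem desc (tf : TF 3 L) {n : ℕ} (hE : ∀ a : L, ad a ^ n = 0) (Y z : ℕ → L) (m : ℕ)
    (hY : ∀ j ≤ m, ad (Y j) ^ 3 = 0) (hz : ∀ j ≤ m, ad (z j) ^ 3 = 0)
    (h1 : ∀ j ≤ m, Y (j + 1) = Q (Y j) (z j)) (h2 : ∀ j ≤ m, Q (z j) (Y j) = 0) :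
    ∀ r j, j + 1 + r ≤ m → (∀ s t, (Q (Y (j + 1) + Q (Y (j + 1)) s) *
      Q (z (j + 1) + Q (z (j + 1)) t)) ^ r * Q (Y (j + 1) + Q (Y (j + 1)) s) = 0) →
      Y (j + 1 + r + 1) = 0 := by
  intro r
  induction r with
  | zero =>
    intro j hj h
    have := h 0 0
    simp only [map_zero, add_zero, pow_zero, one_mul] at this
    rw [add_zero, h1 _ hj, this]
    rfl
  | succ r ih =>
    intro j hj h
    rw [show j + 1 + (r + 1) + 1 = j + 1 + 1 + r + 1 by ring]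
    refine ih (j + 1) (by omega) fun s t => ?_
    have e : Y (j + 1 + 1) + Q (Y (j + 1 + 1)) s =
        Q (Y (j + 1)) (z (j + 1) + Q (z (j + 1)) (Q (Y (j + 1)) s)) := by
      rw [h1 (j + 1) (by omega), FF tf (hY _ (by omega)), map_add]; rfl
    have e2 : Q (z (j + 1) + Q (z (j + 1)) (Q (Y (j + 1)) s)) (Y (j + 1)) = 0 := by
      rw [Q_add tf (hz _ (by omega)), Module.End.mul_apply, h2 _ (by omega), map_zero]
    have h3 := h (z (j + 1 + 1) + Q (z (j + 1 + 1)) t) (Q (Y (j + 1)) s)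
    rw [e]
    generalize z (j + 1) + Q (z (j + 1)) (Q (Y (j + 1)) s) = zt at e2 h3 ⊢
    rw [h1 j (by omega)] at e2 h3 ⊢
    exact step tf (hY j (by omega)) hE _ _ _ r (by rw [e2, map_zero]) h3

end lie

section ring
variable {R : Type*} [Ring R]

theorem tf3_of_char {p : ℕ} (hp : p.Prime) (h5 : 5 ≤ p) (h0 : (p : R) = 0) : TF 3 R := by
  intro m h1 h2 a ha
  have hc : Nat.Coprime m p := (Nat.coprime_of_lt_prime h1.ne' (by omega) hp).symm
  obtain ⟨u, v, h⟩ := (Nat.isCoprime_iff_coprime.2 hc : IsCoprime (m : ℤ) p)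
  have : a = u • (m • a) + v • ((p : R) * a) := by
    rw [← nsmul_eq_mul, ← natCast_zsmul, ← natCast_zsmul, smul_smul, smul_smul, ← add_smul, h,
      one_smul]
  rw [this, ha, h0]; simp

theorem half_mem {p : ℕ} (hp : p.Prime) (h5 : 5 ≤ p) (h0 : (p : R) = 0) (M : AddSubgroup R) {a : R}
    (h : 2 • a ∈ M) : a ∈ M := by
  obtain ⟨k, hk⟩ := hp.odd_of_ne_two (by omega)
  have : a = (k + 1) • (2 • a) := by
    rw [smul_smul, show (k + 1) * 2 = p + 1 by omega, add_smul, nsmul_eq_mul, h0]; simp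
  rw [this]
  exact M.nsmul_mem h _

theorem f1_of (tf : TF 3 R) {x m : R} (h3 : x ^ 3 = 0) (h : ⁅x, ⁅x, ⁅x, m⁆⁆⁆ = 0) :
    x * (x * (m * x)) = x * (m * (x * x)) := by
  have c : x * (x * x) = 0 := by simpa [pow_succ, mul_assoc] using h3
  have c' : ∀ t, x * (x * (x * t)) = 0 := fun t => by
    rw [← mul_assoc, ← mul_assoc, mul_assoc x x x, c, zero_mul]
  rw [← sub_eq_zero]
  refine tf 3 (by omega) le_rfl _ ?_
  simp only [LieRing.of_associative_ring_bracket, mul_sub, sub_mul, mul_assoc, c, c',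
    mul_zero] at h
  rw [← neg_eq_zero, ← h, smul_sub]; abel

theorem conj_id (tf : TF 3 R) {a a' Y m0 m1 m2 : R} (h1 : a' * a = 1) (h3 : (a - 1) ^ 3 = 0)
    (hY : 2 • Y = 2 • (a - 1) - (a - 1) ^ 2) (e0 : a * m0 * a' - m0 = m1)
    (e1 : a * m1 * a' - m1 = m2) (e2 : a * m2 * a' - m2 = 0) : 2 • ⁅Y, m0⁆ = 2 • m1 - m2 := by
  obtain ⟨x, rfl⟩ : ∃ x, a = x + 1 := ⟨a - 1, by simp⟩
  rw [add_sub_cancel_right] at h3 hY
  have c : x * (x * x) = 0 := by simpa [pow_succ, mul_assoc] using h3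
  have c' : ∀ t, x * (x * (x * t)) = 0 := fun t => by
    rw [← mul_assoc, ← mul_assoc, mul_assoc x x x, c, zero_mul]
  have ha : a' = 1 - x + x * x := by
    have : (x + 1) * (1 - x + x * x) = 1 := by
      simp only [mul_add, add_mul, mul_sub, mul_one, one_mul, c]; abel
    calc a' = a' * ((x + 1) * (1 - x + x * x)) := by rw [this, mul_one]
      _ = _ := by rw [← mul_assoc, h1, one_mul]
  have d : ∀ m m', (x + 1) * m * a' - m = m' → ⁅x, m⁆ = m' * (x + 1) := fun m m' h => by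
    rw [← h, sub_mul, mul_assoc, h1, LieRing.of_associative_ring_bracket]; noncomm_ring
  have d' : ∀ m, ⁅x, m * (x + 1)⁆ = ⁅x, m⁆ * (x + 1) := fun m => by
    simp only [LieRing.of_associative_ring_bracket]; noncomm_ring
  have f := f1_of tf h3 (m := m0) (by
    rw [d _ _ e0, d', d _ _ e1, d', d', d _ _ e2, zero_mul, zero_mul, zero_mul])
  have f' : ∀ t, x * (x * (m0 * (x * t))) = x * (m0 * (x * (x * t))) := fun t => by
    simpa only [mul_assoc] using congrArg (· * t) f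
  rw [← nsmul_lie, hY, ← e1, ← e0, ha]
  simp only [LieRing.of_associative_ring_bracket, two_smul, pow_two, mul_add, add_mul, mul_sub,
    sub_mul, mul_assoc, mul_one, one_mul, c, f, f', mul_zero, zero_mul]
  abel

theorem cube_Q (tf : TF 3 R) {x m : R} (h3 : x ^ 3 = 0) (h : ⁅x, ⁅x, ⁅x, m⁆⁆⁆ = 0) :
    ⁅x, ⁅x, m⁆⁆ ^ 3 = 0 := by
  have c : x * (x * x) = 0 := by simpa [pow_succ, mul_assoc] using h3
  have c' : ∀ t, x * (x * (x * t)) = 0 := fun t => by
    rw [← mul_assoc, ← mul_assoc, mul_assoc x x x, c, zero_mul]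
  have f := f1_of tf h3 h
  have f' : ∀ t, x * (x * (m * (x * t))) = x * (m * (x * (x * t))) := fun t => by
    simpa only [mul_assoc] using congrArg (· * t) f
  simp only [LieRing.of_associative_ring_bracket, pow_succ, pow_zero, mul_sub,
    sub_mul, mul_assoc, one_mul, c, c', f, f', mul_zero, zero_mul, sub_self, sub_zero]

/-- `f` raises the two sided filtration defined by `M` by `i`. -/
def Kill (L : LieSubalgebra ℤ R) (M : AddSubgroup R) (k i : ℕ) (f : Module.End ℤ L) : Prop :=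
  ∀ α β : List R, (∀ x ∈ α, x ∈ M) → (∀ x ∈ β, x ∈ M) → 2 * k ≤ α.length + β.length + i →
    ∀ u : L, α.prod * (f u : R) * β.prod = 0

variable {L : LieSubalgebra ℤ R} {M : AddSubgroup R} {k : ℕ}

theorem Kill.zero (h : NilAt M k) (f : Module.End ℤ L) : Kill L M k 0 f := by
  intro α β ha hb hl u
  by_cases h1 : k ≤ α.length
  · rw [h α h1 ha, zero_mul, zero_mul]
  · rw [h β (by omega) hb, mul_zero]

theorem Kill.ad {i : ℕ} {f : Module.End ℤ L} (h : Kill L M k i f) {m : L} (hm : (m : R) ∈ M) :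
    Kill L M k (i + 1) (Kos.ad m * f) := by
  intro α β ha hb hl u
  have h1 := h (α ++ [m.1]) β (by simpa [or_imp, forall_and, hm] using ha) hb
    (by simp; omega) u
  have h2 := h α (m.1 :: β) ha (by simpa [hm] using hb) (by simp; omega) u
  change α.prod * (m.1 * (f u).1 - (f u).1 * m.1) * β.prod = 0
  simp only [List.prod_append, List.prod_cons, List.prod_nil, mul_one, mul_assoc] at h1 h2
  simp only [mul_sub, sub_mul, mul_assoc, h1, h2, sub_self]

theorem Kill.pred {i : ℕ} {f : Module.End ℤ L} (h : Kill L M k (i + 1) f) : Kill L M k i f :=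
  fun α β ha hb hl => h α β ha hb (by omega)

theorem pow_eq_zero_of_kill (h : NilAt M k) (g : Module.End ℤ L)
    (hg : ∀ i f, Kill L M k i f → Kill L M k (i + 1) (g * f)) : g ^ (2 * k) = 0 := by
  have : ∀ i, Kill L M k i (g ^ i) := by
    intro i
    induction i with
    | zero => exact Kill.zero h _
    | succ i ih => rw [pow_succ']; exact hg _ _ ih
  ext u
  simpa using this (2 * k) [] [] (by simp) (by simp) (by simp) u

end ring

section grp
variable {p : ℕ} {G : Type} [Group G] {R : Type} [Ring R] {ρ : G →* R} {lg : G → R}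

theorem IsLog.oneJ (L : IsLog ρ lg) : lg 1 = 0 := by simpa using L.add 1 1 rfl

theorem IsLog.invJ (L : IsLog ρ lg) (a : G) : lg a⁻¹ = -lg a := by
  have := L.add a a⁻¹ (by simp)
  rw [mul_inv_cancel, L.oneJ] at this
  exact eq_neg_of_add_eq_zero_right this.symm

theorem IsLog.mem_om (L : IsLog ρ lg) {H : Subgroup G} {a : G} (ha : a ∈ H) : lg a ∈ Om ρ H := by
  refine AddSubgroup.closure_mono ?_ (L.mem a)
  rintro _ ⟨i, rfl⟩
  exact ⟨_, H.pow_mem ha i, rfl⟩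

theorem IsLog.lie_eq (L : IsLog ρ lg) {a b : G} (h : a * b = b * a) : ⁅lg a, lg b⁆ = 0 := by
  have : Commute (lg a) (lg b) := by
    refine AddSubgroup.closure_induction (p := fun x _ => Commute x (lg b)) ?_ (Commute.zero_left _)
      (fun _ _ _ _ => Commute.add_left) (fun _ _ => Commute.neg_left) (L.mem a)
    rintro _ ⟨i, rfl⟩
    refine AddSubgroup.closure_induction (p := fun x _ => Commute (ρ (a ^ i) - 1) x) ?_
      (Commute.zero_right _) (fun _ _ _ _ => Commute.add_right) (fun _ _ => Commute.neg_right)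
      (L.mem b)
    rintro _ ⟨j, rfl⟩
    have := ((show Commute a b from h).pow_pow i j).map ρ
    exact ((this.sub_left (Commute.one_left _)).sub_right (Commute.one_right _))
  exact sub_eq_zero.2 this

theorem IsLog.commJ (L : IsLog ρ lg) (inj : Function.Injective ρ) {a b : G}
    (h : ⁅lg a, lg b⁆ = 0) : a * b = b * a := by
  have h1 : Commute (lg a) (lg b) := sub_eq_zero.1 h
  have h2 : ∀ u v : R, Commute u v → ∀ w ∈ Subring.closure {v}, Commute u w := fun u v h w hw =>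
    (Subring.closure_le (t := Subring.centralizer {u})).2
      (by rintro _ rfl _ rfl; exact h) hw u rfl
  apply inj
  rw [map_mul, map_mul]
  exact h2 _ _ (h2 _ _ h1.symm _ (L.back a)).symm _ (L.back b)

theorem IsLog.cm_eqJ (L : IsLog ρ lg) {B : Subgroup G} (hB : Abel B) {c : G}
    (hc : ∀ b ∈ B, c * b * c⁻¹ ∈ B) {w : G} (hw : w ∈ B) :
    lg (cm c w) = lg (c * w * c⁻¹) - lg w := by
  rw [cm, L.add _ _ (hB _ (hc w hw) _ (B.inv_mem hw)), L.invJ, sub_eq_add_neg]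

theorem cm_mem' {B : Subgroup G} {c : G} (hc : ∀ b ∈ B, c * b * c⁻¹ ∈ B) {w : G} (hw : w ∈ B) :
    cm c w ∈ B := B.mul_mem (hc w hw) (B.inv_mem hw)

theorem IsLog.act (L : IsLog ρ lg) (tf : TF 3 R) {B : Subgroup G} (hB : Abel B) {c : G}
    (hc : ∀ b ∈ B, c * b * c⁻¹ ∈ B) (h3 : (ρ c - 1) ^ 3 = 0) {w : G} (hw : w ∈ B)
    (h : cm c (cm c (cm c w)) = 1) :
    2 • ⁅lg c, lg w⁆ = 2 • lg (cm c w) - lg (cm c (cm c w)) ∧
      ⁅lg c, ⁅lg c, lg w⁆⁆ = lg (cm c (cm c w)) ∧ ⁅lg c, lg (cm c (cm c w))⁆ = 0 := by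
  have h1 : ρ c⁻¹ * ρ c = 1 := by rw [← map_mul, inv_mul_cancel, map_one]
  have e : ∀ w ∈ B, ρ c * lg w * ρ c⁻¹ - lg w = lg (cm c w) := fun w hw => by
    rw [L.cm_eqJ hB hc hw, L.conj]
  have w1 := cm_mem' hc hw
  have w2 := cm_mem' hc w1
  have e2 := e _ w2
  rw [h, L.oneJ] at e2
  have z : ρ c * 0 * ρ c⁻¹ - 0 = 0 := by simp
  have a0 := conj_id tf h1 h3 (L.cubic c h3) (e _ hw) (e _ w1) e2
  have a1 := conj_id tf h1 h3 (L.cubic c h3) (e _ w1) e2 z
  have a2 := tf 2 (by omega) (by omega) _ ((conj_id tf h1 h3 (L.cubic c h3) e2 z z).trans (by simp))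
  refine ⟨a0, sub_eq_zero.1 (tf 2 (by omega) (by omega) _ ?_), a2⟩
  rw [smul_sub, ← lie_nsmul, a0, lie_sub, lie_nsmul, a1, a2]
  simp

/-- A finite stage of the tower. -/
structure Good (ρ : G →* R) (lg : G → R) (T : Set G) : Prop where
  fin : T.Finite
  cub : ∀ c ∈ T, (ρ c - 1) ^ 3 = 0
  br : ∀ c ∈ T, ∀ d ∈ T, ⁅lg c, lg d⁆ ∈ AddSubgroup.closure (lg '' T)
  ad3 : ∀ c ∈ T, ∀ d ∈ T, ⁅lg c, ⁅lg c, ⁅lg c, lg d⁆⁆⁆ = 0
  q : ∀ c ∈ T, ∀ d ∈ T, ∃ e, lg e = ⁅lg c, ⁅lg c, lg d⁆⁆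

/-- The supply of cubic elements. -/
def Supply (ρ : G →* R) : Prop :=
  ∀ a : G, a ≠ 1 → (ρ a - 1) ^ 3 = 0 → ∀ S : Finset G, ∃ B : Subgroup G, Abel B ∧
    Nz (S : Set G) B ∧ ∃ v ∈ B, (ρ v - 1) ^ 3 = 0 ∧ (cm a)^[2] v ≠ 1

theorem Good.ext (hp : p.Prime) (h5 : 5 ≤ p) (hL : LocFin G) (C : Canon p ρ) (L : IsLog ρ lg)
    (sup : Supply ρ) {T : Set G} (hT : Good ρ lg T) {y : G} (hy : y ∈ T) (y1 : y ≠ 1) :
    ∃ T', T ⊆ T' ∧ Good ρ lg T' ∧ ∃ z ∈ T', ∃ y' ∈ T', y' ≠ 1 ∧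
      lg y' = ⁅lg y, ⁅lg y, lg z⁆⁆ ∧ ⁅lg z, ⁅lg z, lg y⁆⁆ = 0 := by
  classical
  have tf := tf3_of_char hp h5 C.char
  choose! S hS1 hS2 using fun c hc => (C.idx 3 c).1 (hT.cub c hc)
  obtain ⟨B, hB, hN, v, hv, hv3, hv2⟩ := sup y y1 (hT.cub y hy) (hT.fin.toFinset.biUnion S)
  have hsub : ∀ c ∈ T, ∀ s ∈ S c, s ∈ hT.fin.toFinset.biUnion S := fun c hc s hs =>
    Finset.mem_biUnion.2 ⟨c, hT.fin.mem_toFinset.2 hc, hs⟩
  have hn : ∀ c ∈ T, ∀ b ∈ B, c * b * c⁻¹ ∈ B := fun c hc => hN c (hsub c hc c (hS1 c hc))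
  have hA := fun c hc w hw => L.act tf hB (hn c hc) (hT.cub c hc) hw
    (hS2 c hc B hB (fun s hs => hN s (hsub c hc s hs)) w hw)
  let H := Subgroup.closure (insert v T)
  have hTH : ∀ c ∈ T, c ∈ H := fun c hc => Subgroup.subset_closure (Set.mem_insert_of_mem _ hc)
  let N : Set G := {w | w ∈ B ∧ w ∈ H ∧ (ρ w - 1) ^ 3 = 0}
  have n1 : ∀ c ∈ T, ∀ w ∈ N, c * w * c⁻¹ ∈ N := fun c hc w hw =>
    ⟨hn c hc w hw.1, H.mul_mem (H.mul_mem (hTH c hc) hw.2.1) (H.inv_mem (hTH c hc)), by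
      have e : ρ (c * w * c⁻¹) - 1 = ρ c * (ρ w - 1) * ρ c⁻¹ := by
        rw [mul_sub, sub_mul, mul_one, ← map_mul, ← map_mul, ← map_mul, mul_inv_cancel, map_one]
      have e1 : ∀ t, ρ c⁻¹ * (ρ c * t) = t := fun t => by
        rw [← mul_assoc, ← map_mul, inv_mul_cancel, map_one, one_mul]
      have e2 := hw.2.2
      rw [e]
      generalize ρ w - 1 = x at e2 ⊢
      simp only [pow_succ, pow_zero, one_mul, mul_assoc, e1] at e2 ⊢
      rw [← mul_assoc x x, ← mul_assoc (x * x), mul_assoc x x x, e2, zero_mul, mul_zero]⟩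
  have n2 : ∀ c ∈ T, ∀ w ∈ N, cm c (cm c w) ∈ N := fun c hc w hw => by
    have hH : ∀ b ∈ H, c * b * c⁻¹ ∈ H := fun b hb =>
      H.mul_mem (H.mul_mem (hTH c hc) hb) (H.inv_mem (hTH c hc))
    refine ⟨cm_mem' (hn c hc) (cm_mem' (hn c hc) hw.1), cm_mem' hH (cm_mem' hH hw.2.1), ?_⟩
    rw [← L.pow, ← (hA c hc w hw.1).2.1]
    refine cube_Q tf ((L.pow 3 c).2 (hT.cub c hc)) ?_
    rw [(hA c hc w hw.1).2.1, (hA c hc w hw.1).2.2]
  have hm : ∀ w ∈ N, lg w ∈ AddSubgroup.closure (lg '' (T ∪ N)) := fun w hw =>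
    AddSubgroup.subset_closure ⟨w, Or.inr hw, rfl⟩
  have b1 : ∀ c ∈ T, ∀ w ∈ N, ⁅lg c, lg w⁆ ∈ AddSubgroup.closure (lg '' (T ∪ N)) :=
    fun c hc w hw => half_mem hp h5 C.char _ (by
      rw [(hA c hc w hw.1).1, L.cm_eqJ hB (hn c hc) hw.1]
      exact sub_mem (nsmul_mem (sub_mem (hm _ (n1 c hc w hw)) (hm _ hw)) _) (hm _ (n2 c hc w hw)))
  have b2 : ∀ w ∈ N, ∀ d ∈ T ∪ N, ⁅lg w, ⁅lg w, lg d⁆⁆ = 0 := by
    rintro w hw d (hd | hd)
    · rw [← lie_skew (lg w) (lg d), lie_neg, neg_eq_zero]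
      refine tf 2 (by omega) (by omega) _ ?_
      have w1 := cm_mem' (hn d hd) hw.1
      rw [← lie_nsmul, (hA d hd w hw.1).1, lie_sub, lie_nsmul, L.lie_eq (hB _ hw.1 _ w1),
        L.lie_eq (hB _ hw.1 _ (cm_mem' (hn d hd) w1))]
      simp
    · rw [L.lie_eq (hB _ hw.1 _ hd.1), lie_zero]
  have hvN : v ∈ N := ⟨hv, Subgroup.subset_closure (Set.mem_insert _ _), hv3⟩
  refine ⟨T ∪ N, Set.subset_union_left, ⟨?_, ?_, ?_, ?_, ?_⟩, v, Or.inr hvN, _,
    Or.inr (n2 y hy v hvN), hv2, (hA y hy v hv).2.1.symm, b2 v hvN y (Or.inl hy)⟩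
  · exact hT.fin.union ((hL _ (hT.fin.insert v)).subset fun w hw => hw.2.1)
  · rintro c (hc | hc)
    exacts [hT.cub c hc, hc.2.2]
  · rintro c (hc | hc) d (hd | hd)
    · exact AddSubgroup.closure_mono (Set.image_mono Set.subset_union_left) (hT.br c hc d hd)
    · exact b1 c hc d hd
    · rw [← lie_skew]; exact neg_mem (b1 d hd c hc)
    · rw [L.lie_eq (hB _ hc.1 _ hd.1)]; exact zero_mem _
  · rintro c (hc | hc) d hd
    · rcases hd with hd | hd
      · exact hT.ad3 c hc d hd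
      · rw [(hA c hc d hd.1).2.1, (hA c hc d hd.1).2.2]
    · rw [b2 c hc d hd, lie_zero]
  · rintro c (hc | hc) d hd
    · rcases hd with hd | hd
      · exact hT.q c hc d hd
      · exact ⟨_, (hA c hc d hd.1).2.1.symm⟩
    · exact ⟨1, by rw [b2 c hc d hd, L.oneJ]⟩

theorem tower (hp : p.Prime) (h5 : 5 ≤ p) (hL : LocFin G) (C : Canon p ρ) (L : IsLog ρ lg)
    (sup : Supply ρ) {a : G} (a1 : a ≠ 1) (ha : (ρ a - 1) ^ 3 = 0) (n : ℕ) :
    ∃ T, Good ρ lg T ∧ ∃ y z : ℕ → G, y n ∈ T ∧ y n ≠ 1 ∧ ∀ j < n, y j ∈ T ∧ z j ∈ T ∧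
      lg (y (j + 1)) = ⁅lg (y j), ⁅lg (y j), lg (z j)⁆⁆ ∧ ⁅lg (z j), ⁅lg (z j), lg (y j)⁆⁆ = 0 := by
  induction n with
  | zero =>
    refine ⟨{a}, ⟨Set.finite_singleton _, ?_, ?_, ?_, ?_⟩, fun _ => a, fun _ => a, rfl, a1,
      fun j hj => absurd hj (by omega)⟩
    · rintro _ rfl; exact ha
    · rintro _ rfl _ rfl; rw [lie_self]; exact zero_mem _
    · rintro _ rfl _ rfl; rw [lie_self, lie_zero, lie_zero]
    · rintro _ rfl _ rfl; exact ⟨1, by rw [lie_self, lie_zero, L.oneJ]⟩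
  | succ n ih =>
    obtain ⟨T, hT, y, z, h1, h2, h3⟩ := ih
    obtain ⟨T', hs, hT', z', hz', y', hy', h4, h6, h7⟩ := hT.ext hp h5 hL C L sup h1 h2
    refine ⟨T', hT', Function.update y (n + 1) y', Function.update z n z', by simpa, by simpa,
      fun j hj => ?_⟩
    rw [Function.update_of_ne (show j ≠ n + 1 by omega)]
    rcases Nat.lt_succ_iff_lt_or_eq.1 hj with hj | rfl
    · rw [Function.update_of_ne hj.ne, Function.update_of_ne (show j + 1 ≠ n + 1 by omega)]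
      exact ⟨hs (h3 j hj).1, hs (h3 j hj).2.1, (h3 j hj).2.2⟩
    · rw [Function.update_self, Function.update_self]
      exact ⟨hs h1, hz', h6, h7⟩

theorem not_supply (hp : p.Prime) (h5 : 5 ≤ p) (hL : LocFin G) (C : Canon p ρ)
    (inj : Function.Injective ρ) (L : IsLog ρ lg)
    (nil : ∀ H : Subgroup G, (H : Set G).Finite → ∃ N, NilAt (Om ρ H) N)
    {k : ℕ} (nil2 : ∀ a b : G, NilAt (Om ρ (Subgroup.closure {a, b})) k)
    {a : G} (a1 : a ≠ 1) (ha : (ρ a - 1) ^ 3 = 0) : ¬ Supply ρ := by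
  classical
  intro sup
  obtain ⟨T, hT, y, z, -, h2, h3⟩ := tower hp h5 hL C L sup a1 ha (2 * k + 2)
  let A := AddSubgroup.closure (lg '' T)
  let M : LieSubalgebra ℤ R :=
    { AddSubgroup.toIntSubmodule A with
      lie_mem' := fun {u v} hu hv => by
        change ⁅u, v⁆ ∈ A
        refine AddSubgroup.closure_induction (p := fun u _ => ⁅u, v⁆ ∈ A) ?_ (by simp)
          (fun _ _ _ _ h1 h2 => by rw [add_lie]; exact add_mem h1 h2)
          (fun _ _ h1 => by rw [neg_lie]; exact neg_mem h1) hu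
        rintro _ ⟨c, hc, rfl⟩
        refine AddSubgroup.closure_induction (p := fun v _ => ⁅lg c, v⁆ ∈ A) ?_ (by simp)
          (fun _ _ _ _ h1 h2 => by rw [lie_add]; exact add_mem h1 h2)
          (fun _ _ h1 => by rw [lie_neg]; exact neg_mem h1) hv
        rintro _ ⟨d, hd, rfl⟩
        exact hT.br c hc d hd }
  have tf : TF 3 M := fun m h1 h2 u hu =>
    Subtype.ext (tf3_of_char hp h5 C.char m h1 h2 _ (congrArg Subtype.val hu))
  let E : G → M := fun c => if h : c ∈ T then ⟨lg c, AddSubgroup.subset_closure ⟨c, h, rfl⟩⟩ else 0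
  have hEc : ∀ c ∈ T, (E c : R) = lg c := fun c hc => by simp [E, hc]
  have ind : ∀ P : M → Prop, (∀ d ∈ T, P (E d)) → P 0 → (∀ u v, P u → P v → P (u + v)) →
      (∀ u, P u → P (-u)) → ∀ u, P u := by
    rintro P g0 g1 g2 g3 ⟨u, hu⟩
    induction hu using AddSubgroup.closure_induction with
    | mem u hu =>
      obtain ⟨d, hd, rfl⟩ := hu
      convert g0 d hd using 1
      exact Subtype.ext (hEc d hd).symm
    | zero => exact g1
    | add u v _ _ hu hv => exact g2 _ _ hu hv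
    | neg u _ hu => exact g3 _ hu
  have hc3 : ∀ c ∈ T, ad (E c) ^ 3 = 0 := fun c hc => LinearMap.ext fun u => by
    refine ind (fun u => (ad (E c) ^ 3) u = 0) (fun d hd => Subtype.ext ?_) (map_zero _)
      (fun u v h1 h2 => by rw [map_add, h1, h2, add_zero])
      (fun u h1 => by rw [map_neg, h1, neg_zero]) u
    have := hT.ad3 c hc d hd
    rwa [← hEc c hc, ← hEc d hd] at this
  obtain ⟨n, hn⟩ := nil _ (hL _ hT.fin)
  have hE : ∀ u : M, ad u ^ (2 * n) = 0 := fun u =>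
    pow_eq_zero_of_kill hn _ fun i f hf => hf.ad (by
      refine (AddSubgroup.closure_le _).2 ?_ u.2
      rintro _ ⟨c, hc, rfl⟩
      exact L.mem_om (Subgroup.subset_closure hc))
  have hlog : ∀ c ∈ T, ∀ s : M, ∃ g, lg g = (E c + Q (E c) s : M) := fun c hc s => by
    obtain ⟨e, he⟩ := ind (fun s => ∃ e, lg e = (Q (E c) s : M)) (fun d hd => by
        obtain ⟨e, he⟩ := hT.q c hc d hd
        exact ⟨e, by rw [he, ← hEc c hc, ← hEc d hd]; rfl⟩) ⟨1, by simp [L.oneJ]⟩ (by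
        rintro u v ⟨e, he⟩ ⟨e', he'⟩
        refine ⟨e * e', ?_⟩
        rw [L.add _ _ (L.commJ inj ?_), he, he', map_add]
        · rfl
        · rw [he, he']
          exact congrArg Subtype.val (Q_comm tf (hc3 c hc) u v)) (by
        rintro u ⟨e, he⟩
        exact ⟨e⁻¹, by rw [L.invJ, he, map_neg]; rfl⟩) s
    refine ⟨c * e, ?_⟩
    rw [L.add _ _ (L.commJ inj ?_), he, ← hEc c hc]
    · rfl
    · rw [he, ← hEc c hc]
      exact congrArg Subtype.val (LinearMap.congr_fun (cube0 (hc3 c hc)) s)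
  have hy : ∀ j ≤ 2 * k + 1, y j ∈ T := fun j hj => (h3 j (by omega)).1
  have hz : ∀ j ≤ 2 * k + 1, z j ∈ T := fun j hj => (h3 j (by omega)).2.1
  let Y : ℕ → M := fun j => if j ≤ 2 * k + 1 then E (y j) else Q (E (y (j - 1))) (E (z (j - 1)))
  have hY : ∀ j ≤ 2 * k + 1, Y j = E (y j) := fun j hj => if_pos hj
  have hQ : ∀ j ≤ 2 * k + 1, (Q (E (y j)) (E (z j)) : M) = lg (y (j + 1)) := fun j hj => by
    rw [(h3 j (by omega)).2.2.1, ← hEc _ (hy j hj), ← hEc _ (hz j hj)]; rfl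
  have key := desc tf hE Y (fun j => E (z j)) (2 * k + 1)
    (fun j hj => by rw [hY j hj]; exact hc3 _ (hy j hj)) (fun j hj => hc3 _ (hz j hj))
    (fun j hj => by
      rw [hY j hj]
      by_cases h : j + 1 ≤ 2 * k + 1
      · rw [hY _ h]
        exact Subtype.ext ((hEc _ (hy _ h)).trans (hQ j hj).symm)
      · exact if_neg h)
    (fun j hj => Subtype.ext (by
      have := (h3 j (by omega)).2.2.2
      rwa [← hEc _ (hy j hj), ← hEc _ (hz j hj), ← hY j hj] at this))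
    (2 * k) 0 (by omega) fun s t => by
      rw [hY _ (by omega)]
      obtain ⟨g, hg⟩ := hlog _ (hy (0 + 1) (by omega)) s
      obtain ⟨g', hg'⟩ := hlog _ (hz (0 + 1) (by omega)) t
      have m1 := L.mem_om (H := Subgroup.closure {g, g'}) (a := g)
        (Subgroup.subset_closure (by simp))
      have m2 := L.mem_om (H := Subgroup.closure {g, g'}) (a := g')
        (Subgroup.subset_closure (by simp))
      rw [hg] at m1
      rw [hg'] at m2
      rw [pow_eq_zero_of_kill (nil2 g g') _ fun i f hf => ?_, zero_mul]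
      simp only [Q, mul_assoc] at m1 m2 ⊢
      exact ((((hf.ad m2).pred.ad m2).pred.ad m1).pred.ad m1)
  have e : Y (0 + 1 + 2 * k + 1) = Q (E (y (2 * k + 1))) (E (z (2 * k + 1))) := by
    simp only [Y]
    rw [if_neg (by omega), show 0 + 1 + 2 * k + 1 - 1 = 2 * k + 1 by omega]
  have h4 := hQ (2 * k + 1) le_rfl
  rw [← e, key] at h4
  have h6 := (L.pow 1 (y (2 * k + 2))).1 (by rw [pow_one, ← h4]; rfl)
  rw [pow_one, sub_eq_zero, ← map_one ρ] at h6
  exact h2 (inj h6)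

theorem exists_quadratic (hp : p.Prime) (h5 : 5 ≤ p) (hL : LocFin G)
    (hE : ∀ g : G, g ^ p = 1) (C : Canon p ρ)
    (inj : Function.Injective ρ) (L : IsLog ρ lg)
    (nil : ∀ H : Subgroup G, (H : Set G).Finite → ∃ N, NilAt (Om ρ H) N)
    {k : ℕ} (nil2 : ∀ a b : G, NilAt (Om ρ (Subgroup.closure {a, b})) k)
    {a : G} (a1 : a ≠ 1) (ha : (ρ a - 1) ^ 3 = 0) : ∃ b : G, b ≠ 1 ∧ (ρ b - 1) ^ 2 = 0 := by
  by_contra q
  refine not_supply hp h5 hL C inj L nil nil2 a1 ha fun a a1 ha S =>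
    supply hp h5 hE C L (fun b hb => ?_) a1 ha S
  by_contra b1
  exact q ⟨b, b1, hb⟩

end grp

end Pool.Agent.P.MP_1307d3_al.Grp
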