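import Mathlib

/-! Kostrikin's descent lemma for ad-nilpotent elements of a Lie ring. -/

namespace Pool.Agent.P.MP_1307d3_al.Kos

/-- No `m`-torsion for `1 ≤ m ≤ n`. -/
def TF (n : ℕ) (M : Type*) [AddCommGroup M] : Prop :=
  ∀ m : ℕ, 0 < m → m ≤ n → ∀ a : M, m • a = 0 → a = 0

theorem TF.mono {n n' : ℕ} {M : Type*} [AddCommGroup M] (h : TF n M) (hn : n' ≤ n) : TF n' M :=
  fun m a b => h m a (b.trans hn)

theorem TF.end {n : ℕ} {M : Type*} [AddCommGroup M] (h : TF n M) : TF n (Module.End ℤ M) :=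
  fun m a b f hf => LinearMap.ext fun x => h m a b _ (by simpa using LinearMap.congr_fun hf x)

section ring
variable {R : Type*} [Ring R]

theorem pow_comm_step {X V Y : R} (h : X * V - V * X = Y) (hc : Commute X Y) (j : ℕ) :
    X ^ (j + 1) * V - V * X ^ (j + 1) = (j + 1) • (X ^ j * Y) := by
  induction j with
  | zero => simpa using h
  | succ j ih =>
    have e : X ^ (j + 1 + 1) * V - V * X ^ (j + 1 + 1)
        = X * (X ^ (j + 1) * V - V * X ^ (j + 1)) + (X * V - V * X) * X ^ (j + 1) := by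
      rw [pow_succ' X (j + 1)]; noncomm_ring
    rw [e, ih, h, mul_smul_comm, ← mul_assoc, ← pow_succ', ← (hc.pow_left (j + 1)).eq,
      succ_nsmul _ (j + 1)]

/-- The Heisenberg relations. -/
theorem heis {n : ℕ} (tf : TF n R) {X V Y : R} (h : X * V - V * X = Y) (hc : Commute X Y)
    (hv : Commute V Y) (hX : X ^ n = 0) : ∀ i j : ℕ, i + j = n → X ^ j * Y ^ i = 0 := by
  intro i
  induction i with
  | zero => intro j hj; simp at hj; simp [hj, hX]
  | succ i ih =>
    intro j hj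
    have h1 := ih (j + 1) (by omega)
    apply tf (j + 1) (by omega) (by omega)
    have : (X ^ (j + 1) * V - V * X ^ (j + 1)) * Y ^ i = 0 := by
      rw [sub_mul, mul_assoc, (hv.pow_right i).eq, ← mul_assoc, h1, mul_assoc V, h1]; simp
    rw [pow_comm_step h hc, smul_mul_assoc, mul_assoc, ← pow_succ'] at this
    exact this

theorem comm1 {S1 S2 Y : R} (h : S1 * Y - Y * S1 = S2) (hc : Commute S2 Y) (j : ℕ) :
    S1 * Y ^ (j + 1) = Y ^ (j + 1) * S1 + (j + 1) • (Y ^ j * S2) := by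
  have := pow_comm_step (X := Y) (V := S1) (Y := -S2) (by rw [← h]; abel) hc.symm.neg_right j
  rw [mul_neg, smul_neg] at this
  rw [← sub_eq_zero, ← neg_eq_zero, ← sub_eq_zero.2 this]; abel

theorem comm2 {S S1 S2 Y : R} (h0 : S * Y - Y * S = S1) (h : S1 * Y - Y * S1 = S2)
    (hc : Commute S2 Y) (r : ℕ) :
    S * Y ^ (r + 2) = Y ^ (r + 2) * S + (r + 2) • (Y ^ (r + 1) * S1)
      + (r + 2).choose 2 • (Y ^ r * S2) := by
  have a : S * Y = Y * S + S1 := by rw [← h0]; abel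
  have b : S1 * Y = Y * S1 + S2 := by rw [← h]; abel
  induction r with
  | zero =>
    simp only [zero_add, pow_two, pow_one, pow_zero, one_mul, Nat.choose_self, one_smul]
    rw [← mul_assoc, a, add_mul, mul_assoc, a, b]; noncomm_ring
  | succ r ih =>
    rw [show r + 1 + 2 = (r + 2) + 1 from rfl, pow_succ Y (r + 2), ← mul_assoc, ih,
      Nat.choose_succ_succ' (r + 2) 1, Nat.choose_one_right]
    simp only [add_mul, smul_mul_assoc, mul_assoc, a, b, hc.eq, mul_add, smul_add, add_smul]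
    simp only [← mul_assoc, ← pow_succ]
    abel

/-- The ring computation behind Kostrikin's lemma. -/
theorem kos_ring {r : ℕ} (tf : TF (r + 4) R) {X S U V Y W S1 S2 : R}
    (hX : X ^ (r + 4) = 0) (hU : X * S - S * X = U) (hV : X * U - U * X = V)
    (hY : X * V - V * X = Y) (xy : Commute X Y) (vy : Commute V Y)
    (h1 : S * Y - Y * S = S1) (h2 : S1 * Y - Y * S1 = S2) (h3 : Commute S2 Y)
    (hW : X * S1 - S1 * X = W) (xw : Commute X W) (wy : Commute W Y) (xs : Commute X S2) :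
    Y ^ (r + 3) = 0 := by
  have P2 : X * X * Y ^ (r + 2) = 0 := by
    simpa [pow_two] using heis tf hY xy vy hX (r + 2) 2 rfl
  have P3 : X * X * X * Y ^ (r + 1) = 0 := by
    simpa [pow_succ] using heis tf hY xy vy hX (r + 1) 3 rfl
  have eY : Y = X * X * X * S - 3 • (X * X * S * X) + 3 • (X * S * X * X) - S * X * X * X := by
    rw [← hY, ← hV, ← hU]; noncomm_ring
  have c2 := comm2 h1 h2 h3 r
  have c1 := comm1 h2 h3 r
  set c := (r + 2).choose 2 with hc
  have hc2 : 2 * c = (r + 2) * (r + 1) := by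
    rw [hc, Nat.choose_two_right, Nat.mul_div_cancel' ]
    · rfl
    · simpa using (Nat.even_mul_pred_self (r + 2)).two_dvd
  have x0 := (xy.pow_right r).eq
  have x1 := (xy.pow_right (r + 1)).eq
  have x2 := (xy.pow_right (r + 2)).eq
  have w1 := (wy.pow_right (r + 1)).eq
  set A := Y ^ r
  set B := Y ^ (r + 1)
  set C := Y ^ (r + 2)
  have xs1 : X * S1 = S1 * X + W := by rw [← hW]; abel
  have s1x : S1 * X = X * S1 - W := by rw [← hW]; abel
  set T := X * X * X * A * S2 with hT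
  set Z := X * X * B * W with hZ
  have c3 : C * S = S * C - (r + 2) • (S1 * B) + c • (A * S2) := by
    rw [c2, c1, smul_add, ← mul_smul, ← hc2, two_mul c, add_smul c c]; abel
  have CX : C * X * X = 0 := by rw [← x2, mul_assoc, ← x2, ← mul_assoc, P2]
  have BX : B * X * X * X = 0 := by
    rw [← x1, mul_assoc X, ← x1, mul_assoc, mul_assoc, ← x1, ← mul_assoc, ← mul_assoc, P3]
  have AX : A * S2 * X = X * A * S2 := by rw [mul_assoc, ← xs.eq, ← mul_assoc, ← x0]
  have AX2 : A * S2 * X * X = X * X * A * S2 := by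
    rw [AX, mul_assoc X A, mul_assoc X, AX]; simp only [mul_assoc]
  have AX3 : A * S2 * X * X * X = T := by
    rw [AX2, mul_assoc (X * X) A, mul_assoc (X * X), AX, hT]; simp only [mul_assoc]
  have l1 : C * S * X * X * X = c • T := by
    rw [c3]
    simp only [add_mul, sub_mul, smul_mul_assoc]
    rw [AX3, mul_assoc S C, mul_assoc S, CX, mul_assoc S1 B, mul_assoc S1, mul_assoc S1, BX]
    simp
  have WB : W * B * X * X = Z := by
    rw [w1, hZ, mul_assoc B, ← xw.eq, ← mul_assoc, ← x1, mul_assoc, ← xw.eq, ← mul_assoc,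
      mul_assoc X B X, ← x1, ← mul_assoc]
  have l2 : X * (C * S * X * X) = c • T - (r + 2) • Z := by
    rw [c3]
    simp only [add_mul, sub_mul, smul_mul_assoc, mul_add, mul_sub, mul_smul_comm]
    rw [AX2, mul_assoc S C, mul_assoc S, CX]
    have : X * (S1 * B * X * X) = Z := by
      rw [← WB]
      simp only [← mul_assoc]
      rw [xs1]
      simp only [add_mul]
      rw [mul_assoc S1 X B, x1]
      have : S1 * (B * X) * X * X = S1 * (B * X * X * X) := by simp only [mul_assoc]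
      rw [this, BX]; simp
    rw [this, hT]
    simp only [mul_assoc, mul_zero]
    abel
  have r1 : X * X * X * (S * C) = c • T := by
    rw [c2]
    simp only [mul_add, mul_smul_comm, ← mul_assoc]
    rw [P3, mul_assoc X X X, mul_assoc X, ← mul_assoc X X, P2]
    simp [hT]
  have r2 : X * X * (S * C) * X = c • T - (r + 2) • Z := by
    rw [c2]
    simp only [mul_add, add_mul, mul_smul_comm, smul_mul_assoc]
    have e1 : X * X * (C * S) * X = 0 := by rw [← mul_assoc, P2]; simp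
    have e2 : X * X * (B * S1) * X = -Z := by
      rw [mul_assoc (X * X), mul_assoc B, s1x, mul_sub, mul_sub, ← mul_assoc B, ← x1, hZ]
      simp only [← mul_assoc]
      rw [P3]; simp
    have e3 : X * X * (A * S2) * X = T := by
      rw [mul_assoc (X * X), AX, hT]; simp only [mul_assoc]
    rw [e1, e2, e3]; simp only [smul_neg]; abel
  have L : C * Y = 2 • (c • T) - 3 • ((r + 2) • Z) := by
    conv_lhs => rw [eY]
    have a1 : C * (X * X * X * S) = 0 := by simp only [← mul_assoc]; rw [CX]; simp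
    have a2 : C * (X * X * S * X) = 0 := by simp only [← mul_assoc]; rw [CX]; simp
    have a3 : C * (X * S * X * X) = X * (C * S * X * X) := by simp only [← mul_assoc]; rw [x2]
    have a4 : C * (S * X * X * X) = C * S * X * X * X := by simp only [← mul_assoc]
    simp only [mul_sub, mul_add, mul_smul_comm]
    rw [a1, a2, a3, a4, l1, l2]
    simp only [smul_sub, smul_zero]; abel
  have Rr : Y * C = 3 • ((r + 2) • Z) - 2 • (c • T) := by
    conv_lhs => rw [eY]
    have a1 : S * X * X * X * C = 0 := by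
      rw [mul_assoc, mul_assoc, ← mul_assoc X X, P2]; simp
    have a2 : X * S * X * X * C = 0 := by
      rw [mul_assoc, mul_assoc, ← mul_assoc X X, P2]; simp
    have a3 : X * X * S * X * C = X * X * (S * C) * X := by
      rw [mul_assoc, x2]; simp only [mul_assoc]
    have a4 : X * X * X * S * C = X * X * X * (S * C) := by simp only [mul_assoc]
    simp only [sub_mul, add_mul, smul_mul_assoc]
    rw [a1, a2, a3, a4, r1, r2]
    simp only [smul_sub, smul_zero]; abel
  apply tf 2 (by omega) (by omega)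
  have e1 : Y ^ (r + 3) = C * Y := pow_succ Y (r + 2)
  have e2 : Y ^ (r + 3) = Y * C := pow_succ' Y (r + 2)
  rw [two_nsmul]
  nth_rewrite 1 [e1]
  rw [e2, L, Rr]; abel

end ring

variable {L : Type*} [LieRing L]

/-- The adjoint operator. -/
def ad (x : L) : Module.End ℤ L := LieAlgebra.ad ℤ L x

@[simp] theorem ad_apply (x y : L) : ad x y = ⁅x, y⁆ := rfl

theorem ad_lie (x y : L) : ad ⁅x, y⁆ = ad x * ad y - ad y * ad x := by
  ext z; simp

theorem ad_add (x y : L) : ad (x + y) = ad x + ad y := by ext z; simp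
theorem ad_sub (x y : L) : ad (x - y) = ad x - ad y := by ext z; simp
theorem ad_neg (x : L) : ad (-x) = -ad x := by ext z; simp
@[simp] theorem ad_zero : ad (0 : L) = 0 := by ext z; simp

theorem ad_commute {x y : L} (h : ⁅x, y⁆ = 0) : Commute (ad x) (ad y) := by
  have := ad_lie x y
  rw [h, ad_zero] at this
  exact sub_eq_zero.1 this.symm

theorem leib3 (x a b : L) (h : ⁅x, ⁅x, ⁅x, a⁆⁆⁆ = 0) (j : ℕ) :
    (ad x ^ (j + 2)) ⁅a, b⁆ = ⁅a, (ad x ^ (j + 2)) b⁆ + (j + 2) • ⁅⁅x, a⁆, (ad x ^ (j + 1)) b⁆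
      + (j + 2).choose 2 • ⁅⁅x, ⁅x, a⁆⁆, (ad x ^ j) b⁆ := by
  induction j with
  | zero =>
    simp only [zero_add, pow_two, pow_one, pow_zero, Module.End.mul_apply, ad_apply,
      Module.End.one_apply, Nat.choose_self, one_smul]
    rw [leibniz_lie x a b, lie_add, leibniz_lie x ⁅x, a⁆ b, leibniz_lie x a ⁅x, b⁆]
    abel
  | succ j ih =>
    rw [show j + 1 + 2 = (j + 2) + 1 from rfl, pow_succ' _ (j + 2), Module.End.mul_apply, ih,
      Nat.choose_succ_succ' (j + 2) 1, Nat.choose_one_right]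
    have e : ∀ i, ⁅x, (ad x ^ i) b⁆ = (ad x ^ (i + 1)) b := fun i => by
      rw [pow_succ', Module.End.mul_apply, ad_apply]
    simp only [map_add, map_nsmul, ad_apply, Module.End.mul_apply]
    rw [leibniz_lie x a, leibniz_lie x ⁅x, a⁆, leibniz_lie x ⁅x, ⁅x, a⁆⁆, h]
    simp only [e, zero_lie, zero_add, smul_add, add_smul]
    abel

/-- Kostrikin's lemma. -/
theorem kostrikin {r : ℕ} (tf : TF (r + 4) L) {x : L} (hx : ad x ^ (r + 4) = 0) (z : L) :
    ad ((ad x ^ (r + 3)) z) ^ (r + 3) = 0 := by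
  have e : ∀ i, ⁅x, (ad x ^ i) z⁆ = (ad x ^ (i + 1)) z := fun i => by
    rw [pow_succ', Module.End.mul_apply, ad_apply]
  set s := (ad x ^ r) z with hs
  set u := (ad x ^ (r + 1)) z with hu
  set v := (ad x ^ (r + 2)) z with hv
  set y := (ad x ^ (r + 3)) z with hy
  have xs : ⁅x, s⁆ = u := e r
  have xu : ⁅x, u⁆ = v := e (r + 1)
  have xv : ⁅x, v⁆ = y := e (r + 2)
  have xy : ⁅x, y⁆ = 0 := by rw [hy, e, hx]; rfl
  have key : ∀ a : L, ⁅x, ⁅x, ⁅x, a⁆⁆⁆ = 0 →
      (r + 4) • ⁅⁅x, a⁆, y⁆ + (r + 4).choose 2 • ⁅⁅x, ⁅x, a⁆⁆, v⁆ = 0 := fun a ha => by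
    have := leib3 x a z ha (r + 2)
    rw [show r + 2 + 2 = r + 4 from rfl, hx] at this
    simpa using this.symm
  have key' : ∀ a : L, ⁅x, ⁅x, a⁆⁆ = 0 → ⁅⁅x, a⁆, y⁆ = 0 := fun a ha => by
    have := key a (by rw [ha, lie_zero])
    rw [ha, zero_lie, smul_zero, add_zero] at this
    exact tf _ (by omega) le_rfl _ this
  have vy : ⁅v, y⁆ = 0 := by
    have := key u (by rw [xu, xv, xy])
    rw [xu, xv, ← lie_skew y v, smul_neg] at this
    have hc2 : 2 * (r + 4).choose 2 = (r + 4) * (r + 1) + 2 * (r + 4) := by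
      rw [Nat.choose_two_right, Nat.mul_div_cancel']
      · show (r + 4) * (r + 3) = _; ring
      · simpa using (Nat.even_mul_pred_self (r + 4)).two_dvd
    apply tf (r + 1) (by omega) (by omega)
    apply tf (r + 4) (by omega) (by omega)
    have h2 : (2 * (r + 4).choose 2) • ⁅v, y⁆ = (2 * (r + 4)) • ⁅v, y⁆ := by
      rw [mul_smul, mul_smul, ← add_neg_eq_zero.1 this]
    rw [hc2, add_smul] at h2
    rw [← mul_smul]
    simpa using h2
  have xw : ⁅x, ⁅u, y⁆⁆ = 0 := by rw [leibniz_lie, xu, vy, xy]; simp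
  have xa : ⁅x, ⁅u, v⁆⁆ = ⁅u, y⁆ := by rw [leibniz_lie, xu, xv]; simp
  have wy : ⁅⁅u, y⁆, y⁆ = 0 := by
    have := key' ⁅u, v⁆ (by rw [xa, xw])
    rwa [xa] at this
  have xs1 : ⁅x, ⁅s, y⁆⁆ = ⁅u, y⁆ := by rw [leibniz_lie, xs, xy]; simp
  have xs2 : ⁅x, ⁅⁅s, y⁆, y⁆⁆ = 0 := by rw [leibniz_lie, xs1, xy, wy]; simp
  have s3 : ⁅⁅⁅s, y⁆, y⁆, y⁆ = 0 := by
    have a1 : ⁅x, ⁅⁅s, y⁆, v⁆⁆ = ⁅⁅u, y⁆, v⁆ + ⁅⁅s, y⁆, y⁆ := by rw [leibniz_lie, xs1, xv]
    have := key' ⁅⁅s, y⁆, v⁆ (by rw [a1, lie_add, xs2, leibniz_lie, xw, xv, wy]; simp)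
    rw [a1, add_lie] at this
    have a2 : ⁅⁅⁅u, y⁆, v⁆, y⁆ = 0 := by
      rw [lie_lie ⁅u, y⁆ v y, vy, wy]; simp
    rwa [a2, zero_add] at this
  exact kos_ring tf.end (X := ad x) (S := ad s) (U := ad u) (V := ad v) (W := ad ⁅u, y⁆)
    (S1 := ad ⁅s, y⁆) (S2 := ad ⁅⁅s, y⁆, y⁆) hx (by rw [← ad_lie, xs]) (by rw [← ad_lie, xu])
    (by rw [← ad_lie, xv]) (ad_commute xy) (ad_commute vy) (by rw [← ad_lie]) (by rw [← ad_lie])
    (ad_commute s3) (by rw [← ad_lie, xs1]) (ad_commute xw) (ad_commute wy) (ad_commute xs2)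

/-- A nonzero ad-nilpotent element of small index gives a nonzero element with `ad ^ 3 = 0`. -/
theorem exists_cubic : ∀ {n : ℕ}, TF n L → ∀ {x : L}, x ≠ 0 → ad x ^ n = 0 →
    ∃ y : L, y ≠ 0 ∧ ad y ^ 3 = 0 := by
  intro n
  induction n with
  | zero => intro _ x h0 hx; exact ⟨x, h0, by rw [show 3 = 0 + 3 from rfl, pow_add, hx, zero_mul]⟩
  | succ n ih =>
    intro tf x h0 hx
    by_cases hn : n + 1 ≤ 3
    · exact ⟨x, h0, pow_eq_zero_of_le hn hx⟩
    obtain ⟨r, rfl⟩ : ∃ r, n = r + 3 := ⟨n - 3, by omega⟩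
    by_cases h : ad x ^ (r + 3) = 0
    · exact ih (tf.mono (by omega)) h0 h
    obtain ⟨z, hz⟩ : ∃ z, (ad x ^ (r + 3)) z ≠ 0 := by
      by_contra q
      push Not at q
      exact h (LinearMap.ext q)
    exact ih (tf.mono (by omega)) hz (kostrikin tf hx z)

end Pool.Agent.P.MP_1307d3_al.Kos
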