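import Pool.Agent.P.MP_1307d3_al.GLog
import Pool.Agent.P.MP_1307d3_al.Kostrikin

/-! Kostrikin's descent at the level of the group: a cubic element exists. -/

namespace Pool.Agent.P.MP_1307d3_al.Grp

variable {G : Type*} [Group G] {R : Type*} [Ring R] {ρ : G →* R} {lg : G → R}

theorem tf_of_char {p : ℕ} (hp : p.Prime) {M : Type*} [AddCommGroup M] (h : ∀ x : M, p • x = 0)
    {n : ℕ} (hn : n < p) : Kos.TF n M := by
  intro m m0 hm a ha
  have hc : Nat.Coprime m p := (Nat.coprime_of_lt_prime m0.ne' (by omega) hp).symm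
  rw [← addOrderOf_dvd_iff_nsmul_eq_zero] at ha
  have := Nat.dvd_gcd ha (addOrderOf_dvd_iff_nsmul_eq_zero.2 (h a))
  rwa [hc.gcd_eq_one, Nat.dvd_one, AddMonoid.addOrderOf_eq_one_iff] at this

theorem cm_mem1 {B : Subgroup G} {a b : G} (ha : ∀ b ∈ B, a * b * a⁻¹ ∈ B) (hb : b ∈ B) :
    cm a b ∈ B := mul_mem (ha b hb) (inv_mem hb)

theorem cm_iter_mem {B : Subgroup G} {a b : G} (ha : ∀ b ∈ B, a * b * a⁻¹ ∈ B) (hb : b ∈ B)
    (k : ℕ) : (cm a)^[k] b ∈ B := by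
  induction k with
  | zero => exact hb
  | succ k ih => rw [Function.iterate_succ_apply']; exact cm_mem1 ha ih

theorem rho_inv (ρ : G →* R) (a : G) : ρ a * ρ a⁻¹ = 1 := by rw [← map_mul]; simp

theorem rho_inv' (ρ : G →* R) (a : G) : ρ a⁻¹ * ρ a = 1 := by rw [← map_mul]; simp

namespace IsLog
variable (L : IsLog ρ lg)
include L

theorem one : lg 1 = 0 := by simpa using L.add 1 1 rfl

theorem inv (a : G) : lg a⁻¹ = -lg a := by
  have := L.add a⁻¹ a (by simp)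
  rw [inv_mul_cancel, L.one] at this
  exact eq_neg_of_add_eq_zero_left this.symm

theorem comm_rho {a b : G} (h : a * b = b * a) : Commute (ρ a) (lg b) := by
  have := L.conj a b
  rw [h, mul_inv_cancel_right] at this
  rw [Commute, SemiconjBy]
  conv_rhs => rw [this, mul_assoc, rho_inv', mul_one]

theorem comm {a b : G} (h : a * b = b * a) : Commute (lg a) (lg b) := by
  have := L.mem a
  generalize lg a = u at this
  induction this using AddSubgroup.closure_induction with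
  | mem u hu =>
    obtain ⟨i, rfl⟩ := hu
    exact (L.comm_rho (Commute.pow_left h i)).sub_left (Commute.one_left _)
  | zero => exact Commute.zero_left _
  | add u v _ _ a b => exact a.add_left b
  | neg u _ a => exact a.neg_left

theorem cm_eq {B : Subgroup G} (hB : Abel B) {a b : G} (ha : ∀ b ∈ B, a * b * a⁻¹ ∈ B)
    (hb : b ∈ B) : lg (cm a b) = ρ a * lg b * ρ a⁻¹ - lg b := by
  rw [cm, L.add _ _ (hB _ (ha b hb) _ (inv_mem hb)), L.conj, L.inv, sub_eq_add_neg]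

theorem eq_one (inj : Function.Injective ρ) {a : G} (h : lg a = 0) : a = 1 := by
  have := (L.pow 1 a).1 (by simpa using h)
  rw [pow_one, sub_eq_zero, ← map_one ρ] at this
  exact inj this

theorem br {B : Subgroup G} (hB : Abel B) {a b : G} (ha : ∀ b ∈ B, a * b * a⁻¹ ∈ B)
    (hb : b ∈ B) (k : ℕ) :
    (ρ a - 1) * (lg b * ρ a⁻¹ ^ (k + 1)) - lg b * ρ a⁻¹ ^ (k + 1) * (ρ a - 1)
      = lg (cm a b) * ρ a⁻¹ ^ k := by
  rw [L.cm_eq hB ha hb]
  have e : ρ a⁻¹ ^ (k + 1) * ρ a = ρ a⁻¹ ^ k := by rw [pow_succ, mul_assoc, rho_inv', mul_one]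
  rw [mul_sub, sub_mul, mul_assoc (lg b) _ (ρ a), e, pow_succ']
  noncomm_ring

end IsLog

theorem kos_step {p : ℕ} (hp : p.Prime) (C : Canon p ρ) (L : IsLog ρ lg) {r : ℕ}
    (hr : r + 4 < p) {a : G} (ha : (ρ a - 1) ^ (r + 4) = 0) (hn : (ρ a - 1) ^ (r + 3) ≠ 0) :
    ∃ b : G, b ≠ 1 ∧ (ρ b - 1) ^ (r + 3) = 0 := by
  obtain ⟨S, aS, hS⟩ := (C.idx _ _).1 ha
  rw [Ne, C.idx, Idx] at hn
  push Not at hn
  obtain ⟨B, hB, hz, b, hb, h1⟩ := hn S aS
  have nz := hz a aS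
  have mem := cm_iter_mem nz hb
  have sc : ∀ k, cm a ((cm a)^[k] b) = (cm a)^[k + 1] b := fun k =>
    (Function.iterate_succ_apply' _ _ _).symm
  have h4 : cm a ((cm a)^[r + 3] b) = 1 := by rw [sc]; exact hS B hB hz b hb
  have c1 : a * (cm a)^[r + 3] b = (cm a)^[r + 3] b * a := by
    rw [cm, mul_inv_eq_one, mul_inv_eq_iff_eq_mul] at h4; exact h4
  have c2 : a⁻¹ * (cm a)^[r + 3] b = (cm a)^[r + 3] b * a⁻¹ := Commute.inv_left c1
  have cy : ∀ j k, Commute (lg ((cm a)^[j] b) * ρ a⁻¹ ^ k) (lg ((cm a)^[r + 3] b)) := fun j k =>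
    (L.comm (hB _ (mem j) _ (mem _))).mul_left ((L.comm_rho c2).pow_left k)
  refine ⟨_, h1, (L.pow _ _).1 ?_⟩
  refine Kos.kos_ring (tf_of_char hp (fun x => by rw [nsmul_eq_mul, C.char, zero_mul]) hr)
    (S := lg ((cm a)^[r] b) * ρ a⁻¹ ^ 3) (U := lg ((cm a)^[r + 1] b) * ρ a⁻¹ ^ 2)
    (V := lg ((cm a)^[r + 2] b) * ρ a⁻¹ ^ 1) (W := 0) (S1 := 0) (S2 := 0) ha
    (by rw [L.br hB nz (mem _), sc]) (by rw [L.br hB nz (mem _), sc])
    (by rw [L.br hB nz (mem _) 0, sc, pow_zero, mul_one])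
    ((L.comm_rho c1).sub_left (Commute.one_left _)) (cy _ _) (sub_eq_zero.2 (cy _ _))
    (by simp) (by simp) (by simp) (by simp) (by simp) (by simp)

theorem exists_cubic {p : ℕ} (hp : p.Prime) [Nontrivial G] (C : Canon p ρ) (L : IsLog ρ lg) :
    ∃ a : G, a ≠ 1 ∧ (ρ a - 1) ^ 3 = 0 := by
  have key : ∀ n, n < p → ∀ a : G, a ≠ 1 → (ρ a - 1) ^ n = 0 →
      ∃ a : G, a ≠ 1 ∧ (ρ a - 1) ^ 3 = 0 := by
    intro n
    induction n with
    | zero => intro _ a a1 h; exact ⟨a, a1, pow_eq_zero_of_le (by omega) h⟩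
    | succ n ih =>
      intro hn a a1 h
      by_cases h3 : n + 1 ≤ 3
      · exact ⟨a, a1, pow_eq_zero_of_le h3 h⟩
      obtain ⟨r, rfl⟩ : ∃ r, n = r + 3 := ⟨n - 3, by omega⟩
      by_cases h' : (ρ a - 1) ^ (r + 3) = 0
      · exact ih (by omega) a a1 h'
      obtain ⟨b, b1, hb⟩ := kos_step hp C L hn h h'
      exact ih (by omega) b b1 hb
  obtain ⟨a, a1⟩ := exists_ne (1 : G)
  exact key (p - 1) (by have := hp.pos; omega) a a1 (C.nil a)

end Pool.Agent.P.MP_1307d3_al.Grp
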