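import Pool.Agent.P.MP_1307d3_al.GDefs

/-! The logarithm of a representation of a group of exponent `p`. -/

namespace Pool.Agent.P.MP_1307d3_al.Grp

open Polynomial Finset

section num
variable (p : ℕ) [hp : Fact p.Prime]

theorem sum_range_zmod (f : ZMod p → ZMod p) : ∑ t ∈ range p, f (t : ZMod p) = ∑ t, f t := by
  refine Finset.sum_bij (fun t _ => (t : ZMod p)) (by simp) ?_ ?_ (by simp)
  · intro a ha b hb h
    have := (ZMod.natCast_eq_natCast_iff' a b p).1 h
    rwa [Nat.mod_eq_of_lt (mem_range.1 ha), Nat.mod_eq_of_lt (mem_range.1 hb)] at this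
  · intro b _
    exact ⟨b.val, mem_range.2 (ZMod.val_lt b), by simp⟩

theorem sum_pow_zmod (h3 : 3 ≤ p) (k : ℕ) (hk : k ≤ p - 1) :
    ∑ t : ZMod p, t ^ (p - 2) * t ^ k = if k = 1 then -1 else 0 := by
  have hc : Fintype.card (ZMod p) = p := ZMod.card p
  have lt : ∀ j, j < p - 1 → ∑ t : ZMod p, t ^ j = 0 := fun j hj =>
    FiniteField.sum_pow_lt_card_sub_one (ZMod p) j (by rwa [hc])
  rcases Nat.eq_zero_or_pos k with rfl | k0
  · simpa using lt (p - 2) (by omega)
  obtain ⟨j, rfl⟩ : ∃ j, k = j + 1 := ⟨k - 1, by omega⟩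
  rcases Nat.eq_zero_or_pos j with rfl | j0
  · have e : ∀ t : ZMod p, t ^ (p - 2) * t ^ (0 + 1) = 1 - if t = 0 then 1 else 0 := by
      intro t
      rw [← pow_add, show p - 2 + (0 + 1) = p - 1 by omega]
      by_cases h : t = 0
      · subst h; simp; omega
      · simp [h, ZMod.pow_card_sub_one_eq_one h]
    simp only [e, Finset.sum_sub_distrib, Finset.sum_const, card_univ, hc, Finset.sum_ite_eq',
      mem_univ, if_true]
    simp
  · have e : ∀ t : ZMod p, t ^ (p - 2) * t ^ (j + 1) = t ^ j := by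
      intro t
      rw [← pow_add, show p - 2 + (j + 1) = p + (j - 1) by omega, pow_add, ZMod.pow_card,
        ← pow_succ', show j - 1 + 1 = j by omega]
    rw [if_neg (by omega)]
    simp only [e]
    exact lt j (by omega)

theorem extract (h3 : 3 ≤ p) (f : (ZMod p)[X]) (hf : f.natDegree ≤ p - 1) :
    -∑ t ∈ range p, (t : ZMod p) ^ (p - 2) * f.eval (t : ZMod p) = f.coeff 1 := by
  rw [sum_range_zmod p fun t => t ^ (p - 2) * f.eval t]
  have e : ∀ t : ZMod p, t ^ (p - 2) * f.eval t
      = ∑ k ∈ range p, f.coeff k * (t ^ (p - 2) * t ^ k) := by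
    intro t
    rw [eval_eq_sum_range' (n := p) (by omega), Finset.mul_sum]
    exact Finset.sum_congr rfl fun k _ => by ring
  simp only [e]
  rw [Finset.sum_comm]
  have e2 : ∀ k ∈ range p, ∑ t : ZMod p, f.coeff k * (t ^ (p - 2) * t ^ k)
      = if k = 1 then -f.coeff 1 else 0 := by
    intro k hk
    rw [← Finset.mul_sum, sum_pow_zmod p h3 k (by have := mem_range.1 hk; omega)]
    split_ifs with h
    · subst h; ring
    · ring
  rw [Finset.sum_congr rfl e2, Finset.sum_ite_eq' (range p) 1, if_pos (mem_range.2 (by omega))]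
  ring

/-- The binomial polynomials. -/
noncomputable def bin (k : ℕ) : (ZMod p)[X] :=
  C ((k.factorial : ZMod p)⁻¹) * descPochhammer (ZMod p) k

theorem fact_ne (k : ℕ) (hk : k < p) : (k.factorial : ZMod p) ≠ 0 := by
  rw [Ne, ZMod.natCast_eq_zero_iff, hp.out.dvd_factorial]
  omega

theorem bin_eval (k : ℕ) (hk : k < p) (t : ℕ) :
    (bin p k).eval (t : ZMod p) = (t.choose k : ZMod p) := by
  rw [bin, eval_mul, eval_C, descPochhammer_eval_eq_descFactorial,
    Nat.descFactorial_eq_factorial_mul_choose, Nat.cast_mul, ← mul_assoc,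
    inv_mul_cancel₀ (fact_ne p k hk), one_mul]

theorem bin_deg (k : ℕ) : (bin p k).natDegree ≤ k :=
  (natDegree_C_mul_le _ _).trans (descPochhammer_natDegree (ZMod p) k).le

theorem bin_zero (k : ℕ) (hk : k < p) : (bin p k).coeff 0 = if k = 0 then 1 else 0 := by
  have := bin_eval p k hk 0
  rw [Nat.cast_zero, ← coeff_zero_eq_eval_zero] at this
  rw [this]
  cases k <;> simp

theorem bin_one_zero : (bin p 0).coeff 1 = 0 := by simp [bin, coeff_one]

theorem bin_one_one : (bin p 1).coeff 1 = 1 := by simp [bin]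

theorem bin_one_two (h3 : 3 ≤ p) : 2 * (bin p 2).coeff 1 = -1 := by
  have h := fact_ne p 2 (by omega)
  have e : descPochhammer (ZMod p) 2 = X ^ 2 - X := by
    rw [descPochhammer_succ_right, descPochhammer_one]; simp; ring
  have h2 : (2 : ZMod p) ≠ 0 := by simpa [Nat.factorial] using h
  rw [bin, e, coeff_C_mul]
  simp only [coeff_sub, coeff_X_pow, coeff_X_one]
  simp [Nat.factorial]
  field_simp

end num

section alg
variable {p : ℕ} [hp : Fact p.Prime] {R : Type*} [Ring R] [Algebra (ZMod p) R]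

/-- The logarithm of a unipotent element. -/
def lgR (p : ℕ) {R : Type*} [Ring R] (u : R) : R := -∑ t ∈ range p, t ^ (p - 2) • u ^ t

theorem pow_bin (u : R) (t : ℕ) (ht : t < p) :
    u ^ t = ∑ k ∈ range p, (bin p k).eval (t : ZMod p) • (u - 1) ^ k := by
  have h := (Commute.one_right (u - 1)).add_pow t
  rw [sub_add_cancel] at h
  rw [h, ← Finset.sum_subset (s₁ := range (t + 1)) (range_subset_range.2 ht)]
  · refine Finset.sum_congr rfl fun k hk => ?_
    rw [bin_eval p k (by have := mem_range.1 hk; omega), one_pow, mul_one,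
      Nat.cast_smul_eq_nsmul, nsmul_eq_mul, Nat.cast_comm]
  · intro k hk hk'
    rw [bin_eval p k (mem_range.1 hk), Nat.choose_eq_zero_of_lt (by simpa using hk')]
    simp

theorem lgR_eq (h3 : 3 ≤ p) (u : R) :
    lgR p u = ∑ k ∈ range p, (bin p k).coeff 1 • (u - 1) ^ k := by
  have e : ∀ t ∈ range p, t ^ (p - 2) • u ^ t = ∑ k ∈ range p,
      ((t : ZMod p) ^ (p - 2) * (bin p k).eval (t : ZMod p)) • (u - 1) ^ k := by
    intro t ht
    rw [pow_bin u t (mem_range.1 ht), Finset.smul_sum]
    refine Finset.sum_congr rfl fun k _ => ?_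
    rw [mul_smul, ← Nat.cast_pow, Nat.cast_smul_eq_nsmul]
  rw [lgR, Finset.sum_congr rfl e, Finset.sum_comm, ← Finset.sum_neg_distrib]
  refine Finset.sum_congr rfl fun k hk => ?_
  rw [← Finset.sum_smul, ← neg_smul, extract p h3 _
    ((bin_deg p k).trans (by have := mem_range.1 hk; omega))]

theorem lgR_mul (h3 : 3 ≤ p) {u v : R} (hc : Commute u v)
    (h : ∀ i j, p - 1 ≤ i + j → (u - 1) ^ i * (v - 1) ^ j = 0) :
    lgR p (u * v) = lgR p u + lgR p v := by
  have e : ∀ t ∈ range p, t ^ (p - 2) • (u * v) ^ t = ∑ i ∈ range p, ∑ j ∈ range p,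
      ((t : ZMod p) ^ (p - 2) * (bin p i * bin p j).eval (t : ZMod p)) •
        ((u - 1) ^ i * (v - 1) ^ j) := by
    intro t ht
    rw [hc.mul_pow, pow_bin u t (mem_range.1 ht), pow_bin v t (mem_range.1 ht),
      Finset.sum_mul_sum, Finset.smul_sum]
    refine Finset.sum_congr rfl fun i _ => ?_
    rw [Finset.smul_sum]
    refine Finset.sum_congr rfl fun j _ => ?_
    rw [mul_smul, ← Nat.cast_pow, Nat.cast_smul_eq_nsmul, eval_mul, smul_mul_smul_comm]
  have e2 : ∀ i ∈ range p, ∀ j ∈ range p, -∑ t ∈ range p,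
      ((t : ZMod p) ^ (p - 2) * (bin p i * bin p j).eval (t : ZMod p)) •
        ((u - 1) ^ i * (v - 1) ^ j)
      = (if j = 0 then (bin p i).coeff 1 • (u - 1) ^ i else 0)
        + (if i = 0 then (bin p j).coeff 1 • (v - 1) ^ j else 0) := by
    intro i hi j hj
    have key : ((bin p i).coeff 0 * (bin p j).coeff 1 + (bin p i).coeff 1 * (bin p j).coeff 0) •
        ((u - 1) ^ i * (v - 1) ^ j) = (if j = 0 then (bin p i).coeff 1 • (u - 1) ^ i else 0)
        + (if i = 0 then (bin p j).coeff 1 • (v - 1) ^ j else 0) := by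
      rw [bin_zero p i (mem_range.1 hi), bin_zero p j (mem_range.1 hj), add_smul, add_comm]
      congr 1
      · split_ifs with h0
        · subst h0; simp
        · simp
      · split_ifs with h0
        · subst h0; simp
        · simp
    rw [← key, ← Finset.sum_smul, ← neg_smul]
    by_cases hij : p - 1 ≤ i + j
    · rw [h i j hij, smul_zero, smul_zero]
    · rw [extract p h3 _ (natDegree_mul_le.trans
        (by have := bin_deg p i; have := bin_deg p j; omega)), mul_coeff_one]
  rw [lgR, Finset.sum_congr rfl e, Finset.sum_comm, ← Finset.sum_neg_distrib, lgR_eq h3 u,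
    lgR_eq h3 v]
  have e3 : ∀ i ∈ range p, -∑ t ∈ range p, ∑ j ∈ range p,
      ((t : ZMod p) ^ (p - 2) * (bin p i * bin p j).eval (t : ZMod p)) •
        ((u - 1) ^ i * (v - 1) ^ j)
      = (bin p i).coeff 1 • (u - 1) ^ i
        + (if i = 0 then ∑ j ∈ range p, (bin p j).coeff 1 • (v - 1) ^ j else 0) := by
    intro i hi
    rw [Finset.sum_comm, ← Finset.sum_neg_distrib, Finset.sum_congr rfl (e2 i hi),
      Finset.sum_add_distrib, Finset.sum_ite_eq' (range p) 0, if_pos (mem_range.2 (by omega))]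
    congr 1
    split_ifs <;> simp
  rw [Finset.sum_congr rfl e3, Finset.sum_add_distrib, Finset.sum_ite_eq' (range p) 0,
    if_pos (mem_range.2 (by omega))]

theorem lgR_poly (h3 : 3 ≤ p) : ∃ Q : (ZMod p)[X], 2 * Q.coeff 0 = -1 ∧
    ∀ u : R, lgR p u = aeval (u - 1) (X * (1 + X * Q)) := by
  obtain ⟨n, hn⟩ : ∃ n, p = n + 1 + 1 + 1 := ⟨p - 3, by omega⟩
  refine ⟨∑ k ∈ range (n + 1), C ((bin p (k + 1 + 1)).coeff 1) * X ^ k, ?_, fun u => ?_⟩
  · rw [Finset.sum_range_succ', coeff_add, finsetSum_coeff, Finset.sum_eq_zero]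
    · simpa using bin_one_two p h3
    · intro k _
      simp
  · rw [lgR_eq h3 u]
    have : range p = range (n + 1 + 1 + 1) := by rw [← hn]
    rw [this, Finset.sum_range_succ', Finset.sum_range_succ', bin_one_zero, zero_add 1,
      bin_one_one]
    simp only [map_mul, map_add, aeval_X, map_sum, aeval_C, map_pow, zero_smul,
      add_zero, one_smul, pow_one, mul_add, mul_one, Finset.mul_sum]
    rw [add_comm]
    congr 1
    refine Finset.sum_congr rfl fun k _ => ?_
    rw [← Algebra.smul_def, mul_smul_comm, mul_smul_comm, pow_succ', pow_succ']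

theorem smul_mem_add (S : AddSubgroup R) (c : ZMod p) {x : R} (hx : x ∈ S) : c • x ∈ S := by
  rw [← ZMod.natCast_zmod_val c, Nat.cast_smul_eq_nsmul]
  exact S.nsmul_mem hx _

theorem back_aux (Q : (ZMod p)[X]) (x : R) {n : ℕ} (hx : x ^ n = 0) (j : ℕ) :
    ∀ f : (ZMod p)[X], aeval x (X ^ (n - j) * f) ∈
      Subring.closure {aeval x (X * (1 + X * Q))} := by
  induction j with
  | zero => intro f; simp [hx]
  | succ j ih =>
    intro f
    by_cases hj : n ≤ j
    · rw [show n - (j + 1) = n - j by omega]; exact ih f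
    · set m := n - (j + 1) with hm
      have e : n - j = m + 1 := by omega
      rw [e] at ih
      obtain ⟨H, hH⟩ : X ∣ (1 + X * Q) ^ m - 1 := by
        rw [X_dvd_iff, coeff_zero_eq_eval_zero]; simp
      have e1 : X ^ m * f = f.coeff 0 • (X * (1 + X * Q)) ^ m
          + X ^ (m + 1) * (f.divX - C (f.coeff 0) * H) := by
        rw [mul_pow, eq_add_of_sub_eq hH, smul_eq_C_mul]
        conv_lhs => rw [← divX_mul_X_add f]
        ring
      rw [e1, map_add, map_smul, map_pow]
      refine add_mem ?_ (ih _)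
      exact smul_mem_add (Subring.closure {aeval x (X * (1 + X * Q))}).toAddSubgroup _
        (pow_mem (Subring.subset_closure (Set.mem_singleton _)) m :
          _ ∈ Subring.closure {aeval x (X * (1 + X * Q))})

end alg

theorem exists_log {p : ℕ} (hp : p.Prime) (h3 : 3 ≤ p) {G : Type} [Group G]
    (_hE : ∀ g : G, g ^ p = 1) {R : Type} [Ring R] (ρ : G →* R) (h0 : (p : R) = 0)
    (hn : ∀ g, (ρ g - 1) ^ (p - 1) = 0) : ∃ lg : G → R, IsLog ρ lg := by
  have := Fact.mk hp
  rcases subsingleton_or_nontrivial R with hR | hR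
  · refine ⟨fun _ => 0, fun _ _ _ => Subsingleton.elim _ _, fun _ _ => Subsingleton.elim _ _,
      fun _ _ => ⟨fun _ => Subsingleton.elim _ _, fun _ => Subsingleton.elim _ _⟩,
      fun _ _ => Subsingleton.elim _ _, fun _ => zero_mem _, fun a => ?_⟩
    rw [Subsingleton.elim (ρ a) 0]; exact zero_mem _
  have : CharP R p := (CharP.charP_iff_prime_eq_zero hp).2 h0
  let _ : Algebra (ZMod p) R := ZMod.algebra R p
  obtain ⟨Q, hQ0, hQ⟩ := lgR_poly (p := p) (R := R) h3
  refine ⟨fun a => lgR p (ρ a), fun a b hab => ?_, fun g a => ?_, fun k a => ?_, fun a ha => ?_,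
    fun a => ?_, fun a => ?_⟩
  · have hc : Commute (ρ a) (ρ b) := Commute.map hab ρ
    rw [map_mul]
    refine lgR_mul h3 hc fun i j hij => ?_
    let U : Submonoid R := (Subgroup.closure {a, b}).toSubmonoid.map ρ
    have hU : ∀ x ∈ Subgroup.closure {a, b}, ∀ y ∈ Subgroup.closure {a, b}, x * y = y * x := by
      have : IsMulCommutative (Subgroup.closure ({a, b} : Set G)) :=
        Subgroup.isMulCommutative_closure (by
          rintro x (rfl | rfl) y (rfl | rfl)
          exacts [rfl, hab, hab.symm, rfl])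
      intro x hx y hy
      exact congrArg Subtype.val (mul_comm' (⟨x, hx⟩ : Subgroup.closure {a, b}) ⟨y, hy⟩)
    obtain ⟨i', j', hi, hj, e⟩ : ∃ i' j', i' ≤ i ∧ j' ≤ j ∧ i' + j' = p - 1 :=
      ⟨min i (p - 1), p - 1 - min i (p - 1), by omega, by omega, by omega⟩
    have h := End.omega_ring hp h0 U (by
        rintro _ ⟨x, hx, rfl⟩ _ ⟨y, hy, rfl⟩
        rw [← map_mul, ← map_mul, hU x hx y hy])
      (by rintro _ ⟨x, -, rfl⟩; exact hn x)
      (List.replicate i' (ρ a) ++ List.replicate j' (ρ b)) (by simp [e]) (by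
        intro t ht
        rcases List.mem_append.1 ht with h | h
        · exact ⟨a, Subgroup.subset_closure (by simp), (List.eq_of_mem_replicate h).symm⟩
        · exact ⟨b, Subgroup.subset_closure (by simp), (List.eq_of_mem_replicate h).symm⟩)
    simp only [List.map_append, List.map_replicate, List.prod_append, List.prod_replicate] at h
    rw [← Nat.sub_add_cancel hi, ← Nat.add_sub_cancel' hj, pow_add, pow_add, mul_assoc,
      ← mul_assoc ((ρ a - 1) ^ i'), h, zero_mul, mul_zero]
  · simp only [lgR, mul_neg, neg_mul, Finset.mul_sum, Finset.sum_mul, mul_smul_comm,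
      smul_mul_assoc, ← map_pow, ← map_mul, conj_pow]
  · have hu : IsUnit (aeval (ρ a - 1) (1 + X * Q)) := by
      rw [map_add, map_one]
      refine IsNilpotent.isUnit_one_add ⟨p - 1, ?_⟩
      rw [← map_pow, mul_pow, map_mul, map_pow, aeval_X, hn, zero_mul]
    show lgR p (ρ a) ^ k = 0 ↔ _
    rw [hQ, ← map_pow, mul_pow, map_mul, map_pow, map_pow, aeval_X]
    exact (hu.pow k).mul_left_eq_zero
  · show 2 • lgR p (ρ a) = _
    have e : X * (1 + X * Q) = X + Q.coeff 0 • X ^ 2 + X ^ 3 * Q.divX := by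
      conv_lhs => rw [← divX_mul_X_add Q]
      rw [smul_eq_C_mul]; ring
    rw [hQ, e]
    simp only [map_add, map_mul, map_smul, map_pow, aeval_X, ha, zero_mul, add_zero, smul_add]
    rw [← Nat.cast_smul_eq_nsmul (ZMod p) 2 (Q.coeff 0 • _), ← mul_smul, Nat.cast_ofNat, hQ0,
      neg_smul, one_smul, ← sub_eq_add_neg]
  · have e : lgR p (ρ a) = -∑ t ∈ range p, t ^ (p - 2) • (ρ (a ^ t) - 1) + lgR p (1 : R) := by
      simp only [lgR, smul_sub, Finset.sum_sub_distrib, map_pow, one_pow]
      abel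
    have e1 : lgR p (1 : R) = 0 := by rw [hQ]; simp
    show lgR p (ρ a) ∈ _
    rw [e, e1, add_zero]
    exact neg_mem (sum_mem fun t _ => nsmul_mem (AddSubgroup.subset_closure (Set.mem_range.2 ⟨t, rfl⟩)) _)
  · show ρ a ∈ Subring.closure {lgR p (ρ a)}
    have h := back_aux Q (ρ a - 1) (hn a) (p - 1) (1 + X)
    rw [hQ]
    simpa using h

end Pool.Agent.P.MP_1307d3_al.Grp
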