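import Mathlib
import Pool.Agent.P.MP_1307d3_al.Omega

/-! Associative lemmas for the passage from groups of exponent `p` to Lie algebras. -/

namespace Pool.Agent.P.MP_1307d3_al.End

open Submodule Finset

section nil
variable {K R : Type*} [CommRing K] [Ring R] [Algebra K R]

theorem mll {M N P : Submodule K R} (h : M ≤ N) : M * P ≤ N * P := mul_le_mul' h le_rfl

theorem mlr {M N P : Submodule K R} (h : N ≤ P) : M * N ≤ M * P := mul_le_mul' le_rfl h

theorem nil_step {p N : ℕ} (T : Set R) (y : R) (hy : y ^ p = 0)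
    (hT : ∀ t ∈ T, ∃ z ∈ T, ∃ b ∈ Algebra.adjoin K {y, t}, y * t - t * y = z * b)
    (hN : span K T ^ N = ⊥) : span K (insert y T) ^ (p * N) = ⊥ := by
  set P := span K T with hP
  set B := Subalgebra.toSubmodule (Algebra.adjoin K (insert y T)) with hB
  have h1B : (1 : R) ∈ B := Subalgebra.one_mem _
  have hBB : B * B = B := le_antisymm (Submodule.mul_le.2 fun a ha b hb => Subalgebra.mul_mem _ ha hb)
    fun b hb => by simpa using mul_mem_mul hb h1B
  have hPPB : P ≤ P * B := fun t ht => by simpa using mul_mem_mul ht h1B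
  have hPB : P ≤ B := span_le.2 fun t ht => Algebra.subset_adjoin (Set.mem_insert_of_mem _ ht)
  have hyB : y ∈ B := Algebra.subset_adjoin (Set.mem_insert _ _)
  have hBP : B * P ≤ P * B := by
    have : ∀ b ∈ Algebra.adjoin K (insert y T), ∀ t ∈ P * B, b * t ∈ P * B := by
      intro b hb
      induction hb using Algebra.adjoin_induction with
      | mem b hb =>
        have h0 : ∀ t ∈ P, b * t ∈ P * B := by
          rcases hb with rfl | hb
          · intro t ht
            induction ht using span_induction with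
            | mem t ht =>
              obtain ⟨z, hz, c, hc, e⟩ := hT t ht
              rw [sub_eq_iff_eq_add.1 e]
              refine add_mem (mul_mem_mul (subset_span hz) ?_) (mul_mem_mul (subset_span ht) hyB)
              refine Algebra.adjoin_mono ?_ hc
              rintro _ (rfl | rfl)
              · exact Set.mem_insert _ _
              · exact Set.mem_insert_of_mem _ ht
            | zero => simp
            | add a c _ _ ha hc => rw [mul_add]; exact add_mem ha hc
            | smul k a _ ha => rw [mul_smul_comm]; exact smul_mem _ _ ha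
          · exact fun t ht => mul_mem_mul (subset_span hb) (hPB ht)
        intro t ht
        refine Submodule.mul_induction_on ht (fun u hu c hc => ?_) fun u v hu hv => ?_
        · have := mul_mem_mul (h0 u hu) hc
          rwa [mul_assoc P, hBB, mul_assoc] at this
        · rw [mul_add]; exact add_mem hu hv
      | algebraMap k => intro t ht; rw [← Algebra.smul_def]; exact smul_mem _ _ ht
      | add a c _ _ ha hc => intro t ht; rw [add_mul]; exact add_mem (ha t ht) (hc t ht)
      | mul a c _ _ ha hc => intro t ht; rw [mul_assoc]; exact ha _ (hc t ht)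
    exact Submodule.mul_le.2 fun b hb t ht => this b hb t (hPPB ht)
  have hBPB : B * (P * B) ≤ P * B := by
    rw [← mul_assoc]
    refine (mll hBP).trans ?_
    rw [mul_assoc, hBB]
  have hW : ∀ k, span K (insert y T) ^ k ≤ span K {y ^ k} ⊔ P * B := by
    intro k
    induction k with
    | zero => rw [pow_zero, pow_zero, ← one_eq_span]; exact le_sup_left
    | succ k ih =>
      rcases Nat.eq_zero_or_pos k with rfl | hk
      · rw [zero_add, pow_one, pow_one, span_insert]
        exact sup_le_sup_left hPPB _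
      rw [Submodule.pow_succ' _ hk.ne']
      refine (mlr ih).trans ?_
      rw [span_insert, Submodule.sup_mul, Submodule.mul_sup, Submodule.mul_sup,
        span_mul_span, Set.singleton_mul_singleton,
        ← pow_succ']
      have hy1 : span K {y} ≤ B := (span_singleton_le_iff_mem _ _).2 hyB
      have hyk : span K {y ^ k} ≤ B := (span_singleton_le_iff_mem _ _).2 (Subalgebra.pow_mem _ hyB k)
      refine sup_le (sup_le_sup_left ((mll hy1).trans hBPB) _)
        (le_sup_of_le_right (sup_le (mlr hyk)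
          ((mll hPB).trans hBPB)))
  have hPn : ∀ n, (P * B) ^ n ≤ P ^ n * B := by
    intro n
    induction n with
    | zero => rw [pow_zero, pow_zero, one_mul]; exact one_le.2 h1B
    | succ n ih =>
      rw [pow_succ, pow_succ]
      refine (mll ih).trans ?_
      rw [mul_assoc, mul_assoc]
      exact mlr hBPB
  have h1 := hW p
  rw [hy, span_zero_singleton, bot_sup_eq] at h1
  rw [pow_mul, eq_bot_iff]
  refine (pow_le_pow_left' h1 N).trans ((hPn N).trans ?_)
  rw [hN, bot_mul]

/-- A filtered family of nilpotent elements spans a nilpotent subspace. -/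
theorem nil_filt {p c : ℕ} (Y : ℕ → Set R) (hf : ∀ k, (Y k).Finite)
    (hp : ∀ k, ∀ y ∈ Y k, y ^ p = 0) (hc : ∀ k, c ≤ k → ∀ y ∈ Y k, y = 0)
    (hb : ∀ k j, k ≤ j → ∀ y ∈ Y k, ∀ t ∈ Y j, ∃ i, k < i ∧ ∃ z ∈ Y i,
      ∃ b ∈ Algebra.adjoin K {y, t}, y * t - t * y = z * b) :
    ∃ N, span K (⋃ k, Y k) ^ N = ⊥ := by
  have key : ∀ n k, c ≤ k + n → ∃ N, span K {y | ∃ j, k ≤ j ∧ y ∈ Y j} ^ N = ⊥ := by
    intro n
    induction n with
    | zero =>
      intro k hk
      refine ⟨1, ?_⟩
      rw [pow_one, span_eq_bot]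
      rintro y ⟨j, hj, hy⟩
      exact hc j (by omega) y hy
    | succ n ih =>
      intro k hk
      have h2 : ∀ U : Set R, U.Finite → U ⊆ Y k →
          ∃ N, span K (U ∪ {y | ∃ j, k + 1 ≤ j ∧ y ∈ Y j}) ^ N = ⊥ := by
        intro U hU
        induction U, hU using Set.Finite.induction_on with
        | empty => intro _; rw [Set.empty_union]; exact ih (k + 1) (by omega)
        | @insert y U _ _ ihU =>
          intro hsub
          obtain ⟨N, hN⟩ := ihU fun _ h => hsub (Set.mem_insert_of_mem _ h)
          have hy := hsub (Set.mem_insert _ _)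
          refine ⟨p * N, ?_⟩
          rw [Set.insert_union]
          refine nil_step _ y (hp k y hy) (fun t ht => ?_) hN
          obtain ⟨j, hj, htj⟩ : ∃ j, k ≤ j ∧ t ∈ Y j := by
            rcases ht with ht | ⟨j, hj, ht⟩
            · exact ⟨k, le_rfl, hsub (Set.mem_insert_of_mem _ ht)⟩
            · exact ⟨j, by omega, ht⟩
          obtain ⟨i, hi, z, hz, b, hb', e⟩ := hb k j hj y hy t htj
          exact ⟨z, Or.inr ⟨i, hi, hz⟩, b, hb', e⟩
      obtain ⟨N, hN⟩ := h2 _ (hf k) subset_rfl
      refine ⟨N, eq_bot_iff.2 (le_trans (pow_le_pow_left' (span_mono ?_) N) hN.le)⟩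
      rintro y ⟨j, hj, hy⟩
      rcases hj.eq_or_lt with rfl | hj
      · exact Or.inl hy
      · exact Or.inr ⟨j, hj, hy⟩
  obtain ⟨N, hN⟩ := key c 0 (by omega)
  refine ⟨N, eq_bot_iff.2 (le_trans (pow_le_pow_left' (span_mono ?_) N) hN.le)⟩
  intro y hy
  obtain ⟨j, hj⟩ := Set.mem_iUnion.1 hy
  exact ⟨j, Nat.zero_le _, hj⟩

end nil

section sym
variable (K : Type*) {R : Type*} [CommRing K] [Ring R] [Algebra K R]

/-- The sum of all products of the entries in all orders. -/
noncomputable def symm (n : ℕ) : MultilinearMap K (fun _ : Fin n => R) R :=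
  ∑ σ : Equiv.Perm (Fin n), (MultilinearMap.mkPiAlgebraFin K n R).domDomCongr σ

theorem symm_apply (n : ℕ) (v : Fin n → R) :
    symm K n v = ∑ σ : Equiv.Perm (Fin n), (List.ofFn fun i => v (σ i)).prod := by
  simp [symm]

variable {K}

theorem multi_span {n : ℕ} (f : MultilinearMap K (fun _ : Fin n => R) R) (Z : Set R)
    (h : ∀ v : Fin n → R, (∀ i, v i ∈ Z) → f v = 0) (v : Fin n → R) (hv : ∀ i, v i ∈ span K Z) :
    f v = 0 := by
  classical
  choose s t ht e using fun i => (Submodule.mem_span_iff_exists_finset_subset.1 (hv i))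
  have : v = fun i => ∑ a ∈ t i, s i a • a := funext fun i => (e i).2.symm
  rw [this, f.map_sum_finset]
  refine Finset.sum_eq_zero fun r hr => ?_
  rw [f.map_smul_univ, h _ fun i => ht i (Fintype.mem_piFinset.1 hr i), smul_zero]

theorem prod_update (x y : R) : ∀ (n : ℕ) (i : Fin (n + 1)),
    (List.ofFn (Function.update (fun _ : Fin (n + 1) => y) i x)).prod =
      y ^ (i : ℕ) * x * y ^ (n - i) := by
  intro n
  induction n with
  | zero => intro i; fin_cases i; simp
  | succ n ih =>
    intro i
    rw [List.ofFn_succ, List.prod_cons]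
    refine Fin.cases ?_ (fun j => ?_) i
    · simp [pow_succ']
    · have : (fun k : Fin (n + 1) => Function.update (fun _ : Fin (n + 2) => y) j.succ x k.succ) =
          Function.update (fun _ => y) j x := by
        funext k
        simp [Function.update_apply]
      rw [this, ih, Function.update_of_ne (Fin.succ_ne_zero _).symm]
      simp [pow_succ', mul_assoc]

theorem symm_update (x y : R) (n : ℕ) :
    symm K (n + 1) (Function.update (fun _ => y) 0 x) =
      (n.factorial : R) * ∑ i ∈ range (n + 1), y ^ i * x * y ^ (n - i) := by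
  rw [symm_apply, ← Equiv.sum_comp (Equiv.inv _)]
  have : ∀ σ : Equiv.Perm (Fin (n + 1)),
      (List.ofFn fun i => Function.update (fun _ => y) 0 x ((Equiv.inv _ σ) i)).prod =
        y ^ (σ 0 : ℕ) * x * y ^ (n - σ 0) := fun σ => by
    rw [← prod_update]
    congr 2
    funext i
    simp [Function.update_apply, Equiv.symm_apply_eq]
  simp only [this]
  rw [← Equiv.sum_comp Equiv.Perm.decomposeFin.symm, Fintype.sum_prod_type, Finset.mul_sum,
    ← Fin.sum_univ_eq_sum_range (fun i => (n.factorial : R) * (y ^ i * x * y ^ (n - i)))]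
  simp [Fintype.card_perm]

theorem choose_pred {p : ℕ} (hp : p.Prime) (h0 : (p : R) = 0) :
    ∀ i, i ≤ p - 1 → ((p - 1).choose i : R) = (-1) ^ i := by
  intro i
  induction i with
  | zero => simp
  | succ i ih =>
    intro hi
    have h2 := hp.two_le
    obtain ⟨c, hc⟩ := hp.dvd_choose_self (Nat.succ_ne_zero i) (by omega : i + 1 < p)
    have e : p.choose (i + 1) = (p - 1).choose i + (p - 1).choose (i + 1) := by
      conv_lhs => rw [← Nat.sub_add_cancel hp.one_le]
      exact Nat.choose_succ_succ _ _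
    have := congrArg (Nat.cast : ℕ → R) (e.symm.trans hc)
    rw [Nat.cast_add, Nat.cast_mul, h0, zero_mul, ih (by omega)] at this
    rw [pow_succ, mul_neg_one]
    exact eq_neg_of_add_eq_zero_right this

/-- The symmetric identity of degree `p` gives the Engel identity of degree `p - 1`. -/
theorem engel_of_symm {p : ℕ} (hp : p.Prime) (h0 : (p : K) = 0) (S : Submodule K R)
    (h : ∀ v : Fin p → R, (∀ i, v i ∈ S) → symm K p v = 0) {x y : R} (hx : x ∈ S) (hy : y ∈ S) :
    ((LinearMap.mulLeft K y - LinearMap.mulRight K y) ^ (p - 1)) x = 0 := by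
  obtain ⟨n, rfl⟩ : ∃ n, p = n + 1 := ⟨p - 1, (Nat.sub_add_cancel hp.one_le).symm⟩
  have h1 := h (Function.update (fun _ => y) 0 x) fun i => by
    rw [Function.update_apply]; split_ifs; exacts [hx, hy]
  rw [symm_update] at h1
  obtain ⟨c, hc⟩ := unit_fact hp h0
  have h2 : ∑ i ∈ range (n + 1), y ^ i * x * y ^ (n - i) = 0 := by
    have := congrArg (c • ·) h1
    simp only [← nsmul_eq_mul, ← Nat.cast_smul_eq_nsmul K, smul_smul, smul_zero] at this
    rw [Nat.add_sub_cancel] at hc
    rwa [hc, one_smul] at this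
  have hE : ((n + 1 : ℕ) : Module.End K R) = 0 := by
    rw [← map_natCast (algebraMap K (Module.End K R)), h0, map_zero]
  have hcm : Commute (LinearMap.mulLeft K y) (-LinearMap.mulRight K y) :=
    Commute.neg_right (R := Module.End K R) (LinearMap.commute_mulLeft_right y y)
  rw [sub_eq_add_neg, hcm.add_pow, LinearMap.sum_apply, Nat.add_sub_cancel]
  have h3 : ∀ i ∈ range (n + 1), ((LinearMap.mulLeft K y) ^ i * (-LinearMap.mulRight K y) ^ (n - i) *
      (n.choose i : Module.End K R)) x = (-1 : K) ^ n • (y ^ i * x * y ^ (n - i)) := by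
    intro i hi
    have hi' : i ≤ n := Nat.lt_succ_iff.1 (mem_range.1 hi)
    have := choose_pred hp hE i (by simpa using hi')
    rw [Nat.add_sub_cancel] at this
    have e : (-1 : K) ^ n = (-1) ^ (n - i) * (-1) ^ i := by
      rw [← pow_add, Nat.sub_add_cancel hi']
    have e1 : ∀ k : ℕ, (-1 : Module.End K R) ^ k = (-1 : K) ^ k • (1 : Module.End K R) := by
      intro k
      rw [← neg_one_smul K (1 : Module.End K R), smul_pow, one_pow]
    rw [this, neg_pow (LinearMap.mulRight K y), e1, e1, e, LinearMap.pow_mulLeft,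
      LinearMap.pow_mulRight]
    simp [smul_smul, mul_assoc, mul_comm]
  rw [Finset.sum_congr rfl h3, ← Finset.smul_sum, h2, smul_zero]

/-- Polarisation of `(g - 1) ^ p = 0` in a filtered algebra. -/
theorem symm_mem {p : ℕ} (F : ℕ → Submodule K R) (hF : Antitone F) (h1 : (1 : R) ∈ F 0)
    (hmul : ∀ i j, ∀ a ∈ F i, ∀ b ∈ F j, a * b ∈ F (i + j)) (U : Submonoid R)
    (hU : ∀ u ∈ U, (u - 1) ^ p = 0) (x : Fin p → R) (w : Fin p → ℕ) (hw : ∀ i, 1 ≤ w i)
    (hx : ∀ i, x i ∈ F (w i)) (hxU : ∀ i, x i + 1 ∈ U) : symm K p x ∈ F (∑ i, w i + 1) := by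
  classical
  have hprod : ∀ (n : ℕ) (v : Fin n → R) (u : Fin n → ℕ), (∀ i, v i ∈ F (u i)) →
      (List.ofFn v).prod ∈ F (∑ i, u i) := by
    intro n
    induction n with
    | zero => intro v u _; simpa using h1
    | succ n ih =>
      intro v u h
      rw [List.ofFn_succ, List.prod_cons, Fin.sum_univ_succ]
      exact hmul _ _ _ (h 0) _ (ih _ _ fun i => h i.succ)
  let μ := MultilinearMap.mkPiAlgebraFin K p R
  let X : Finset (Fin p) → R := fun T => μ (T.piecewise x 1)
  have hX : ∀ T, X T ∈ F (∑ i ∈ T, w i) := fun T => by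
    have := hprod p (T.piecewise x 1) (fun i => if i ∈ T then w i else 0) fun i => by
      by_cases hi : i ∈ T
      · simpa [hi] using hx i
      · simpa [hi] using h1
    rwa [Finset.sum_ite_mem, Finset.univ_inter] at this
  have hX0 : X ∅ = 1 := by simp [X, μ, List.ofFn_const, Pi.one_def]
  have hX1 : ∀ j, X {j} = x j := fun j => by
    obtain ⟨n, rfl⟩ : ∃ n, p = n + 1 := ⟨p - 1, by have := j.pos; omega⟩
    simp only [X, μ, Finset.piecewise_singleton, MultilinearMap.mkPiAlgebraFin_apply]
    have := prod_update (x j) (1 : R) n j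
    simpa [Pi.one_def] using this
  let Φ : (Fin p → Finset (Fin p)) → R := fun f => μ fun k => X (f k)
  have hS : ∀ S : Finset (Fin p),
      ∑ f ∈ Fintype.piFinset fun _ : Fin p => S.powerset.erase ∅, Φ f = 0 := fun S => by
    rw [← μ.map_sum_finset (fun _ T => X T)]
    have e : ∑ T ∈ S.powerset.erase ∅, X T = μ (S.piecewise (x + 1) 1) - 1 := by
      rw [μ.map_piecewise_add, ← Finset.add_sum_erase _ _ (Finset.empty_mem_powerset S)]
      change _ = X ∅ + ∑ T ∈ S.powerset.erase ∅, X T - 1
      rw [hX0, add_sub_cancel_left]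
    rw [e, MultilinearMap.mkPiAlgebraFin_apply_const]
    refine hU _ (list_prod_mem fun a ha => ?_)
    obtain ⟨i, rfl⟩ := List.mem_ofFn.1 ha
    by_cases hi : i ∈ S
    · simpa [hi] using hxU i
    · simp [hi]
  -- inclusion-exclusion
  have hIE : ∑ f : Fin p → Finset (Fin p) with
      (∀ k, f k ≠ ∅) ∧ univ.biUnion f = univ, Φ f = 0 := by
    have e1 : ∑ S : Finset (Fin p), (-1 : ℤ) ^ S.card •
        ∑ f ∈ Fintype.piFinset fun _ : Fin p => Sᶜ.powerset.erase ∅, Φ f = 0 :=
      Finset.sum_eq_zero fun S _ => by rw [hS, smul_zero]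
    rw [← e1, Finset.sum_filter]
    have e2 : ∀ S : Finset (Fin p), (-1 : ℤ) ^ S.card •
        ∑ f ∈ Fintype.piFinset fun _ : Fin p => Sᶜ.powerset.erase ∅, Φ f =
        ∑ f : Fin p → Finset (Fin p), if (∀ k, f k ≠ ∅) ∧ S ⊆ (univ.biUnion f)ᶜ then
          (-1 : ℤ) ^ S.card • Φ f else 0 := fun S => by
      rw [Finset.smul_sum, ← Finset.sum_filter]
      refine Finset.sum_congr ?_ fun _ _ => rfl
      ext f
      simp only [Fintype.mem_piFinset, mem_erase, mem_powerset, mem_filter, mem_univ, true_and,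
        subset_compl_comm (s := S), biUnion_subset, forall_const, forall_and]
    simp only [e2]
    rw [Finset.sum_comm]
    refine Finset.sum_congr rfl fun f _ => ?_
    by_cases hf : ∀ k, f k ≠ ∅
    · simp only [and_iff_right hf]
      rw [← Finset.sum_filter, ← Finset.sum_smul]
      have : (univ.filter fun S => S ⊆ (univ.biUnion f)ᶜ) = (univ.biUnion f)ᶜ.powerset := by
        ext S; simp
      rw [this, Finset.sum_powerset_neg_one_pow_card]
      simp only [compl_eq_empty_iff]
      split_ifs <;> simp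
    · simp [hf]
  rw [← Finset.sum_filter_add_sum_filter_not _ (fun f => ∀ k, (f k).card = 1),
    Finset.filter_filter, Finset.filter_filter] at hIE
  have hA : ∑ f : Fin p → Finset (Fin p) with ((∀ k, f k ≠ ∅) ∧ univ.biUnion f = univ) ∧
      ∀ k, (f k).card = 1, Φ f = symm K p x := by
    rw [symm_apply]
    symm
    refine Finset.sum_bij (fun σ _ => fun k => {σ k}) (fun σ _ => ?_) (fun σ _ τ _ h => ?_)
      (fun f hf => ?_) fun σ _ => ?_
    · refine mem_filter.2 ⟨mem_univ _, ⟨fun k => singleton_ne_empty _,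
        eq_univ_of_forall fun i => ?_⟩, fun k => card_singleton _⟩
      exact mem_biUnion.2 ⟨σ.symm i, mem_univ _, by simp⟩
    · exact Equiv.ext fun k => singleton_injective (congrFun h k)
    · obtain ⟨⟨-, hu⟩, hc⟩ := (mem_filter.1 hf).2
      choose j hj using fun k => card_eq_one.1 (hc k)
      have hs : Function.Surjective j := fun i => by
        obtain ⟨k, -, hk⟩ := mem_biUnion.1 (hu.symm ▸ mem_univ i)
        exact ⟨k, by rw [hj k, mem_singleton] at hk; exact hk.symm⟩
      exact ⟨Equiv.ofBijective j (Finite.surjective_iff_bijective.1 hs), mem_univ _,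
        funext fun k => (hj k).symm⟩
    · simp only [Φ, hX1]; rfl
  rw [hA] at hIE
  rw [eq_neg_of_add_eq_zero_left hIE]
  refine neg_mem (sum_mem fun f hf => ?_)
  obtain ⟨⟨hne, hu⟩, hc⟩ := (mem_filter.1 hf).2
  refine hF ?_ (hprod p _ _ fun k => hX (f k))
  have cnt : ∀ u : Fin p → ℕ, ∑ k, ∑ i ∈ f k, u i = ∑ i, #{k | i ∈ f k} * u i := fun u => by
    simp only [card_filter, Finset.sum_mul]
    rw [Finset.sum_comm]
    refine Finset.sum_congr rfl fun k _ => ?_
    simp [ite_mul]
  have hpos : ∀ i, 1 ≤ #{k | i ∈ f k} := fun i => by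
    obtain ⟨k, -, hk⟩ := mem_biUnion.1 (hu.symm ▸ mem_univ i)
    exact card_pos.2 ⟨k, by simpa using hk⟩
  have hex : ∃ i, 1 < #{k | i ∈ f k} := by
    by_contra hcon
    have h3 : ∑ i, #{k | i ∈ f k} * 1 ≤ ∑ _i : Fin p, 1 :=
      Finset.sum_le_sum fun i _ => by
        have := not_exists.1 hcon i
        omega
    rw [← cnt] at h3
    obtain ⟨k, hk⟩ := not_forall.1 hc
    have h4 : ∑ _k : Fin p, 1 < ∑ k, ∑ i ∈ f k, 1 :=
      Finset.sum_lt_sum (fun k _ => by
        simpa using nonempty_iff_ne_empty.2 (hne k)) ⟨k, mem_univ _, by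
        have := card_pos.2 (nonempty_iff_ne_empty.2 (hne k))
        simp only [sum_const, smul_eq_mul, mul_one]
        omega⟩
    omega
  obtain ⟨i, hi⟩ := hex
  rw [cnt]
  exact Finset.sum_lt_sum (fun i _ => Nat.le_mul_of_pos_left _ (hpos i))
    ⟨i, mem_univ _, by have := hw i; nlinarith⟩

end sym

end Pool.Agent.P.MP_1307d3_al.End
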