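import Mathlib
import Pool.Agent.P.MP_1307d3_al.RBP1
import Pool.Agent.P.MP_1307d3_al.End

/-! Restricted Burnside for exponent `p` from the nilpotency of finitely generated Engel
Lie algebras. -/

namespace Pool.Agent.P.MP_1307d3_al.End

open Submodule Polynomial
open scoped commutatorElement

attribute [local instance 100] LieRing.ofAssociativeRing

/-- Finitely generated Lie algebras over `K` with `(ad y) ^ (p - 1) = 0` are nilpotent. -/
def LieNil (K : Type) [Field K] (p : ℕ) : Prop :=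
  ∀ (L : Type) [LieRing L] [LieAlgebra K L], (∀ y : L, LieAlgebra.ad K L y ^ (p - 1) = 0) →
    ∀ s : Set L, s.Finite → LieSubalgebra.lieSpan K L s = ⊤ → LieRing.IsNilpotent L

section mon
variable {K R : Type} [Field K] [Ring R] [Algebra K R]

/-- Bracket monomials of given weight. -/
inductive Mon (s : Set R) : ℕ → R → Prop
  | gen {x : R} : x ∈ s → Mon s 1 x
  | br {i j : ℕ} {a b : R} : Mon s i a → Mon s j b → Mon s (i + j) (a * b - b * a)

theorem Mon.pos {s : Set R} {k : ℕ} {a : R} (h : Mon s k a) : 1 ≤ k := by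
  induction h with
  | gen _ => exact le_rfl
  | br _ _ h _ => omega

theorem Mon.finite {s : Set R} (hs : s.Finite) (k : ℕ) : {a | Mon s k a}.Finite := by
  induction k using Nat.strong_induction_on with
  | _ k ih =>
    have : {a | Mon s k a} ⊆ s ∪ ⋃ i : Fin k, ⋃ j : Fin k,
        Set.image2 (fun a b => a * b - b * a) {a | Mon s i a} {b | Mon s j b} := by
      intro a ha
      cases ha with
      | gen h => exact Or.inl h
      | @br i j a b ha hb =>
        have h1 := ha.pos
        have h2 := hb.pos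
        exact Or.inr (Set.mem_iUnion₂.2 ⟨⟨i, by omega⟩, ⟨j, by omega⟩, a, ha, b, hb, rfl⟩)
    exact (hs.union (Set.finite_iUnion fun i : Fin k => Set.finite_iUnion fun j : Fin k =>
      (ih i i.2).image2 _ (ih j j.2))).subset this

/-- The associative form of `LieNil`. -/
theorem nil_of_lieNil {p : ℕ} (hp : p.Prime) (h0 : (p : K) = 0) (hL : LieNil K p) (Z : Set R)
    (hZ : ∀ a ∈ Z, ∀ b ∈ Z, a * b - b * a ∈ Z) (hZp : ∀ a ∈ Z, a ^ p = 0)
    (hs : ∀ v : Fin p → R, (∀ i, v i ∈ Z) → symm K p v = 0) (s : Set R) (hf : s.Finite)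
    (hsZ : s ⊆ Z) : ∃ N, span K s ^ N = ⊥ := by
  let S : LieSubalgebra K R :=
    { span K Z with
      lie_mem' := fun {a b} ha hb => by
        change a * b - b * a ∈ span K Z
        induction ha using span_induction with
        | mem a ha =>
          induction hb using span_induction with
          | mem b hb => exact subset_span (hZ a ha b hb)
          | zero => simp
          | add b c _ _ h1 h2 =>
            convert add_mem h1 h2 using 1
            noncomm_ring
          | smul k b _ h1 =>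
            convert smul_mem _ k h1 using 1
            simp [smul_sub]
        | zero => simp
        | add a c _ _ h1 h2 =>
          convert add_mem h1 h2 using 1
          noncomm_ring
        | smul k a _ h1 =>
          convert smul_mem _ k h1 using 1
          simp [smul_sub] }
  let L := LieSubalgebra.lieSpan K R s
  have hLS : L ≤ S := LieSubalgebra.lieSpan_le.2 fun x hx => subset_span (hsZ hx)
  have hE : ∀ y : L, LieAlgebra.ad K L y ^ (p - 1) = 0 := by
    intro y
    ext x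
    have e : ∀ n : ℕ, (((LieAlgebra.ad K L y ^ n) x : L) : R) =
        ((LinearMap.mulLeft K y.1 - LinearMap.mulRight K y.1) ^ n) x.1 := by
      intro n
      induction n with
      | zero => rfl
      | succ n ih =>
        rw [pow_succ', pow_succ', Module.End.mul_apply, Module.End.mul_apply, ← ih]
        rfl
    rw [e, engel_of_symm hp h0 (span K Z) (multi_span _ Z hs) (hLS x.2) (hLS y.2)]
    rfl
  have hnil := hL L hE _ (hf.preimage Subtype.val_injective.injOn)
    LieSubalgebra.lieSpan_lieSpan_coe_preimage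
  obtain ⟨c, hc⟩ := LieModule.IsNilpotent.nilpotent K L L
  have hm : ∀ k a, Mon s k a → a ∈ Z ∧ ∃ h : a ∈ L, ∀ j, 2 ^ j ≤ k →
      (⟨a, h⟩ : L) ∈ LieModule.lowerCentralSeries K L L j := by
    intro k a h
    induction h with
    | gen h =>
      refine ⟨hsZ h, LieSubalgebra.subset_lieSpan h, fun j hj => ?_⟩
      obtain rfl : j = 0 := by
        by_contra hne
        have := Nat.one_lt_two_pow hne
        omega
      trivial
    | @br i j a b _ _ ha hb =>
      obtain ⟨ha0, ha1, ha2⟩ := ha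
      obtain ⟨hb0, hb1, hb2⟩ := hb
      refine ⟨hZ a ha0 b hb0, L.lie_mem ha1 hb1, fun n hn => ?_⟩
      rcases n with _ | n
      · trivial
      change ⁅(⟨a, ha1⟩ : L), (⟨b, hb1⟩ : L)⁆ ∈ _
      rw [LieModule.lowerCentralSeries_succ]
      rw [pow_succ] at hn
      by_cases h2 : 2 ^ n ≤ j
      · exact LieSubmodule.lie_mem_lie trivial (hb2 n h2)
      · rw [← lie_skew]
        exact neg_mem (LieSubmodule.lie_mem_lie trivial (ha2 n (by omega)))
  obtain ⟨N, hN⟩ := nil_filt (K := K) (p := p) (c := 2 ^ c) (fun k => {a | Mon s k a})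
    (Mon.finite hf) (fun k y hy => hZp y (hm k y hy).1) (fun k hk y hy => by
      obtain ⟨-, h1, h2⟩ := hm k y hy
      have := h2 c hk
      rw [hc] at this
      exact congrArg Subtype.val ((LieSubmodule.mem_bot _).1 this))
    (fun k j hkj y hy t ht => ⟨k + j, by have := Mon.pos ht; omega, _, Mon.br hy ht, 1,
      Subalgebra.one_mem _, (mul_one _).symm⟩)
  exact ⟨N, eq_bot_iff.2 (le_trans (pow_le_pow_left' (span_mono fun x hx =>
    Set.mem_iUnion.2 ⟨1, Mon.gen hx⟩) N) hN.le)⟩

end mon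

section gr
variable {K A : Type} [Field K] [Ring A] [Algebra K A] (F : ℕ → Submodule K A)

/-- A multiplicative descending filtration with `F 0 = ⊤`. -/
structure Filt : Prop where
  anti : Antitone F
  top : ∀ a, a ∈ F 0
  mul : ∀ i j, ∀ a ∈ F i, ∀ b ∈ F j, a * b ∈ F (i + j)

variable {F}

/-- The Rees algebra. -/
def rees (h : Filt F) : Subalgebra K A[X] where
  carrier := {f | ∀ i, f.coeff i ∈ F i}
  mul_mem' {f g} hf hg i := by
    rw [coeff_mul]
    refine sum_mem fun x hx => ?_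
    rw [← Finset.HasAntidiagonal.mem_antidiagonal.1 hx]
    exact h.mul _ _ _ (hf _) _ (hg _)
  add_mem' {f g} hf hg i := by rw [coeff_add]; exact add_mem (hf i) (hg i)
  algebraMap_mem' k i := by
    rw [Polynomial.algebraMap_apply, coeff_C]
    split_ifs with e
    · rw [e]; exact h.top _
    · exact zero_mem _

/-- The ideal of the Rees algebra defining the graded algebra. -/
def reesI (h : Filt F) : Ideal (rees h) where
  carrier := {f | ∀ i, f.1.coeff i ∈ F (i + 1)}
  add_mem' {f g} hf hg i := by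
    rw [Subalgebra.coe_add, coeff_add]; exact add_mem (hf i) (hg i)
  zero_mem' i := by simp
  smul_mem' f g hg i := by
    rw [smul_eq_mul, Subalgebra.coe_mul, coeff_mul]
    refine sum_mem fun x hx => ?_
    rw [← Finset.HasAntidiagonal.mem_antidiagonal.1 hx, add_assoc]
    exact h.mul _ _ _ (f.2 _) _ (hg _)

instance (h : Filt F) : (reesI h).IsTwoSided where
  mul_mem_of_left {f} g hf i := by
    rw [Subalgebra.coe_mul, coeff_mul]
    refine sum_mem fun x hx => ?_
    rw [← Finset.HasAntidiagonal.mem_antidiagonal.1 hx, add_right_comm]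
    exact h.mul _ _ _ (hf _) _ (g.2 _)

/-- The associated graded algebra. -/
abbrev Gr (h : Filt F) : Type := rees h ⧸ reesI h

theorem mono_mem (h : Filt F) {k : ℕ} {a : A} (ha : a ∈ F k) : monomial k a ∈ rees h := fun i => by
  rw [coeff_monomial]
  split_ifs with e
  · exact e ▸ ha
  · exact zero_mem _

/-- `z` is the class of `a` in degree `k`. -/
def Cl (h : Filt F) (k : ℕ) (a : A) (z : Gr h) : Prop :=
  ∃ ha : a ∈ F k, z = Ideal.Quotient.mk _ ⟨monomial k a, mono_mem h ha⟩

variable {h : Filt F}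

theorem Cl.mul {i j : ℕ} {a b : A} {y z : Gr h} (hy : Cl h i a y) (hz : Cl h j b z) :
    Cl h (i + j) (a * b) (y * z) := by
  obtain ⟨ha, rfl⟩ := hy
  obtain ⟨hb, rfl⟩ := hz
  refine ⟨h.mul _ _ _ ha _ hb, ?_⟩
  rw [← map_mul]
  congr 1
  exact Subtype.ext (monomial_mul_monomial _ _ _ _)

theorem Cl.add {i : ℕ} {a b : A} {y z : Gr h} (hy : Cl h i a y) (hz : Cl h i b z) :
    Cl h i (a + b) (y + z) := by
  obtain ⟨ha, rfl⟩ := hy
  obtain ⟨hb, rfl⟩ := hz
  refine ⟨add_mem ha hb, ?_⟩
  rw [← map_add]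
  congr 1
  exact Subtype.ext (map_add _ _ _).symm

theorem Cl.sub {i : ℕ} {a b : A} {y z : Gr h} (hy : Cl h i a y) (hz : Cl h i b z) :
    Cl h i (a - b) (y - z) := by
  obtain ⟨ha, rfl⟩ := hy
  obtain ⟨hb, rfl⟩ := hz
  refine ⟨sub_mem ha hb, ?_⟩
  rw [← map_sub]
  congr 1
  exact Subtype.ext (map_sub _ _ _).symm

theorem Cl.smul {i : ℕ} {a : A} {y : Gr h} (k : K) (hy : Cl h i a y) : Cl h i (k • a) (k • y) := by
  obtain ⟨ha, rfl⟩ := hy
  refine ⟨smul_mem _ _ ha, ?_⟩
  change Ideal.Quotient.mk _ (k • _) = _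
  congr 1
  exact Subtype.ext (smul_monomial _ _ _)

theorem Cl.zero (i : ℕ) : Cl h i 0 0 := ⟨zero_mem _, by
  rw [← map_zero (Ideal.Quotient.mk _)]
  congr 1
  exact Subtype.ext (map_zero _).symm⟩

theorem Cl.one : Cl h 0 1 1 := ⟨h.top _, rfl⟩

theorem Cl.zero_iff {i : ℕ} {a : A} {y : Gr h} (hy : Cl h i a y) : y = 0 ↔ a ∈ F (i + 1) := by
  obtain ⟨ha, rfl⟩ := hy
  rw [Ideal.Quotient.eq_zero_iff_mem]
  refine ⟨fun H => by simpa using H i, fun H j => ?_⟩
  simp only [coeff_monomial]
  split_ifs with e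
  · exact e ▸ H
  · exact zero_mem _

theorem Cl.congr {i : ℕ} {a b : A} {y : Gr h} (hy : Cl h i a y) (hb : b - a ∈ F (i + 1)) :
    Cl h i b y := by
  have h1 : Cl h i (b - a) _ := ⟨h.anti (Nat.le_succ i) hb, rfl⟩
  have := hy.add h1
  rwa [h1.zero_iff.2 hb, add_zero, add_sub_cancel] at this

theorem Cl.pow {i : ℕ} {a : A} {y : Gr h} (hy : Cl h i a y) (n : ℕ) :
    Cl h (n * i) (a ^ n) (y ^ n) := by
  induction n with
  | zero => simpa using Cl.one
  | succ n ih => rw [pow_succ, pow_succ, Nat.succ_mul]; exact ih.mul hy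

theorem Cl.prod : ∀ (n : ℕ) (w : Fin n → ℕ) (a : Fin n → A) (y : Fin n → Gr h),
    (∀ i, Cl h (w i) (a i) (y i)) → Cl h (∑ i, w i) (List.ofFn a).prod (List.ofFn y).prod := by
  intro n
  induction n with
  | zero => intro w a y _; simpa using Cl.one
  | succ n ih =>
    intro w a y H
    rw [List.ofFn_succ, List.ofFn_succ, List.prod_cons, List.prod_cons, Fin.sum_univ_succ]
    exact (H 0).mul (ih _ _ _ fun i => H i.succ)

theorem Cl.sum {ι : Type*} (s : Finset ι) {i : ℕ} (a : ι → A) (y : ι → Gr h)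
    (H : ∀ j ∈ s, Cl h i (a j) (y j)) : Cl h i (∑ j ∈ s, a j) (∑ j ∈ s, y j) := by
  classical
  induction s using Finset.induction_on with
  | empty => simpa using Cl.zero i
  | insert j s hj ih =>
    rw [Finset.sum_insert hj, Finset.sum_insert hj]
    exact (H j (by simp)).add (ih fun k hk => H k (by simp [hk]))

end gr

section aug
variable {K A H : Type} [Field K] [Ring A] [Algebra K A] [Group H]

/-- The span of the elements `ρ g - 1`. -/
def aug (K : Type) {A H : Type} [Field K] [Ring A] [Algebra K A] [Group H] (ρ : H →* A) :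
    Submodule K A := span K (Set.range fun g => ρ g - 1)

/-- The filtration by powers of the augmentation ideal. -/
def fil (K : Type) {A H : Type} [Field K] [Ring A] [Algebra K A] [Group H] (ρ : H →* A) (k : ℕ) :
    Submodule K A := aug K ρ ^ k * ⊤

variable {ρ : H →* A}

theorem mem_fil_one (g : H) : ρ g - 1 ∈ fil K ρ 1 := by
  have : ρ g - 1 ∈ aug K ρ ^ 1 := by rw [pow_one]; exact subset_span ⟨g, rfl⟩
  simpa [fil] using mul_mem_mul this (mem_top : (1 : A) ∈ (⊤ : Submodule K A))

theorem pow_le_fil (k : ℕ) : aug K ρ ^ k ≤ fil K ρ k := fun a ha => by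
  simpa [fil] using mul_mem_mul ha (mem_top : (1 : A) ∈ (⊤ : Submodule K A))

theorem filt_fil (hρ : span K (Set.range ρ) = ⊤) : Filt (fil K ρ) := by
  have h1 : ⊤ * aug K ρ ≤ aug K ρ := by
    rw [← hρ, aug, span_mul_span]
    refine span_le.2 ?_
    rintro _ ⟨_, ⟨g, rfl⟩, _, ⟨h, rfl⟩, rfl⟩
    have : ρ g * (ρ h - 1) = (ρ (g * h) - 1) - (ρ g - 1) := by rw [map_mul]; noncomm_ring
    simp only [this]
    exact sub_mem (subset_span ⟨_, rfl⟩) (subset_span ⟨_, rfl⟩)
  have h2 : ∀ j, ⊤ * fil K ρ j ≤ fil K ρ j := by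
    intro j
    rcases Nat.eq_zero_or_pos j with rfl | hj
    · simp [fil]
    · obtain ⟨j, rfl⟩ : ∃ i, j = i + 1 := ⟨j - 1, by omega⟩
      rw [fil, pow_succ', ← mul_assoc, ← mul_assoc]
      exact mll (mll h1)
  refine ⟨antitone_nat_of_succ_le fun n => ?_, fun a => by simp [fil], fun i j a ha b hb => ?_⟩
  · rw [fil, fil, pow_succ, mul_assoc]
    exact mlr le_top
  · have := mul_mem_mul ha hb
    rw [fil, mul_assoc] at this
    have h3 := mlr (M := aug K ρ ^ i) (h2 j) this
    rwa [fil, ← mul_assoc, ← pow_add] at h3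

theorem comm_sub (g h : H) : ρ ⁅g, h⁆ - 1 =
    ((ρ g - 1) * (ρ h - 1) - (ρ h - 1) * (ρ g - 1)) * ρ (g⁻¹ * h⁻¹) := by
  have : (ρ g - 1) * (ρ h - 1) - (ρ h - 1) * (ρ g - 1) = ρ (g * h) - ρ (h * g) := by
    rw [map_mul, map_mul]; noncomm_ring
  rw [this, sub_mul, ← map_mul, ← map_mul, commutatorElement_def]
  simp [mul_assoc]

theorem pow_sub_one {p : ℕ} (hp : p.Prime) (h0 : (p : K) = 0) (hH : ∀ g : H, g ^ p = 1) (g : H) :
    (ρ g - 1) ^ p = 0 := by
  have hA : (p : A) = 0 := by rw [← map_natCast (algebraMap K A), h0, map_zero]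
  conv_lhs => rw [← Nat.sub_add_cancel hp.one_le, pow_succ, sub_one_pow hp hA, geom_sum_mul]
  rw [← map_pow, hH, map_one, sub_self]

/-- For a finitely generated group of exponent `p` the augmentation filtration is stationary. -/
theorem fil_stable {p : ℕ} (hp : p.Prime) (h0 : (p : K) = 0) (hL : LieNil K p)
    (hρ : span K (Set.range ρ) = ⊤) (hH : ∀ g : H, g ^ p = 1) {d : ℕ} (x : Fin d → H)
    (hx : Subgroup.closure (Set.range x) = ⊤) : ∃ N, fil K ρ N ≤ fil K ρ (N + 1) := by
  have hF := filt_fil hρ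
  let Z : Set (Gr hF) := {z | ∃ k g, 1 ≤ k ∧ Cl hF k (ρ g - 1) z}
  let s : Set (Gr hF) := Set.range fun j =>
    Ideal.Quotient.mk _ ⟨monomial 1 (ρ (x j) - 1), mono_mem hF (mem_fil_one (x j))⟩
  obtain ⟨N, hN⟩ := nil_of_lieNil hp h0 hL Z (by
      rintro a ⟨i, g, hi, ha⟩ b ⟨j, h, hj, hb⟩
      have h1 := (ha.mul hb).sub (add_comm j i ▸ hb.mul ha)
      refine ⟨i + j, ⁅g, h⁆, by omega, h1.congr ?_⟩
      rw [comm_sub, ← mul_sub_one]
      exact hF.mul _ _ _ h1.1 _ (mem_fil_one _)) (by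
      rintro a ⟨i, g, hi, ha⟩
      rw [(ha.pow p).zero_iff, pow_sub_one hp h0 hH]
      exact zero_mem _) (by
      intro v hv
      choose w g hw hc using hv
      have h1 : Cl hF (∑ i, w i) (symm K p fun i => ρ (g i) - 1) (symm K p v) := by
        rw [symm_apply, symm_apply]
        refine Cl.sum _ _ _ fun σ _ => ?_
        rw [← Equiv.sum_comp σ w]
        exact Cl.prod p _ _ _ fun i => hc (σ i)
      rw [h1.zero_iff]
      refine symm_mem _ hF.anti (hF.top _) hF.mul (MonoidHom.mrange ρ) ?_ _ w hw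
        (fun i => (hc i).1) fun i => ⟨g i, by simp⟩
      rintro _ ⟨g, rfl⟩
      exact pow_sub_one hp h0 hH g) s (Set.finite_range _) (by
      rintro _ ⟨j, rfl⟩
      exact ⟨1, x j, le_rfl, mem_fil_one _, rfl⟩)
  have h1 : ∀ a ∈ aug K ρ, ∃ z ∈ span K s, Cl hF 1 a z := by
    intro a ha
    induction ha using span_induction with
    | mem a ha =>
      obtain ⟨g, rfl⟩ := ha
      have hg : g ∈ Subgroup.closure (Set.range x) := hx ▸ trivial
      induction hg using Subgroup.closure_induction with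
      | mem g hg =>
        obtain ⟨j, rfl⟩ := hg
        exact ⟨_, subset_span ⟨j, rfl⟩, mem_fil_one _, rfl⟩
      | one => exact ⟨0, zero_mem _, by simpa using Cl.zero 1⟩
      | mul g h _ _ hg hh =>
        obtain ⟨y, hy, h1⟩ := hg
        obtain ⟨z, hz, h2⟩ := hh
        refine ⟨y + z, add_mem hy hz, (h1.add h2).congr ?_⟩
        convert hF.mul 1 1 _ (mem_fil_one g) _ (mem_fil_one h) using 1
        simp only [map_mul]; noncomm_ring
      | inv g _ hg =>
        obtain ⟨y, hy, h1⟩ := hg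
        refine ⟨0 - y, sub_mem (zero_mem _) hy, ((Cl.zero 1).sub h1).congr ?_⟩
        convert neg_mem (hF.mul 1 1 _ (mem_fil_one g) _ (mem_fil_one g⁻¹)) using 1
        have : ρ g * ρ g⁻¹ = 1 := by rw [← map_mul, mul_inv_cancel, map_one]
        rw [mul_sub, sub_mul, this]; noncomm_ring
    | zero => exact ⟨0, zero_mem _, Cl.zero 1⟩
    | add a b _ _ ha hb =>
      obtain ⟨y, hy, h1⟩ := ha
      obtain ⟨z, hz, h2⟩ := hb
      exact ⟨y + z, add_mem hy hz, h1.add h2⟩
    | smul k a _ ha =>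
      obtain ⟨y, hy, h1⟩ := ha
      exact ⟨k • y, smul_mem _ _ hy, h1.smul k⟩
  have h2 : ∀ k, ∀ a ∈ aug K ρ ^ k, ∃ z ∈ span K s ^ k, Cl hF k a z := by
    intro k
    induction k with
    | zero =>
      intro a ha
      rw [pow_zero] at ha ⊢
      obtain ⟨c, rfl⟩ := mem_one.1 ha
      rw [Algebra.algebraMap_eq_smul_one]
      exact ⟨c • 1, smul_mem _ _ (one_le.1 le_rfl), Cl.one.smul c⟩
    | succ k ih =>
      intro a ha
      rw [pow_succ] at ha ⊢
      refine Submodule.mul_induction_on ha (fun u hu v hv => ?_) fun u v hu hv => ?_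
      · obtain ⟨y, hy, h3⟩ := ih u hu
        obtain ⟨z, hz, h4⟩ := h1 v hv
        exact ⟨y * z, mul_mem_mul hy hz, h3.mul h4⟩
      · obtain ⟨y, hy, h3⟩ := hu
        obtain ⟨z, hz, h4⟩ := hv
        exact ⟨y + z, add_mem hy hz, h3.add h4⟩
  refine ⟨N, Submodule.mul_le.2 fun a ha b _ => ?_⟩
  obtain ⟨z, hz, h3⟩ := h2 N a ha
  rw [hN] at hz
  exact hF.mul (N + 1) 0 _ (h3.zero_iff.1 hz) _ (hF.top b)

theorem lcs_mem (hρ : span K (Set.range ρ) = ⊤) :
    ∀ n, ∀ g ∈ (⊤ : Subgroup H).lowerCentralSeries n, ρ g - 1 ∈ fil K ρ (n + 1) := by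
  have hF := filt_fil hρ
  intro n
  induction n with
  | zero => exact fun g _ => mem_fil_one g
  | succ n ih =>
    intro g hg
    rw [Subgroup.mem_lowerCentralSeries_succ_iff] at hg
    induction hg using Subgroup.closure_induction with
    | mem g hg =>
      obtain ⟨a, ha, b, -, rfl⟩ := hg
      rw [comm_sub]
      refine hF.mul _ 0 _ (sub_mem (hF.mul _ 1 _ (ih a ha) _ (mem_fil_one b)) ?_) _ (hF.top _)
      rw [add_comm (n + 1) 1]
      exact hF.mul _ _ _ (mem_fil_one b) _ (ih a ha)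
    | one => simp
    | mul g h _ _ hg hh =>
      convert add_mem (hF.mul _ 0 _ hg _ (hF.top (ρ h))) hh using 1
      rw [map_mul]; noncomm_ring
    | inv g _ hg =>
      convert neg_mem (hF.mul _ 0 _ hg _ (hF.top (ρ g⁻¹))) using 1
      rw [sub_mul, ← map_mul, mul_inv_cancel, map_one]; noncomm_ring

theorem aug_nil {p : ℕ} (hp : p.Prime) (h0 : (p : K) = 0) [Finite H] (hH : ∀ g : H, g ^ p = 1) :
    ∃ M, aug K ρ ^ M = ⊥ := by
  have := Fact.mk hp
  have hP : IsPGroup p H := fun g => ⟨1, by simpa using hH g⟩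
  obtain ⟨c, hc⟩ := Subgroup.nilpotent_iff_lowerCentralSeries.1 hP.isNilpotent
  obtain ⟨N, hN⟩ := nil_filt (K := K) (p := p) (c := c)
    (fun k => (fun g => ρ g - 1) '' (⊤ : Subgroup H).lowerCentralSeries k)
    (fun k => (Set.toFinite _).image _) (by
      rintro k _ ⟨g, -, rfl⟩
      exact pow_sub_one hp h0 hH g) (by
      rintro k hk _ ⟨g, hg, rfl⟩
      have := Subgroup.lowerCentralSeries_antitone _ hk hg
      rw [hc, Subgroup.mem_bot] at this
      simp [this]) (by
      rintro k j - _ ⟨g, hg, rfl⟩ _ ⟨h, -, rfl⟩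
      refine ⟨k + 1, Nat.lt_succ_self k, _, ⟨⁅g, h⁆,
        Subgroup.commutator_mem_commutator hg trivial, rfl⟩, (ρ h - 1 + 1) * (ρ g - 1 + 1), ?_, ?_⟩
      · exact mul_mem (add_mem (Algebra.subset_adjoin (by simp)) (one_mem _))
          (add_mem (Algebra.subset_adjoin (by simp)) (one_mem _))
      · simp only [comm_sub, sub_add_cancel, mul_assoc, ← map_mul]
        simp)
  refine ⟨N, eq_bot_iff.2 (le_trans (pow_le_pow_left' (span_mono ?_) N) hN.le)⟩
  rintro _ ⟨g, rfl⟩
  exact Set.mem_iUnion.2 ⟨0, g, trivial, rfl⟩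

end aug

theorem span_of (K H : Type) [Field K] [Group H] :
    span K (Set.range (MonoidAlgebra.of K H)) = ⊤ := by
  rw [eq_top_iff]
  rintro a -
  induction a using MonoidAlgebra.induction_on with
  | of g => exact subset_span ⟨g, rfl⟩
  | add a b ha hb => exact add_mem ha hb
  | smul k a ha => exact smul_mem _ _ ha

/-- Restricted Burnside from the Lie algebra statement. -/
theorem rbp_of_lieNil (K : Type) [Field K] {p : ℕ} (hp : p.Prime) (h0 : (p : K) = 0)
    (hL : LieNil K p) : RBP p := by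
  intro d
  by_contra hcon
  simp only [not_exists, not_forall] at hcon
  choose H iG iF hH x hx hne using hcon
  let G := Subgroup.closure (Set.range fun (j : Fin d) (n : ℕ) => x n j)
  obtain ⟨N, hN⟩ := fil_stable hp h0 hL (span_of K G)
    (fun g => Subtype.ext (funext fun n => hH n _))
    (fun j => ⟨fun n => x n j, Subgroup.subset_closure ⟨j, rfl⟩⟩) (by
      rw [eq_top_iff, ← Subgroup.closure_closure_coe_preimage]
      refine Subgroup.closure_mono ?_
      rintro ⟨_, _⟩ ⟨i, rfl⟩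
      exact ⟨i, rfl⟩)
  let π : G →* H N := (Pi.evalMonoidHom H N).comp G.subtype
  have hπ : Function.Surjective π := by
    rw [← MonoidHom.range_eq_top, eq_top_iff, ← hx N, Subgroup.closure_le]
    rintro _ ⟨j, rfl⟩
    exact ⟨⟨_, Subgroup.subset_closure ⟨j, rfl⟩⟩, rfl⟩
  let f : MonoidAlgebra K G →ₐ[K] MonoidAlgebra K (H N) :=
    MonoidAlgebra.lift K _ G ((MonoidAlgebra.of K (H N)).comp π)
  have hf : ∀ g, f (MonoidAlgebra.of K G g) = MonoidAlgebra.of K (H N) (π g) := fun g =>
    MonoidAlgebra.lift_of _ g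
  have h1 : (aug K (MonoidAlgebra.of K G)).map f.toLinearMap = aug K (MonoidAlgebra.of K (H N)) := by
    rw [aug, aug, map_span, ← Set.range_comp]
    congr 1
    ext a
    constructor
    · rintro ⟨g, rfl⟩
      exact ⟨π g, by simp [← hf]⟩
    · rintro ⟨g, rfl⟩
      obtain ⟨g, rfl⟩ := hπ g
      exact ⟨g, by simp [← hf]⟩
  have h2 : (⊤ : Submodule K _).map f.toLinearMap = ⊤ := by
    rw [eq_top_iff, ← span_of K (H N), span_le]
    rintro _ ⟨g, rfl⟩
    obtain ⟨g, rfl⟩ := hπ g
    exact ⟨_, trivial, hf g⟩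
  have h3 : ∀ k, (fil K (MonoidAlgebra.of K G) k).map f.toLinearMap =
      fil K (MonoidAlgebra.of K (H N)) k := fun k => by
    rw [fil, fil, Submodule.map_mul, Submodule.map_pow, h1, h2]
  have h4 := map_mono (f := f.toLinearMap) hN
  rw [h3, h3] at h4
  have := iF N
  obtain ⟨M, hM⟩ := aug_nil (ρ := MonoidAlgebra.of K (H N)) hp h0 (hH N)
  have h5 : ∀ k, fil K (MonoidAlgebra.of K (H N)) N ≤
      aug K (MonoidAlgebra.of K (H N)) ^ k * fil K (MonoidAlgebra.of K (H N)) N := by
    intro k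
    induction k with
    | zero => rw [pow_zero, one_mul]
    | succ k ih =>
      refine ih.trans ((mlr h4).trans ?_)
      rw [fil, fil, pow_succ' _ N, pow_succ, mul_assoc, mul_assoc]
  refine hne N (eq_bot_iff.2 fun g hg => ?_)
  have h6 := h5 M ((filt_fil (span_of K (H N))).anti (Nat.le_succ N) (lcs_mem (span_of K _) N g hg))
  rw [hM, bot_mul, mem_bot, sub_eq_zero, ← map_one (MonoidAlgebra.of K (H N))] at h6
  exact MonoidAlgebra.of_injective h6

end Pool.Agent.P.MP_1307d3_al.End
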