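import Pool.Agent.P.MP_1307d3_al.GDefs
import Pool.Agent.P.MP_1307d3_al.RBP2

/-! Nilpotency of augmentation ideals. -/

namespace Pool.Agent.P.MP_1307d3_al.Grp

open End Submodule
open scoped commutatorElement

theorem om_nil_top {p : ℕ} (hp : p.Prime) {H : Type} [Group H] [Finite H] (hE : ∀ g : H, g ^ p = 1)
    {R : Type} [Ring R] (ρ : H →* R) (h0 : (p : R) = 0) : ∃ N, NilAt (Om ρ ⊤) N := by
  have := Fact.mk hp
  have hP : IsPGroup p H := fun g => ⟨1, by simpa using hE g⟩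
  obtain ⟨c, hc⟩ := Subgroup.nilpotent_iff_lowerCentralSeries.1 hP.isNilpotent
  obtain ⟨N, hN⟩ := nil_filt (K := ℤ) (p := p) (c := c)
    (fun k => (fun g => ρ g - 1) '' (⊤ : Subgroup H).lowerCentralSeries k)
    (fun k => (Set.toFinite _).image _) (by
      rintro k _ ⟨g, -, rfl⟩
      conv_lhs => rw [← Nat.sub_add_cancel hp.one_le, pow_succ, sub_one_pow hp h0, geom_sum_mul]
      rw [← map_pow, hE, map_one, sub_self]) (by
      rintro k hk _ ⟨g, hg, rfl⟩
      have := Subgroup.lowerCentralSeries_antitone _ hk hg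
      rw [hc, Subgroup.mem_bot] at this
      simp [this]) (by
      rintro k j - _ ⟨g, hg, rfl⟩ _ ⟨h, -, rfl⟩
      refine ⟨k + 1, Nat.lt_succ_self k, _, ⟨⁅g, h⁆,
        Subgroup.commutator_mem_commutator hg trivial, rfl⟩, (ρ h - 1 + 1) * (ρ g - 1 + 1), ?_, ?_⟩
      · exact mul_mem (add_mem (Algebra.subset_adjoin (by simp)) (one_mem _))
          (add_mem (Algebra.subset_adjoin (by simp)) (one_mem _))
      · simp only [comm_sub, sub_add_cancel, mul_assoc, ← map_mul]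
        simp)
  set P := span ℤ (⋃ k, (fun g => ρ g - 1) '' (⊤ : Subgroup H).lowerCentralSeries k)
  have h1 : Om ρ ⊤ ≤ P.toAddSubgroup := (AddSubgroup.closure_le _).2 fun x hx =>
    subset_span (Set.mem_iUnion.2 ⟨0, hx⟩)
  have h2 : ∀ l : List R, (∀ x ∈ l, x ∈ Om ρ ⊤) → l.prod ∈ P ^ l.length := by
    intro l
    induction l with
    | nil => intro _; exact Submodule.one_le.1 (by simp)
    | cons x l ih =>
      intro h
      rw [List.prod_cons, List.length_cons, pow_succ']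
      exact mul_mem_mul (h1 (h x (by simp))) (ih fun y hy => h y (by simp [hy]))
  refine ⟨N, fun l hl h => ?_⟩
  have := h2 l h
  rwa [← Nat.add_sub_cancel' hl, pow_add, hN, bot_mul, mem_bot] at this

theorem NilAt.of_map {R R' : Type*} [Ring R] [Ring R'] (f : R' →+* R) {M : AddSubgroup R}
    {M' : AddSubgroup R'} {N : ℕ} (h : NilAt M' N) (hM : ∀ x ∈ M, ∃ y ∈ M', f y = x) :
    NilAt M N := by
  intro l hl hx
  have : ∃ l' : List R', (∀ y ∈ l', y ∈ M') ∧ l'.map f = l := by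
    clear hl
    induction l with
    | nil => exact ⟨[], by simp, rfl⟩
    | cons x l ih =>
      obtain ⟨l', h1, h2⟩ := ih fun y hy => hx y (by simp [hy])
      obtain ⟨y, h3, h4⟩ := hM x (hx x (by simp))
      exact ⟨y :: l', by simpa [h3] using h1, by simp [h2, h4]⟩
  obtain ⟨l', h1, rfl⟩ := this
  rw [← map_list_prod, h l' (by simpa using hl) h1, map_zero]

theorem om_nil_fin {p : ℕ} (hp : p.Prime) {G : Type} [Group G] (hE : ∀ g : G, g ^ p = 1)
    {R : Type} [Ring R] (ρ : G →* R) (h0 : (p : R) = 0) (_hn : ∀ g, (ρ g - 1) ^ (p - 1) = 0)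
    (H : Subgroup G) (hH : (H : Set G).Finite) : ∃ N, NilAt (Om ρ H) N := by
  have : Finite H := hH.to_subtype
  obtain ⟨N, hN⟩ := om_nil_top hp (H := H) (fun g => Subtype.ext (hE g)) (ρ.comp H.subtype) h0
  refine ⟨N, hN.of_map (RingHom.id R) fun x hx => ⟨x, AddSubgroup.closure_mono ?_ hx, rfl⟩⟩
  rintro _ ⟨h, hh, rfl⟩
  exact ⟨⟨h, hh⟩, trivial, rfl⟩

theorem om_nil_two {p : ℕ} (hp : p.Prime) (hR : RBP p) {G : Type} [Group G] (hL : LocFin G)
    (hE : ∀ g : G, g ^ p = 1) {R : Type} [Ring R] (ρ : G →* R) (h0 : (p : R) = 0)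
    (_hn : ∀ g, (ρ g - 1) ^ (p - 1) = 0) :
    ∃ k, ∀ a b : G, NilAt (Om ρ (Subgroup.closure {a, b})) k := by
  let x : ℤ → Fr G := fun j => ⟨fun y => y j, Subgroup.subset_closure ⟨j, rfl⟩⟩
  let E := Subgroup.closure ({x 0, x 1} : Set (Fr G))
  have : Finite E := (locFin_Fr hp.pos hR hL hE _ (Set.toFinite _)).to_subtype
  let ρ' : E →* ((ℤ → G) → R) := MonoidHom.pi fun y => (ρ.comp (ev y)).comp E.subtype
  obtain ⟨N, hN⟩ := om_nil_top hp (H := E)
    (fun g => Subtype.ext (Subtype.ext (funext fun y => hE _))) ρ' (funext fun _ => h0)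
  refine ⟨N, fun a b => ?_⟩
  let y : ℤ → G := fun j => if j = 0 then a else b
  refine hN.of_map (Pi.evalRingHom (fun _ => R) y) fun z hz => ?_
  have h1 : Om ρ (Subgroup.closure {a, b}) ≤
      (Om ρ' ⊤).map (Pi.evalRingHom (fun _ => R) y).toAddMonoidHom := by
    refine (AddSubgroup.closure_le _).2 ?_
    rintro _ ⟨h, hh, rfl⟩
    have h2 : Subgroup.closure {a, b} ≤ E.map (ev y) := by
      refine (Subgroup.closure_le _).2 ?_
      rintro _ (rfl | rfl)
      · exact ⟨x 0, Subgroup.subset_closure (by simp), rfl⟩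
      · exact ⟨x 1, Subgroup.subset_closure (by simp), rfl⟩
    obtain ⟨f, hf, rfl⟩ := h2 hh
    exact ⟨ρ' ⟨f, hf⟩ - 1, AddSubgroup.subset_closure ⟨_, trivial, rfl⟩, rfl⟩
  exact h1 hz

end Pool.Agent.P.MP_1307d3_al.Grp
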