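import Pool.Agent.P.MP_1307d3_al.Abel

/-! Polarisation and the passage from `x ^ (p-1) = 0` to the Engel identity. -/

namespace Pool.Agent.P.MP_1307d3_al.Thick

open Finset

theorem pol {M N : Type*} [AddCommGroup M] [AddCommGroup N] {n : ℕ}
    (f : MultilinearMap ℤ (fun _ : Fin n => M) N) (a : Fin n → M)
    (h : ∀ S : Finset (Fin n), f (fun _ => ∑ i ∈ S, a i) = 0) :
    ∑ σ : Equiv.Perm (Fin n), f (fun i => a (σ i)) = 0 := by
  have h1 : ∀ T : Finset (Fin n), ∑ r : Fin n → Fin n,
      (if T ⊆ (image r univ)ᶜ then ((-1 : ℤ) ^ T.card) else 0) • f (fun i => a (r i)) = 0 := by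
    intro T
    have := h Tᶜ
    rw [f.map_sum_finset (fun _ j => a j) (fun _ => Tᶜ)] at this
    simp only [ite_smul, zero_smul]
    rw [← sum_filter, ← smul_sum]
    have e : filter (fun r : Fin n → Fin n => T ⊆ (image r univ)ᶜ) univ =
        Fintype.piFinset fun _ => Tᶜ := by
      ext r
      simp only [mem_filter, mem_univ, true_and, Fintype.mem_piFinset, mem_compl, subset_iff,
        mem_image, not_exists]
      exact ⟨fun q i hi => q hi i rfl, fun q x hx i e => q i (e ▸ hx)⟩
    rw [e, this, smul_zero]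
  have h2 := sum_eq_zero (s := univ) fun T _ => h1 T
  rw [sum_comm] at h2
  rw [← h2]
  simp only [← sum_smul]
  have h3 : ∀ r : Fin n → Fin n,
      (∑ T : Finset (Fin n), if T ⊆ (image r univ)ᶜ then ((-1 : ℤ) ^ T.card) else 0) =
        if Function.Bijective r then 1 else 0 := by
    intro r
    rw [← sum_filter, show filter (fun T => T ⊆ (image r univ)ᶜ) univ = (image r univ)ᶜ.powerset by
      ext T; simp, sum_powerset_neg_one_pow_card]
    refine if_congr ?_ rfl rfl
    rw [compl_eq_empty_iff, ← Finite.surjective_iff_bijective, eq_univ_iff_forall]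
    simp [Function.Surjective]
  simp only [h3, ite_smul, one_smul, zero_smul]
  rw [← sum_filter]
  refine sum_bij (fun σ _ => (σ : Fin n → Fin n)) (fun σ _ => mem_filter.2 ⟨mem_univ _, σ.bijective⟩)
    (fun σ _ τ _ e => Equiv.ext (congrFun e)) (fun r hr => ?_) fun _ _ => rfl
  exact ⟨Equiv.ofBijective r (mem_filter.1 hr).2, mem_univ _, rfl⟩

theorem pol_ring {B : Type*} [Ring B] {n : ℕ} (a : Fin n → B)
    (h : ∀ S : Finset (Fin n), (∑ i ∈ S, a i) ^ n = 0) :
    ∑ σ : Equiv.Perm (Fin n), (List.ofFn fun i => a (σ i)).prod = 0 :=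
  pol (MultilinearMap.mkPiAlgebraFin ℤ n B) a fun S => by
    rw [MultilinearMap.mkPiAlgebraFin_apply_const, h]

variable {L : Type*} [LieRing L]

/-- Right multiplications, composed in the order in which they are applied. -/
def rmo : L →+ (AddMonoid.End L)ᵐᵒᵖ where
  toFun y := MulOpposite.op (rm y)
  map_zero' := MulOpposite.unop_injective (AddMonoidHom.ext fun a => lie_zero a)
  map_add' a b := MulOpposite.unop_injective (AddMonoidHom.ext fun x => lie_add x a b)

theorem br_eq_rmo (w : List L) (x : L) : br x w = (w.map rmo).prod.unop x := by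
  induction w generalizing x with
  | nil => rfl
  | cons a w ih => rw [List.map_cons, List.prod_cons, MulOpposite.unop_mul]; exact ih _

theorem engel_of_nil {n : ℕ} (h : ∀ x y : L, br y (List.replicate n x) = 0) : Engel L n := by
  intro a x
  have := pol_ring (fun i => rmo (a i)) fun S => by
    rw [← map_sum, ← List.prod_replicate, ← List.map_replicate]
    apply MulOpposite.unop_injective
    ext y
    rw [← br_eq_rmo, h]; rfl
  let ev : (AddMonoid.End L)ᵐᵒᵖ →+ L :=
    { toFun t := t.unop x, map_zero' := rfl, map_add' _ _ := rfl }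
  have := congrArg ev this
  rw [map_sum, map_zero] at this
  simp only [br_eq_rmo, List.map_ofFn]
  exact this

theorem prod_ofFn_ite {B : Type*} [Monoid B] (X Y : B) : ∀ (n : ℕ) (j : Fin (n + 1)),
    (List.ofFn fun i : Fin (n + 1) => if i = j then Y else X).prod = X ^ j.1 * Y * X ^ (n - j.1) := by
  intro n
  induction n with
  | zero => intro j; simp [Fin.eq_zero j]
  | succ n ih =>
    intro j
    rw [List.ofFn_succ, List.prod_cons]
    refine Fin.cases ?_ (fun k => ?_) j
    · simp [Fin.succ_ne_zero, pow_succ']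
    · simp only [Fin.succ_inj, ih k, (Fin.succ_ne_zero k).symm, if_false, Fin.val_succ,
        Nat.add_sub_add_right, pow_succ', mul_assoc]

theorem sum_mid {B : Type*} [Ring B] {n : ℕ} (M : AddSubgroup B) (h : ∀ x ∈ M, x ^ (n + 1) = 0)
    {X Y : B} (hX : X ∈ M) (hY : Y ∈ M) :
    (n + 1).factorial • ∑ j ∈ range (n + 1), X ^ j * Y * X ^ (n - j) = 0 := by
  have h1 : ∀ k : Fin (n + 1), ∑ σ : Equiv.Perm (Fin (n + 1)),
      X ^ (σ k).1 * Y * X ^ (n - (σ k).1) = 0 := by
    intro k
    have := pol_ring (fun i : Fin (n + 1) => if i = k then Y else X) fun S =>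
      h _ (sum_mem fun i _ => by split_ifs <;> assumption)
    rw [← this, ← Equiv.sum_comp (Equiv.inv _)]
    refine sum_congr rfl fun σ _ => ?_
    rw [← prod_ofFn_ite]
    congr 2
    ext i
    exact if_congr (by simp [Equiv.eq_symm_apply]) rfl rfl
  have h2 := sum_eq_zero (s := univ) fun k _ => h1 k
  rw [sum_comm, sum_congr rfl fun σ _ =>
    Equiv.sum_comp σ fun k : Fin (n + 1) => X ^ k.1 * Y * X ^ (n - k.1), sum_const, card_univ,
    Fintype.card_perm, Fintype.card_fin,
    Fin.sum_univ_eq_sum_range fun j => X ^ j * Y * X ^ (n - j)] at h2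
  exact h2

theorem choose_cast {B : Type*} [Ring B] {n : ℕ} (hp : (n + 1).Prime) (h : ((n + 1 : ℕ) : B) = 0) :
    ∀ k ≤ n, (n.choose k : B) = (-1) ^ k := by
  intro k
  induction k with
  | zero => intro _; simp
  | succ k ih =>
    intro hk
    obtain ⟨c, hc⟩ := hp.dvd_choose_self (k := k + 1) (by omega) (by omega)
    have := congrArg (Nat.cast : ℕ → B) (Nat.choose_succ_succ' n k)
    rw [hc, Nat.cast_mul, h, zero_mul, Nat.cast_add, ih (by omega)] at this
    rw [pow_succ, mul_neg_one]; exact (neg_eq_of_add_eq_zero_right this.symm).symm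

theorem fact_cancel {N : Type*} [AddCommGroup N] {p n : ℕ} (hp : p.Prime) (hn : n < p) {x : N}
    (h1 : p • x = 0) (h2 : n.factorial • x = 0) : x = 0 := by
  have c : Nat.Coprime p n.factorial :=
    (Nat.Prime.coprime_iff_not_dvd hp).2 fun e => absurd (hp.dvd_factorial.1 e) (by omega)
  have := Nat.dvd_gcd (addOrderOf_dvd_of_nsmul_eq_zero h1) (addOrderOf_dvd_of_nsmul_eq_zero h2)
  rw [c.gcd_eq_one, Nat.dvd_one] at this
  exact AddMonoid.addOrderOf_eq_one_iff.1 this

theorem ad_pow {B : Type*} [Ring B] {n : ℕ} (hp : (n + 1).Prime) (h : ((n + 1 : ℕ) : B) = 0)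
    (X Y : B) : (fun y => y * X - X * y)^[n] Y = ∑ j ∈ range (n + 1), X ^ j * Y * X ^ (n - j) := by
  let l : Module.End ℤ B := LinearMap.mulLeft ℤ X
  let r : Module.End ℤ B := LinearMap.mulRight ℤ X
  have c : Commute (-l) r := (LinearMap.commute_mulLeft_right X X).neg_left
  have e : (fun y => y * X - X * y) = ⇑(-l + r) := by
    ext y; simp [l, r]; abel
  rw [e, ← Module.End.pow_apply, c.add_pow, LinearMap.sum_apply]
  refine sum_congr rfl fun j hj => ?_
  rw [neg_pow l, Module.End.mul_apply, Module.End.mul_apply, Module.End.mul_apply,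
    Module.End.natCast_apply, LinearMap.pow_mulLeft, LinearMap.pow_mulRight, nsmul_eq_mul,
    choose_cast hp h j (by simp at hj; omega)]
  rcases Nat.even_or_odd j with q | q <;> simp [q.neg_one_pow, mul_assoc]

/-- If a Lie ring sits in an associative ring of characteristic `p` with `x ^ (p-1) = 0` for all
its elements, it satisfies the linearised Engel identity of degree `p - 1`. -/
theorem jacobson {B : Type*} [Ring B] {p : ℕ} (hp : p.Prime) (h : (p : B) = 0) (ι : L →+ B)
    (inj : Function.Injective ι) (hι : ∀ a b, ι ⁅a, b⁆ = ι a * ι b - ι b * ι a)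
    (nil : ∀ x, ι x ^ (p - 1) = 0) : Engel L (p - 1) := by
  obtain ⟨n, rfl⟩ : ∃ n, p = n + 2 := ⟨p - 2, by have := hp.two_le; omega⟩
  refine engel_of_nil fun x y => inj ?_
  have e : ∀ (k : ℕ) (y : L), ι (br y (List.replicate k x)) =
      (fun y => y * ι x - ι x * y)^[k] (ι y) := by
    intro k
    induction k with
    | zero => intro y; rfl
    | succ k ih => intro y; rw [Function.iterate_succ_apply, ← hι]; exact ih _
  have s := sum_mid ι.range (n := n) (by rintro _ ⟨x, rfl⟩; exact nil x) ⟨x, rfl⟩ ⟨y, rfl⟩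
  have s := fact_cancel hp (by omega) (by rw [nsmul_eq_mul, h, zero_mul]) s
  have nx : ι x ^ (n + 1) = 0 := nil x
  rw [e, map_zero, show n + 2 - 1 = n + 1 from rfl, ad_pow hp h, sum_range_succ', Nat.sub_zero, nx,
    mul_zero, add_zero]
  simp only [Nat.add_sub_add_right, pow_succ', mul_assoc] at s ⊢
  rw [← mul_sum, s, mul_zero]

end Pool.Agent.P.MP_1307d3_al.Thick
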