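import Pool.Agent.P.MP_1307d3_al.GLog
import Pool.Agent.P.MP_1307d3_al.GCanon
import Pool.Agent.P.MP_1307d3_al.Jac

/-! Supply of cubic elements in late abelian subgroups. -/

namespace Pool.Agent.P.MP_1307d3_al.Grp

theorem ring_ff {T : Type*} [Ring T] (tf : ∀ t : T, 3 • t = 0 → t = 0) {u ui m : T}
    (h1 : u * ui = 1) (h3 : (u - 1) ^ 3 = 0)
    (hd : (fun t => u * t * ui - t)^[3] m = 0) :
    (fun t => u * t * ui - t)^[2] m ^ 2 = (u - 1) ^ 2 * m ^ 2 * (u - 1) ^ 2 ∧
      (fun t => u * t * ui - t)^[2] m ^ 3 = 0 := by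
  obtain ⟨X, rfl⟩ : ∃ X, u = 1 + X := ⟨u - 1, by abel⟩
  rw [add_sub_cancel_left] at h3 ⊢
  have c3 : ∀ t, X * (X * (X * t)) = 0 := fun t => by
    rw [← mul_assoc, ← mul_assoc, ← pow_two, ← pow_succ, h3, zero_mul]
  have c3' : X * (X * X) = 0 := by simpa using c3 1
  have e : ui = 1 - X + X * X := by
    have : (1 - X + X * X) * (1 + X) = 1 := by
      simp only [mul_add, add_mul, sub_mul, mul_one, one_mul, mul_assoc, c3']; abel
    calc ui = (1 - X + X * X) * (1 + X) * ui := by rw [this, one_mul]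
      _ = _ := by rw [mul_assoc, h1, mul_one]
  have cX : X * ui = ui * X := by rw [e]; noncomm_ring
  have d : ∀ t, (1 + X) * t * ui - t = (X * t - t * X) * ui := fun t => by
    have : t = t * ((1 + X) * ui) := by rw [h1, mul_one]
    conv_lhs => rhs; rw [this]
    noncomm_ring
  have mv : ∀ t, X * (t * ui) - t * ui * X = (X * t - t * X) * ui := fun t => by
    rw [mul_assoc t, ← cX]; noncomm_ring
  simp only [Function.iterate_succ, Function.iterate_zero, Function.comp, id, d, mv] at hd ⊢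
  have h2 : ui * (1 + X) = 1 := by
    rw [mul_add, ← cX, mul_one, ← h1, add_mul, one_mul]
  have canc : ∀ t, t * ui = 0 → t = 0 := fun t ht => by
    rw [← mul_one t, ← h2, ← mul_assoc, ht, zero_mul]
  have hz := canc _ (canc _ (canc _ hd))
  have k1 : X * (X * (m * X)) = X * (m * (X * X)) := by
    rw [← sub_eq_zero]
    apply tf
    rw [← neg_eq_zero, ← hz]
    simp only [mul_sub, sub_mul, mul_assoc, c3, c3', mul_zero]
    abel
  have k1' : ∀ t, X * (X * (m * (X * t))) = X * (m * (X * (X * t))) := fun t => by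
    simpa only [mul_assoc] using congrArg (· * t) k1
  obtain ⟨Z, hZ⟩ : ∃ Z, Z = X * (X * m - m * X) - (X * m - m * X) * X := ⟨_, rfl⟩
  rw [← hZ] at hz ⊢
  have cZ : Commute Z ui := by
    have : Commute Z X := (sub_eq_zero.1 hz).symm
    rw [e]; exact ((Commute.one_right Z).sub_right this).add_right (this.mul_right this)
  have Z2 : Z ^ 2 = X * (X * (m * (m * (X * X)))) := by
    have k3 : X * (m * (X * (m * (X * X)))) = X * (m * (X * (X * (m * X)))) := by rw [k1]
    rw [hZ, pow_two]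
    simp only [mul_sub, sub_mul, mul_assoc, c3, c3', mul_zero, k1', k1, k3]
    abel
  have Xu : X * X * ui = X * X := by
    rw [e]; simp only [mul_add, mul_sub, mul_one, mul_assoc, c3', mul_zero, sub_zero, add_zero]
  have cc : Commute Z (ui * ui) := cZ.mul_right cZ
  rw [mul_assoc Z, cc.mul_pow, cc.mul_pow]
  constructor
  · have : X * X * (ui * ui) ^ 2 = X * X := by
      rw [pow_two, ← mul_assoc, ← mul_assoc, ← mul_assoc, Xu, Xu, Xu, Xu]
    rw [Z2]
    simp only [pow_two, mul_assoc] at this ⊢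
    rw [this]
  · rw [pow_succ Z 2, Z2, hZ]
    simp only [mul_sub, sub_mul, mul_assoc, c3, c3', mul_zero, k1', k1, sub_zero, zero_mul]

variable {G : Type} [Group G] {R : Type} [Ring R]

theorem cm_mem {B : Subgroup G} {a : G} (ha : ∀ b ∈ B, a * b * a⁻¹ ∈ B) (k : ℕ) {b : G}
    (hb : b ∈ B) : (cm a)^[k] b ∈ B := by
  induction k with
  | zero => exact hb
  | succ k ih => rw [Function.iterate_succ_apply']; exact mul_mem (ha _ ih) (inv_mem ih)

theorem IsLog.one' {ρ : G →* R} {lg : G → R} (L : IsLog ρ lg) : lg 1 = 0 := by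
  simpa using L.add 1 1 rfl

theorem IsLog.cm_iter {ρ : G →* R} {lg : G → R} (L : IsLog ρ lg) {B : Subgroup G} (hB : Abel B)
    {a : G} (ha : ∀ b ∈ B, a * b * a⁻¹ ∈ B) (k : ℕ) {b : G} (hb : b ∈ B) :
    lg ((cm a)^[k] b) = (fun t => ρ a * t * ρ a⁻¹ - t)^[k] (lg b) := by
  induction k with
  | zero => rfl
  | succ k ih =>
    have hc := cm_mem ha k hb
    rw [Function.iterate_succ_apply', Function.iterate_succ_apply', ← ih, cm,
      L.add _ _ (hB _ (ha _ hc) _ (inv_mem hc)), L.conj, sub_eq_add_neg]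
    congr 1
    have := L.add _ _ (hB _ hc _ (inv_mem hc))
    rw [mul_inv_cancel, L.one'] at this
    exact (neg_eq_of_add_eq_zero_right this.symm).symm

theorem IsLog.ff {p : ℕ} (hp : p.Prime) (h5 : 5 ≤ p) {ρ : G →* R} (h0 : (p : R) = 0) {lg : G → R}
    (L : IsLog ρ lg) {B : Subgroup G} (hB : Abel B) {a : G} (ha : ∀ b ∈ B, a * b * a⁻¹ ∈ B)
    (h3 : (ρ a - 1) ^ 3 = 0) {b : G} (hb : b ∈ B) (hc : (cm a)^[3] b = 1) :
    lg ((cm a)^[2] b) ^ 2 = (ρ a - 1) ^ 2 * lg b ^ 2 * (ρ a - 1) ^ 2 ∧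
      lg ((cm a)^[2] b) ^ 3 = 0 := by
  rw [L.cm_iter hB ha 2 hb]
  refine ring_ff (fun t ht => Thick.fact_cancel hp (n := 3) (by omega)
    (by rw [nsmul_eq_mul, h0, zero_mul]) ?_) (by rw [← map_mul, mul_inv_cancel, map_one]) h3 ?_
  · rw [show Nat.factorial 3 = 3 * 2 from rfl, mul_nsmul, ht, nsmul_zero]
  · rw [← L.cm_iter hB ha 3 hb, hc, L.one']

theorem supply {p : ℕ} (hp : p.Prime) (h5 : 5 ≤ p) (hE : ∀ g : G, g ^ p = 1) {ρ : G →* R}
    (C : Canon p ρ) {lg : G → R} (L : IsLog ρ lg) (hq : ∀ b, (ρ b - 1) ^ 2 = 0 → b = 1) {a : G}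
    (a1 : a ≠ 1) (ha : (ρ a - 1) ^ 3 = 0) (S : Finset G) :
    ∃ B : Subgroup G, Abel B ∧ Nz (S : Set G) B ∧
      ∃ v ∈ B, (ρ v - 1) ^ 3 = 0 ∧ (cm a)^[2] v ≠ 1 := by
  classical
  by_contra q
  push Not at q
  obtain ⟨S3, aS, h3⟩ := (C.idx 3 a).1 ha
  have n2 : ¬ Idx 2 a := fun e => a1 (hq a ((C.idx 2 a).2 e))
  obtain ⟨B0, hB0, N0, w, hw, hb⟩ : ∃ B0, Abel B0 ∧ Nz (S3 : Set G) B0 ∧
      ∃ w ∈ B0, (cm a)^[2] w ≠ 1 := by
    by_contra e
    push Not at e
    exact n2 ⟨S3, aS, e⟩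
  refine hb (hq _ ((C.idx 2 _).2 ⟨insert ((cm a)^[2] w) (insert w (S ∪ S3)),
    Finset.mem_insert_self _ _, fun B hB hN b hb' => ?_⟩))
  have N3 : Nz (S3 : Set G) B := fun s hs => hN s (by simp [Finset.mem_coe.1 hs])
  have NS : Nz (S : Set G) B := fun s hs => hN s (by simp [Finset.mem_coe.1 hs])
  let H : Subgroup G :=
    { carrier := {g | ∀ v ∈ B, g * v * g⁻¹ ∈ B}
      one_mem' := fun v hv => by simpa using hv
      mul_mem' := fun {g h} hg hh v hv => by
        simpa only [mul_assoc, mul_inv_rev] using hg _ (hh v hv)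
      inv_mem' := fun {g} hg => by
        have : ∀ k : ℕ, ∀ v ∈ B, g ^ k * v * (g ^ k)⁻¹ ∈ B := fun k => by
          induction k with
          | zero => intro v hv; simpa using hv
          | succ k ih =>
            intro v hv; simpa only [pow_succ, mul_assoc, mul_inv_rev] using ih _ (hg v hv)
        have e : g⁻¹ = g ^ (p - 1) := by
          rw [inv_eq_iff_mul_eq_one, ← pow_succ', show p - 1 + 1 = p by omega, hE]
        rw [e]; exact this _ }
  have aH : a ∈ H := N3 a aS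
  have wH : w ∈ H := hN w (by simp)
  obtain ⟨M, _, e, σ, s0, s1, s2, s3⟩ := exists_conj_rep hp hE B hB H.subtype fun g => g.2
  obtain ⟨lg', L'⟩ := exists_log hp (by omega) (G := H) (fun g => Subtype.ext (hE g)) σ s0 s1
  let val : M → G := fun x => ((Additive.toMul (e.symm x) : B) : G)
  have val0 : ∀ x, val x = 1 → x = 0 := fun x hx => by
    rw [← e.symm.map_eq_zero_iff]; exact Additive.toMul.injective (Subtype.ext hx)
  have vmem : ∀ x, val x ∈ B := fun x => (Additive.toMul (e.symm x)).2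
  have t2 : ∀ (g : H) x, val (σ g x) = g * val x * g⁻¹ := fun g x => by
    simpa [val] using s2 g (Additive.toMul (e.symm x))
  have t3 : ∀ (g : H) k x, val (((σ g - 1) ^ k) x) = (cm (g : G))^[k] (val x) := fun g k x => by
    simpa [val] using s3 g k (Additive.toMul (e.symm x))
  have x3 : (σ ⟨a, aH⟩ - 1) ^ 3 = 0 := LinearMap.ext fun x => val0 _ (by
    rw [t3]; exact h3 B hB N3 _ (vmem x))
  have ff := (L'.ff hp h5 s0 (B := B0.subgroupOf H) (fun x hx y hy => Subtype.ext (hB0 _ hx _ hy))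
    (a := ⟨a, aH⟩) (fun v hv => N0 a aS _ hv) x3 (b := ⟨w, wH⟩) hw (Subtype.ext (by
      rw [← H.subtype_apply, map_cm_iter]; exact h3 B0 hB0 N0 w hw))).1
  let K := AddSubgroup.closure {x : M | (ρ (val x) - 1) ^ 3 = 0}
  have k1 : ∀ x, ((σ ⟨a, aH⟩ - 1) ^ 2 : Module.End ℤ M) x ∈ K := fun x => AddSubgroup.subset_closure (by
    change (ρ (val _) - 1) ^ 3 = 0
    rw [t3, ← L.pow]
    exact (L.ff hp h5 C.char hB (N3 a aS) ha (vmem x) (h3 B hB N3 _ (vmem x))).2)
  have k2 : ∀ (g : H), ∀ x ∈ K, σ g x ∈ K := fun g x hx =>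
    (AddSubgroup.closure_le (K := K.comap (σ g).toAddMonoidHom)).2 (fun y hy =>
      AddSubgroup.subset_closure (by
        change (ρ (val (σ g y)) - 1) ^ 3 = 0
        have hy : lg (val y) ^ 3 = 0 := (L.pow _ _).2 hy
        have i : ∀ t, ρ (g⁻¹ : H) * (ρ g * t) = t := fun t => by
          rw [← mul_assoc, ← map_mul, Subgroup.coe_inv, inv_mul_cancel, map_one, one_mul]
        rw [t2, ← L.pow, Subgroup.coe_inv, L.conj, ← Subgroup.coe_inv]
        simp only [pow_succ, pow_zero, one_mul, mul_assoc, i] at hy ⊢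
        rw [← mul_assoc (lg _) (lg _), ← mul_assoc _ (lg _), mul_assoc (lg _), hy, zero_mul,
          mul_zero])) hx
  have k3 : ∀ x ∈ K, lg' ⟨w, wH⟩ x ∈ K := by
    have := L'.mem ⟨w, wH⟩
    generalize lg' ⟨w, wH⟩ = n at this
    induction this using AddSubgroup.closure_induction with
    | mem n hn => obtain ⟨i, rfl⟩ := hn; exact fun x hx => sub_mem (k2 _ x hx) hx
    | zero => exact fun x _ => zero_mem _
    | add n n' _ _ h h' => exact fun x hx => add_mem (h x hx) (h' x hx)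
    | neg n _ h => exact fun x hx => neg_mem (h x hx)
  have k4 : ∀ x ∈ K, ((σ ⟨a, aH⟩ - 1) ^ 2 : Module.End ℤ M) x = 0 := fun x hx => by
    induction hx using AddSubgroup.closure_induction with
    | mem y hy => exact val0 _ (by rw [t3]; exact q B hB NS _ (vmem y) hy)
    | zero => exact map_zero _
    | add y y' _ _ h h' => rw [map_add, h, h', add_zero]
    | neg y _ h => rw [map_neg, h, neg_zero]
  have z : lg' ((cm (⟨a, aH⟩ : H))^[2] ⟨w, wH⟩) ^ 2 = 0 := by
    rw [ff]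
    refine LinearMap.ext fun x => ?_
    rw [Module.End.mul_apply, Module.End.mul_apply, pow_two (lg' _), Module.End.mul_apply]
    exact k4 _ (k3 _ (k3 _ (k1 x)))
  have := t3 ((cm (⟨a, aH⟩ : H))^[2] ⟨w, wH⟩) 2 (e (Additive.ofMul ⟨b, hb'⟩))
  rw [(L'.pow _ _).1 z, ← H.subtype_apply, map_cm_iter] at this
  simpa [val] using this.symm

end Pool.Agent.P.MP_1307d3_al.Grp
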