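import Pool.Agent.P.MP_1307d3_al.Quad1

/-! From a quadratic element to an abelian subgroup normalised by a characteristic subgroup. -/

namespace Pool.Agent.P.MP_1307d3_al.Thick

open Finset

variable {G A : Type*} [Group G] [Ring A] {ρ : G →* A}

theorem prod_comm_zero {p : ℕ} (hp : p.Prime) (h : (p : A) = 0) (K : AddSubgroup A)
    (hK : ∀ u ∈ K, u ^ (p - 1) = 0) (l : List A) (hl : l.length = p - 1) (h1 : ∀ e ∈ l, e ∈ K)
    (h2 : ∀ e ∈ l, ∀ f ∈ l, e * f = f * e) : l.prod = 0 := by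
  rw [← hl] at hK
  have := pol_ring l.get fun S => hK _ (sum_mem fun i _ => h1 _ (List.get_mem l i))
  rw [sum_congr rfl (g := fun _ => l.prod)] at this
  · refine fact_cancel hp (n := l.length) (by have := hp.pos; omega)
      (by rw [nsmul_eq_mul, h, zero_mul]) ?_
    simpa [Fintype.card_perm] using this
  · intro σ _
    have q : l.Perm (List.ofFn fun i => l.get (σ i)) := by
      conv_lhs => rw [← List.ofFn_get l]
      exact (Equiv.Perm.ofFn_comp_perm σ l.get).symm
    exact (q.prod_eq' (List.pairwise_of_forall_mem_list h2)).symm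

theorem exists_sq_zero {p : ℕ} (hp : p.Prime) (ho : Odd p) (h : (p : A) = 0)
    (hρ : ∀ g, (ρ g - 1) ^ (p - 1) = 0) (gen : Subring.closure (QS ρ) = ⊤) {x : A} (hx : x ∈ QS ρ)
    (x0 : x ≠ 0) : ∃ I : Ideal A, I.IsTwoSided ∧ I ≠ ⊥ ∧ ∀ a ∈ I, ∀ b ∈ I, a * b = 0 := by
  obtain ⟨E, ⟨e, he, e0⟩, h1, h2, h3⟩ := exists_abelian_span hp ho h hρ hx x0
  let W := AddSubgroup.closure {a | ∃ e ∈ E, ∃ r, a = e * r}
  have Wr : ∀ a ∈ W, ∀ r, a * r ∈ W := fun a ha r =>
    (AddSubgroup.closure_le (K := W.comap (AddMonoidHom.mulRight r))).2 (by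
      rintro _ ⟨e, he, s, rfl⟩
      exact AddSubgroup.subset_closure ⟨e, he, s * r, mul_assoc _ _ _⟩) ha
  have Wl : ∀ y ∈ QS ρ, ∀ a ∈ W, y * a ∈ W := fun y hy a ha =>
    (AddSubgroup.closure_le (K := W.comap (AddMonoidHom.mulLeft y))).2 (by
      rintro _ ⟨e, he, s, rfl⟩
      have := sub_mem (AddSubgroup.subset_closure (k := {a | ∃ e ∈ E, ∃ r, a = e * r})
        ⟨e, he, y * s, rfl⟩) (AddSubgroup.subset_closure ⟨_, h2 e he y hy, s, rfl⟩)
      change y * (e * s) ∈ W
      convert this using 1; noncomm_ring) ha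
  have left : ∀ b a : A, (a ∈ W ∧ ∀ e ∈ E, e * a = 0) → b * a ∈ W ∧ ∀ e ∈ E, e * (b * a) = 0 := by
    intro b
    have hb : b ∈ Subring.closure (QS ρ) := gen ▸ Subring.mem_top b
    induction hb using Subring.closure_induction with
    | mem y hy =>
      refine fun a ha => ⟨Wl y hy a ha.1, fun e he => ?_⟩
      have := ha.2 _ (h2 e he y hy)
      rwa [sub_mul, mul_assoc, mul_assoc, ha.2 e he, mul_zero, sub_zero] at this
    | zero => intro a _; simp
    | one => intro a ha; simpa using ha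
    | add y z _ _ hy hz =>
      refine fun a ha => ⟨add_mul y z a ▸ add_mem (hy a ha).1 (hz a ha).1, fun e he => ?_⟩
      rw [add_mul, mul_add, (hy a ha).2 e he, (hz a ha).2 e he, add_zero]
    | neg y _ hy =>
      refine fun a ha => ⟨neg_mul y a ▸ neg_mem (hy a ha).1, fun e he => ?_⟩
      rw [neg_mul, mul_neg, (hy a ha).2 e he, neg_zero]
    | mul y z _ _ hy hz => intro a ha; rw [mul_assoc]; exact hy _ (hz a ha)
  let I : Ideal A :=
    { carrier := {a | a ∈ W ∧ ∀ e ∈ E, e * a = 0}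
      add_mem' := fun ha hb => ⟨add_mem ha.1 hb.1, fun e he => by
        rw [mul_add, ha.2 e he, hb.2 e he, add_zero]⟩
      zero_mem' := ⟨zero_mem _, fun _ _ => mul_zero _⟩
      smul_mem' := fun b a ha => left b a ha }
  refine ⟨I, ⟨fun b ha => ⟨Wr _ ha.1 b, fun e he => by rw [← mul_assoc, ha.2 e he, zero_mul]⟩⟩,
    fun q => ?_, fun a ha b hb => ?_⟩
  · have key : ∀ k, ∃ l : List A, l.length = k + 1 ∧ (∀ a ∈ l, a ∈ E) ∧ l.prod ≠ 0 := by
      intro k
      induction k with
      | zero => exact ⟨[e], rfl, by simpa using he, by simpa using e0⟩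
      | succ k ih =>
        obtain ⟨l, a1, a2, a3⟩ := ih
        by_contra q'
        apply a3
        have : l.prod ∈ I := by
          refine ⟨?_, fun f hf => ?_⟩
          · obtain ⟨f, l', rfl⟩ := List.exists_cons_of_length_eq_add_one a1
            exact AddSubgroup.subset_closure ⟨f, a2 f List.mem_cons_self, _, List.prod_cons⟩
          · by_contra ne
            refine q' ⟨f :: l, by simp [a1], fun a ha => ?_, by rwa [List.prod_cons]⟩
            rcases List.mem_cons.1 ha with r | r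
            exacts [r ▸ hf, a2 a r]
        rwa [q] at this
    obtain ⟨l, a1, a2, a3⟩ := key (p - 2)
    exact a3 (prod_comm_zero hp h _ (fun u hu => span_nil hp h hρ hu) l
      (by have := hp.two_le; omega) (fun a ha => h1 a (a2 a ha))
      fun a ha b hb => h3 a (a2 a ha) b (a2 b hb))
  · exact (AddSubgroup.closure_le (K := (AddMonoidHom.mulRight b).ker)).2 (by
      rintro _ ⟨e, he, s, rfl⟩
      change e * s * b = 0
      rw [mul_assoc]; exact (left s b hb).2 e he) ha.1

theorem exists_abelian_normal {p : ℕ} (hp : p.Prime) (ho : Odd p) (h : (p : A) = 0)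
    (inj : Function.Injective ρ) (hρ : ∀ g, (ρ g - 1) ^ (p - 1) = 0)
    (gen : Subring.closure (QS ρ) = ⊤) {g : G} (g1 : g ≠ 1) (hg : (ρ g - 1) * (ρ g - 1) = 0) :
    ∃ V : Subgroup G, V.Normal ∧ V ≠ ⊥ ∧ ∀ a ∈ V, ∀ b ∈ V, a * b = b * a := by
  obtain ⟨J, -, ⟨J2, Jf⟩, Jmax⟩ := zorn_le_nonempty₀
    {J : Ideal A | J.IsTwoSided ∧ ∀ a, ρ a - 1 ∈ J → a = 1} (fun c hc ch y hy => by
      have m : ∀ a, a ∈ sSup c ↔ ∃ J ∈ c, a ∈ J := fun a =>
        Submodule.mem_sSup_of_directed ⟨y, hy⟩ ch.directedOn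
      refine ⟨sSup c, ⟨⟨fun b ha => ?_⟩, fun a ha => ?_⟩, fun _ hz => le_sSup hz⟩
      · obtain ⟨J, hJ, ha⟩ := (m _).1 ha
        exact (m _).2 ⟨J, hJ, (hc hJ).1.mul_mem_of_left b ha⟩
      · obtain ⟨J, hJ, ha⟩ := (m _).1 ha
        exact (hc hJ).2 a ha) ⊥
    ⟨inferInstance, fun a ha => inj (by rw [map_one]; exact sub_eq_zero.1 ha)⟩
  let π := Ideal.Quotient.mk J
  let σ : G →* A ⧸ J := π.toMonoidHom.comp ρ
  have hσ : ∀ a, σ a = π (ρ a) := fun _ => rfl
  have hσ' : ∀ a, σ a - 1 = π (ρ a - 1) := fun a => by rw [map_sub, map_one, hσ]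
  obtain ⟨I, I2, I0, hI⟩ := exists_sq_zero (ρ := σ) hp ho (by rw [← map_natCast π, h, map_zero])
    (fun a => by rw [hσ', ← map_pow, hρ, map_zero]) (by
      rw [eq_top_iff]
      intro b _
      obtain ⟨b, rfl⟩ := Ideal.Quotient.mk_surjective b
      have hb : b ∈ Subring.closure (QS ρ) := gen ▸ Subring.mem_top b
      refine (Subring.closure_le (t := (Subring.closure (QS σ)).comap π)).2 ?_ hb
      rintro y ⟨h1, a, h2⟩
      exact Subring.subset_closure ⟨by rw [← map_mul, h1, map_zero], a, by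
        rw [hσ, h2, map_add, map_one]⟩)
    (x := σ g - 1) ⟨by rw [hσ', ← map_mul, hg, map_zero], g, by abel⟩ fun e => g1 (Jf g (by
      rwa [hσ', Ideal.Quotient.eq_zero_iff_mem] at e))
  have e1 : ∀ a, σ a⁻¹ * σ a = 1 := fun a => by rw [← map_mul, inv_mul_cancel, map_one]
  have e2 : ∀ a, σ a * σ a⁻¹ = 1 := fun a => by rw [← map_mul, mul_inv_cancel, map_one]
  let V : Subgroup G :=
    { carrier := {a | σ a - 1 ∈ I}
      one_mem' := by simp
      mul_mem' := fun {a b} ha hb => by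
        have := add_mem (I.mul_mem_left (σ a) hb) ha
        change σ (a * b) - 1 ∈ I
        convert this using 1; rw [map_mul]; noncomm_ring
      inv_mem' := fun {a} ha => by
        have := neg_mem (I.mul_mem_left (σ a⁻¹) ha)
        change σ a⁻¹ - 1 ∈ I
        convert this using 1; rw [mul_sub, e1]; noncomm_ring }
  refine ⟨V, ⟨fun a ha n => ?_⟩, fun q => I0 ?_, fun a ha b hb => ?_⟩
  · have := I2.mul_mem_of_left (σ n⁻¹) (I.mul_mem_left (σ n) ha)
    change σ (n * a * n⁻¹) - 1 ∈ I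
    convert this using 1
    rw [map_mul, map_mul, mul_sub, sub_mul, mul_one, e2]
  · have le : I.comap π ≤ J := Jmax ⟨⟨fun b ha => by
        rw [Ideal.mem_comap, map_mul]; exact I2.mul_mem_of_left _ ha⟩, fun a ha => by
        have : a ∈ V := by change σ a - 1 ∈ I; rw [hσ']; exact ha
        rwa [q] at this⟩ fun a ha => by
      rw [Ideal.mem_comap, Ideal.Quotient.eq_zero_iff_mem.2 ha]; exact zero_mem _
    rw [eq_bot_iff]
    intro b hb
    obtain ⟨b, rfl⟩ := Ideal.Quotient.mk_surjective b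
    exact Ideal.Quotient.eq_zero_iff_mem.2 (le hb)
  · have c : σ a * σ b = σ b * σ a := by
      have := (hI _ ha _ hb).trans (hI _ hb _ ha).symm
      rw [← sub_eq_zero] at this ⊢
      rw [← this]; noncomm_ring
    rw [← mul_inv_eq_one]
    apply Jf
    rw [← Ideal.Quotient.eq_zero_iff_mem, ← hσ', map_mul, map_mul, c, ← map_mul σ b, e2, sub_self]

/-- A faithful representation with `(g - 1) ^ (p - 1) = 0` and a characteristic set of quadratic
elements, one of them nontrivial, gives a characteristic subgroup with a nontrivial abelian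
normal subgroup. -/
theorem t3_of_quadratic {p : ℕ} (hp : p.Prime) (ho : Odd p) (h : (p : A) = 0)
    (inj : Function.Injective ρ) (hρ : ∀ g, (ρ g - 1) ^ (p - 1) = 0)
    (ch : ∀ (α : G ≃* G) (g : G), (ρ g - 1) ^ 2 = 0 → (ρ (α g) - 1) ^ 2 = 0)
    {g : G} (g1 : g ≠ 1) (hg : (ρ g - 1) ^ 2 = 0) :
    ∃ N V : Subgroup G, N.Characteristic ∧ V ≤ N ∧ V ≠ ⊥ ∧ (∀ a ∈ V, ∀ b ∈ V, a * b = b * a) ∧
      ∀ n ∈ N, ∀ a ∈ V, n * a * n⁻¹ ∈ V := by
  let N := Subgroup.closure {g | (ρ g - 1) ^ 2 = 0}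
  let R := Subring.closure {x | ∃ g, (ρ g - 1) ^ 2 = 0 ∧ x = ρ g - 1}
  have one : ∀ a, (ρ a - 1) ^ 2 = 0 → ρ a - 1 ∈ R := fun a ha => Subring.subset_closure ⟨a, ha, rfl⟩
  have mem : ∀ a ∈ N, ρ a ∈ R := by
    intro a ha
    induction ha using Subgroup.closure_induction'' with
    | mem a ha => simpa using add_mem (one a ha) (one_mem R)
    | inv_mem a ha =>
      rw [quad_inv (x := ρ a - 1) (by rw [← pow_two]; exact ha) (by abel)]
      exact add_mem (one_mem R) (neg_mem (one a ha))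
    | one => rw [map_one]; exact one_mem R
    | mul a b _ _ ha hb => rw [map_mul]; exact mul_mem ha hb
  let σ : N →* R := (ρ.comp N.subtype).codRestrict R fun a => mem a a.2
  have hσ : ∀ a : N, (σ a : A) = ρ a := fun _ => rfl
  obtain ⟨V, Vn, V0, Vc⟩ := exists_abelian_normal (ρ := σ) hp ho
    (Subtype.ext (by rw [SubringClass.coe_natCast, h]; rfl))
    (fun a b e => Subtype.ext (inj (congrArg Subtype.val e)))
    (fun a => Subtype.ext (by simpa [hσ] using hρ a)) (by
      rw [eq_top_iff]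
      rintro ⟨b, hb⟩ -
      induction hb using Subring.closure_induction with
      | mem y hy =>
        obtain ⟨a, ha, rfl⟩ := hy
        exact Subring.subset_closure ⟨Subtype.ext (by rw [pow_two] at ha; exact ha),
          ⟨a, Subgroup.subset_closure ha⟩, Subtype.ext (by simp [hσ])⟩
      | zero => exact zero_mem _
      | one => exact one_mem _
      | add y z _ _ a b => exact add_mem a b
      | neg y _ a => exact neg_mem a
      | mul y z _ _ a b => exact mul_mem a b)
    (g := ⟨g, Subgroup.subset_closure hg⟩) (fun e => g1 (congrArg Subtype.val e))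
    (Subtype.ext (by rw [pow_two] at hg; exact hg))
  refine ⟨N, V.map N.subtype, Subgroup.characteristic_iff_map_le.2 fun α => ?_,
    Subgroup.map_subtype_le V, fun e => V0 ((Subgroup.map_eq_bot_iff_of_injective V
      N.subtype_injective).1 e), ?_, ?_⟩
  · rw [Subgroup.map_le_iff_le_comap]
    exact (Subgroup.closure_le _).2 fun a ha => Subgroup.subset_closure (ch α a ha)
  · rintro _ ⟨a, ha, rfl⟩ _ ⟨b, hb, rfl⟩
    rw [← map_mul, Vc a ha b hb, map_mul]
  · rintro n hn _ ⟨a, ha, rfl⟩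
    exact ⟨_, Vn.conj_mem a ha ⟨n, hn⟩, rfl⟩

end Pool.Agent.P.MP_1307d3_al.Thick
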