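import Pool.Agent.P.MP_1307d3_al.KA
import Pool.Agent.P.MP_1307d3_al.RBP2

/-! The restricted Burnside problem for prime exponent. -/

namespace Pool.Agent.P.MP_1307d3_al.End

theorem lieNil (K : Type) [Field K] [Infinite K] {p : ℕ} (hp : p.Prime) (h0 : (p : K) = 0) :
    LieNil K p := by
  intro L _ _ hE s hs ht
  refine Kos.isNilpotent_of_engel (fun m h1 h2 => ?_) hE s hs ht
  have := (CharP.charP_iff_prime_eq_zero hp).2 h0
  rw [Ne, CharP.cast_eq_zero_iff K p]
  exact Nat.not_dvd_of_pos_of_lt h1 (by have := hp.pos; omega)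

/-- Kostrikin's theorem. -/
theorem rbp {p : ℕ} (hp : p.Prime) : RBP p := by
  have := Fact.mk hp
  have h0 : (p : AlgebraicClosure (ZMod p)) = 0 := CharP.cast_eq_zero _ p
  exact rbp_of_lieNil (AlgebraicClosure (ZMod p)) hp h0 (lieNil _ hp h0)

end Pool.Agent.P.MP_1307d3_al.End
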