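import Pool.Agent.P.MP_1307d3_al.GKos
import Pool.Agent.P.MP_1307d3_al.GSupply
import Pool.Agent.P.MP_1307d3_al.GFaith
import Pool.Agent.P.MP_1307d3_al.GNil
import Pool.Agent.P.MP_1307d3_al.RBP3
import Pool.Agent.P.MP_1307d3_al.Quad

/-! The assembly of `T3` from the step from cubic to quadratic elements. -/

namespace Pool.Agent.P.MP_1307d3_al.Grp

open End

/-- The step from cubic to quadratic elements. -/
def QuadStep (p : ℕ) : Prop :=
  ∀ (G : Type) [Group G], LocFin G → (∀ g : G, g ^ p = 1) → ∀ (R : Type) [Ring R] (ρ : G →* R),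
    Canon p ρ → Function.Injective ρ → ∀ lg : G → R, IsLog ρ lg →
    (∀ H : Subgroup G, (H : Set G).Finite → ∃ N, NilAt (Om ρ H) N) →
    ∀ k : ℕ, (∀ a b : G, NilAt (Om ρ (Subgroup.closure {a, b})) k) →
    ∀ a : G, a ≠ 1 → (ρ a - 1) ^ 3 = 0 → ∃ b : G, b ≠ 1 ∧ (ρ b - 1) ^ 2 = 0

theorem Idx.map {G : Type*} [Group G] (α : G ≃* G) {k : ℕ} {a : G} (h : Idx k a) :
    Idx k (α a) := by
  obtain ⟨S, aS, hS⟩ := h
  refine ⟨S.map α.toEquiv.toEmbedding, Finset.mem_map_of_mem _ aS, fun B hB hN b hb => ?_⟩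
  have := hS (B.comap α.toMonoidHom)
    (fun x hx y hy => α.injective (by rw [map_mul, map_mul]; exact hB _ hx _ hy))
    (fun s hs x hx => by
      have := hN (α s) (Finset.mem_coe.2 (Finset.mem_map_of_mem _ hs)) _ hx
      simpa [Subgroup.mem_comap] using this) (α.symm b) (by simpa [Subgroup.mem_comap] using hb)
  have e := map_cm_iter α.toMonoidHom a (α.symm b) k
  rw [this] at e
  simpa using e.symm

theorem t3_of_step {p : ℕ} (hp : p.Prime) (hQ : 5 ≤ p → QuadStep p) : T3 p := by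
  intro G _ _ hL hE
  by_cases hA : ∀ V : Subgroup G, V.Normal → Abel V → V = ⊥
  swap
  · push Not at hA
    obtain ⟨V, Vn, Va, V0⟩ := hA
    exact ⟨⊤, V, inferInstance, le_top, V0, Va, fun n _ a ha => Vn.conj_mem a ha n⟩
  obtain ⟨R, _, ρ, C⟩ := exists_canon hp G hE
  have inj := canon_inj hp hL hE C hA
  obtain ⟨g, g1⟩ := exists_ne (1 : G)
  have h2 : p ≠ 2 := by
    rintro rfl
    have := C.nil g
    rw [show 2 - 1 = 1 from rfl, pow_one, sub_eq_zero, ← map_one ρ] at this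
    exact g1 (inj this)
  have h3 : 3 ≤ p := by have := hp.two_le; omega
  suffices ∃ b : G, b ≠ 1 ∧ (ρ b - 1) ^ 2 = 0 by
    obtain ⟨b, b1, hb⟩ := this
    exact Thick.t3_of_quadratic hp (hp.odd_of_ne_two h2) C.char inj C.nil
      (fun α g hg => (C.idx _ _).2 (((C.idx _ _).1 hg).map α)) b1 hb
  by_cases h5 : 5 ≤ p
  · obtain ⟨lg, L⟩ := exists_log hp h3 hE ρ C.char C.nil
    obtain ⟨a, a1, ha⟩ := exists_cubic hp C L
    obtain ⟨k, hk⟩ := om_nil_two hp (rbp hp) hL hE ρ C.char C.nil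
    exact hQ h5 G hL hE R ρ C inj lg L (om_nil_fin hp hE ρ C.char C.nil) k hk a a1 ha
  · have h4 : p ≠ 4 := by rintro rfl; exact absurd hp (by decide)
    obtain rfl : p = 3 := by omega
    exact ⟨g, g1, C.nil g⟩

end Pool.Agent.P.MP_1307d3_al.Grp
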