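import Mathlib

/-! Nilpotent and locally nilpotent subsets of an associative algebra. -/

namespace Pool.Agent.P.MP_1307d3_al.NilSet

variable {k A : Type*} [CommRing k] [Ring A] [Algebra k A]

/-- All products of at least `N` elements of `U` vanish. -/
def Nil (U : Set A) (N : ℕ) : Prop :=
  ∀ l : List A, (∀ a ∈ l, a ∈ U) → N ≤ l.length → l.prod = 0

/-- Every finite subset of `U` is nilpotent. -/
def LocNil (U : Set A) : Prop := ∀ Y : Set A, Y.Finite → Y ⊆ U → ∃ N, Nil Y N

theorem Nil.mono {U V : Set A} {N : ℕ} (h : Nil U N) (hV : V ⊆ U) : Nil V N :=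
  fun l hl => h l fun a ha => hV (hl a ha)

theorem LocNil.mono {U V : Set A} (h : LocNil U) (hV : V ⊆ U) : LocNil V :=
  fun Y hY h' => h Y hY (h'.trans hV)

theorem Nil.span {U : Set A} {N : ℕ} (h : Nil U N) : Nil (Submodule.span k U : Set A) N := by
  suffices ∀ l₂ : List A, (∀ a ∈ l₂, a ∈ Submodule.span k U) → ∀ l₁ : List A,
      (∀ a ∈ l₁, a ∈ U) → N ≤ l₁.length + l₂.length → l₁.prod * l₂.prod = 0 by
    intro l hl hN
    simpa using this l hl [] (by simp) (by simpa using hN)
  intro l₂
  induction l₂ with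
  | nil => intro _ l₁ h1 hN; simpa using h l₁ h1 (by simpa using hN)
  | cons a l ih =>
    intro h2 l₁ h1 hN
    have ha := h2 a List.mem_cons_self
    rw [List.prod_cons]
    induction ha using Submodule.span_induction with
    | mem x hx =>
      have := ih (fun b hb => h2 b (List.mem_cons_of_mem _ hb)) (l₁ ++ [x])
        (by intro b hb; rcases List.mem_append.1 hb with h | h
            · exact h1 b h
            · rw [List.mem_singleton.1 h]; exact hx) (by simp at hN ⊢; omega)
      simpa [mul_assoc] using this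
    | zero => simp
    | add x y hx hy ihx ihy =>
      rw [add_mul, mul_add, ihx (by simpa [hx] using fun b hb => h2 b (List.mem_cons_of_mem _ hb))
        hN, ihy (by simpa [hy] using fun b hb => h2 b (List.mem_cons_of_mem _ hb)) hN, add_zero]
    | smul c x hx ihx =>
      rw [smul_mul_assoc, mul_smul_comm,
        ihx (by simpa [hx] using fun b hb => h2 b (List.mem_cons_of_mem _ hb)) hN, smul_zero]

theorem Nil.insert {U : Submodule k A} {N n : ℕ} (h : Nil (U : Set A) N) {w : A} (hw : w ^ n = 0)
    (hc : ∀ u ∈ U, w * u - u * w ∈ U) : Nil (insert w (U : Set A)) (N * n) := by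
  let P : ℕ → Submodule k A := fun a => Submodule.span k
    {x | ∃ (l : List A) (b : ℕ), (∀ u ∈ l, u ∈ U) ∧ a ≤ l.length ∧ x = l.prod * w ^ b}
  have Pm : ∀ {a b : ℕ}, a ≤ b → P b ≤ P a := fun hab => Submodule.span_mono
    fun x ⟨l, b, h1, h2, h3⟩ => ⟨l, b, h1, hab.trans h2, h3⟩
  have Pu : ∀ a, ∀ u ∈ U, ∀ x ∈ P a, u * x ∈ P (a + 1) := by
    intro a u hu x hx
    induction hx using Submodule.span_induction with
    | mem x hx =>
      obtain ⟨l, b, h1, h2, rfl⟩ := hx
      exact Submodule.subset_span ⟨u :: l, b, by simpa [hu] using h1, by simpa using h2,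
        by simp [mul_assoc]⟩
    | zero => simp
    | add x y _ _ hx hy => rw [mul_add]; exact add_mem hx hy
    | smul c x _ hx => rw [mul_smul_comm]; exact Submodule.smul_mem _ _ hx
  have Pl : ∀ (l : List A) (b : ℕ), (∀ u ∈ l, u ∈ U) → w * (l.prod * w ^ b) ∈ P l.length := by
    intro l b
    induction l with
    | nil => intro _; exact Submodule.subset_span ⟨[], b + 1, by simp, le_rfl, by simp [pow_succ']⟩
    | cons u l ih =>
      intro hl
      have hu := hl u List.mem_cons_self
      have hl' : ∀ u ∈ l, u ∈ U := fun b hb => hl b (List.mem_cons_of_mem _ hb)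
      have e : w * ((u :: l).prod * w ^ b)
          = u * (w * (l.prod * w ^ b)) + (w * u - u * w) * (l.prod * w ^ b) := by
        rw [List.prod_cons]; noncomm_ring
      rw [e]
      exact add_mem (Pu _ u hu _ (ih hl'))
        (Pu _ _ (hc u hu) _ (Submodule.subset_span ⟨l, b, hl', le_rfl, rfl⟩))
  have Pw : ∀ a, ∀ x ∈ P a, w * x ∈ P a := by
    intro a x hx
    induction hx using Submodule.span_induction with
    | mem x hx => obtain ⟨l, b, h1, h2, rfl⟩ := hx; exact Pm h2 (Pl l b h1)
    | zero => simp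
    | add x y _ _ hx hy => rw [mul_add]; exact add_mem hx hy
    | smul c x _ hx => rw [mul_smul_comm]; exact Submodule.smul_mem _ _ hx
  have Pw' : ∀ a j, ∀ x ∈ P a, w ^ j * x ∈ P a := by
    intro a j x hx
    induction j with
    | zero => simpa using hx
    | succ j ih => rw [pow_succ', mul_assoc]; exact Pw a _ ih
  have key : ∀ l : List A, (∀ x ∈ l, x ∈ Insert.insert w (U : Set A)) → ∀ a j : ℕ,
      a * n ≤ j + l.length → w ^ j * l.prod ∈ P a := by
    intro l
    induction l with
    | nil =>
      intro _ a j hj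
      cases a with
      | zero => exact Submodule.subset_span ⟨[], j, by simp, le_rfl, by simp⟩
      | succ a =>
        rw [pow_eq_zero_of_le (show n ≤ j by simp [add_mul] at hj; omega) hw]; simp
    | cons x l ih =>
      intro hl a j hj
      have hl' : ∀ x ∈ l, x ∈ Insert.insert w (U : Set A) :=
        fun b hb => hl b (List.mem_cons_of_mem _ hb)
      rw [List.prod_cons]
      rcases hl x List.mem_cons_self with rfl | hx
      · rw [← mul_assoc, ← pow_succ]
        exact ih hl' a (j + 1) (by simp at hj; omega)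
      · by_cases hn : n ≤ j
        · rw [pow_eq_zero_of_le hn hw]; simp
        apply Pw'
        cases a with
        | zero =>
          exact Pm (Nat.zero_le 1) (Pu 0 x hx _ (by simpa using ih hl' 0 0 (by simp)))
        | succ a =>
          exact Pu a x hx _ (by simpa using ih hl' a 0 (by simp [add_mul] at hj; omega))
  intro l hl hN
  have h0 : P N ≤ ⊥ := Submodule.span_le.2 fun x ⟨l, b, h1, h2, h3⟩ => by
    simp [h3, h l h1 h2]
  simpa using h0 (key l hl N 0 (by simpa using hN))

theorem LocNil.sup_singleton {U : Submodule k A} (h : LocNil (U : Set A)) {w : A}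
    (hw : IsNilpotent w) (hc : ∀ u ∈ U, w * u - u * w ∈ U) :
    LocNil ((U ⊔ Submodule.span k {w} : Submodule k A) : Set A) := by
  intro Y hY hs
  have h1 : ∀ y ∈ Y, ∃ u ∈ U, ∃ c : k, y = u + c • w := fun y hy => by
    obtain ⟨u, hu, z, hz, rfl⟩ := Submodule.mem_sup.1 (hs hy)
    obtain ⟨c, rfl⟩ := Submodule.mem_span_singleton.1 hz
    exact ⟨u, hu, c, rfl⟩
  choose! f hf c hfc using h1
  let D : Module.End k A := LinearMap.mulLeft k w - LinearMap.mulRight k w
  obtain ⟨m, hm⟩ : IsNilpotent D := Commute.isNilpotent_sub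
    (LinearMap.commute_mulLeft_right w w) ((LinearMap.isNilpotent_mulLeft_iff k w).2 hw)
    ((LinearMap.isNilpotent_mulRight_iff k w).2 hw)
  have Dj : ∀ j : ℕ, ∀ u ∈ U, (D ^ j) u ∈ U := by
    intro j u hu
    induction j with
    | zero => simpa using hu
    | succ j ih => rw [pow_succ']; exact hc _ ih
  let Y1 : Set A := (fun q : ℕ × A => (D ^ q.1) (f q.2)) '' (Set.Iic m ×ˢ Y)
  obtain ⟨N, hN⟩ := h Y1 (((Set.finite_Iic m).prod hY).image _)
    (by rintro _ ⟨⟨j, y⟩, ⟨_, hy⟩, rfl⟩; exact Dj j _ (hf y hy))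
  obtain ⟨n, hn⟩ := hw
  have h2 := (hN.span (k := k)).insert hn (by
    intro u hu
    change D u ∈ _
    induction hu using Submodule.span_induction with
    | mem x hx =>
      obtain ⟨⟨j, y⟩, ⟨hj, hy⟩, rfl⟩ := hx
      rw [← Module.End.mul_apply, ← pow_succ']
      by_cases q : j + 1 ≤ m
      · exact Submodule.subset_span ⟨⟨j + 1, y⟩, ⟨q, hy⟩, rfl⟩
      · rw [pow_eq_zero_of_le (show m ≤ j + 1 by omega) hm]; simp
    | zero => simp
    | add x y _ _ hx hy => rw [map_add]; exact add_mem hx hy
    | smul c x _ hx => rw [map_smul]; exact Submodule.smul_mem _ _ hx)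
  refine ⟨N * n, (h2.span (k := k)).mono fun y hy => ?_⟩
  rw [hfc y hy]
  refine add_mem (Submodule.subset_span (Or.inr (Submodule.subset_span ?_)))
    (Submodule.smul_mem _ _ (Submodule.subset_span (Or.inl rfl)))
  exact ⟨⟨0, y⟩, ⟨Nat.zero_le m, hy⟩, rfl⟩

/-- Local nilpotency passes to an extension with commutators in the smaller space. -/
theorem LocNil.ext {U U' : Submodule k A} (h : LocNil (U : Set A)) (hU : U ≤ U')
    (hn : ∀ a ∈ U', IsNilpotent a) (hc : ∀ a ∈ U', ∀ b ∈ U', a * b - b * a ∈ U) :
    LocNil (U' : Set A) := by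
  have key : ∀ Y : Set A, Y.Finite → Y ⊆ U' →
      LocNil ((U ⊔ Submodule.span k Y : Submodule k A) : Set A) := by
    intro Y hY
    induction Y, hY using Set.Finite.induction_on with
    | empty => intro _; simpa using h
    | @insert w Y _ _ ih =>
      intro hs
      have hw : w ∈ U' := hs (Set.mem_insert _ _)
      have hY : Y ⊆ U' := (Set.subset_insert _ _).trans hs
      rw [Submodule.span_insert, sup_comm (Submodule.span k {w}), ← sup_assoc]
      refine (ih hY).sup_singleton (hn w hw) fun u hu => Submodule.mem_sup_left (hc w hw u ?_)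
      exact sup_le hU (Submodule.span_le.2 hY) hu
  intro Y hY hs
  exact key Y hY hs Y hY fun y hy => Submodule.mem_sup_right (Submodule.subset_span hy)

end Pool.Agent.P.MP_1307d3_al.NilSet
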