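import Pool.Agent.P.MP_1307d3_al.Mon

/-! From thin sandwiches to a thick one. -/

namespace Pool.Agent.P.MP_1307d3_al.Thick

open Classical

variable {L : Type*} [LieRing L] {S : Set L}

theorem two_le {α : Type*} [DecidableEq α] {m : Multiset α} {x : α} (h : x ∈ m)
    (h1 : m.count x ≠ 1) : 2 ≤ m.count x := by
  have := Multiset.count_pos.2 h; omega

theorem Ctx.m3 (C : Ctx S) {m : Multiset (L × ℕ)} {z : L} (h : Mon S m z)
    (h1 : ∀ l, m.count l ≠ 1) : z = 0 := by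
  by_contra hz
  obtain ⟨w, z', hm, hz', hw, hc⟩ := C.extm h hz m.toFinset fun l hl => Multiset.mem_toFinset.1 hl
  have mem : ∀ l ∈ m + w, l ∈ m.toFinset := fun l hl => by
    rcases Multiset.mem_add.1 hl with e | e
    exacts [Multiset.mem_toFinset.2 e, hw l e]
  have two : ∀ l ∈ m.toFinset, 2 ≤ (m + w).count l := fun l hl => by
    have := two_le (Multiset.mem_toFinset.1 hl) (h1 l)
    rw [Multiset.count_add]; omega
  have hS : ∀ l ∈ m.toFinset, l.1 ∈ S := fun l hl => h.letter l (Multiset.mem_toFinset.1 hl)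
  by_cases e : ∀ l ∈ m + w, G z' 2 l.1
  · have t := C.th hm hz' fun l hl => hc l (mem l hl)
    rw [Multiset.countP_eq_card.2 e] at t
    obtain ⟨x, hx⟩ := Multiset.card_pos_iff_exists_mem.1 hm.card_pos
    exact hz' (C.small hm x (two x (mem x hx)) (by omega))
  · push Not at e
    obtain ⟨y, hy, hk⟩ := e
    obtain ⟨n, hn, l, hl, h2, h3⟩ := C.extz' m.toFinset hS hc (mem y hy) hk
    have := C.m2 hm hn (hS l hl) (hc l hl) h2 fun k hk => h3 k (mem k hk)
    have := two l hl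
    omega

theorem exists_ne_of_count_lt {α : Type*} [DecidableEq α] {m : Multiset α} {x : α}
    (h : m.count x < m.card) : ∃ y ∈ m, y ≠ x := by
  by_contra e
  push Not at e
  have : m.count x = m.card := Multiset.count_eq_card.2 fun y hy => (e y hy).symm
  omega

theorem Ctx.m5 (C : Ctx S) {m : Multiset (L × ℕ)} {z : L} (h : Mon S m z) (s : L × ℕ)
    (h1 : ∀ l, l ≠ s → m.count l ≠ 1) (h2 : 2 ≤ m.card) : z = 0 := by
  by_cases hs : m.count s ≠ 1
  · exact C.m3 h fun l => by by_cases e : l = s; exacts [e ▸ hs, h1 l e]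
  push Not at hs
  by_contra hz
  have sm : s ∈ m := Multiset.count_pos.1 (by omega)
  set X := m.toFinset.erase s with hX
  have memX : ∀ l, l ∈ X ↔ l ≠ s ∧ l ∈ m := fun l => by simp [hX]
  obtain ⟨w, z', hm, hz', hw, hc⟩ := C.extm h hz X fun l hl => ((memX l).1 hl).2
  have mem : ∀ l ∈ m + w, l ∈ m := fun l hl => by
    rcases Multiset.mem_add.1 hl with e | e
    exacts [e, ((memX l).1 (hw l e)).2]
  have two : ∀ l ∈ X, 2 ≤ (m + w).count l := fun l hl => by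
    have := two_le ((memX l).1 hl).2 (h1 l ((memX l).1 hl).1)
    rw [Multiset.count_add]; omega
  have sS := h.letter s sm
  have hsz : ⁅s.1, z'⁆ = 0 := by
    refine C.m3 ((Mon.of s sS).lie hm) fun l => ?_
    rw [Multiset.count_add, Multiset.count_singleton]
    by_cases e : l = s
    · rw [if_pos e, e, Multiset.count_add]; omega
    · by_cases e' : l ∈ m
      · have := two l ((memX l).2 ⟨e, e'⟩); omega
      · have : (m + w).count l = 0 := Multiset.count_eq_zero.2 fun q => e' (mem l q)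
        simp [e, this]
  have hc' : ∀ l ∈ m.toFinset, ⁅l.1, z'⁆ = 0 := fun l hl => by
    by_cases e : l = s
    · rw [e]; exact hsz
    · exact hc l ((memX l).2 ⟨e, Multiset.mem_toFinset.1 hl⟩)
  have hS : ∀ l ∈ m.toFinset, l.1 ∈ S := fun l hl => h.letter l (Multiset.mem_toFinset.1 hl)
  have mem' : ∀ l ∈ m + w, l ∈ m.toFinset := fun l hl => Multiset.mem_toFinset.2 (mem l hl)
  obtain ⟨x, xm, xs⟩ : ∃ y ∈ m, y ≠ s := exists_ne_of_count_lt (by omega)
  have xX := (memX x).2 ⟨xs, xm⟩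
  have e : ¬ ∀ l ∈ m + w, G z' 2 l.1 := fun e => by
    have t := C.th hm hz' fun l hl => hc' l (mem' l hl)
    have := count_add_le_countP (p := fun l : L × ℕ => G z' 2 l.1) (m := m + w)
      (e x (Multiset.mem_add.2 (.inl xm))) (e s (Multiset.mem_add.2 (.inl sm))) xs
    have := two x xX
    have : 1 ≤ (m + w).count s := Multiset.count_pos.2 (Multiset.mem_add.2 (.inl sm))
    omega
  push Not at e
  obtain ⟨y, hy, hk⟩ := e
  obtain ⟨n, hn, l, hl, h2, h3⟩ := C.extz' m.toFinset hS hc' (mem' y hy) hk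
  have ls : l = s := by
    by_contra e
    have := C.m2 hm hn (hS l hl) (hc' l hl) h2 fun k hk => h3 k (mem' k hk)
    have := two l ((memX l).2 ⟨e, Multiset.mem_toFinset.1 hl⟩)
    omega
  subst ls
  set v := ⁅⁅n, l.1⁆, z'⁆ with hv
  have tS : ⁅n, l.1⁆ ∈ S := C.cl _ hn _ sS
  have vS : v ∈ S := C.cl _ tS _ (hm.mem C)
  have ks : G v 2 l.1 := C.kill_mid sS hsz n
  have kt : G v 2 ⁅n, l.1⁆ := by
    have := C.kill_of_eq tS (-z')
    rwa [neg_lie, lie_skew] at this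
  have nk : ¬ G v 2 x.1 := fun q => h2 (by
    apply C.th2 hn sS (hm.mem C) hsz
    refine G_mono ?_ (hm.count fun k hk => h3 k (mem' k hk))
    have := count_le_countP (p := fun k : L × ℕ => G ⁅⁅n, l.1⁆, z'⁆ 2 k.1) (m := m + w) q
    have := two x xX
    omega)
  have XS : ∀ k ∈ X, k.1 ∈ S := fun k hk => h.letter k ((memX k).1 hk).2
  have Xv : ∀ k ∈ X, ⁅k.1, v⁆ = 0 := fun k hk => h3 k (Multiset.mem_toFinset.2 ((memX k).1 hk).2)
  obtain ⟨n', hn', l', hl', h4, h5⟩ := C.extz' X XS Xv xX nk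
  apply h4
  apply C.th2 hn' (XS l' hl') vS (Xv l' hl')
  refine G_lie 3 (G_one.2 (kill_op kt _)) (hm.count fun k hk => ?_) ?_
  · by_cases e : k = l
    · rw [e]; exact kill_op ks _
    · exact h5 k ((memX k).2 ⟨e, mem k hk⟩)
  · have := count_le_countP (p := fun l : L × ℕ => G ⁅⁅n', l'.1⁆, v⁆ 2 l.1) (m := m + w)
      (C.kill_mid (XS l' hl') (Xv l' hl') n')
    have := two l' hl'
    omega

/-- A monomial with exactly two single letters which commutes with its letters. -/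
structure Two (S : Set L) (m : Multiset (L × ℕ)) (z : L) (r s : L × ℕ) : Prop where
  mon : Mon S m z
  ne : r ≠ s
  cr : m.count r = 1
  cs : m.count s = 1
  oth : ∀ l, l ≠ r → l ≠ s → m.count l ≠ 1
  com : ∀ l ∈ m, ⁅l.1, z⁆ = 0

theorem Two.symm {m : Multiset (L × ℕ)} {z : L} {r s : L × ℕ} (T : Two S m z r s) :
    Two S m z s r := ⟨T.mon, T.ne.symm, T.cs, T.cr, fun l a b => T.oth l b a, T.com⟩

theorem Two.rm {m : Multiset (L × ℕ)} {z : L} {r s : L × ℕ} (T : Two S m z r s) : r ∈ m :=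
  Multiset.count_pos.1 (by rw [T.cr]; omega)

theorem Two.cnt {m : Multiset (L × ℕ)} {z : L} {r s : L × ℕ} (T : Two S m z r s)
    {w : Multiset (L × ℕ)} (hw : ∀ k ∈ w, k ∈ m) (hr : r ∈ w) (l : L × ℕ)
    (hl : l ≠ s ∨ s ∈ w) : (w + m).count l ≠ 1 := by
  rw [Multiset.count_add]
  by_cases e : l ∈ m
  · by_cases e1 : l = r
    · subst e1; have := Multiset.count_pos.2 hr; have := T.cr; omega
    by_cases e2 : l = s
    · subst e2
      rcases hl with q | q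
      · exact absurd rfl q
      · have := Multiset.count_pos.2 q; have := T.cs; omega
    have := two_le e (T.oth l e1 e2); omega
  · rw [Multiset.count_eq_zero.2 e, Multiset.count_eq_zero.2 fun q => e (hw l q)]; omega

theorem Ctx.ta (C : Ctx S) {m : Multiset (L × ℕ)} {z : L} {r s : L × ℕ} (T : Two S m z r s)
    {u : L} (hu : u ∈ S) : ∀ h ∈ m, ⁅h.1, ⁅⁅u, r.1⁆, z⁆⁆ = 0 := by
  intro h hh
  by_contra ne
  have ne' : ⁅⁅⁅u, r.1⁆, h.1⁆, z⁆ ≠ 0 := fun e => ne (by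
    rw [leibniz_lie, T.com h hh, lie_zero, add_zero, ← lie_skew h.1, neg_lie, e, neg_zero])
  obtain ⟨N, hN⟩ := exists_fresh u m
  have hS : ∀ l ∈ m.toFinset, l.1 ∈ S := fun l hl => T.mon.letter l (Multiset.mem_toFinset.1 hl)
  have rS := T.mon.letter r T.rm
  obtain ⟨_, ⟨n, l, w, hl, rfl, hn, hw, hr⟩, h2, h3⟩ := C.extz m.toFinset hS
    (fun l hl => T.com l (Multiset.mem_toFinset.1 hl))
    (fun a => ∃ n l w, l ∈ m ∧ a = ⁅n, l.1⁆ ∧ Mon S ({(u, N)} + w) n ∧ (∀ k ∈ w, k ∈ m) ∧ r ∈ w)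
    (fun a ⟨n, l, w, hl, e, hn, hw, hr⟩ k hk => ⟨a, k, w + {l}, Multiset.mem_toFinset.1 hk, rfl,
      e ▸ (hn.lie (Mon.of l (T.mon.letter l hl))).cast (add_assoc _ _ _), fun j hj => by
        rcases Multiset.mem_add.1 hj with q | q
        · exact hw j q
        · rw [Multiset.mem_singleton.1 q]; exact hl, Multiset.mem_add.2 (.inl hr)⟩)
    _ ⟨⁅u, r.1⁆, h, {r}, hh, rfl, (Mon.of (u, N) hu).lie (Mon.of r rS),
      fun k hk => by rw [Multiset.mem_singleton.1 hk]; exact T.rm, by simp⟩ ne'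
  have lS := T.mon.letter l hl
  have hw' : ∀ k ∈ w + {l}, k ∈ m := fun j hj => by
    rcases Multiset.mem_add.1 hj with q | q
    · exact hw j q
    · rw [Multiset.mem_singleton.1 q]; exact hl
  have hr' : r ∈ w + {l} := Multiset.mem_add.2 (.inl hr)
  have hv : Mon S ({(u, N)} + (w + {l} + m)) ⁅⁅n, l.1⁆, z⁆ :=
    ((hn.lie (Mon.of l lS)).lie T.mon).cast (by simp only [add_assoc])
  have c0 : (w + {l} + m).count (u, N) = 0 := Multiset.count_eq_zero.2 fun q => by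
    rcases Multiset.mem_add.1 q with q | q
    exacts [hN (hw' _ q), hN q]
  have cm := T.mon.card_pos
  by_cases e : s ∈ w + {l}
  · apply h2
    refine C.m5 hv (u, N) (fun k hk => ?_) (by simp only [Multiset.card_add]; simp; omega)
    rw [Multiset.count_add, Multiset.count_singleton, if_neg hk, zero_add]
    exact T.cnt hw' hr' k (.inr e)
  have c1 := C.m2 T.mon (hn.mem C) lS (T.com l hl) h2 fun k hk =>
    h3 k (Multiset.mem_toFinset.2 hk)
  have lr : l = r := by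
    by_contra q
    have ls : l ≠ s := fun q' => e (by rw [← q']; simp)
    have := two_le hl (T.oth l q ls); omega
  subst lr
  have uv : ⁅u, ⁅⁅n, l.1⁆, z⁆⁆ = 0 := by
    refine C.m5 ((Mon.of (u, N) hu).lie hv) s (fun k hk => ?_)
      (by simp only [Multiset.card_add]; simp; omega)
    rw [Multiset.count_add, Multiset.count_add, Multiset.count_singleton]
    by_cases q : k = (u, N)
    · rw [if_pos q, q, c0]; omega
    · rw [if_neg q, zero_add, zero_add]; exact T.cnt hw' hr' k (.inl hk)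
  have t := C.th hv h2 fun k hk => by
    rcases Multiset.mem_add.1 hk with q | q
    · rw [Multiset.mem_singleton.1 q]; exact uv
    · rcases Multiset.mem_add.1 q with q | q
      exacts [h3 k (Multiset.mem_toFinset.2 (hw' k q)), h3 k (Multiset.mem_toFinset.2 q)]
  have t2 := count_le_countP (p := fun k : L × ℕ => G ⁅⁅n, l.1⁆, z⁆ 2 k.1)
    (m := {(u, N)} + (w + {l} + m)) (C.kill_mid lS (T.com l hl) n)
  have := Multiset.count_pos.2 hr
  have := T.cr
  simp only [Multiset.count_add, Multiset.count_singleton_self] at t2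
  omega

theorem Ctx.sand (C : Ctx S) {n : L} (hn : n ∈ S) (u r z : L) :
    ⁅⁅u, n⁆, ⁅⁅n, r⁆, z⁆⁆ = ⁅⁅⁅⁅u, n⁆, z⁆, r⁆, n⁆ := by
  have a1 : ∀ x a b : L, ⁅x, ⁅a, b⁆⁆ = ⁅⁅x, a⁆, b⁆ - ⁅⁅x, b⁆, a⁆ := fun x a b => by
    rw [jac x a b]; abel
  rw [a1, a1, a1, C.sq n hn, C.sw n hn, C.sw n hn]; simp

theorem Ctx.tb (C : Ctx S) {m : Multiset (L × ℕ)} {z : L} {r s : L × ℕ} (T : Two S m z r s)
    {w : L} (hw : w ∈ S) {h : L × ℕ} (hh : h ∈ m) (hr : h ≠ r) (hs : h ≠ s) :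
    ⁅⁅⁅w, h.1⁆, r.1⁆, z⁆ = 0 := by
  by_contra ne
  have hS := T.mon.letter h hh
  have rS := T.mon.letter r T.rm
  have nS : ⁅w, h.1⁆ ∈ S := C.cl _ hw _ hS
  obtain ⟨n, hn⟩ : ∃ n, n = ⁅w, h.1⁆ := ⟨_, rfl⟩
  rw [← hn] at ne nS
  obtain ⟨N, hN⟩ := exists_fresh n m
  have c0 : m.count (n, N) = 0 := Multiset.count_eq_zero.2 hN
  have nr : (n, N) ≠ r := fun e => hN (e ▸ T.rm)
  have ns : (n, N) ≠ s := fun e => hN (e ▸ T.symm.rm)
  have nh : (n, N) ≠ h := fun e => hN (e ▸ hh)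
  have T1 : Two S ({(n, N)} + ({r} + m)) ⁅⁅n, r.1⁆, z⁆ (n, N) s := by
    refine ⟨(((Mon.of (n, N) nS).lie (Mon.of r rS)).lie T.mon).cast (add_assoc _ _ _), ns, ?_, ?_,
      fun l h1 h2 => ?_, fun l hl => ?_⟩
    · simp [nr, c0]
    · simp [ns.symm, T.ne.symm, T.cs]
    · rw [Multiset.count_add, Multiset.count_singleton, if_neg h1, zero_add]
      exact T.cnt (fun k hk => by rw [Multiset.mem_singleton.1 hk]; exact T.rm) (by simp) l
        (.inl h2)
    · rcases Multiset.mem_add.1 hl with q | q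
      · rw [Multiset.mem_singleton.1 q]; exact C.aut nS _ _
      · rcases Multiset.mem_add.1 q with q | q
        · rw [Multiset.mem_singleton.1 q]; exact C.ta T nS r T.rm
        · exact C.ta T nS l q
  have rz := T.com r T.rm
  have nk : ¬ G ⁅⁅n, r.1⁆, z⁆ 2 n := fun q => by
    have t := C.th T1.mon ne T1.com
    have t2 := count_add_le_countP (p := fun k : L × ℕ => G ⁅⁅n, r.1⁆, z⁆ 2 k.1)
      (m := {(n, N)} + ({r} + m)) (x := (n, N)) q (C.kill_mid rS rz n) nr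
    have := T.cr
    simp only [Multiset.count_add, Multiset.count_singleton_self] at t2
    omega
  obtain ⟨u, hu, h2⟩ := C.not_kill (C.aut nS r.1 z) nk
  apply h2
  apply C.th2 hu nS (T1.mon.mem C) (C.aut nS r.1 z)
  refine G_mono ?_ (T1.mon.count (C.ta T1 hu))
  have kh : G ⁅⁅u, n⁆, ⁅⁅n, r.1⁆, z⁆⁆ 2 h.1 := by
    have a := C.ta T (C.cl _ hu _ nS) h hh
    have b : ⁅⁅u, n⁆, ⁅⁅n, r.1⁆, z⁆⁆ = ⁅⁅⁅⁅⁅u, n⁆, r.1⁆, z⁆, w⁆, h.1⁆ := by
      rw [C.sand nS, ← swap_of_comm rz, jac _ w h.1, ← lie_skew _ h.1, a, neg_zero, zero_lie,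
        zero_add, ← hn]
    rw [b]; exact C.kill_of_eq hS _
  have t2 := count_le_countP (p := fun k : L × ℕ => G ⁅⁅u, n⁆, ⁅⁅n, r.1⁆, z⁆⁆ 2 k.1)
    (m := {(n, N)} + ({r} + m)) kh
  have := two_le hh (T.oth h hr hs)
  simp only [Multiset.count_add] at t2
  omega

theorem Ctx.tc0 (C : Ctx S) {m : Multiset (L × ℕ)} {z : L} {r s : L × ℕ} (T : Two S m z r s)
    {n : L} (hn : n ∈ S) {h : L × ℕ} (hh : h ∈ m) : ⁅⁅⁅n, h.1⁆, r.1⁆, z⁆ = 0 := by
  have rS := T.mon.letter r T.rm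
  by_cases e : h = r
  · rw [e, C.sq _ rS, zero_lie]
  by_cases e' : h = s
  · subst e'
    obtain ⟨N, hN⟩ := exists_fresh n m
    have hv : Mon S ({(n, N)} + ({h} + {r} + m)) ⁅⁅⁅n, h.1⁆, r.1⁆, z⁆ :=
      ((((Mon.of (n, N) hn).lie (Mon.of h (T.mon.letter h hh))).lie (Mon.of r rS)).lie T.mon).cast
        (by simp only [add_assoc])
    refine C.m5 hv (n, N) (fun k hk => ?_) (by simp only [Multiset.card_add]; simp; omega)
    rw [Multiset.count_add, Multiset.count_singleton, if_neg hk, zero_add]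
    refine T.cnt (fun j hj => ?_) (by simp) k (.inr (by simp))
    rcases Multiset.mem_add.1 hj with q | q <;> rw [Multiset.mem_singleton.1 q]
    exacts [hh, T.rm]
  exact C.tb T hn hh e e'

theorem Ctx.tc (C : Ctx S) {m : Multiset (L × ℕ)} {z : L} {r s : L × ℕ} (T : Two S m z r s)
    {y : L × ℕ} (hy : y ∈ m) (hr : y ≠ r) (hs : y ≠ s) : G z 2 y.1 := by
  by_contra nk
  obtain ⟨u, hu, ne⟩ := C.not_kill (T.com y hy) nk
  have hS : ∀ l ∈ m.toFinset, l.1 ∈ S := fun l hl => T.mon.letter l (Multiset.mem_toFinset.1 hl)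
  obtain ⟨_, ⟨n, hn, l, hl, rfl, hq⟩, h2, h3⟩ := C.extz m.toFinset hS
    (fun l hl => T.com l (Multiset.mem_toFinset.1 hl))
    (fun a => ∃ n ∈ S, ∃ l ∈ m, a = ⁅n, l.1⁆ ∧ (l = y ∨ ∃ n' ∈ S, ∃ h ∈ m, n = ⁅n', h.1⁆))
    (fun a ⟨n, hn, l, hl, e, _⟩ k hk => ⟨a, e ▸ C.cl _ hn _ (T.mon.letter l hl), k,
      Multiset.mem_toFinset.1 hk, rfl, .inr ⟨n, hn, l, hl, e⟩⟩)
    _ ⟨u, hu, y, hy, rfl, .inl rfl⟩ ne
  have c1 := C.m2 T.mon hn (T.mon.letter l hl) (T.com l hl) h2 fun k hk =>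
    h3 k (Multiset.mem_toFinset.2 hk)
  rcases hq with rfl | ⟨n', hn', h, hh, rfl⟩
  · have := two_le hy (T.oth l hr hs); omega
  by_cases e : l = r
  · subst e; exact h2 (C.tc0 T hn' hh)
  by_cases e' : l = s
  · subst e'; exact h2 (C.tc0 T.symm hn' hh)
  have := two_le hl (T.oth l e e'); omega

theorem card_le_countP_add {α : Type*} [DecidableEq α] {p : α → Prop} [DecidablePred p]
    {m : Multiset α} {r s : α} (h : ∀ y ∈ m, y ≠ r → y ≠ s → p y) :
    m.card ≤ m.countP p + m.count r + m.count s := by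
  induction m using Multiset.induction_on with
  | empty => simp
  | cons a m ih =>
    have := ih fun y hy => h y (Multiset.mem_cons_of_mem hy)
    rw [Multiset.count_cons, Multiset.count_cons, Multiset.countP_cons, Multiset.card_cons]
    by_cases e : r = a
    · rw [if_pos e]; omega
    by_cases e' : s = a
    · rw [if_pos e']; omega
    rw [if_pos (h a (Multiset.mem_cons_self _ _) (Ne.symm e) (Ne.symm e'))]; omega

theorem Ctx.m7 (C : Ctx S) {m : Multiset (L × ℕ)} {z : L} (h : Mon S m z) (r s : L × ℕ)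
    (h1 : ∀ l, l ≠ r → l ≠ s → m.count l ≠ 1) (h2 : 3 ≤ m.card) : z = 0 := by
  by_cases hs : m.count s ≠ 1
  · exact C.m5 h r (fun l e' => by by_cases e : l = s; exacts [e ▸ hs, h1 l e' e]) (by omega)
  by_cases hr : m.count r ≠ 1
  · exact C.m5 h s (fun l e' => by by_cases e : l = r; exacts [e ▸ hr, h1 l e e']) (by omega)
  by_cases rs : r = s
  · exact C.m5 h s (fun l e' => h1 l (rs ▸ e') e') (by omega)
  push Not at hs hr
  by_contra hz
  have sm : s ∈ m := Multiset.count_pos.1 (by omega)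
  have rm : r ∈ m := Multiset.count_pos.1 (by omega)
  set X := (m.toFinset.erase s).erase r with hX
  have memX : ∀ l, l ∈ X ↔ l ≠ r ∧ l ≠ s ∧ l ∈ m := fun l => by simp [hX]
  obtain ⟨w, z', hm, hz', hw, hc⟩ := C.extm h hz X fun l hl => ((memX l).1 hl).2.2
  have mem : ∀ l ∈ m + w, l ∈ m := fun l hl => by
    rcases Multiset.mem_add.1 hl with e | e
    exacts [e, ((memX l).1 (hw l e)).2.2]
  have oth : ∀ l, l ≠ r → l ≠ s → (m + w).count l ≠ 1 := fun l e1 e2 => by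
    by_cases e : l ∈ m
    · have := two_le e (h1 l e1 e2); rw [Multiset.count_add]; omega
    · rw [Multiset.count_eq_zero.2 fun q => e (mem l q)]; omega
  have cr : (m + w).count r = 1 := by
    rw [Multiset.count_add, hr, Multiset.count_eq_zero.2 fun q => ((memX r).1 (hw r q)).1 rfl]
  have cs : (m + w).count s = 1 := by
    rw [Multiset.count_add, hs, Multiset.count_eq_zero.2 fun q => ((memX s).1 (hw s q)).2.1 rfl]
  have cc := hm.card_pos
  have T : Two S (m + w) z' r s := by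
    refine ⟨hm, rs, cr, cs, oth, fun l hl => ?_⟩
    by_cases e : l = r
    · subst e
      refine C.m5 ((Mon.of l (hm.letter l hl)).lie hm) s (fun k hk => ?_)
        (by rw [Multiset.card_add]; simp; omega)
      rw [Multiset.count_add, Multiset.count_singleton]
      by_cases q : k = l
      · rw [if_pos q, q, cr]; omega
      · rw [if_neg q, zero_add]; exact oth k q hk
    by_cases e' : l = s
    · subst e'
      refine C.m5 ((Mon.of l (hm.letter l hl)).lie hm) r (fun k hk => ?_)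
        (by rw [Multiset.card_add]; simp; omega)
      rw [Multiset.count_add, Multiset.count_singleton]
      by_cases q : k = l
      · rw [if_pos q, q, cs]; omega
      · rw [if_neg q, zero_add]; exact oth k hk q
    exact hc l ((memX l).2 ⟨e, e', mem l hl⟩)
  have t := C.th hm hz' T.com
  have t2 := card_le_countP_add (p := fun k : L × ℕ => G z' 2 k.1) (m := m + w) (r := r) (s := s)
    fun y hy e1 e2 => C.tc T hy e1 e2
  obtain ⟨x, hx, e1, e2⟩ : ∃ x ∈ m + w, x ≠ r ∧ x ≠ s := by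
    by_contra q
    have := card_le_countP_add (p := fun _ : L × ℕ => False) (m := m + w) (r := r) (s := s)
      fun y hy e1 e2 => q ⟨y, hy, e1, e2⟩
    rw [Multiset.countP_eq_zero.2 fun _ _ => not_false, Multiset.card_add] at this
    omega
  exact hz' (C.small hm x (two_le hx (oth x e1 e2)) (by omega))

/-- Left multiplication as an additive map. -/
def lm (y : L) : L →+ L where
  toFun a := ⁅y, a⁆
  map_zero' := lie_zero y
  map_add' a b := lie_add y a b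

theorem Ctx.eq_zero (C : Ctx S) {c : L} (hc : c ∈ S) : c = 0 := by
  by_contra c0
  have s3 := C.self3 hc
  obtain ⟨a, b, e, h⟩ : ∃ a b e : L, ⁅⁅⁅⁅a, c⁆, b⁆, e⁆, c⁆ ≠ 0 := by
    by_contra q
    push Not at q
    refine c0 (C.thin c hc ⟨s3.1, fun a => ⟨(s3.2 a).1, fun b => ⟨((s3.2 a).2 b).1, fun e =>
      G_one.2 ?_⟩⟩⟩)
    rw [← lie_skew c a, neg_lie, neg_lie, neg_lie, q, neg_zero]
  obtain ⟨a, ha, h⟩ : ∃ a ∈ S, ⁅⁅⁅⁅a, c⁆, b⁆, e⁆, c⁆ ≠ 0 :=
    C.exists_ne ((rm c).comp ((rm e).comp ((rm b).comp (rm c)))) h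
  obtain ⟨e, he, h⟩ : ∃ e ∈ S, ⁅⁅⁅⁅a, c⁆, b⁆, e⁆, c⁆ ≠ 0 :=
    C.exists_ne ((rm c).comp (lm ⁅⁅a, c⁆, b⁆)) h
  obtain ⟨b, hb, h⟩ : ∃ b ∈ S, ⁅⁅⁅⁅a, c⁆, b⁆, e⁆, c⁆ ≠ 0 :=
    C.exists_ne ((rm c).comp ((rm e).comp (lm ⁅a, c⁆))) h
  obtain ⟨q, hq⟩ : ∃ q, q = ⁅⁅c, e⁆, b⁆ := ⟨_, rfl⟩
  have qS : q ∈ S := hq ▸ C.cl _ (C.cl _ hc _ he) _ hb
  have cq : ⁅c, q⁆ = 0 := hq ▸ C.aut hc e b
  rw [← C.sand hc, ← hq] at h
  obtain ⟨T, hT⟩ : ∃ T, T = ⁅⁅a, c⁆, q⁆ := ⟨_, rfl⟩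
  have aT : ⁅a, T⁆ = 0 := hT ▸ C.aut ha c q
  have mT : Mon S ({(a, 0)} + {(c, 1)} + {(q, 2)}) T :=
    hT ▸ ((Mon.of (a, 0) ha).lie (Mon.of (c, 1) hc)).lie (Mon.of (q, 2) qS)
  have nk : ¬ G T 2 a := fun k => h (by
    apply C.thin _ (hT ▸ mT.mem C)
    rw [← hT]
    have kc : G T 2 c := hT ▸ C.kill_mid hc cq a
    have kq : G T 2 q := hT ▸ C.kill_of_eq qS _
    have := G_lie 4 (G_lie 3 k kc (by omega)) kq (by omega)
    rwa [← hT] at this)
  obtain ⟨s, hs, h1⟩ := C.not_kill aT nk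
  obtain ⟨v, hv⟩ : ∃ v, v = ⁅⁅s, a⁆, T⁆ := ⟨_, rfl⟩
  have mv : Mon S ({(s, 3)} + {(a, 0)} + ({(a, 0)} + {(c, 1)} + {(q, 2)})) v :=
    hv ▸ ((Mon.of (s, 3) hs).lie (Mon.of (a, 0) ha)).lie mT
  have cv : ⁅c, v⁆ = 0 := by
    refine C.m7 ((Mon.of (c, 1) hc).lie mv) (s, 3) (q, 2) (fun l h1 h2 => ?_) (by simp)
    simp only [Multiset.count_add, Multiset.count_singleton, if_neg h1, if_neg h2]
    split_ifs <;> omega
  have qv : ⁅q, v⁆ = 0 := by
    refine C.m7 ((Mon.of (q, 2) qS).lie mv) (s, 3) (c, 1) (fun l h1 h2 => ?_) (by simp)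
    simp only [Multiset.count_add, Multiset.count_singleton, if_neg h1, if_neg h2]
    split_ifs <;> omega
  have nk' : ¬ G v 2 q := fun k => h1 (by
    apply C.th2 hs ha (mT.mem C) aT
    have ka : G v 2 a := hv ▸ C.kill_mid ha aT s
    have := G_lie 3 (G_lie 2 ka (G_one.2 cv) (by omega)) k (by omega)
    rwa [← hT, hv] at this)
  obtain ⟨r, hr, h2⟩ := C.not_kill qv nk'
  have mq : Mon S ({(c, 1)} + {(e, 4)} + {(b, 5)}) q :=
    hq ▸ ((Mon.of (c, 1) hc).lie (Mon.of (e, 4) he)).lie (Mon.of (b, 5) hb)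
  have mv' : Mon S ({(s, 3)} + {(a, 0)} + ({(a, 0)} + {(c, 1)} +
      ({(c, 1)} + {(e, 4)} + {(b, 5)}))) v := by
    rw [hv, hT]
    exact ((Mon.of (s, 3) hs).lie (Mon.of (a, 0) ha)).lie
      (((Mon.of (a, 0) ha).lie (Mon.of (c, 1) hc)).lie mq)
  apply h2
  refine C.m7 (((Mon.of (r, 6) hr).lie mq).lie mv') (r, 6) (s, 3) (fun l h1 h2 => ?_) (by simp)
  simp only [Multiset.count_add, Multiset.count_singleton, if_neg h1, if_neg h2]
  split_ifs <;> omega

/-- Thin sandwiches which span, are closed under brackets and are locally nilpotent contain a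
thick one. -/
theorem exists_thick (S : Set L)
    (sq : ∀ s ∈ S, ∀ x : L, ⁅⁅x, s⁆, s⁆ = 0)
    (sw : ∀ s ∈ S, ∀ x y : L, ⁅⁅⁅x, s⁆, y⁆, s⁆ = 0)
    (cl : ∀ a ∈ S, ∀ b ∈ S, ⁅a, b⁆ ∈ S)
    (span : ∀ x : L, x ∈ AddSubgroup.closure S)
    (nil : ∀ X : Finset L, (↑X : Set L) ⊆ S → ∃ N : ℕ, ∀ w : List L, (∀ h ∈ w, h ∈ X) →
      w.length = N → ∀ x : L, w.foldl (fun a b => ⁅a, b⁆) x = 0)
    {c : L} (hc : c ∈ S) (c0 : c ≠ 0) :
    ∃ z ∈ S, z ≠ 0 ∧ ∀ a b e : L, ⁅⁅⁅⁅z, a⁆, b⁆, e⁆, z⁆ = 0 := by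
  by_contra q
  push Not at q
  refine c0 (Ctx.eq_zero ⟨sq, sw, cl, span, nil, fun z hz h => ?_⟩ hc)
  by_contra z0
  obtain ⟨a, b, e, h'⟩ := q z hz z0
  exact h' (((h.2 a).2 b).2 e).1

end Pool.Agent.P.MP_1307d3_al.Thick
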