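import Pool.Agent.P.MP_1307d3_al.Words
import Pool.Agent.P.MP_1307d3_al.Thick

/-! The sandwich theorem: finitely many sandwiches generate a nilpotent associative ring. -/

namespace Pool.Agent.P.MP_1307d3_al.Sandwich

variable {α : Type*} [LinearOrder α] {A : Type*} [Ring A]

theorem MM.trans' {u v w : List α} (h : MM u v) (h' : MM v w) (l : w.length ≤ u.length) : MM u w :=
  MM.of_lt (h.lt.trans h'.lt) l

/-- The span of the values of the words of the same length which are bigger than `w`. -/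
def Big (x : α → A) (w : List α) : AddSubgroup A :=
  AddSubgroup.closure {e | ∃ u : List α, u.length = w.length ∧ MM w u ∧ e = (u.map x).prod}

/-- The span of the values of the words of length `n`. -/
def All (x : α → A) (n : ℕ) : AddSubgroup A :=
  AddSubgroup.closure {e | ∃ u : List α, u.length = n ∧ e = (u.map x).prod}

/-- `e` has leading word `w`. -/
def Hi (x : α → A) (w : List α) (e : A) : Prop := e - (w.map x).prod ∈ Big x w

variable {x : α → A}

theorem Hi.self (w : List α) : Hi x w (w.map x).prod := by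
  rw [Hi, sub_self]; exact zero_mem _

theorem Hi.all {w : List α} {e : A} (h : Hi x w e) : e ∈ All x w.length := by
  have h1 : Big x w ≤ All x w.length :=
    AddSubgroup.closure_mono fun e ⟨u, a, _, c⟩ => ⟨u, a, c⟩
  have h2 : (w.map x).prod ∈ All x w.length := AddSubgroup.subset_closure ⟨w, rfl, rfl⟩
  simpa using add_mem (h1 h) h2

theorem big_mul {r s : List α} {b c : A} (hb : b ∈ Big x r) (hc : c ∈ All x s.length) :
    b * c ∈ Big x (r ++ s) := by
  induction hb using AddSubgroup.closure_induction with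
  | mem b hb =>
    obtain ⟨u, h1, h2, rfl⟩ := hb
    induction hc using AddSubgroup.closure_induction with
    | mem c hc =>
      obtain ⟨v, h3, rfl⟩ := hc
      exact AddSubgroup.subset_closure ⟨u ++ v, by simp [h1, h3], h2.append _ _, by simp⟩
    | zero => rw [mul_zero]; exact zero_mem _
    | add c d _ _ hc hd => rw [mul_add]; exact add_mem hc hd
    | neg c _ hc => rw [mul_neg]; exact neg_mem hc
  | zero => rw [zero_mul]; exact zero_mem _
  | add c d _ _ hc hd => rw [add_mul]; exact add_mem hc hd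
  | neg c _ hc => rw [neg_mul]; exact neg_mem hc

theorem mul_big (r : List α) {s : List α} {b : A} (hb : b ∈ Big x s) :
    (r.map x).prod * b ∈ Big x (r ++ s) := by
  induction hb using AddSubgroup.closure_induction with
  | mem b hb =>
    obtain ⟨u, h1, h2, rfl⟩ := hb
    exact AddSubgroup.subset_closure ⟨r ++ u, by simp [h1], h2.pre _, by simp⟩
  | zero => rw [mul_zero]; exact zero_mem _
  | add c d _ _ hc hd => rw [mul_add]; exact add_mem hc hd
  | neg c _ hc => rw [mul_neg]; exact neg_mem hc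

theorem Hi.mul {r s : List α} {c d : A} (hc : Hi x r c) (hd : Hi x s d) :
    Hi x (r ++ s) (c * d) := by
  have := add_mem (big_mul hc hd.all) (mul_big r hd)
  rw [Hi, List.map_append, List.prod_append]
  convert this using 1
  noncomm_ring

theorem Hi.big {w w' : List α} {e : A} (h : Hi x w' e) (hm : MM w w') (hl : w'.length = w.length) :
    e ∈ Big x w := by
  have h1 : Big x w' ≤ Big x w := AddSubgroup.closure_mono fun e ⟨u, a, b, c⟩ =>
    ⟨u, a.trans hl, hm.trans' b (a.trans hl).le, c⟩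
  have h2 : (w'.map x).prod ∈ Big x w := AddSubgroup.subset_closure ⟨w', hl, hm, rfl⟩
  simpa using add_mem (h1 h) h2

/-- Sandwiches of a set `L` of ring elements. -/
def Sand (L : Set A) (c : A) : Prop := c ∈ L ∧ c * c = 0 ∧ ∀ y ∈ L, c * y * c = 0

theorem Sand.lie {L : Set A} (hL : ∀ a ∈ L, ∀ b ∈ L, a * b - b * a ∈ L) {a b : A}
    (ha : Sand L a) (hb : Sand L b) : Sand L (a * b - b * a) := by
  have aba := ha.2.2 b hb.1
  have bab := hb.2.2 a ha.1
  refine ⟨hL a ha.1 b hb.1, ?_, fun y hy => ?_⟩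
  · have : (a * b - b * a) * (a * b - b * a) =
      (a * b * a) * b - a * (b * b) * a - b * (a * a) * b + (b * a * b) * a := by noncomm_ring
    rw [this, aba, bab, ha.2.1, hb.2.1]; simp
  · have h1 := ha.2.2 _ (hL b hb.1 y hy)
    have h2 := hb.2.2 _ (hL a ha.1 y hy)
    have : (a * b - b * a) * y * (a * b - b * a) =
      (a * (b * y - y * b) * a) * b + a * y * (b * a * b) - a * (b * y * b) * a
        - b * (a * y * a) * b + (b * (a * y - y * a) * b) * a + b * y * (a * b * a) := by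
      noncomm_ring
    rw [this, h1, h2, aba, bab, ha.2.2 y hy, hb.2.2 y hy]; simp

theorem Lyn.good {L : Set A} (hL : ∀ a ∈ L, ∀ b ∈ L, a * b - b * a ∈ L)
    (hx : ∀ i, Sand L (x i)) : ∀ (n : ℕ) (g : List α), g.length ≤ n → Lyn g →
      ∃ c, Sand L c ∧ Hi x g c := by
  intro n
  induction n with
  | zero => intro g h hg; exact absurd (List.length_eq_zero_iff.1 (by omega)) hg.1
  | succ n ih =>
    intro g h hg
    by_cases h2 : 2 ≤ g.length
    · obtain ⟨r, s, rfl, hr, hs, hm⟩ := hg.split h2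
      have lr := List.length_pos_iff.2 hr.1
      have ls := List.length_pos_iff.2 hs.1
      rw [List.length_append] at h
      obtain ⟨c, c1, c2⟩ := ih r (by omega) hr
      obtain ⟨d, d1, d2⟩ := ih s (by omega) hs
      refine ⟨c * d - d * c, c1.lie hL d1, ?_⟩
      have := sub_mem (c2.mul d2) ((d2.mul c2).big hm (by simp [add_comm]))
      rw [Hi]; convert this using 1; abel
    · have := List.length_pos_iff.2 hg.1
      obtain ⟨a, rfl⟩ := List.length_eq_one_iff.1 (show g.length = 1 by omega)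
      exact ⟨x a, hx a, by simpa using Hi.self (x := x) [a]⟩

theorem Bad.hi {L : Set A} (hL : ∀ a ∈ L, ∀ b ∈ L, a * b - b * a ∈ L)
    (hx : ∀ i, Sand L (x i)) {w : List α} (h : Bad w) : Hi x w 0 := by
  have fac : ∀ f : List α, Hi x f 0 → f <:+: w → Hi x w 0 := fun f hf ⟨p, q, e⟩ => by
    have := ((Hi.self (x := x) p).mul hf).mul (Hi.self q)
    rwa [e, mul_zero, zero_mul] at this
  have one : ∀ y, Hi x [y] (x y) := fun y => by simpa using Hi.self (x := x) [y]
  obtain ⟨y, g, ⟨rfl | hg, h⟩ | ⟨hg, h⟩⟩ := h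
  · refine fac _ ?_ h
    have := (one y).mul (one y)
    rwa [(hx y).2.1] at this
  · obtain ⟨c, c1, c2⟩ := Lyn.good hL hx _ g le_rfl hg
    refine fac _ ?_ h
    have := ((one y).mul c2).mul (one y)
    rwa [(hx y).2.2 c c1.1] at this
  · obtain ⟨c, c1, c2⟩ := Lyn.good hL hx _ g le_rfl hg
    refine fac _ ?_ h
    have := (c2.mul (one y)).mul c2
    rwa [c1.2.2 _ (hx y).1] at this

theorem prod_eq_zero [Finite α] {N : ℕ} (hN : ∀ w : List α, w.length = N → Hi x w 0)
    (w : List α) (hw : w.length = N) : (w.map x).prod = 0 := by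
  by_contra ne
  obtain ⟨u, ⟨h1, h2⟩, hmax⟩ := Set.exists_max_image
    {u : List α | u.length = N ∧ (u.map x).prod ≠ 0} id
    ((List.finite_length_eq α N).subset fun u hu => hu.1) ⟨w, hw, ne⟩
  have : Big x u ≤ ⊥ := (AddSubgroup.closure_le _).2 fun e ⟨v, a, b, c⟩ => by
    by_contra q
    exact absurd b.lt (not_lt.2 (hmax v ⟨a.trans h1, fun z => q (by simp [c, z])⟩))
  have := this (hN u h1)
  simp at this
  exact h2 this

/-- The sandwich theorem, with a bound depending only on the number of sandwiches. -/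
theorem sandwich_nil (k : ℕ) : ∃ N : ℕ, ∀ (A : Type*) [Ring A] (L : Set A),
    (∀ a ∈ L, ∀ b ∈ L, a * b - b * a ∈ L) → ∀ x : Fin k → A,
    (∀ i, x i ∈ L ∧ x i * x i = 0 ∧ ∀ y ∈ L, x i * y * x i = 0) →
    ∀ w : List (Fin k), N ≤ w.length → (w.map x).prod = 0 := by
  obtain ⟨N, hN⟩ := exists_bad (Fin k)
  refine ⟨N, fun A _ L hL x hx w hw => ?_⟩
  rw [← List.take_append_drop N w, List.map_append, List.prod_append,
    prod_eq_zero (fun u hu => (hN u hu).hi hL hx) _ (by simp [hw]), zero_mul]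

/-- The sandwich theorem for a finite set of sandwiches. -/
theorem sandwich_nil_finset (k : ℕ) : ∃ N : ℕ, ∀ (A : Type*) [Ring A] (L : Set A),
    (∀ a ∈ L, ∀ b ∈ L, a * b - b * a ∈ L) → ∀ X : Finset A, X.card ≤ k →
    (∀ c ∈ X, c ∈ L ∧ c * c = 0 ∧ ∀ y ∈ L, c * y * c = 0) →
    ∀ w : List A, (∀ c ∈ w, c ∈ X) → N ≤ w.length → w.prod = 0 := by
  obtain ⟨N, hN⟩ := sandwich_nil (k + 1)
  refine ⟨N + 1, fun A _ L hL X hX hs w hw hl => ?_⟩
  obtain ⟨c0, h0⟩ := List.exists_mem_of_length_pos (show 0 < w.length by omega)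
  obtain ⟨f, hf⟩ : ∃ f : Fin (k + 1) → X, Function.Surjective f := by
    have : Nonempty X := ⟨⟨c0, hw c0 h0⟩⟩
    obtain ⟨g⟩ := Function.Embedding.nonempty_of_card_le
      (show Fintype.card X ≤ Fintype.card (Fin (k + 1)) by simp; omega)
    exact ⟨_, Function.invFun_surjective g.injective⟩
  obtain ⟨u, rfl⟩ : ∃ u : List (Fin (k + 1)), u.map (fun i => (f i : A)) = w := by
    clear hl h0
    induction w with
    | nil => exact ⟨[], rfl⟩
    | cons a w ih =>
      obtain ⟨u, hu⟩ := ih fun c hc => hw c (List.mem_cons_of_mem _ hc)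
      obtain ⟨i, hi⟩ := hf ⟨a, hw a List.mem_cons_self⟩
      exact ⟨i :: u, by simp [hu, hi]⟩
  exact hN A L hL _ (fun i => hs _ (f i).2) u (by simp at hl; omega)

/-- The sandwich theorem in the adjoint representation of a Lie ring. -/
theorem ad_nil (k : ℕ) : ∃ N : ℕ, ∀ (L : Type*) [LieRing L] (X : Finset L), X.card ≤ k →
    (∀ s ∈ X, ∀ x : L, ⁅⁅x, s⁆, s⁆ = 0) → (∀ s ∈ X, ∀ x y : L, ⁅⁅⁅x, s⁆, y⁆, s⁆ = 0) →
    ∀ w : List L, (∀ h ∈ w, h ∈ X) → N ≤ w.length →
      ∀ x : L, w.foldl (fun a b => ⁅a, b⁆) x = 0 := by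
  classical
  obtain ⟨N, hN⟩ := sandwich_nil_finset k
  refine ⟨N, fun L _ X hX sq sw w hw hl x => ?_⟩
  let ρ : L → AddMonoid.End L := fun y => Thick.rm y
  have ρa : ∀ y a, ρ y a = ⁅a, y⁆ := fun _ _ => rfl
  have key : ∀ (w : List L) (x : L),
      w.foldl (fun a b => ⁅a, b⁆) x = (w.reverse.map ρ).prod x := by
    intro w
    induction w with
    | nil => intro x; rfl
    | cons a w ih =>
      intro x
      rw [List.foldl_cons, ih, List.reverse_cons, List.map_append, List.prod_append]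
      simp [ρa]
  rw [key, hN (AddMonoid.End L) (Set.range ρ) ?_ (X.image ρ) (Finset.card_image_le.trans hX) ?_ _ ?_
    (by simpa using hl)]
  · rfl
  · rintro _ ⟨a, rfl⟩ _ ⟨b, rfl⟩
    refine ⟨⁅b, a⁆, ?_⟩
    ext z
    change ⁅z, ⁅b, a⁆⁆ = ⁅⁅z, b⁆, a⁆ - ⁅⁅z, a⁆, b⁆
    rw [Thick.jac z b a]; abel
  · intro c hc
    obtain ⟨s, hs, rfl⟩ := Finset.mem_image.1 hc
    refine ⟨⟨s, rfl⟩, ?_, ?_⟩
    · ext z; exact sq s hs z
    · rintro _ ⟨y, rfl⟩; ext z; exact sw s hs z y
  · intro c hc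
    obtain ⟨a, ha, rfl⟩ := List.mem_map.1 hc
    exact Finset.mem_image_of_mem _ (hw a (List.mem_reverse.1 ha))

/-- A spanning bracket-closed set of sandwiches with a nonzero member has a thick member. -/
theorem exists_thick' {L : Type*} [LieRing L] (S : Set L)
    (sq : ∀ s ∈ S, ∀ x : L, ⁅⁅x, s⁆, s⁆ = 0)
    (sw : ∀ s ∈ S, ∀ x y : L, ⁅⁅⁅x, s⁆, y⁆, s⁆ = 0)
    (cl : ∀ a ∈ S, ∀ b ∈ S, ⁅a, b⁆ ∈ S)
    (span : ∀ x : L, x ∈ AddSubgroup.closure S)
    {c : L} (hc : c ∈ S) (c0 : c ≠ 0) :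
    ∃ z ∈ S, z ≠ 0 ∧ ∀ a b e : L, ⁅⁅⁅⁅z, a⁆, b⁆, e⁆, z⁆ = 0 := by
  refine Thick.exists_thick S sq sw cl span (fun X hX => ?_) hc c0
  obtain ⟨N, hN⟩ := ad_nil X.card
  exact ⟨N, fun w hw hl => hN L X le_rfl (fun s hs => sq s (hX hs)) (fun s hs => sw s (hX hs))
    w hw hl.ge⟩

end Pool.Agent.P.MP_1307d3_al.Sandwich
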