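import Pool.Agent.P.MP_1307d3_al.TIdeal
import Pool.Agent.P.MP_1307d3_al.NilSet
import Pool.Agent.P.MP_1307d3_al.Sandwich

/-! Kostrikin's theorem: Engel Lie algebras of small index are locally nilpotent. -/

namespace Pool.Agent.P.MP_1307d3_al.Kos

open NilSet

variable {k : Type*} [Field k]

theorem TF.of_field {n : ℕ} (hk : ∀ m : ℕ, 0 < m → m ≤ n → (m : k) ≠ 0) (V : Type*)
    [AddCommGroup V] [Module k V] : TF n V := fun m h1 h2 a ha => by
  rw [← Nat.cast_smul_eq_nsmul k] at ha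
  exact (smul_eq_zero.1 ha).resolve_left (hk m h1 h2)

section chain
variable {M : Type*} [LieRing M] [LieAlgebra k M]

variable (k) in
/-- The ascending annihilator chain of a set. -/
def Ann (X : Set M) : ℕ → Submodule k M
  | 0 => ⊥
  | j + 1 => { carrier := {m | ∀ s ∈ X, ⁅m, s⁆ ∈ Ann X j}
               add_mem' := fun ha hb s hs => by rw [add_lie]; exact add_mem (ha s hs) (hb s hs)
               zero_mem' := fun s _ => by rw [zero_lie]; exact zero_mem _
               smul_mem' := fun c a ha s hs => by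
                 rw [smul_lie]; exact Submodule.smul_mem _ _ (ha s hs) }

theorem mem_Ann {X : Set M} {j : ℕ} {m : M} : m ∈ Ann k X (j + 1) ↔ ∀ s ∈ X, ⁅m, s⁆ ∈ Ann k X j :=
  Iff.rfl

theorem Ann_mono (X : Set M) : ∀ j, Ann k X j ≤ Ann k X (j + 1)
  | 0 => bot_le
  | j + 1 => fun _ hm s hs => Ann_mono X j (hm s hs)

theorem Ann_of_words (X : Set M) : ∀ (j : ℕ) (m : M), (∀ w : List M, (∀ h ∈ w, h ∈ X) →
    w.length = j → w.foldl (fun a b => ⁅a, b⁆) m = 0) → m ∈ Ann k X j
  | 0, m, h => h [] (by simp) rfl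
  | j + 1, m, h => fun s hs => Ann_of_words X j _ fun w hw hl =>
      h (s :: w) (by simpa [hs] using hw) (by simp [hl])

variable (k) in
/-- Elements lowering the annihilator chain. -/
def Low (X : Set M) : Submodule k M where
  carrier := {m | ∀ j, ∀ v ∈ Ann k X (j + 1), ⁅v, m⁆ ∈ Ann k X j}
  add_mem' := fun ha hb j v hv => by rw [lie_add]; exact add_mem (ha j v hv) (hb j v hv)
  zero_mem' := fun j v _ => by rw [lie_zero]; exact zero_mem _
  smul_mem' := fun c a ha j v hv => by rw [lie_smul]; exact Submodule.smul_mem _ _ (ha j v hv)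

theorem Low_lie {X : Set M} {a b : M} (ha : a ∈ Low k X) (hb : b ∈ Low k X) : ⁅a, b⁆ ∈ Low k X := by
  intro j v hv
  rw [leibniz_lie, ← lie_skew a]
  exact add_mem (hb j _ (Ann_mono X j (ha j v hv)))
    (neg_mem (ha j _ (Ann_mono X j (hb j v hv))))

end chain

variable {L A : Type*} [LieRing L] [LieAlgebra k L] [Ring A] [Algebra k A]

/-- Kostrikin's theorem in module form. -/
theorem locNil_of_engel [Infinite k] {n : ℕ} (hk : ∀ m : ℕ, 0 < m → m ≤ n → (m : k) ≠ 0)
    (hE : ∀ a : L, ad a ^ n = 0) (ρ : L →ₗ[k] A) (hρ : ∀ a b, ρ ⁅a, b⁆ = ρ a * ρ b - ρ b * ρ a)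
    (hn : ∀ a, IsNilpotent (ρ a)) : LocNil (Set.range ρ) := by
  classical
  obtain ⟨U₀, -, ⟨⟨U, rfl⟩, hU⟩, hmax⟩ := zorn_subset_nonempty
    {U : Set L | (∃ I : LieIdeal k L, (I : Set L) = U) ∧ LocNil (ρ '' U)} (by
      intro c hc hch ⟨V, hV⟩
      refine ⟨⋃₀ c, ⟨⟨⟨⟨⟨⟨⋃₀ c, ?_⟩, ?_⟩, ?_⟩, ?_⟩, rfl⟩, ?_⟩,
        fun s hs => Set.subset_sUnion_of_mem hs⟩
      · rintro a b ⟨s, hs, ha⟩ ⟨t, ht, hb⟩
        obtain ⟨⟨I, rfl⟩, -⟩ := hc hs
        obtain ⟨⟨J, rfl⟩, -⟩ := hc ht
        rcases hch.total hs ht with h | h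
        · exact ⟨_, ht, add_mem (h ha) hb⟩
        · exact ⟨_, hs, add_mem ha (h hb)⟩
      · obtain ⟨⟨I, rfl⟩, -⟩ := hc hV
        exact ⟨_, hV, zero_mem I⟩
      · rintro r a ⟨s, hs, ha⟩
        obtain ⟨⟨I, rfl⟩, -⟩ := hc hs
        exact ⟨_, hs, SMulMemClass.smul_mem r ha⟩
      · rintro x a ⟨s, hs, ha⟩
        obtain ⟨⟨I, rfl⟩, -⟩ := hc hs
        exact ⟨_, hs, I.lie_mem ha⟩
      · have : ∀ Y : Set A, Y.Finite → Y ⊆ ρ '' ⋃₀ c → ∃ s ∈ c, Y ⊆ ρ '' s := by
          intro Y hY
          induction Y, hY using Set.Finite.induction_on with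
          | empty => exact fun _ => ⟨V, hV, Set.empty_subset _⟩
          | @insert y Y _ _ ih =>
            intro h
            obtain ⟨s, hs, h1⟩ := ih ((Set.subset_insert _ _).trans h)
            obtain ⟨a, ⟨t, ht, ha⟩, rfl⟩ := h (Set.mem_insert _ _)
            rcases hch.total hs ht with q | q
            · exact ⟨t, ht, Set.insert_subset ⟨a, ha, rfl⟩ (h1.trans (Set.image_mono q))⟩
            · exact ⟨s, hs, Set.insert_subset ⟨a, q ha, rfl⟩ h1⟩
        intro Y hY h
        obtain ⟨s, hs, h1⟩ := this Y hY h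
        exact (hc hs).2 Y hY h1)
    ((⊥ : LieIdeal k L) : Set L) ⟨⟨⊥, rfl⟩, fun Y _ h => ⟨1, fun l hl h1 => by
      obtain ⟨a, ha⟩ := List.exists_mem_of_length_pos (show 0 < l.length by omega)
      obtain ⟨b, hb, rfl⟩ := h (hl a ha)
      rw [(LieSubmodule.mem_bot b).1 hb, map_zero] at ha
      exact List.prod_eq_zero ha⟩⟩
  by_cases hall : ∀ x, x ∈ U
  · exact hU.mono (by rintro _ ⟨x, rfl⟩; exact ⟨x, hall x, rfl⟩)
  exfalso
  push Not at hall
  obtain ⟨x, hx⟩ := hall
  let π : L →ₗ[k] L ⧸ U := U.toSubmodule.mkQ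
  have πl : ∀ a b, π ⁅a, b⁆ = ⁅π a, π b⁆ := fun _ _ => rfl
  have π0 : ∀ a, π a = 0 ↔ a ∈ U := fun a => LieSubmodule.Quotient.mk_eq_zero'
  have πs : Function.Surjective π := Submodule.mkQ_surjective _
  have hE' : ∀ a : L ⧸ U, ad a ^ n = 0 := fun a => LinearMap.ext fun b => by
    obtain ⟨a, rfl⟩ := πs a
    obtain ⟨b, rfl⟩ := πs b
    have : ∀ j : ℕ, (ad (π a) ^ j) (π b) = π ((ad a ^ j) b) := by
      intro j
      induction j with
      | zero => rfl
      | succ j ih => rw [pow_succ', pow_succ', Module.End.mul_apply, Module.End.mul_apply, ih]; rfl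
    rw [this, hE]; simp
  obtain ⟨S, ⟨c, hc, c0⟩, hS, hI⟩ := exists_sandwich_ideal (k := k) (TF.of_field hk _) hE'
    (x := π x) (by rwa [Ne, π0])
  let U' : LieIdeal k L :=
    { (Submodule.span k S).comap π with
      lie_mem := fun {a b} hb => by
        change π ⁅a, b⁆ ∈ Submodule.span k S
        rw [πl]
        change π b ∈ Submodule.span k S at hb
        generalize π b = y at hb
        induction hb using Submodule.span_induction with
        | mem y hy => exact hI _ y hy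
        | zero => simp
        | add y z _ _ hy hz => rw [lie_add]; exact add_mem hy hz
        | smul r y _ hy => rw [lie_smul]; exact Submodule.smul_mem _ _ hy }
  have hle : (U : Set L) ⊆ U' := fun a ha => by
    change π a ∈ Submodule.span k S
    rw [(π0 a).2 ha]; exact zero_mem _
  obtain ⟨c, rfl⟩ := πs c
  refine c0 ((π0 c).2 (hmax ⟨⟨U', rfl⟩, ?_⟩ hle (Submodule.subset_span hc)))
  intro Y hY hs
  have h1 : ∀ y ∈ Y, ∃ a, ρ a = y ∧ ∃ T : Finset (L ⧸ U), ↑T ⊆ S ∧
      π a ∈ Submodule.span k (T : Set (L ⧸ U)) := fun y hy => by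
    obtain ⟨a, ha, rfl⟩ := hs hy
    exact ⟨a, rfl, Submodule.mem_span_finite_of_mem_span ha⟩
  choose! f hf T hT hfT using h1
  let X : Finset (L ⧸ U) := hY.toFinset.biUnion T
  have hX : ∀ s ∈ X, s ∈ S := fun s hs => by
    obtain ⟨y, hy, h⟩ := Finset.mem_biUnion.1 hs
    exact hT y (hY.mem_toFinset.1 hy) h
  obtain ⟨N, hN⟩ := Sandwich.ad_nil X.card
  have hN' := hN (L ⧸ U) X le_rfl
    (fun s hs x => by rw [← lie_skew x s, neg_lie, ← lie_skew, (hS s (hX s hs)).1]; simp)
    (fun s hs x y => by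
      rw [← lie_skew x s, neg_lie, neg_lie, ← lie_skew, ← lie_skew _ y, lie_neg,
        (hS s (hX s hs)).2]; simp)
  let W : ℕ → Submodule k A := fun j =>
    ((Low k (X : Set (L ⧸ U)) ⊓ Ann k (X : Set (L ⧸ U)) j).comap π).map ρ
  have hW : ∀ j, LocNil (W j : Set A) := by
    intro j
    induction j with
    | zero =>
      refine hU.mono ?_
      rintro _ ⟨a, ha, rfl⟩
      exact ⟨a, (π0 a).1 ha.2, rfl⟩
    | succ j ih =>
      refine ih.ext (Submodule.map_mono (Submodule.comap_mono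
        (inf_le_inf_left _ (Ann_mono _ j)))) ?_ ?_
      · rintro _ ⟨a, -, rfl⟩; exact hn a
      · rintro _ ⟨a, ha, rfl⟩ _ ⟨b, hb, rfl⟩
        exact ⟨⁅a, b⁆, ⟨Low_lie ha.1 hb.1, hb.1 j _ ha.2⟩, hρ a b⟩
  refine hW N Y hY fun y hy => ⟨f y, ⟨?_, ?_⟩, hf y hy⟩
  · refine Submodule.span_le.2 (fun s hs j v hv => hv s ?_) (hfT y hy)
    exact Finset.mem_biUnion.2 ⟨y, hY.mem_toFinset.2 hy, hs⟩
  · exact Ann_of_words _ N _ fun w hw hl => hN' w hw hl.ge _

theorem cast_choose_sub_one {R : Type*} [Ring R] {p : ℕ} (hp : p.Prime) (h0 : (p : R) = 0) :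
    ∀ i, i < p → (((p - 1).choose i : ℕ) : R) = (-1) ^ i := by
  intro i
  induction i with
  | zero => simp
  | succ i ih =>
    intro hi
    obtain ⟨c, hc⟩ := hp.dvd_choose_self (Nat.succ_ne_zero i) hi
    have e : p.choose (i + 1) = (p - 1).choose i + (p - 1).choose (i + 1) := by
      rw [← Nat.choose_succ_succ', Nat.sub_add_cancel hp.pos]
    have : (((p - 1).choose i : ℕ) : R) + ((p - 1).choose (i + 1) : ℕ) = 0 := by
      rw [← Nat.cast_add, ← e, hc, Nat.cast_mul, h0, zero_mul]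
    rw [pow_succ, ← ih (by omega), mul_neg_one, eq_neg_iff_add_eq_zero, add_comm, this]

theorem sub_pow_sub_one {R : Type*} [Ring R] {p : ℕ} (hp : p.Prime) (h0 : (p : R) = 0) {x y : R}
    (h : Commute x y) : (x - y) ^ (p - 1)
      = (-1) ^ (p - 1) * ∑ i ∈ Finset.range p, x ^ i * y ^ (p - 1 - i) := by
  rw [sub_eq_add_neg, h.neg_right.add_pow, Nat.sub_add_cancel hp.pos, Finset.mul_sum]
  refine Finset.sum_congr rfl fun i hi => ?_
  have hi := Finset.mem_range.1 hi
  rw [cast_choose_sub_one hp h0 i hi, neg_pow y]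
  have : (-1 : R) ^ (p - 1) = (-1) ^ (p - 1 - i) * (-1) ^ i := by
    rw [← pow_add]; congr 1; omega
  rw [this, ← mul_assoc, ← ((Commute.neg_one_left _).pow_left _).eq,
    ← ((Commute.neg_one_left _).pow_left (p - 1 - i)).eq, ← mul_assoc, ← mul_assoc, ← mul_assoc,
    (((Commute.neg_one_left _).pow_left i).eq : (-1 : R) ^ i * (-1) ^ (p - 1 - i) = _)]

theorem lin_pow (u v : A) (n : ℕ) : ∃ h ∈ Pol k A, ∀ t : k, (u + t • v) ^ n
    = u ^ n + t • (∑ i ∈ Finset.range n, u ^ i * v * u ^ (n - 1 - i)) + t • t • h t := by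
  induction n with
  | zero => exact ⟨0, zero_mem _, by simp⟩
  | succ n ih =>
    obtain ⟨h, hh, e⟩ := ih
    set s := ∑ i ∈ Finset.range n, u ^ i * v * u ^ (n - 1 - i) with hs
    refine ⟨(fun _ => s * v) + fun t => h t * (u + t • v), add_mem (Pol.const _)
      (Pol.bilin (LinearMap.mul k A) hh (add_mem (Pol.const u) (Pol.mulX (Pol.const v)))),
      fun t => ?_⟩
    have : ∑ i ∈ Finset.range (n + 1), u ^ i * v * u ^ (n + 1 - 1 - i) = s * u + u ^ n * v := by
      rw [Finset.sum_range_succ, hs, Finset.sum_mul]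
      congr 1
      · refine Finset.sum_congr rfl fun i hi => ?_
        have := Finset.mem_range.1 hi
        rw [mul_assoc _ _ u, ← pow_succ]; congr 2; omega
      · simp
    rw [this, pow_succ, e, pow_succ]
    simp only [add_mul, mul_add, smul_mul_assoc, mul_smul_comm, smul_add, Pi.add_apply]
    abel

attribute [local instance 100] LieRing.ofAssociativeRing

/-- A Lie subalgebra of an associative algebra of characteristic `p` whose elements satisfy
`u ^ p = 0` satisfies the Engel condition of index `p - 1`. -/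
theorem engel_of_pow [Infinite k] {p : ℕ} (hp : p.Prime) (h0 : (p : k) = 0)
    (L : LieSubalgebra k A) (hL : ∀ u ∈ L, u ^ p = 0) (a : L) : ad a ^ (p - 1) = 0 := by
  ext b
  let l : Module.End k A := LinearMap.mulLeft k (a : A)
  let r : Module.End k A := LinearMap.mulRight k (a : A)
  have e : ∀ j : ℕ, (((ad a ^ j) b : L) : A) = ((l - r) ^ j) b := by
    intro j
    induction j with
    | zero => rfl
    | succ j ih =>
      rw [pow_succ', pow_succ', Module.End.mul_apply, Module.End.mul_apply, ← ih]; rfl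
  rw [e, sub_pow_sub_one hp (by rw [← map_natCast (algebraMap k _), h0, map_zero])
    (LinearMap.commute_mulLeft_right _ _), Module.End.mul_apply]
  obtain ⟨h, hh, e⟩ := lin_pow (k := k) (a : A) b p
  have := mem_of_curve ⊥ hh fun t => by
    rw [← e, hL _ (add_mem a.2 (L.smul_mem t b.2))]; exact zero_mem _
  rw [Submodule.mem_bot] at this
  have e2 : (∑ i ∈ Finset.range p, l ^ i * r ^ (p - 1 - i)) (b : A) = 0 := by
    rw [← this, LinearMap.sum_apply]
    refine Finset.sum_congr rfl fun i _ => ?_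
    simp [l, r, LinearMap.pow_mulLeft, LinearMap.pow_mulRight, mul_assoc]
  rw [e2]; simp

/-- Kostrikin's theorem for Lie subalgebras of associative algebras. -/
theorem locNil_of_pow [Infinite k] {p : ℕ} (hp : p.Prime) (h0 : (p : k) = 0)
    (L : LieSubalgebra k A) (hL : ∀ u ∈ L, u ^ p = 0) : LocNil (L : Set A) := by
  have hk : ∀ m : ℕ, 0 < m → m ≤ p - 1 → (m : k) ≠ 0 := fun m h1 h2 => by
    have := (CharP.charP_iff_prime_eq_zero hp).2 h0
    rw [Ne, CharP.cast_eq_zero_iff k p]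
    exact Nat.not_dvd_of_pos_of_lt h1 (by have := hp.pos; omega)
  have := locNil_of_engel hk (engel_of_pow hp h0 L hL) L.toSubmodule.subtype (fun _ _ => rfl)
    fun a => ⟨p, hL _ a.2⟩
  exact this.mono fun a ha => ⟨⟨a, ha⟩, rfl⟩

/-- A finitely generated Engel Lie algebra of small index is nilpotent. -/
theorem isNilpotent_of_engel [Infinite k] {n : ℕ} (hk : ∀ m : ℕ, 0 < m → m ≤ n → (m : k) ≠ 0)
    (hE : ∀ a : L, LieAlgebra.ad k L a ^ n = 0) (s : Set L) (hs : s.Finite)
    (ht : LieSubalgebra.lieSpan k L s = ⊤) : LieRing.IsNilpotent L := by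
  have e : ∀ (j : ℕ) (a b : L), (ad a ^ j) b = (LieAlgebra.ad k L a ^ j) b := by
    intro j a b
    induction j with
    | zero => rfl
    | succ j ih => rw [pow_succ', pow_succ', Module.End.mul_apply, Module.End.mul_apply, ih]; rfl
  obtain ⟨N, hN⟩ := locNil_of_engel hk (fun a => LinearMap.ext fun b => by rw [e, hE]; rfl)
    (LieAlgebra.ad k L).toLinearMap (fun a b => (LieAlgebra.ad k L).map_lie a b)
    (fun a => ⟨n, hE a⟩) (LieAlgebra.ad k L '' s) (hs.image _)
    (by rintro _ ⟨a, -, rfl⟩; exact ⟨a, rfl⟩)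
  have h1 : ∀ (j : ℕ) (m : L), (∀ w : List L, (∀ h ∈ w, h ∈ s) → w.length = j →
      (w.map (LieAlgebra.ad k L)).prod m = 0) → m ∈ Ann k s j := by
    intro j
    induction j with
    | zero => intro m h; exact h [] (by simp) rfl
    | succ j ih =>
      intro m h a ha
      refine ih _ fun w hw hl => ?_
      have := h (w ++ [a]) (by
        intro b hb
        rcases List.mem_append.1 hb with q | q
        · exact hw b q
        · rw [List.mem_singleton.1 q]; exact ha) (by simp [hl])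
      rw [← lie_skew, map_neg, neg_eq_zero]
      simpa using this
  have h2 : ∀ m : L, m ∈ Ann k s N := fun m => h1 N m fun w hw hl => by
    rw [hN _ (by
      intro a ha
      obtain ⟨b, hb, rfl⟩ := List.mem_map.1 ha
      exact ⟨b, hw b hb, rfl⟩) (by simp [hl])]; rfl
  have h3 : ∀ m : L, m ∈ Low k s := fun m => by
    have hm : m ∈ LieSubalgebra.lieSpan k L s := ht ▸ LieSubalgebra.mem_top m
    induction hm using LieSubalgebra.lieSpan_induction with
    | mem x hx => exact fun j v hv => hv x hx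
    | zero => exact zero_mem _
    | add x y _ _ hx hy => exact add_mem hx hy
    | smul c x _ hx => exact Submodule.smul_mem _ _ hx
    | lie x y _ _ hx hy => exact Low_lie hx hy
  have h4 : ∀ i j, i + j = N → ∀ m ∈ LieModule.lowerCentralSeries k L L i, m ∈ Ann k s j := by
    intro i
    induction i with
    | zero => intro j hj m _; rw [show j = N by omega]; exact h2 m
    | succ i ih =>
      intro j hj m hm
      rw [LieModule.lowerCentralSeries_succ, ← LieSubmodule.mem_toSubmodule,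
        LieSubmodule.lieIdeal_oper_eq_linear_span'] at hm
      refine Submodule.span_le.2 ?_ hm
      rintro _ ⟨x, -, y, hy, rfl⟩
      rw [← lie_skew]
      exact neg_mem (h3 x j y (ih (j + 1) (by omega) y hy))
  exact (LieModule.isNilpotent_iff k L L).2 ⟨N, eq_bot_iff.2 fun m hm => h4 N 0 rfl m hm⟩

end Pool.Agent.P.MP_1307d3_al.Kos
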