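import Pool.Agent.P.MP_1307d3_al.Fil

/-! Bracket monomials in sandwiches; the basic counting lemmas. -/

namespace Pool.Agent.P.MP_1307d3_al.Thick

open Classical

variable {L : Type*} [LieRing L]

/-- A spanning, bracket-closed, locally nilpotent set of sandwiches without a thick member. -/
structure Ctx (S : Set L) : Prop where
  sq : ∀ s ∈ S, ∀ x : L, ⁅⁅x, s⁆, s⁆ = 0
  sw : ∀ s ∈ S, ∀ x y : L, ⁅⁅⁅x, s⁆, y⁆, s⁆ = 0
  cl : ∀ a ∈ S, ∀ b ∈ S, ⁅a, b⁆ ∈ S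
  span : ∀ x : L, x ∈ AddSubgroup.closure S
  nil : ∀ X : Finset L, (↑X : Set L) ⊆ S → ∃ N : ℕ, ∀ w : List L, (∀ h ∈ w, h ∈ X) →
    w.length = N → ∀ x : L, w.foldl (fun a b => ⁅a, b⁆) x = 0
  thin : ∀ z ∈ S, G z 4 z → z = 0

/-- Bracket trees in tagged letters with values in `S`, with their weight. -/
inductive Mon (S : Set L) : Multiset (L × ℕ) → L → Prop
  | of (l : L × ℕ) (h : l.1 ∈ S) : Mon S {l} l.1
  | lie {m m' : Multiset (L × ℕ)} {a b : L} : Mon S m a → Mon S m' b → Mon S (m + m') ⁅a, b⁆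

variable {S : Set L}

theorem Mon.mem (C : Ctx S) {m : Multiset (L × ℕ)} {z : L} (h : Mon S m z) : z ∈ S := by
  induction h with
  | of l h => exact h
  | lie _ _ ha hb => exact C.cl _ ha _ hb

theorem Mon.letter {m : Multiset (L × ℕ)} {z : L} (h : Mon S m z) : ∀ l ∈ m, l.1 ∈ S := by
  induction h with
  | of l h => intro k hk; rw [Multiset.mem_singleton.1 hk]; exact h
  | lie _ _ ha hb => intro k hk; rcases Multiset.mem_add.1 hk with e | e; exacts [ha k e, hb k e]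

theorem Mon.card_pos {m : Multiset (L × ℕ)} {z : L} (h : Mon S m z) : 1 ≤ m.card := by
  induction h with
  | of l h => simp
  | lie _ _ ha hb => rw [Multiset.card_add]; omega

theorem Mon.cast {m m' : Multiset (L × ℕ)} {z : L} (h : Mon S m z) (e : m = m') : Mon S m' z :=
  e ▸ h

omit [LieRing L] in
theorem exists_fresh (u : L) (m : Multiset (L × ℕ)) : ∃ N : ℕ, (u, N) ∉ m := by
  obtain ⟨N, hN⟩ := Infinite.exists_notMem_finset (m.map Prod.snd).toFinset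
  exact ⟨N, fun h => hN (Multiset.mem_toFinset.2 (Multiset.mem_map.2 ⟨_, h, rfl⟩))⟩

theorem Mon.count {m : Multiset (L × ℕ)} {y v : L} (h : Mon S m y)
    (hc : ∀ l ∈ m, ⁅l.1, v⁆ = 0) : G v (1 + m.countP (fun l => G v 2 l.1)) y := by
  induction h with
  | of l h =>
    by_cases e : G v 2 l.1
    · rw [← Multiset.cons_zero, Multiset.countP_cons]; simp [e]
    · rw [← Multiset.cons_zero, Multiset.countP_cons]
      simpa [e] using G_one.2 (hc l (by simp))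
  | lie _ _ ha hb =>
    refine G_lie _ (ha fun l e => hc l (Multiset.mem_add.2 (.inl e)))
      (hb fun l e => hc l (Multiset.mem_add.2 (.inr e))) ?_
    rw [Multiset.countP_add]; omega

theorem Mon.one {m : Multiset (L × ℕ)} {y v : L} (h : Mon S m y) {x : L × ℕ} {j : ℕ}
    (hx : G v j x.1) (hm : x ∈ m) : ∀ k, k + m.card ≤ j + 1 → G v k y := by
  induction h with
  | of l h =>
    intro k hk; rw [Multiset.mem_singleton.1 hm] at hx
    exact G_mono (by simp at hk; omega) hx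
  | @lie m m' a b ha hb iha ihb =>
    intro k hk
    rw [Multiset.card_add] at hk
    have h1 := ha.card_pos
    have h2 := hb.card_pos
    rcases Multiset.mem_add.1 hm with e | e
    · exact G_lie k (iha e (k + m'.card) (by omega)) (G_zero v b) (by omega)
    · exact G_lie k (G_zero v a) (ihb e (k + m.card) (by omega)) (by omega)

theorem Ctx.self3 (C : Ctx S) {s : L} (hs : s ∈ S) : G s 3 s := by
  refine ⟨lie_self s, fun a => ⟨?_, fun b => ⟨?_, fun _ => trivial⟩⟩⟩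
  · rw [← lie_skew s a, neg_lie, C.sq s hs, neg_zero]
  · rw [← lie_skew s a, neg_lie, neg_lie, C.sw s hs, neg_zero]

theorem Ctx.small (C : Ctx S) {m : Multiset (L × ℕ)} {z : L} (h : Mon S m z) (x : L × ℕ) :
    2 ≤ m.count x → m.card ≤ 4 → z = 0 := by
  induction h with
  | of l h => intro h2 _; have := Multiset.count_le_card x {l}; simp at this; omega
  | @lie m m' a b ha hb iha ihb =>
    intro h2 h4
    rw [Multiset.card_add] at h4
    rw [Multiset.count_add] at h2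
    have h1 := ha.card_pos
    have h1' := hb.card_pos
    by_cases e : 2 ≤ m.count x
    · rw [iha e (by omega), zero_lie]
    by_cases e' : 2 ≤ m'.count x
    · rw [ihb e' (by omega), lie_zero]
    have xm : x ∈ m := Multiset.count_pos.1 (by omega)
    have xm' : x ∈ m' := Multiset.count_pos.1 (by omega)
    have s3 := C.self3 (ha.letter x xm)
    have t1 : G x.1 (4 - m'.card) b := hb.one s3 xm' _ (by omega)
    exact G_one.1 (ha.one (G_symm t1) xm 1 (by omega))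

theorem Ctx.kill_of_eq (C : Ctx S) {y : L} (hy : y ∈ S) (x : L) : G ⁅x, y⁆ 2 y := by
  refine ⟨?_, fun a => ⟨?_, fun _ => trivial⟩⟩
  · rw [← lie_skew, C.sq y hy, neg_zero]
  · rw [leibniz_lie, ← lie_skew y a, neg_lie, neg_lie, neg_lie, C.sw y hy, C.sq y hy]; simp

theorem Ctx.exists_ne (C : Ctx S) (f : L →+ L) {x : L} (h : f x ≠ 0) : ∃ u ∈ S, f u ≠ 0 := by
  by_contra hc
  push Not at hc
  apply h
  have : AddSubgroup.closure S ≤ f.ker := (AddSubgroup.closure_le _).2 fun u hu => hc u hu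
  exact this (C.span x)

/-- Right multiplication as an additive map. -/
def rm (y : L) : L →+ L where
  toFun a := ⁅a, y⁆
  map_zero' := zero_lie y
  map_add' a b := add_lie a b y

theorem Ctx.not_kill (C : Ctx S) {v y : L} (h0 : ⁅y, v⁆ = 0) (h : ¬ G v 2 y) :
    ∃ u ∈ S, ⁅⁅u, y⁆, v⁆ ≠ 0 := by
  have : ∃ a : L, ⁅⁅a, y⁆, v⁆ ≠ 0 := by
    by_contra hc
    push Not at hc
    exact h ⟨h0, fun a => G_one.2 (by rw [← lie_skew y a, neg_lie, hc, neg_zero])⟩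
  obtain ⟨a, ha⟩ := this
  exact C.exists_ne ((rm v).comp (rm y)) ha

theorem kill_op {v y : L} (h : G v 2 y) (a : L) : ⁅y, ⁅a, v⁆⁆ = 0 := by
  rw [leibniz_lie, h.1, (h.2 a).1, lie_zero, add_zero]

theorem swap_of_comm {y z : L} (h : ⁅y, z⁆ = 0) (n : L) : ⁅⁅n, y⁆, z⁆ = ⁅⁅n, z⁆, y⁆ := by
  rw [jac n y z, h, lie_zero, add_zero]

theorem Ctx.aut (C : Ctx S) {n : L} (hn : n ∈ S) (y z : L) : ⁅n, ⁅⁅n, y⁆, z⁆⁆ = 0 := by
  rw [← lie_skew, ← lie_skew n y, neg_lie, neg_lie, C.sw n hn]; simp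

theorem Ctx.kill_mid (C : Ctx S) {y z : L} (hy : y ∈ S) (h : ⁅y, z⁆ = 0) (n : L) :
    G ⁅⁅n, y⁆, z⁆ 2 y := by
  rw [swap_of_comm h]; exact C.kill_of_eq hy _

theorem Ctx.th2 (C : Ctx S) {n y z : L} (hn : n ∈ S) (hy : y ∈ S) (hz : z ∈ S) (h : ⁅y, z⁆ = 0)
    (h3 : G ⁅⁅n, y⁆, z⁆ 3 z) : ⁅⁅n, y⁆, z⁆ = 0 := by
  apply C.thin _ (C.cl _ (C.cl _ hn _ hy) _ hz)
  exact G_lie 4 (G_lie 2 (G_one.2 (C.aut hn y z)) (C.kill_mid hy h n) (by omega)) h3 (by omega)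

theorem Ctx.th (C : Ctx S) {m : Multiset (L × ℕ)} {z : L} (h : Mon S m z) (hz : z ≠ 0)
    (hc : ∀ l ∈ m, ⁅l.1, z⁆ = 0) : m.countP (fun l => G z 2 l.1) ≤ 2 := by
  by_contra e
  exact hz (C.thin z (h.mem C) (G_mono (by omega) (h.count hc)))

theorem count_le_countP {α : Type*} [DecidableEq α] {p : α → Prop} [DecidablePred p]
    {m : Multiset α} {x : α} (hx : p x) :
    m.count x ≤ m.countP p := by
  induction m using Multiset.induction_on with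
  | empty => simp
  | cons a m ih =>
    rw [Multiset.count_cons, Multiset.countP_cons]
    by_cases e : x = a
    · subst e; simp [hx]; exact ih
    · simp [e]; omega

theorem count_add_le_countP {α : Type*} [DecidableEq α] {p : α → Prop} [DecidablePred p]
    {m : Multiset α} {x y : α} (hx : p x)
    (hy : p y) (hxy : x ≠ y) : m.count x + m.count y ≤ m.countP p := by
  induction m using Multiset.induction_on with
  | empty => simp
  | cons a m ih =>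
    rw [Multiset.count_cons, Multiset.count_cons, Multiset.countP_cons]
    by_cases e : x = a
    · subst e; simp [hx, hxy.symm]; omega
    · by_cases e' : y = a
      · subst e'; simp [hy, e]; omega
      · simp [e, e']; omega

theorem Ctx.m2 (C : Ctx S) {m : Multiset (L × ℕ)} {z n : L} (h : Mon S m z) (hn : n ∈ S)
    {y : L × ℕ} (hy : y.1 ∈ S) (hyz : ⁅y.1, z⁆ = 0) (hv : ⁅⁅n, y.1⁆, z⁆ ≠ 0)
    (hc : ∀ l ∈ m, ⁅l.1, ⁅⁅n, y.1⁆, z⁆⁆ = 0) : m.count y ≤ 1 := by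
  by_contra e
  apply hv
  apply C.th2 hn hy (h.mem C) hyz
  refine G_mono ?_ (h.count hc)
  have := count_le_countP (p := fun l : L × ℕ => G ⁅⁅n, y.1⁆, z⁆ 2 l.1) (m := m)
    (C.kill_mid hy hyz n)
  omega

theorem Ctx.ext (C : Ctx S) (X : Finset (L × ℕ)) (hX : ∀ l ∈ X, l.1 ∈ S) (p Q : L → Prop)
    (hp : ¬ p 0) (hQ : ∀ y, Q y → ∀ l ∈ X, Q ⁅y, l.1⁆) (x : L) (qx : Q x) (px : p x) :
    ∃ y, Q y ∧ p y ∧ ∀ l ∈ X, ¬ p ⁅y, l.1⁆ := by
  by_contra hc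
  push Not at hc
  obtain ⟨N, hN⟩ := C.nil (X.image Prod.fst) (fun a ha => by
    obtain ⟨l, hl, rfl⟩ := Finset.mem_image.1 (Finset.mem_coe.1 ha); exact hX l hl)
  have key : ∀ k : ℕ, ∃ w : List L, (∀ h ∈ w, h ∈ X.image Prod.fst) ∧ w.length = k ∧
      Q (w.foldl (fun a b => ⁅a, b⁆) x) ∧ p (w.foldl (fun a b => ⁅a, b⁆) x) := by
    intro k
    induction k with
    | zero => exact ⟨[], by simp, rfl, qx, px⟩
    | succ k ih =>
      obtain ⟨w, h1, h2, h3, h4⟩ := ih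
      obtain ⟨l, hl, h5⟩ := hc _ h3 h4
      refine ⟨w ++ [l.1], ?_, by simp [h2], ?_, ?_⟩
      · intro h hh
        rcases List.mem_append.1 hh with e | e
        · exact h1 h e
        · rw [List.mem_singleton.1 e]; exact Finset.mem_image_of_mem _ hl
      · rw [List.foldl_append]; exact hQ _ h3 l hl
      · rw [List.foldl_append]; exact h5
  obtain ⟨w, h1, h2, _, h4⟩ := key N
  rw [hN w h1 h2] at h4
  exact hp h4

theorem Ctx.extz (C : Ctx S) {z : L} (X : Finset (L × ℕ)) (hX : ∀ l ∈ X, l.1 ∈ S)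
    (hz : ∀ l ∈ X, ⁅l.1, z⁆ = 0) (Q : L → Prop)
    (hQ : ∀ y, Q y → ∀ l ∈ X, Q ⁅y, l.1⁆) (x : L) (qx : Q x) (px : ⁅x, z⁆ ≠ 0) :
    ∃ y, Q y ∧ ⁅y, z⁆ ≠ 0 ∧ ∀ l ∈ X, ⁅l.1, ⁅y, z⁆⁆ = 0 := by
  obtain ⟨y, h1, h2, h3⟩ := C.ext X hX (fun y => ⁅y, z⁆ ≠ 0) Q (by simp) hQ x qx px
  refine ⟨y, h1, h2, fun l hl => ?_⟩
  have := not_not.1 (h3 l hl)
  rw [leibniz_lie, hz l hl, lie_zero, add_zero, ← lie_skew l.1 y, neg_lie, this, neg_zero]

theorem Ctx.extz' (C : Ctx S) {z : L} (X : Finset (L × ℕ)) (hX : ∀ l ∈ X, l.1 ∈ S)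
    (hz : ∀ l ∈ X, ⁅l.1, z⁆ = 0) {y : L × ℕ} (hy : y ∈ X) (hk : ¬ G z 2 y.1) :
    ∃ n ∈ S, ∃ l ∈ X, ⁅⁅n, l.1⁆, z⁆ ≠ 0 ∧ ∀ k ∈ X, ⁅k.1, ⁅⁅n, l.1⁆, z⁆⁆ = 0 := by
  obtain ⟨u, hu, h⟩ := C.not_kill (hz y hy) hk
  obtain ⟨_, ⟨n, hn, l, hl, rfl⟩, h2, h3⟩ := C.extz X hX hz
    (fun a => ∃ n ∈ S, ∃ l ∈ X, a = ⁅n, l.1⁆)
    (fun a ⟨n, hn, l, hl, e⟩ k hk => ⟨a, e ▸ C.cl _ hn _ (hX l hl), k, hk, rfl⟩)
    _ ⟨u, hu, y, hy, rfl⟩ h
  exact ⟨n, hn, l, hl, h2, h3⟩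

theorem Ctx.extm (C : Ctx S) {m : Multiset (L × ℕ)} {z : L} (h : Mon S m z) (hz : z ≠ 0)
    (X : Finset (L × ℕ)) (hX : ∀ l ∈ X, l ∈ m) :
    ∃ w z', Mon S (m + w) z' ∧ z' ≠ 0 ∧ (∀ l ∈ w, l ∈ X) ∧ ∀ l ∈ X, ⁅l.1, z'⁆ = 0 := by
  obtain ⟨y, ⟨w, h1, h2⟩, h3, h4⟩ := C.ext X (fun l hl => h.letter l (hX l hl)) (fun y => y ≠ 0)
    (fun y => ∃ w, Mon S (m + w) y ∧ ∀ l ∈ w, l ∈ X) (by simp)
    (fun y ⟨w, h1, h2⟩ l hl => ⟨w + {l},
      (h1.lie (Mon.of l (h.letter l (hX l hl)))).cast (add_assoc _ _ _), fun k hk => by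
        rcases Multiset.mem_add.1 hk with e | e
        · exact h2 k e
        · rw [Multiset.mem_singleton.1 e]; exact hl⟩)
    z ⟨0, h.cast (add_zero _).symm, by simp⟩ hz
  exact ⟨w, y, h1, h3, h2, fun l hl => by rw [← lie_skew, not_not.1 (h4 l hl), neg_zero]⟩

end Pool.Agent.P.MP_1307d3_al.Thick
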