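import Pool.Agent.P.MP_1307d3_al.Jac
import Pool.Agent.P.MP_1307d3_al.Jordan

/-! The Lie ring spanned by quadratic elements: nil exponent and a square-zero ideal. -/

namespace Pool.Agent.P.MP_1307d3_al.Thick

open Finset Polynomial

theorem vander' {N : Type*} [AddCommGroup N] {p : ℕ} [Fact p.Prime] [Module (ZMod p) N]
    (c : ℕ → N) (hc : ∀ t : ℕ, ∑ k ∈ range p, t ^ k • c k = 0) : ∀ k < p, c k = 0 := by
  intro k hk
  refine (Module.forall_dual_apply_eq_zero_iff (ZMod p) (c k)).1 fun φ => ?_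
  let f : (ZMod p)[X] := ∑ j ∈ range p, monomial j (φ (c j))
  have hf : f = 0 := by
    refine eq_zero_of_natDegree_lt_card_of_eval_eq_zero' f univ (fun t _ => ?_) ?_
    · obtain ⟨t, rfl⟩ := ZMod.natCast_zmod_surjective t
      have := congrArg φ (hc t)
      rw [map_sum, map_zero] at this
      rw [← this, eval_finsetSum]
      refine sum_congr rfl fun j _ => ?_
      rw [eval_monomial, map_nsmul, nsmul_eq_mul, Nat.cast_pow, mul_comm]
    · rw [card_univ, ZMod.card]
      refine lt_of_le_of_lt (natDegree_sum_le_of_forall_le _ _ (n := p - 1) fun j hj =>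
        (natDegree_monomial_le _).trans (by simp at hj; omega)) (by omega)
  have := congrArg (coeff · k) hf
  simpa [f, coeff_monomial, hk] using this

theorem vander {N : Type*} [AddCommGroup N] {p : ℕ} (hp : p.Prime) (h : ∀ x : N, p • x = 0)
    (c : ℕ → N) (hc : ∀ t : ℕ, ∑ k ∈ range p, t ^ k • c k = 0) : ∀ k < p, c k = 0 :=
  have := Fact.mk hp
  @vander' N _ p _ (AddCommGroup.zmodModule h) c hc

theorem pow_expand {B : Type*} [Ring B] (a b : B) (n : ℕ) : ∃ c : ℕ → B, (∀ k, n < k → c k = 0) ∧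
    ∀ s : B, (∀ y, Commute s y) → (a + s * b) ^ n = ∑ k ∈ range (n + 1), s ^ k * c k := by
  induction n with
  | zero => exact ⟨fun k => if k = 0 then 1 else 0, fun k hk => if_neg (by omega), by simp⟩
  | succ n ih =>
    obtain ⟨c, h1, h2⟩ := ih
    refine ⟨fun k => c k * a + (if k = 0 then 0 else c (k - 1) * b), fun k hk => ?_, fun s hs => ?_⟩
    · beta_reduce
      rw [h1 k (by omega), if_neg (by omega), h1 _ (by omega)]; simp
    · simp only [mul_add, sum_add_distrib]
      rw [pow_succ, h2 s hs, sum_range_succ _ (n + 1), h1 (n + 1) (by omega),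
        sum_range_succ' (fun k => s ^ k * if k = 0 then 0 else c (k - 1) * b)]
      simp only [sum_mul, mul_assoc, Nat.add_one_ne_zero, if_false, if_true, Nat.add_sub_cancel,
        zero_mul, mul_zero, add_zero]
      rw [← sum_add_distrib]
      refine sum_congr rfl fun k _ => ?_
      rw [mul_add, mul_add, pow_succ, mul_assoc, ← mul_assoc (c k), ← (hs (c k)).eq, mul_assoc]

theorem pow_central {B : Type*} [Ring B] {p : ℕ} (hp : p.Prime) (h : (p : B) = 0) (a b : B)
    (h0 : ∀ t : ℕ, (a + t * b) ^ (p - 1) = 0) (s : B) (hs : ∀ y, Commute s y) :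
    (a + s * b) ^ (p - 1) = 0 := by
  obtain ⟨c, _, h2⟩ := pow_expand a b (p - 1)
  rw [show p - 1 + 1 = p by have := hp.pos; omega] at h2
  have := vander hp (fun x => by rw [nsmul_eq_mul, h, zero_mul]) c fun t => by
    rw [← h0 t, h2 t (Nat.cast_commute t)]
    exact sum_congr rfl fun k _ => by rw [nsmul_eq_mul, Nat.cast_pow]
  rw [h2 s hs]
  exact sum_eq_zero fun k hk => by rw [this k (mem_range.1 hk), mul_zero]

variable {G A : Type*} [Group G] [Ring A] (ρ : G →* A)

/-- The elements `ρ g - 1` of square zero. -/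
def QS : Set A := {x | x * x = 0 ∧ ∃ g, ρ g = 1 + x}

variable {ρ}

theorem quad_pow {x : A} {g : G} (hx : x * x = 0) (hg : ρ g = 1 + x) (t : ℕ) :
    ρ (g ^ t) = 1 + t * x := by
  induction t with
  | zero => simp
  | succ t ih =>
    rw [pow_succ, map_mul, ih, hg, Nat.cast_succ]
    simp only [add_mul, mul_add, mul_assoc, hx, mul_one, one_mul, mul_zero, add_zero]; abel

theorem quad_inv {x : A} {g : G} (hx : x * x = 0) (hg : ρ g = 1 + x) : ρ g⁻¹ = 1 + -x := by
  have h1 : ρ g * (1 + -x) = 1 := by rw [hg]; noncomm_ring [hx]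
  calc ρ g⁻¹ = ρ g⁻¹ * (ρ g * (1 + -x)) := by rw [h1, mul_one]
    _ = _ := by rw [← mul_assoc, ← map_mul, inv_mul_cancel, map_one, one_mul]

theorem QS.neg {x : A} (h : x ∈ QS ρ) : -x ∈ QS ρ := by
  obtain ⟨h1, g, h2⟩ := h
  exact ⟨by rw [neg_mul_neg, h1], g⁻¹, quad_inv h1 h2⟩

theorem QS.conj (a : G) {x : A} (h : x ∈ QS ρ) : ρ a⁻¹ * x * ρ a ∈ QS ρ := by
  obtain ⟨h1, g, h2⟩ := h
  have e : ρ a * ρ a⁻¹ = 1 := by rw [← map_mul, mul_inv_cancel, map_one]
  have e' : ρ a⁻¹ * ρ a = 1 := by rw [← map_mul, inv_mul_cancel, map_one]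
  refine ⟨?_, a⁻¹ * g * a, by rw [map_mul, map_mul, h2, mul_add, add_mul, mul_one, e']⟩
  calc _ = ρ a⁻¹ * (x * (ρ a * ρ a⁻¹) * x) * ρ a := by simp only [mul_assoc]
    _ = 0 := by rw [e, mul_one, h1, mul_zero, zero_mul]

theorem span_conj (a : G) {u : A} (h : u ∈ AddSubgroup.closure (QS ρ)) :
    ρ a⁻¹ * u * ρ a ∈ AddSubgroup.closure (QS ρ) := by
  induction h using AddSubgroup.closure_induction with
  | mem x hx => exact AddSubgroup.subset_closure (QS.conj a hx)
  | zero => rw [mul_zero, zero_mul]; exact zero_mem _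
  | add x y _ _ hx hy => rw [mul_add, add_mul]; exact add_mem hx hy
  | neg x _ hx => rw [mul_neg, neg_mul]; exact neg_mem hx

theorem span_nil {p : ℕ} (hp : p.Prime) (h : (p : A) = 0) (hρ : ∀ g, (ρ g - 1) ^ (p - 1) = 0)
    {u : A} (hu : u ∈ AddSubgroup.closure (QS ρ)) : u ^ (p - 1) = 0 := by
  have step : ∀ u x, x ∈ QS ρ →
      (∃ v : A[X], v.coeff 0 = u ∧ ∀ g, ((1 + X * v) * C (ρ g) - 1) ^ (p - 1) = 0) →
      ∃ v : A[X], v.coeff 0 = u + x ∧ ∀ g, ((1 + X * v) * C (ρ g) - 1) ^ (p - 1) = 0 := by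
    rintro u x ⟨h1, a, h2⟩ ⟨v, hv, hg⟩
    refine ⟨v + (1 + X * v) * C x, by simp [hv], fun g => ?_⟩
    have := pow_central hp (B := A[X]) (by rw [← C_eq_natCast, h, C_0])
      ((1 + X * v) * C (ρ g) - 1) ((1 + X * v) * C x * C (ρ g)) (fun t => by
        rw [← hg (a ^ t * g), map_mul, quad_pow h1 h2, C_mul, C_add, C_mul, C_1, C_eq_natCast]
        congr 1
        generalize 1 + X * v = w
        rw [add_mul 1, one_mul, mul_add, mul_assoc (t : A[X]), ← mul_assoc _ (t : A[X]),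
          ← (Nat.cast_commute t w).eq]
        noncomm_ring) X fun y => commute_X y |>.symm.symm
    rw [← this]; congr 1; noncomm_ring
  have : ∃ v : A[X], v.coeff 0 = u ∧ ∀ g, ((1 + X * v) * C (ρ g) - 1) ^ (p - 1) = 0 := by
    induction hu using AddSubgroup.closure_induction_right with
    | zero => exact ⟨0, rfl, fun g => by
        rw [mul_zero, add_zero, one_mul, ← C_1, ← C_sub, ← C_pow, hρ, C_0]⟩
    | add_right x _ y hy ih => exact step _ _ hy ih
    | add_neg_cancel x _ y hy ih => exact step _ _ (QS.neg hy) ih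
  obtain ⟨v, hv, hg⟩ := this
  have := hg 1
  rw [map_one, C_1, mul_one, add_sub_cancel_left, (commute_X v).mul_pow] at this
  have := congrArg (coeff · (0 + (p - 1))) this
  simp only [coeff_X_pow_mul, coeff_zero] at this
  rw [← hv, ← this, ← constantCoeff_apply, ← constantCoeff_apply, map_pow]

theorem half_mem {N : Type*} [AddCommGroup N] {p : ℕ} (hp : Odd p) (K : AddSubgroup N) {w : N}
    (h0 : p • w = 0) (h : w + w ∈ K) : w ∈ K := by
  obtain ⟨k, rfl⟩ := hp
  have := nsmul_mem h (k + 1)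
  rwa [← two_nsmul, ← mul_nsmul', show (k + 1) * 2 = 2 * k + 1 + 1 by ring, succ_nsmul, h0,
    zero_add] at this

theorem conj_sub {x : A} {g : G} (hx : x * x = 0) (hg : ρ g = 1 + x) (u : A) :
    ρ g⁻¹ * u * ρ g - ρ g⁻¹⁻¹ * u * ρ g⁻¹ = (u * x - x * u) + (u * x - x * u) := by
  rw [inv_inv, quad_inv hx hg, hg]; noncomm_ring

theorem span_lie {p : ℕ} (hp : Odd p) (h : (p : A) = 0) {u w : A}
    (hu : u ∈ AddSubgroup.closure (QS ρ)) (hw : w ∈ AddSubgroup.closure (QS ρ)) :
    u * w - w * u ∈ AddSubgroup.closure (QS ρ) := by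
  induction hw using AddSubgroup.closure_induction with
  | mem x hx =>
    obtain ⟨h1, g, h2⟩ := hx
    refine half_mem hp _ (by rw [nsmul_eq_mul, h, zero_mul]) ?_
    rw [← conj_sub h1 h2]
    exact sub_mem (span_conj g hu) (span_conj g⁻¹ hu)
  | zero => simp
  | add x y _ _ hx hy => convert add_mem hx hy using 1; noncomm_ring
  | neg x _ hx => convert neg_mem hx using 1; noncomm_ring

attribute [local instance 100] LieRing.ofAssociativeRing

theorem ad_pow_br {L : Type*} [LieRing L] (x : L) (n : ℕ) (y : L) :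
    (Kos.ad (-x) ^ n) y = br y (List.replicate n x) := by
  induction n generalizing y with
  | zero => rfl
  | succ n ih => rw [pow_succ, Module.End.mul_apply, ih, Kos.ad_apply, neg_lie, lie_skew]; rfl

theorem exists_abelian_span {p : ℕ} (hp : p.Prime) (ho : Odd p) (h : (p : A) = 0)
    (hρ : ∀ g, (ρ g - 1) ^ (p - 1) = 0) {x : A} (hx : x ∈ QS ρ) (x0 : x ≠ 0) :
    ∃ E : Set A, (∃ e ∈ E, e ≠ 0) ∧ (∀ e ∈ E, e ∈ AddSubgroup.closure (QS ρ)) ∧
      (∀ e ∈ E, ∀ y ∈ QS ρ, e * y - y * e ∈ E) ∧ ∀ e ∈ E, ∀ f ∈ E, e * f = f * e := by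
  let K : LieSubalgebra ℤ A := { (AddSubgroup.closure (QS ρ)).toIntSubmodule with
    lie_mem' := fun ha hb => span_lie ho h ha hb }
  have hK : ∀ a b : K, ((⁅a, b⁆ : K) : A) = a * b - b * a := fun _ _ => rfl
  have pK : ∀ a : K, p • a = 0 := fun a => Subtype.ext (by
    change p • (a : A) = 0; rw [nsmul_eq_mul, h, zero_mul])
  have E : Engel K (p - 1) := jacobson hp h K.toSubmodule.subtype.toAddMonoidHom
    Subtype.val_injective hK fun a => span_nil hp h hρ a.2
  have tf : ∀ a : K, (p - 1).factorial • a = 0 → a = 0 := fun a ha =>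
    fact_cancel hp (by have := hp.pos; omega) (pK a) ha
  have inv : Inv K := by
    intro T hT t ht a
    let φ : G → K ≃+ K := fun g =>
      { toFun u := ⟨ρ g⁻¹ * u * ρ g, span_conj g u.2⟩
        invFun u := ⟨ρ g⁻¹⁻¹ * u * ρ g⁻¹, span_conj g⁻¹ u.2⟩
        left_inv u := Subtype.ext (by
          simp only [← mul_assoc, ← map_mul, inv_inv, mul_inv_cancel, map_one, one_mul]
          rw [mul_assoc, ← map_mul, mul_inv_cancel, map_one, mul_one])
        right_inv u := Subtype.ext (by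
          simp only [← mul_assoc, ← map_mul, inv_inv, inv_mul_cancel, map_one, one_mul]
          rw [mul_assoc, ← map_mul, inv_mul_cancel, map_one, mul_one])
        map_add' u v := Subtype.ext (by simp [mul_add, add_mul]) }
    have hφ : ∀ g a b, φ g ⁅a, b⁆ = ⁅φ g a, φ g b⁆ := fun g a b => Subtype.ext (by
      have e : ∀ y, ρ g * (ρ g⁻¹ * y) = y := fun y => by
        rw [← mul_assoc, ← map_mul, mul_inv_cancel, map_one, one_mul]
      change ρ g⁻¹ * (a * b - b * a) * ρ g = ρ g⁻¹ * a * ρ g * (ρ g⁻¹ * b * ρ g) -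
        ρ g⁻¹ * b * ρ g * (ρ g⁻¹ * a * ρ g)
      simp only [mul_sub, sub_mul, mul_assoc, e])
    obtain ⟨a, ha⟩ := a
    induction ha using AddSubgroup.closure_induction with
    | mem y hy =>
      obtain ⟨h1, g, h2⟩ := hy
      refine half_mem ho _ (pK _) ?_
      have := sub_mem (AddSubgroup.subset_closure (hT (φ g) (hφ g) t ht))
        (AddSubgroup.subset_closure (hT (φ g⁻¹) (hφ g⁻¹) t ht))
      convert this using 1
      exact Subtype.ext (conj_sub h1 h2 t).symm
    | zero => exact (lie_zero (M := K) t).symm ▸ zero_mem _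
    | add y z hy hz a b => exact (lie_add (M := K) t ⟨y, hy⟩ ⟨z, hz⟩).symm ▸ add_mem a b
    | neg y hy a => exact (lie_neg (M := K) t ⟨y, hy⟩).symm ▸ neg_mem a
  obtain ⟨c, c0, c1, c2⟩ := Kos.exists_sandwich (L := K) (n := p - 1) (fun m m0 mp a ha => by
      obtain ⟨k, hk⟩ := Nat.dvd_factorial m0 mp
      exact tf a (by rw [hk, mul_nsmul, ha, nsmul_zero])) (fun a => by
      ext1 y
      rw [← neg_neg a, ad_pow_br]
      apply tf
      have := E (fun _ => -a) y
      simpa [Fintype.card_perm] using this)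
    (x := ⟨x, AddSubgroup.subset_closure hx⟩) fun e => x0 (congrArg Subtype.val e)
  have hc : Sw c := ⟨fun y => by rw [← lie_skew, ← lie_skew y c, lie_neg, c1]; simp, fun y a => by
    rw [← lie_skew, ← lie_skew _ a, ← lie_skew y c, lie_neg, lie_neg, lie_neg, c2]; simp⟩
  obtain ⟨z, z0, hz⟩ := exists_abelian E tf inv hc c0
  refine ⟨{e | ∃ w : List K, e = (br z w : K)}, ⟨z, ⟨[], rfl⟩, fun e => z0 (Subtype.ext e)⟩, ?_, ?_, ?_⟩
  · rintro _ ⟨w, rfl⟩; exact (br z w).2
  · rintro _ ⟨w, rfl⟩ y hy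
    exact ⟨w ++ [⟨y, AddSubgroup.subset_closure hy⟩], by rw [br, br, List.foldl_append]; rfl⟩
  · rintro _ ⟨w, rfl⟩ _ ⟨w', rfl⟩
    rw [← sub_eq_zero, ← hK, abelian_of_inf hz]; rfl

end Pool.Agent.P.MP_1307d3_al.Thick
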