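import Pool.Agent.P.MP_1307d3_al.End

/-! Long commutators with entries from a soluble subgroup kill abelian normal subgroups. -/

namespace Pool.Agent.P.MP_1307d3_al.Sol

open End
open scoped commutatorElement

section basic
variable {Q Q' : Type*} [Group Q] [Group Q']

/-- The derived series of a subgroup, inside the ambient group. -/
def der (D : Subgroup Q) : ℕ → Subgroup Q
  | 0 => D
  | n + 1 => ⁅der D n, der D n⁆

theorem der_map (D : Subgroup Q) (f : Q →* Q') (n : ℕ) : (der D n).map f = der (D.map f) n := by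
  induction n with
  | zero => rfl
  | succ n ih => simp only [der, Subgroup.map_commutator, ih]

theorem der_mono {D E : Subgroup Q} (h : D ≤ E) (n : ℕ) : der D n ≤ der E n := by
  induction n with
  | zero => exact h
  | succ n ih => exact Subgroup.commutator_mono ih ih

theorem der_top (n : ℕ) : der (⊤ : Subgroup Q) n = derivedSeries Q n := by
  induction n with
  | zero => rfl
  | succ n ih => simp only [der, ih, derivedSeries_succ]

instance der_normal (n : ℕ) : (der (⊤ : Subgroup Q) n).Normal :=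
  der_top (Q := Q) n ▸ derivedSeries_normal Q n

theorem exists_der (A : Subgroup Q) [h : Group.IsSolvable A] : ∃ d, der A d = ⊥ := by
  obtain ⟨d, hd⟩ := h.solvable
  refine ⟨d, ?_⟩
  have := der_map (⊤ : Subgroup A) A.subtype d
  rwa [der_top, hd, Subgroup.map_bot, ← MonoidHom.range_eq_map, Subgroup.range_subtype,
    eq_comm] at this

theorem lift_list (f : Q →* Q') (K : Subgroup Q) (l : List Q') (h : ∀ x ∈ l, x ∈ K.map f) :
    ∃ l' : List Q, l'.map f = l ∧ ∀ x ∈ l', x ∈ K := by
  induction l with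
  | nil => exact ⟨[], rfl, by simp⟩
  | cons a l ih =>
    obtain ⟨l', rfl, h1⟩ := ih fun x hx => h x (List.mem_cons_of_mem _ hx)
    obtain ⟨b, hb, rfl⟩ := h a List.mem_cons_self
    exact ⟨b :: l', rfl, List.forall_mem_cons.2 ⟨hb, h1⟩⟩

theorem nest_normal (V : Subgroup Q) [hV : V.Normal] (l : List Q) {v : Q} (hv : v ∈ V) :
    nest l v ∈ V := by
  induction l with
  | nil => exact hv
  | cons a l ih =>
    rw [nest, commutatorElement_def, mul_assoc, mul_assoc, ← mul_assoc a]
    exact V.mul_mem ih (hV.conj_mem _ (V.inv_mem ih) a)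

theorem exp_quot {p : ℕ} (hQ : ∀ g : Q, g ^ p = 1) (V : Subgroup Q) [V.Normal] (g : Q ⧸ V) :
    g ^ p = 1 := by
  obtain ⟨g, rfl⟩ := QuotientGroup.mk'_surjective V g
  rw [← map_pow, hQ, map_one]

/-- `p - 1` elements of a subgroup that acts through an abelian group kill. -/
theorem nest_comm {p : ℕ} (hp : p.Prime) (hQ : ∀ g : Q, g ^ p = 1) (V : Subgroup Q)
    [V.Normal] (hV : ∀ a ∈ V, ∀ b ∈ V, a * b = b * a) (K : Subgroup Q)
    (hc : ⁅K, K⁆ ≤ Subgroup.centralizer V) (ds : List Q) (hl : ds.length = p - 1)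
    (hd : ∀ a ∈ ds, a ∈ K) {v : Q} (hv : v ∈ V) : nest ds v = 1 := by
  let _ : CommGroup V :=
    { (inferInstance : Group V) with mul_comm := fun a b => Subtype.ext (hV a a.2 b b.2) }
  let φ : Q →* Module.End ℤ (Additive V) :=
    { toFun := fun g =>
        (MonoidHom.toAdditive (MulAut.conjNormal (H := V) g).toMonoidHom).toIntLinearMap
      map_one' := by ext x; simp
      map_mul' := fun g h => by ext x; simp }
  have hφ : ∀ g (x : V), ((Additive.toMul (φ g (Additive.ofMul x)) : V) : Q) = g * x * g⁻¹ :=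
    fun g x => rfl
  have h0 : (p : Module.End ℤ (Additive V)) = 0 := by
    ext x
    have : (Additive.toMul x) ^ p = 1 := Subtype.ext (by simpa using hQ (Additive.toMul x : V))
    simp only [Module.End.natCast_apply, LinearMap.zero_apply, toMul_zero, toMul_nsmul, this]
  have hsum : ∀ (g : Q) (x : V) (n : ℕ),
      ((Additive.toMul ((∑ i ∈ Finset.range n, φ g ^ i) (Additive.ofMul x)) : V) : Q) * g ^ n =
        ((x : Q) * g) ^ n := by
    intro g x n
    induction n with
    | zero => simp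
    | succ n ih =>
      rw [Finset.sum_range_succ, LinearMap.add_apply, toMul_add, Subgroup.coe_mul, ← map_pow, hφ,
        pow_succ ((x : Q) * g), ← ih]
      group
  have hU : ∀ g : Q, (φ g - 1) ^ (p - 1) = 0 := by
    intro g
    rw [sub_one_pow hp h0]
    ext x
    have := hsum g (Additive.toMul x) p
    rw [hQ, hQ, mul_one] at this
    simpa using this
  have hz := omega_ring hp h0 (K.toSubmonoid.map φ) (by
      rintro _ ⟨a, ha, rfl⟩ _ ⟨b, hb, rfl⟩
      have h1 : φ ⁅a, b⁆ = 1 := by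
        ext x
        have h2 := hc (Subgroup.commutator_mem_commutator ha hb) _ (Additive.toMul x).2
        have h3 := hφ ⁅a, b⁆ (Additive.toMul x)
        rw [← h2, mul_inv_cancel_right, ofMul_toMul] at h3
        exact h3
      have h4 : a * b = ⁅a, b⁆ * (b * a) := by
        rw [commutatorElement_def]
        group
      rw [← map_mul, ← map_mul, h4, map_mul, h1, one_mul]) (by
      rintro _ ⟨a, -, rfl⟩
      exact hU a) (ds.map φ) (by simpa using hl) (by
      intro t ht
      obtain ⟨a, ha, rfl⟩ := List.mem_map.1 ht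
      exact ⟨a, hd a ha, rfl⟩)
  have hn : ∀ l : List Q, nest l v =
      ((Additive.toMul (((((l.map φ).map (· - 1)).map Neg.neg).prod :
        Module.End ℤ (Additive V)) (Additive.ofMul ⟨v, hv⟩)) : V) : Q) := by
    intro l
    induction l with
    | nil => rfl
    | cons a l ih =>
      simp only [List.map_cons, List.prod_cons, Module.End.mul_apply, nest]
      rw [ih]
      generalize ((((l.map φ).map (· - 1)).map Neg.neg).prod : Module.End ℤ (Additive V))
        (Additive.ofMul ⟨v, hv⟩) = x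
      rw [neg_sub, LinearMap.sub_apply, toMul_sub, Subgroup.coe_div]
      have := hφ a (Additive.toMul x)
      rw [ofMul_toMul] at this
      rw [this, commutatorElement_def, div_eq_mul_inv]
      simp [mul_assoc]
  rw [hn, List.prod_map_neg, hz]
  simp

theorem comm_map {V : Subgroup Q} (hV : ∀ a ∈ V, ∀ b ∈ V, a * b = b * a) (f : Q →* Q') :
    ∀ a ∈ V.map f, ∀ b ∈ V.map f, a * b = b * a := by
  rintro _ ⟨a, ha, rfl⟩ _ ⟨b, hb, rfl⟩
  rw [← map_mul, ← map_mul, hV a ha b hb]

end basic

/-- The claim for the derived length `d`. -/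
def Kill (p d : ℕ) : Prop :=
  ∀ (Q : Type) [Group Q], (∀ g : Q, g ^ p = 1) → ∀ V : Subgroup Q, V.Normal →
    (∀ a ∈ V, ∀ b ∈ V, a * b = b * a) → der ⊤ d ≤ Subgroup.centralizer (V : Set Q) →
    ∀ ds : List Q, (p - 1) ^ d ≤ ds.length → ∀ v ∈ V, nest ds v = 1

theorem kill_step {p d : ℕ} (h : Kill p d) : ∀ (j : ℕ) (Q : Type) [Group Q],
    (∀ g : Q, g ^ p = 1) → ∀ V : Subgroup Q, V.Normal → (∀ a ∈ V, ∀ b ∈ V, a * b = b * a) →
    (∀ ks : List Q, ks.length = j → (∀ k ∈ ks, k ∈ der (⊤ : Subgroup Q) d) → ∀ v ∈ V,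
      nest ks v = 1) →
    ∀ ds : List Q, j * (p - 1) ^ d ≤ ds.length → ∀ v ∈ V, nest ds v = 1 := by
  intro j
  induction j with
  | zero =>
    intro Q _ _ V _ _ hk ds _ v hv
    rw [show v = 1 from hk [] rfl (by simp) v hv, nest_one]
  | succ j ih =>
    intro Q _ hQ V hn hV hk ds hd v hv
    let U : Subgroup Q := V ⊓ Subgroup.centralizer (der (⊤ : Subgroup Q) d : Set Q)
    have hs := QuotientGroup.mk'_surjective U
    rw [add_mul, one_mul] at hd
    have h1 := ih (Q ⧸ U) (exp_quot hQ U) (V.map (QuotientGroup.mk' U)) (hn.map _ hs)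
      (comm_map hV _) (by
        rintro ks hl hks _ ⟨w, hw, rfl⟩
        rw [← Subgroup.map_top_of_surjective _ hs, ← der_map] at hks
        obtain ⟨ks, rfl, h2⟩ := lift_list _ _ ks hks
        rw [← map_nest, QuotientGroup.mk'_apply, QuotientGroup.eq_one_iff]
        refine ⟨nest_normal V ks hw, fun k hk' => ?_⟩
        exact (commutatorElement_eq_one_iff_mul_comm.1 (hk (k :: ks) (by simpa using hl)
          (List.forall_mem_cons.2 ⟨hk', h2⟩) w hw)).symm)
      ((ds.drop ((p - 1) ^ d)).map (QuotientGroup.mk' U)) (by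
        rw [List.length_map, List.length_drop]
        omega) _ ⟨v, hv, rfl⟩
    rw [← map_nest, QuotientGroup.mk'_apply, QuotientGroup.eq_one_iff] at h1
    rw [← List.take_append_drop ((p - 1) ^ d) ds, nest_append]
    refine h Q hQ U inferInstance (fun a ha b hb => hV a ha.1 b hb.1)
      (fun k hk' u hu => (hu.2 k hk').symm) _ ?_ _ h1
    rw [List.length_take]
    omega

theorem kill {p : ℕ} (hp : p.Prime) (d : ℕ) : Kill p d := by
  induction d with
  | zero =>
    intro Q _ _ V hn _ hc ds hd v hv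
    obtain _ | ⟨a, l⟩ := ds
    · simp at hd
    exact commutatorElement_eq_one_iff_mul_comm.2
      (hc (Subgroup.mem_top a) _ (nest_normal V l hv))
  | succ d ih =>
    intro Q _ hQ V hn hV hc ds hd v hv
    exact kill_step ih (p - 1) Q hQ V hn hV
      (fun ks hl hks w hw => nest_comm hp hQ V hV _ hc ks hl hks hw) ds
      (by rwa [pow_succ'] at hd) v hv

theorem nest_sol {p d : ℕ} (hp : p.Prime) {Q : Type} [Group Q] (hQ : ∀ g : Q, g ^ p = 1)
    (V : Subgroup Q) [V.Normal] (hV : ∀ a ∈ V, ∀ b ∈ V, a * b = b * a) (D : Subgroup Q)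
    (hD : der D d = ⊥) (ds : List Q) (hl : (p - 1) ^ d ≤ ds.length) (hd : ∀ a ∈ ds, a ∈ D)
    {v : Q} (hv : v ∈ V) : nest ds v = 1 := by
  have h0 : (⊤ : Subgroup ↥(V ⊔ D)).map (V ⊔ D).subtype = V ⊔ D := by
    rw [← MonoidHom.range_eq_map, Subgroup.range_subtype]
  obtain ⟨l, rfl, -⟩ := lift_list (V ⊔ D).subtype ⊤ ds fun a ha => by
    rw [h0]
    exact Subgroup.mem_sup_right (hd a ha)
  have h1 : der (V ⊔ D) d ≤ V := by
    have := der_map (V ⊔ D) (QuotientGroup.mk' V) d
    rwa [Subgroup.map_sup, (Subgroup.map_eq_bot_iff V).2 (QuotientGroup.ker_mk' V).ge, bot_sup_eq,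
      ← der_map D, hD, Subgroup.map_bot, Subgroup.map_eq_bot_iff, QuotientGroup.ker_mk'] at this
  have h2 := kill hp d ↥(V ⊔ D) (fun g => Subtype.ext (hQ g)) (V.subgroupOf _) inferInstance
    (fun a ha b hb => Subtype.ext (hV a ha b hb)) (fun k hk u hu => Subtype.ext
      (hV u hu k (h1 (((der_map ⊤ _ d).trans (congrArg (der · d) h0)).le ⟨k, hk, rfl⟩)))) l (by simpa using hl) ⟨v, Subgroup.mem_sup_left hv⟩ hv
  simpa [map_nest] using congrArg (V ⊔ D).subtype h2

theorem nest_list' {p d : ℕ} (hp : p.Prime) : ∀ (c : ℕ) (Q : Type) [Group Q],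
    (∀ g : Q, g ^ p = 1) → ∀ l : List Q, l.length = c → (∀ v ∈ l, Ab v) → ∀ D : Subgroup Q,
      der D d = ⊥ → ∀ ds : List Q, c * (p - 1) ^ d ≤ ds.length → (∀ a ∈ ds, a ∈ D) →
      nest ds l.prod = 1 := by
  intro c
  induction c with
  | zero =>
    intro Q _ _ l hl _ _ _ ds _ _
    rw [List.length_eq_zero_iff.1 hl, List.prod_nil, nest_one]
  | succ c ih =>
    intro Q _ hQ l hl hA D hD ds hd hc
    obtain _ | ⟨v, l⟩ := l
    · simp at hl
    obtain ⟨V, hn, hV, hv⟩ := hA v (by simp)
    rw [add_mul, one_mul] at hd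
    have h1 := ih (Q ⧸ V) (exp_quot hQ V) (l.map (QuotientGroup.mk' V)) (by simpa using hl) (by
        intro x hx
        obtain ⟨y, hy, rfl⟩ := List.mem_map.1 hx
        exact (hA y (by simp [hy])).map _ (QuotientGroup.mk'_surjective V))
      (D.map (QuotientGroup.mk' V)) (by rw [← der_map, hD, Subgroup.map_bot])
      ((ds.drop ((p - 1) ^ d)).map (QuotientGroup.mk' V)) (by
        rw [List.length_map, List.length_drop]
        omega) (by
        intro x hx'
        obtain ⟨x, hx, rfl⟩ := List.mem_map.1 hx'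
        exact ⟨x, hc x (List.mem_of_mem_drop hx), rfl⟩)
    have h2 : nest (ds.drop ((p - 1) ^ d)) (v :: l).prod ∈ V := by
      rw [← QuotientGroup.eq_one_iff, ← QuotientGroup.mk'_apply, map_nest, List.prod_cons, map_mul,
        map_list_prod, QuotientGroup.mk'_apply V v, (QuotientGroup.eq_one_iff v).2 hv, one_mul, h1]
    rw [← List.take_append_drop ((p - 1) ^ d) ds, nest_append]
    refine nest_sol hp hQ V hV D hD _ ?_ (fun a ha => hc a (List.mem_of_mem_take ha)) h2
    rw [List.length_take]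
    omega

theorem nest_mem' {p d : ℕ} (hp : p.Prime) {Q : Type} [Group Q] (hQ : ∀ g : Q, g ^ p = 1)
    (l : List Q) (hA : ∀ v ∈ l, Ab v) (ds : List Q) (hd : l.length * (p - 1) ^ d ≤ ds.length)
    (R : Subgroup Q) [R.Normal] (D : Subgroup Q) (hR : der D d ≤ R) (hD : ∀ a ∈ ds, a ∈ D) :
    nest ds l.prod ∈ R := by
  rw [← QuotientGroup.eq_one_iff, ← QuotientGroup.mk'_apply, map_nest, map_list_prod]
  refine nest_list' (d := d) hp l.length (Q ⧸ R) (exp_quot hQ R) _ (by simp) ?_
    (D.map (QuotientGroup.mk' R)) ?_ _ (by simpa using hd) ?_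
  · intro x hx
    obtain ⟨y, hy, rfl⟩ := List.mem_map.1 hx
    exact (hA y hy).map _ (QuotientGroup.mk'_surjective R)
  · rwa [← der_map, Subgroup.map_eq_bot_iff, QuotientGroup.ker_mk']
  · intro x hx'
    obtain ⟨x, hx, rfl⟩ := List.mem_map.1 hx'
    exact ⟨x, hD x hx, rfl⟩

end Pool.Agent.P.MP_1307d3_al.Sol
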