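import Pool.Agent.P.MP_1307d3_al.Sol1

/-! The end game for a soluble subgroup. -/

namespace Pool.Agent.P.MP_1307d3_al.Sol

open End
open scoped commutatorElement

/-- The chain of commutators coming from the conjugate cover, for an arbitrary subgroup. -/
theorem chain' {G : Type} [Group G] (A : Subgroup G)
    (hcov : ∀ x : G, ∃ g : G, ∃ a ∈ A, x = g⁻¹ * a * g) (S : Set G)
    (hS : ∀ g, ∀ s ∈ S, g * s * g⁻¹ ∈ S) (hP : ∀ g : G, ∃ s ∈ S, ∃ a ∈ A, g = s * a) :
    ∀ r : ℕ, ∀ h ∈ S, ∃ d : Fin r → G, (∀ i, d i ∈ A ∧ d i ∈ S) ∧ ∃ k ∈ S, ∃ a ∈ A,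
      h = nest (List.ofFn d) k * a := by
  intro r
  induction r with
  | zero => exact fun h hh => ⟨Fin.elim0, fun i => i.elim0, h, hh, 1, A.one_mem, by simp [nest]⟩
  | succ r ih =>
    intro h hh
    obtain ⟨g, a, ha, e⟩ := hcov h
    obtain ⟨k, hk, b, hb, e2⟩ := hP g⁻¹
    obtain ⟨d, hd, k', hk', a', ha', e4⟩ := ih k hk
    have ha2 : a' * b * a * (a' * b)⁻¹ ∈ A :=
      A.mul_mem (A.mul_mem (A.mul_mem ha' hb) ha) (A.inv_mem (A.mul_mem ha' hb))
    have e3 : h = nest (List.ofFn d) k' * (a' * b * a * (a' * b)⁻¹) * (nest (List.ofFn d) k')⁻¹ := by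
      have : g = b⁻¹ * k⁻¹ := by rw [← mul_inv_rev, ← e2, inv_inv]
      rw [e, e2, this, e4]
      group
    refine ⟨Fin.cons (a' * b * a * (a' * b)⁻¹) d, fun i => ?_, k', hk', _, ha2, ?_⟩
    · refine Fin.cases ⟨ha2, ?_⟩ (fun i => hd i) i
      have := hS (nest (List.ofFn d) k')⁻¹ h hh
      rw [e3] at this
      simpa [mul_assoc] using this
    · rw [List.ofFn_succ]
      simp only [Fin.cons_zero, Fin.cons_succ, nest]
      rw [e3, commutatorElement_def]
      group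

theorem endgame' {p d0 : ℕ} (hp : p.Prime) (hR : RBP p) (hT : T3 p) {G : Type} [Group G]
    (hG : LocFin G) (hE : ∀ g : G, g ^ p = 1) (A : Subgroup G)
    (hA : der A d0 = ⊥)
    (hcov : ∀ x : G, ∃ g : G, ∃ a ∈ A, x = g⁻¹ * a * g) : A = ⊤ := by
  classical
  by_contra hne
  let P : Set (Fr G) → Prop := fun W => ∀ g : G, ∃ w ∈ W, ∃ y, ∃ a ∈ A, g = ev y w * a
  let C : Set (Subgroup (Fr G)) :=
    {B | B.Characteristic ∧ ∀ W : Set (Fr G), W.Finite → W ⊆ B → ¬ P W}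
  have hbot : (⊥ : Subgroup (Fr G)) ∈ C := by
    refine ⟨inferInstance, fun W _ hW hP => hne ?_⟩
    rw [eq_top_iff]
    intro g _
    obtain ⟨w, hw, y, a, ha, rfl⟩ := hP g
    rw [Subgroup.mem_bot.1 (hW hw), map_one, one_mul]
    exact ha
  obtain ⟨B, -, hBmax⟩ := zorn_le_nonempty₀ C (fun c hc hch y hy => by
    have hdir : DirectedOn (· ≤ ·) c := hch.directedOn
    refine ⟨sSup c, ⟨?_, fun W hW hWs => ?_⟩, fun z hz => le_sSup hz⟩
    · rw [Subgroup.characteristic_iff_map_le]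
      rintro φ _ ⟨x, hx, rfl⟩
      obtain ⟨K, hK, hx⟩ := (Subgroup.mem_sSup_of_directedOn ⟨y, hy⟩ hdir).1 hx
      exact le_sSup hK (Subgroup.characteristic_iff_map_le.1 (hc hK).1 φ ⟨x, hx, rfl⟩)
    · have : ∃ K ∈ c, W ⊆ K := by
        induction W, hW using Set.Finite.induction_on with
        | empty => exact ⟨y, hy, Set.empty_subset _⟩
        | @insert w W _ _ ih =>
          obtain ⟨K, hK, hWK⟩ := ih fun _ h => hWs (Set.mem_insert_of_mem _ h)
          obtain ⟨K', hK', hw⟩ := (Subgroup.mem_sSup_of_directedOn ⟨y, hy⟩ hdir).1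
            (hWs (Set.mem_insert _ _))
          obtain ⟨K'', hK'', h1, h2⟩ := hdir K hK K' hK'
          exact ⟨K'', hK'', Set.insert_subset (h2 hw) fun _ h => h1 (hWK h)⟩
      obtain ⟨K, hK, hWK⟩ := this
      exact (hc hK).2 W hW hWK) ⊥ hbot
  obtain ⟨hBc, hBP⟩ := hBmax.1
  have hBt : B ≠ ⊤ := by
    rintro rfl
    refine hBP {⟨fun y => y 0, Subgroup.subset_closure ⟨0, rfl⟩⟩} (Set.finite_singleton _)
      (fun _ _ => trivial) fun g => ⟨_, rfl, fun _ => g, 1, A.one_mem, by simp [ev_apply]⟩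
  have hnt : Nontrivial (Fr G ⧸ B) := QuotientGroup.nontrivial_iff.2 hBt
  have hsurj := QuotientGroup.mk'_surjective B
  have hEq : ∀ g : Fr G ⧸ B, g ^ p = 1 := fun g => by
    obtain ⟨g, rfl⟩ := hsurj g
    have : g ^ p = 1 := Subtype.ext (funext fun y => hE _)
    rw [← map_pow, this, map_one]
  obtain ⟨N, V, hN, hVN, hV0, hVc, hVn⟩ :=
    hT (Fr G ⧸ B) ((locFin_Fr hp.pos hR hG hE).map _ hsurj) hEq
  let M0 : Subgroup N := Subgroup.closure {v | Ab v}
  have hM0 : M0.Characteristic := by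
    rw [Subgroup.characteristic_iff_map_le]
    intro φ
    rw [MonoidHom.map_closure]
    refine Subgroup.closure_mono ?_
    rintro _ ⟨v, hv, rfl⟩
    exact Ab.map hv φ.toMonoidHom φ.surjective
  have hM0l : ∀ x ∈ M0, ∃ l : List N, (∀ v ∈ l, Ab v) ∧ l.prod = x := by
    intro x hx
    induction hx using Subgroup.closure_induction'' with
    | mem v hv => exact ⟨[v], by simpa using hv, by simp⟩
    | inv_mem v hv =>
      obtain ⟨K, h1, h2, h3⟩ := hv
      exact ⟨[v⁻¹], by simpa using ⟨K, h1, h2, K.inv_mem h3⟩, by simp⟩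
    | one => exact ⟨[], by simp, rfl⟩
    | mul a b _ _ ha hb =>
      obtain ⟨l, hl, rfl⟩ := ha
      obtain ⟨l', hl', rfl⟩ := hb
      exact ⟨l ++ l', fun v hv => (List.mem_append.1 hv).elim (hl v) (hl' v), List.prod_append⟩
  let M : Subgroup (Fr G) := (M0.map N.subtype).comap (QuotientGroup.mk' B)
  have hMc : M.Characteristic := Subgroup.Characteristic.comap_quotient_mk inferInstance
  have hBM : B ≤ M := fun b hb => by
    change QuotientGroup.mk' B b ∈ M0.map N.subtype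
    rw [QuotientGroup.mk'_apply, (QuotientGroup.eq_one_iff b).2 hb]
    exact Subgroup.one_mem _
  have hMC : M ∉ C := fun h => by
    have hMB := hBmax.2 h hBM
    refine hV0 (eq_bot_iff.2 fun v hv => ?_)
    obtain ⟨f, rfl⟩ := hsurj v
    have : f ∈ M := ⟨⟨_, hVN hv⟩, Subgroup.subset_closure ⟨V.subgroupOf N,
      ⟨fun a ha n => hVn n n.2 a ha⟩, fun a ha b hb => Subtype.ext (hVc a ha b hb), hv⟩, rfl⟩
    exact (QuotientGroup.eq_one_iff f).2 (hMB this)
  have : ∃ W : Set (Fr G), W.Finite ∧ W ⊆ M ∧ P W := by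
    by_contra h
    exact hMC ⟨hMc, fun W h1 h2 h3 => h ⟨W, h1, h2, h3⟩⟩
  obtain ⟨W, hW, hWM, hPW⟩ := this
  have hWf : Finite W := hW.to_subtype
  -- uniform bounds
  have hl : ∀ w : W, ∃ l : List N, (∀ v ∈ l, Ab v) ∧
      ((l.prod : N) : Fr G ⧸ B) = QuotientGroup.mk' B w.1 := fun w => by
    obtain ⟨x, hx, e⟩ := hWM w.2
    obtain ⟨l, hl, rfl⟩ := hM0l x hx
    exact ⟨l, hl, e⟩
  choose l hl1 hl2 using hl
  obtain ⟨c, hc⟩ := (Set.finite_range fun w => (l w).length).bddAbove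
  choose m0 hm0 using fun w : W => exists_dep w.1
  obtain ⟨m, hm⟩ := (Set.finite_range m0).bddAbove
  have hdep : ∀ w : W, Dep m w.1 := fun w => (hm0 w).mono (hm ⟨w, rfl⟩)
  set r := c * (p - 1) ^ d0 with hr
  let D : (Fin r → W) → Fin r → Fr G := fun ws i => shift ((2 * m + 1) * ((i : ℕ) + 1 : ℤ)) (ws i).1
  have key : ∀ q : (Fin r → W) × W, ∃ b ∈ B, ∀ y : ℤ → G,
      (∀ i, ev y (D q.1 i) ∈ A) → ev y (nest (List.ofFn (D q.1)) q.2.1) = ev y b := by
    rintro ⟨ws, w⟩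
    let R : Subgroup (Fr G) :=
      Subgroup.normalClosure (der (Subgroup.closure (Set.range (D ws))) d0)
    have hDM : ∀ i, QuotientGroup.mk' B (D ws i) ∈ N := fun i => by
      have : D ws i ∈ M := Subgroup.characteristic_iff_map_le.1 hMc _ ⟨_, hWM (ws i).2, rfl⟩
      obtain ⟨x, -, e⟩ := this
      exact e ▸ x.2
    have hRn : (R.map (QuotientGroup.mk' B)).Normal := Subgroup.Normal.map inferInstance _ hsurj
    have h1 := nest_mem' (d := d0) hp (Q := N) (fun g => Subtype.ext (hEq g)) (l w) (hl1 w)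
      (List.ofFn fun i => ⟨_, hDM i⟩) (by
        rw [List.length_ofFn]
        exact Nat.mul_le_mul_right _ (hc ⟨w, rfl⟩))
      ((R.map (QuotientGroup.mk' B)).comap N.subtype)
      (((Subgroup.closure (Set.range (D ws))).map (QuotientGroup.mk' B)).comap N.subtype) (by
        rw [← Subgroup.map_le_iff_le_comap, der_map]
        refine (der_mono (Subgroup.map_comap_le _ _) d0).trans ?_
        rw [← der_map]
        exact Subgroup.map_mono Subgroup.le_normalClosure) (by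
        intro a ha
        obtain ⟨i, rfl⟩ := List.mem_ofFn.1 ha
        exact ⟨D ws i, Subgroup.subset_closure ⟨i, rfl⟩, rfl⟩)
    obtain ⟨ρ, hρ, e⟩ := h1
    rw [map_nest, Subgroup.subtype_apply, hl2, List.map_ofFn] at e
    have e2 : QuotientGroup.mk' B ρ = QuotientGroup.mk' B (nest (List.ofFn (D ws)) w.1) := by
      rw [e, map_nest, List.map_ofFn]
      rfl
    refine ⟨ρ⁻¹ * nest (List.ofFn (D ws)) w.1, QuotientGroup.eq.1 e2, fun y hy => ?_⟩
    have h2 : R ≤ (ev y).ker := Subgroup.normalClosure_le_normal (by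
      rw [SetLike.coe_subset_coe, ← Subgroup.map_eq_bot_iff, der_map, eq_bot_iff, ← hA]
      refine der_mono ?_ d0
      rw [Subgroup.map_le_iff_le_comap, Subgroup.closure_le]
      rintro _ ⟨i, rfl⟩
      exact hy i)
    rw [map_mul, map_inv, MonoidHom.mem_ker.1 (h2 hρ), inv_one, one_mul]
  choose b hb1 hb2 using key
  refine hBP (Set.range b) (Set.finite_range b) (by rintro _ ⟨q, rfl⟩; exact hb1 q) fun g => ?_
  let S : Set G := {s | ∃ w : W, ∃ y, s = ev y w.1}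
  have hPS : ∀ g : G, ∃ s ∈ S, ∃ a ∈ A, g = s * a := fun g => by
    obtain ⟨w, hw, y, a, ha, e⟩ := hPW g
    exact ⟨_, ⟨⟨w, hw⟩, y, rfl⟩, a, ha, e⟩
  obtain ⟨h, hh, a0, ha0, rfl⟩ := hPS g
  obtain ⟨d, hd, _, ⟨w, y0, rfl⟩, a, ha, rfl⟩ := chain' A hcov S (by
    rintro g _ ⟨w, y, rfl⟩
    exact ⟨w, _, ev_conj g y w.1⟩) hPS r h hh
  choose ws ys hys using fun i => (hd i).2
  obtain ⟨y, hy⟩ := exists_glue m fun t : ℤ =>
    if ht : 0 < t ∧ (t - 1).toNat < r then ys ⟨(t - 1).toNat, ht.2⟩ else y0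
  have e1 : ∀ i, ev y (D ws i) = d i := fun i => by
    have ht : (0 : ℤ) < (i : ℕ) + 1 ∧ (((i : ℕ) + 1 : ℤ) - 1).toNat < r := by
      have := i.2
      omega
    rw [hy _ _ (hdep (ws i)), dif_pos ht, hys i]
    congr 3
    simp
  have e2 : ev y w.1 = ev y0 w.1 := by
    have := hy 0 _ (hdep w)
    rw [dif_neg (by simp), ev_shift] at this
    simpa using this
  refine ⟨b (ws, w), ⟨_, rfl⟩, y, a * a0, A.mul_mem ha ha0, ?_⟩
  rw [← hb2 (ws, w) y (fun i => by rw [e1]; exact (hd i).1), map_nest, List.map_ofFn, e2, mul_assoc]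
  congr 3
  exact funext fun i => (e1 i).symm

end Pool.Agent.P.MP_1307d3_al.Sol
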