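import Pool.Agent.P.MP_1307d3_al.Sol2
import Pool.Agent.P.MP_1307d3_al.GT3
import Pool.Agent.P.MP_1307d3_al.GJor

/-! Reductions: locally graded groups, arbitrary universes. -/

namespace Pool.Agent.P.MP_1307d3_al.Sol

open End

/-- Locally graded groups. -/
def Lg (G : Type*) [Group G] : Prop :=
  ∀ H : Subgroup G, H.FG → H ≠ ⊥ → ∃ M : Subgroup H, M ≠ ⊤ ∧ M.FiniteIndex

theorem Lg.of_inj {G G' : Type*} [Group G] [Group G'] (h : Lg G) (f : G' →* G)
    (hf : Function.Injective f) : Lg G' := by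
  intro H h1 h2
  have h3 : (H.map f).FG := by
    obtain ⟨s, rfl⟩ := h1
    rw [MonoidHom.map_closure]
    exact (Subgroup.fg_iff _).2 ⟨_, rfl, s.finite_toSet.image f⟩
  obtain ⟨M, h4, h5⟩ := h _ h3 (by rwa [Ne, Subgroup.map_eq_bot_iff_of_injective _ hf])
  have e := (H.equivMapOfInjective f hf).surjective
  refine ⟨M.comap (H.equivMapOfInjective f hf).toMonoidHom, fun h6 => h4 ?_,
    ⟨by rw [M.index_comap_of_surjective e]; exact h5.1⟩⟩
  rw [eq_top_iff]
  intro x _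
  obtain ⟨y, rfl⟩ := e x
  exact h6.ge (Subgroup.mem_top y)

theorem Lg.finite {p : ℕ} (hp : p.Prime) {H : Type} [Group H] [hH : Group.FG H] (h : Lg H)
    (hE : ∀ g : H, g ^ p = 1) : Finite H := by
  obtain ⟨s, hs, hs'⟩ := (Group.fg_iff (G := H)).1 hH
  obtain ⟨d, x, -, rfl⟩ := hs'.fin_param
  obtain ⟨c, hc⟩ := rbp hp d
  have h1 : ∀ M : Subgroup H, ∀ _ : M.Normal,
      ((⊤ : Subgroup H).lowerCentralSeries c).map (QuotientGroup.mk' M) =
        (⊤ : Subgroup (H ⧸ M)).lowerCentralSeries c := fun M _ => by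
    rw [Subgroup.map_lowerCentralSeries,
      Subgroup.map_top_of_surjective _ (QuotientGroup.mk'_surjective M)]
  set Γ := (⊤ : Subgroup H).lowerCentralSeries c with hΓ
  have h2 : Group.IsNilpotent (H ⧸ Γ) := Subgroup.nilpotent_iff_lowerCentralSeries.2
    ⟨c, by rw [← h1, Subgroup.map_eq_bot_iff, QuotientGroup.ker_mk']⟩
  have h3 : Finite (H ⧸ Γ) := finite_of_nilpotent hp.pos _ inferInstance (exp_quot hE Γ)
  have h4 : Γ.FiniteIndex := Subgroup.finiteIndex_of_finite_quotient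
  have h5 : Γ = ⊥ := by
    by_contra h0
    obtain ⟨M, h6, h7⟩ := h Γ ((Group.fg_iff_subgroup_fg Γ).1 inferInstance) h0
    have h8 : (M.map Γ.subtype).FiniteIndex :=
      ⟨by rw [Subgroup.index_map_subtype]; exact mul_ne_zero h7.1 h4.1⟩
    have h9 := hc (H ⧸ (M.map Γ.subtype).normalCore) (exp_quot hE _)
      (fun i => QuotientGroup.mk' _ (x i)) (by
        rw [show (Set.range fun i => QuotientGroup.mk' (M.map Γ.subtype).normalCore (x i)) =
          QuotientGroup.mk' _ '' Set.range x from Set.range_comp _ x, ← MonoidHom.map_closure, hs,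
          Subgroup.map_top_of_surjective _ (QuotientGroup.mk'_surjective _)])
    rw [← h1, Subgroup.map_eq_bot_iff, QuotientGroup.ker_mk'] at h9
    refine h6 (eq_top_iff.2 fun y _ => ?_)
    obtain ⟨z, hz, e⟩ := (M.map Γ.subtype).normalCore_le (h9 y.2)
    rwa [← Subtype.ext e]
  rw [h5] at h4
  exact Nat.finite_of_card_ne_zero (by simpa using h4.1)

theorem small_case {p d : ℕ} (hp : p.Prime) {G : Type} [Group G] (hG : Lg G)
    (hE : ∀ g : G, g ^ p = 1) (A : Subgroup G) (hA : der A d = ⊥)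
    (hcov : ∀ x : G, ∃ g : G, ∃ a ∈ A, x = g⁻¹ * a * g) : A = ⊤ := by
  refine endgame' hp (rbp hp) (Grp.t3_of_step hp fun h5 _ _ hL hE _ _ _ C inj _ L nil _ nil2 _ a1
    ha => Grp.exists_quadratic hp h5 hL hE C inj L nil nil2 a1 ha) (fun s hs => ?_) hE A hA hcov
  have := hs.to_subtype
  have := (hG.of_inj (Subgroup.closure s).subtype Subtype.val_injective).finite hp
    fun g => Subtype.ext (hE g)
  exact Set.toFinite _

theorem exists_hull {G : Type*} [Group G] (x : G) (g a : G → G) :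
    ∃ H : Subgroup G, Countable H ∧ x ∈ H ∧ ∀ y ∈ H, g y ∈ H ∧ a y ∈ H := by
  let F : ℕ → Set G := fun n => Nat.rec {x, 1}
    (fun _ S => S ∪ (Set.image2 (· * ·) S S ∪ ((·⁻¹) '' S ∪ (g '' S ∪ a '' S)))) n
  have hm : Monotone F := monotone_nat_of_le_succ fun n => Set.subset_union_left
  have hc : ∀ n, (F n).Countable := fun n => by
    induction n with
    | zero => exact ((Set.finite_singleton 1).insert x).countable
    | succ n ih =>
      exact ih.union ((ih.image2 ih _).union ((ih.image _).union ((ih.image _).union (ih.image _))))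
  refine ⟨⟨⟨⟨⋃ n, F n, fun {u v} hu hv => ?_⟩, Set.mem_iUnion.2 ⟨0, .inr rfl⟩⟩, fun {u} hu => ?_⟩,
    Set.countable_iUnion hc, Set.mem_iUnion.2 ⟨0, .inl rfl⟩, fun y hy => ?_⟩
  · obtain ⟨m, h1⟩ := Set.mem_iUnion.1 hu
    obtain ⟨n, h2⟩ := Set.mem_iUnion.1 hv
    exact Set.mem_iUnion.2 ⟨max m n + 1, .inr (.inl
      ⟨u, hm (le_max_left m n) h1, v, hm (le_max_right m n) h2, rfl⟩)⟩
  · obtain ⟨m, h1⟩ := Set.mem_iUnion.1 hu
    exact Set.mem_iUnion.2 ⟨m + 1, .inr (.inr (.inl ⟨u, h1, rfl⟩))⟩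
  · obtain ⟨m, h1⟩ := Set.mem_iUnion.1 hy
    exact ⟨Set.mem_iUnion.2 ⟨m + 1, .inr (.inr (.inr (.inl ⟨y, h1, rfl⟩)))⟩,
      Set.mem_iUnion.2 ⟨m + 1, .inr (.inr (.inr (.inr ⟨y, h1, rfl⟩)))⟩⟩

theorem main {p : ℕ} (hp : p.Prime) {G : Type*} [Group G] (hG : Lg G)
    (hE : ∀ g : G, g ^ p = 1) (A : Subgroup G) [Group.IsSolvable A]
    (hcov : ∀ x : G, ∃ g : G, ∃ a ∈ A, x = g⁻¹ * a * g) : A = ⊤ := by
  obtain ⟨d, hd⟩ := exists_der A
  choose g a ha e using hcov
  refine eq_top_iff.2 fun x _ => ?_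
  obtain ⟨H, hH, hx, hcl⟩ := exists_hull x g a
  let ε : Shrink.{0} H ≃* H := Shrink.mulEquiv.{0}
  let ι : Shrink.{0} H →* G := H.subtype.comp ε.toMonoidHom
  have hι : Function.Injective ι := Subtype.val_injective.comp ε.injective
  have hs : ∀ y ∈ H, ∃ z, ι z = y := fun y hy => ⟨ε.symm ⟨y, hy⟩, by simp [ι]⟩
  have h1 := small_case (d := d) hp (hG.of_inj ι hι) (fun z => hι (by rw [map_pow, hE, map_one]))
    (A.comap ι) (by
      rw [← Subgroup.map_eq_bot_iff_of_injective _ hι, der_map, eq_bot_iff, ← hd]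
      exact der_mono (Subgroup.map_comap_le _ _) d) fun z => by
      have hz : ι z ∈ H := (ε z).2
      obtain ⟨u, hu⟩ := hs _ (hcl _ hz).1
      obtain ⟨v, hv⟩ := hs _ (hcl _ hz).2
      refine ⟨u, v, by rw [Subgroup.mem_comap, hv]; exact ha _, hι ?_⟩
      rw [map_mul, map_mul, map_inv, hu, hv, ← e]
  obtain ⟨z, rfl⟩ := hs x hx
  exact h1.ge (Subgroup.mem_top z)

/-- Locally finite groups are locally graded. -/
theorem lg_of_locFin {G : Type*} [Group G]
    (h : ∀ s : Set G, s.Finite → (Subgroup.closure s : Set G).Finite) : Lg G := by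
  rintro _ ⟨s, rfl⟩ h0
  have := (h s s.finite_toSet).to_subtype
  have := (Subgroup.nontrivial_iff_ne_bot _).2 h0
  exact ⟨⊥, bot_ne_top, inferInstance⟩

end Pool.Agent.P.MP_1307d3_al.Sol
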