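import Pool.Agent.P.MP_1307d3_al.Jordan

/-! A nonzero Engel Lie algebra over an infinite field has a nonzero ideal spanned by
sandwiches. -/

namespace Pool.Agent.P.MP_1307d3_al.Kos

/-- Functions of countably many arguments. -/
def Fn (M : Type*) := (ℕ → M) → M

variable {k M : Type*} [Field k] [LieRing M] [LieAlgebra k M]

instance : AddCommGroup (Fn M) := inferInstanceAs (AddCommGroup ((ℕ → M) → M))
instance : Module k (Fn M) := inferInstanceAs (Module k ((ℕ → M) → M))

instance : LieRing (Fn M) where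
  bracket f g := fun φ => ⁅f φ, g φ⁆
  add_lie f g h := funext fun φ => add_lie (f φ) (g φ) (h φ)
  lie_add f g h := funext fun φ => lie_add (f φ) (g φ) (h φ)
  lie_self f := funext fun φ => lie_self (f φ)
  leibniz_lie f g h := funext fun φ => leibniz_lie (f φ) (g φ) (h φ)

instance : LieAlgebra k (Fn M) where
  lie_smul c f g := funext fun φ => lie_smul c (f φ) (g φ)

/-- Coordinate functions. -/
def pr (i : ℕ) : Fn M := fun φ => φ i

variable (k M) in
/-- Lie polynomial functions. -/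
def FF0 : LieSubalgebra k (Fn M) := LieSubalgebra.lieSpan k (Fn M) (Set.range pr)

theorem dep_fin {f : Fn M} (hf : f ∈ FF0 k M) :
    ∃ N : ℕ, ∀ φ ψ : ℕ → M, (∀ i < N, φ i = ψ i) → f φ = f ψ := by
  induction hf using LieSubalgebra.lieSpan_induction with
  | mem f hf => obtain ⟨i, rfl⟩ := hf; exact ⟨i + 1, fun φ ψ h => h i (by omega)⟩
  | zero => exact ⟨0, fun _ _ _ => rfl⟩
  | add f g _ _ hf hg =>
    obtain ⟨a, ha⟩ := hf
    obtain ⟨b, hb⟩ := hg
    refine ⟨a + b, fun φ ψ h => ?_⟩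
    change f φ + g φ = f ψ + g ψ
    rw [ha φ ψ fun i hi => h i (by omega), hb φ ψ fun i hi => h i (by omega)]
  | smul c f _ hf =>
    obtain ⟨a, ha⟩ := hf
    refine ⟨a, fun φ ψ h => ?_⟩
    change c • f φ = c • f ψ
    rw [ha φ ψ h]
  | lie f g _ _ hf hg =>
    obtain ⟨a, ha⟩ := hf
    obtain ⟨b, hb⟩ := hg
    refine ⟨a + b, fun φ ψ h => ?_⟩
    change ⁅f φ, g φ⁆ = ⁅f ψ, g ψ⁆
    rw [ha φ ψ fun i hi => h i (by omega), hb φ ψ fun i hi => h i (by omega)]

section Pol
variable {V : Type*} [AddCommGroup V] [Module k V]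

variable (k V) in
/-- Polynomial curves. -/
def Pol : Submodule k (k → V) :=
  Submodule.span k {g | ∃ (j : ℕ) (c : V), g = fun t => t ^ j • c}

theorem Pol.const (c : V) : (fun _ => c) ∈ Pol k V :=
  Submodule.subset_span ⟨0, c, by simp⟩

theorem Pol.bilin (B : V →ₗ[k] V →ₗ[k] V) {g h : k → V} (hg : g ∈ Pol k V) (hh : h ∈ Pol k V) :
    (fun t => B (g t) (h t)) ∈ Pol k V := by
  induction hg using Submodule.span_induction with
  | mem g hg =>
    obtain ⟨i, c, rfl⟩ := hg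
    induction hh using Submodule.span_induction with
    | mem h hh =>
      obtain ⟨j, d, rfl⟩ := hh
      exact Submodule.subset_span ⟨i + j, B c d, by ext t; simp [pow_add, smul_smul, mul_comm]⟩
    | zero => convert zero_mem (Pol k V) using 1; ext t; simp
    | add x y _ _ hx hy => convert add_mem hx hy using 1; ext t; simp
    | smul a x _ hx =>
      convert Submodule.smul_mem _ a hx using 1
      ext t; simp only [Pi.smul_apply, map_smul]
  | zero => convert zero_mem (Pol k V) using 1; ext t; simp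
  | add x y _ _ hx hy => convert add_mem hx hy using 1; ext t; simp
  | smul a x _ hx =>
    convert Submodule.smul_mem _ a hx using 1
    ext t; simp only [Pi.smul_apply, map_smul, LinearMap.smul_apply]

theorem Pol.mulX {g : k → V} (hg : g ∈ Pol k V) : (fun t => t • g t) ∈ Pol k V := by
  induction hg using Submodule.span_induction with
  | mem g hg =>
    obtain ⟨i, c, rfl⟩ := hg
    exact Submodule.subset_span ⟨i + 1, c, by ext t; simp [pow_succ', mul_smul]⟩
  | zero => convert zero_mem (Pol k V) using 1; ext t; simp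
  | add x y _ _ hx hy => convert add_mem hx hy using 1; ext t; simp
  | smul a x _ hx =>
    convert Submodule.smul_mem _ a hx using 1
    ext t; simp only [Pi.smul_apply, smul_comm a t]

theorem Pol.dual {g : k → V} (hg : g ∈ Pol k V) (l : V →ₗ[k] k) :
    ∃ P : Polynomial k, ∀ t, l (g t) = P.eval t := by
  induction hg using Submodule.span_induction with
  | mem g hg =>
    obtain ⟨i, c, rfl⟩ := hg
    exact ⟨Polynomial.C (l c) * Polynomial.X ^ i, fun t => by simp [mul_comm (l c)]⟩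
  | zero => exact ⟨0, by simp⟩
  | add x y _ _ hx hy =>
    obtain ⟨P, hP⟩ := hx
    obtain ⟨R, hR⟩ := hy
    exact ⟨P + R, fun t => by simp [hP, hR]⟩
  | smul a x _ hx =>
    obtain ⟨P, hP⟩ := hx
    exact ⟨Polynomial.C a * P, fun t => by simp [hP]⟩

theorem mem_of_curve [Infinite k] (S : Submodule k V) {a b : V} {h : k → V} (hh : h ∈ Pol k V)
    (hS : ∀ t : k, a + t • b + t • t • h t ∈ S) : b ∈ S := by
  by_contra hb
  obtain ⟨l, h1, h2⟩ := Submodule.exists_dual_map_eq_bot_of_notMem hb inferInstance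
  obtain ⟨P, hP⟩ := Pol.dual hh l
  have : Polynomial.C (l a) + Polynomial.X * Polynomial.C (l b) + Polynomial.X * (Polynomial.X * P)
      = 0 := Polynomial.funext fun t => by
    have : l (a + t • b + t • t • h t) ∈ S.map l := Submodule.mem_map_of_mem (hS t)
    rw [h2] at this
    simpa [hP, mul_comm t (l b)] using this
  have := congrArg (fun q => Polynomial.coeff q 1) this
  simp [Polynomial.coeff_X_mul] at this
  exact h1 this

end Pol

theorem Pol.lie {g h : k → M} (hg : g ∈ Pol k M) (hh : h ∈ Pol k M) :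
    (fun t => ⁅g t, h t⁆) ∈ Pol k M :=
  Pol.bilin (LinearMap.mk₂ k (fun a b : M => ⁅a, b⁆) add_lie smul_lie lie_add lie_smul) hg hh

theorem expand {f : Fn M} (hf : f ∈ FF0 k M) (m : M) (φ : ℕ → M) :
    ∃ h ∈ Pol k M, ∀ t : k,
      f (fun i => φ i + t • ⁅m, φ i⁆) = f φ + t • ⁅m, f φ⁆ + t • t • h t := by
  induction hf using LieSubalgebra.lieSpan_induction with
  | mem f hf => obtain ⟨i, rfl⟩ := hf; exact ⟨0, zero_mem _, fun t => by simp [pr]⟩
  | zero =>
    refine ⟨0, zero_mem _, fun t => ?_⟩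
    change (0 : M) = 0 + t • ⁅m, (0 : M)⁆ + _
    simp
  | add f g _ _ hf hg =>
    obtain ⟨a, ha, ha'⟩ := hf
    obtain ⟨b, hb, hb'⟩ := hg
    refine ⟨a + b, add_mem ha hb, fun t => ?_⟩
    change f _ + g _ = f φ + g φ + t • ⁅m, f φ + g φ⁆ + _
    rw [ha', hb']; simp only [lie_add, smul_add, Pi.add_apply]; abel
  | smul c f _ hf =>
    obtain ⟨a, ha, ha'⟩ := hf
    refine ⟨c • a, Submodule.smul_mem _ _ ha, fun t => ?_⟩
    change c • f _ = c • f φ + t • ⁅m, c • f φ⁆ + _
    rw [ha']; simp only [lie_smul, smul_add, Pi.smul_apply, smul_comm c t]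
  | lie f g _ _ hf hg =>
    obtain ⟨a, ha, ha'⟩ := hf
    obtain ⟨b, hb, hb'⟩ := hg
    refine ⟨(fun t => ⁅f φ, b t⁆) + (fun t => ⁅⁅m, f φ⁆, ⁅m, g φ⁆ + t • b t⁆)
      + fun t => ⁅a t, g φ + t • (⁅m, g φ⁆ + t • b t)⁆, add_mem (add_mem
        (Pol.lie (Pol.const _) hb) (Pol.lie (Pol.const _) (add_mem (Pol.const _) (Pol.mulX hb))))
        (Pol.lie ha (add_mem (Pol.const _) (Pol.mulX (add_mem (Pol.const _) (Pol.mulX hb))))),
        fun t => ?_⟩
    change ⁅f _, g _⁆ = ⁅f φ, g φ⁆ + t • ⁅m, ⁅f φ, g φ⁆⁆ + _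
    rw [ha', hb', leibniz_lie m]
    simp only [lie_add, add_lie, smul_add, Pi.add_apply, lie_smul, smul_lie]
    abel

/-- A nonzero ideal spanned by sandwiches. -/
theorem exists_sandwich_ideal [Infinite k] {n : ℕ} (tf : TF n M) (hE : ∀ a : M, ad a ^ n = 0)
    {x : M} (x0 : x ≠ 0) : ∃ S : Set M, (∃ c ∈ S, c ≠ 0) ∧
      (∀ c ∈ S, (∀ y : M, ⁅c, ⁅c, y⁆⁆ = 0) ∧ ∀ a y : M, ⁅c, ⁅a, ⁅c, y⁆⁆⁆ = 0) ∧
      ∀ m : M, ∀ c ∈ S, ⁅m, c⁆ ∈ Submodule.span k S := by
  have tf' : TF n (FF0 k M) := fun m h1 h2 f hf => Subtype.ext <| funext fun φ =>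
    tf m h1 h2 _ (congrFun (congrArg Subtype.val hf) φ)
  have ev : ∀ (j : ℕ) (f g : FF0 k M) (φ : ℕ → M),
      (((ad f ^ j) g : FF0 k M) : Fn M) φ = (ad ((f : Fn M) φ) ^ j) ((g : Fn M) φ) := by
    intro j f g φ
    induction j with
    | zero => rfl
    | succ j ih => rw [pow_succ', pow_succ', Module.End.mul_apply, Module.End.mul_apply, ← ih]; rfl
  have hE' : ∀ f : FF0 k M, ad f ^ n = 0 := fun f => LinearMap.ext fun g => Subtype.ext <|
    funext fun φ => by rw [ev, hE]; rfl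
  let π : ℕ → FF0 k M := fun i => ⟨pr i, LieSubalgebra.subset_lieSpan ⟨i, rfl⟩⟩
  obtain ⟨f, f0, h1, h2⟩ := exists_sandwich tf' hE' (x := π 0)
    fun h => x0 (congrFun (congrArg Subtype.val h) fun _ => x)
  obtain ⟨N, hN⟩ := dep_fin f.2
  refine ⟨Set.range (f : Fn M), ?_, ?_, ?_⟩
  · by_contra q
    push Not at q
    exact f0 (Subtype.ext <| funext fun φ => q _ ⟨φ, rfl⟩)
  · rintro _ ⟨φ, rfl⟩
    have e : ∀ a y : M, ∃ ψ : ℕ → M, (f : Fn M) φ = (f : Fn M) ψ ∧ ψ N = a ∧ ψ (N + 1) = y :=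
      fun a y => ⟨fun i => if i < N then φ i else if i = N then a else y,
        hN _ _ fun i hi => by simp [hi], by simp, by simp⟩
    refine ⟨fun y => ?_, fun a y => ?_⟩
    · obtain ⟨ψ, e1, -, rfl⟩ := e y y
      rw [e1]
      exact congrFun (congrArg Subtype.val (h1 (π (N + 1)))) ψ
    · obtain ⟨ψ, e1, rfl, rfl⟩ := e a y
      rw [e1]
      exact congrFun (congrArg Subtype.val (h2 (π N) (π (N + 1)))) ψ
  · rintro m _ ⟨φ, rfl⟩
    obtain ⟨h, hh, e⟩ := expand f.2 m φ
    exact mem_of_curve _ hh fun t => by rw [← e]; exact Submodule.subset_span ⟨_, rfl⟩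

end Pool.Agent.P.MP_1307d3_al.Kos
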