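import Mathlib

/-! Lyndon words and the combinatorial lemma behind the sandwich theorem. -/

namespace Pool.Agent.P.MP_1307d3_al.Sandwich

variable {α : Type*} [LinearOrder α]

/-- The two words have a mismatch and the second one is bigger at the first mismatch. -/
inductive MM : List α → List α → Prop
  | head {a b : α} {g s : List α} : a < b → MM (a :: g) (b :: s)
  | cons {a : α} {g s : List α} : MM g s → MM (a :: g) (a :: s)

theorem MM.append {g s : List α} (h : MM g s) (u v : List α) : MM (g ++ u) (s ++ v) := by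
  induction h with
  | head h => exact .head h
  | cons _ ih => exact .cons ih

theorem MM.pre {g s : List α} (h : MM g s) (p : List α) : MM (p ++ g) (p ++ s) := by
  induction p with
  | nil => exact h
  | cons a p ih => exact .cons ih

theorem MM.cancel {g s : List α} (p : List α) (h : MM (p ++ g) (p ++ s)) : MM g s := by
  induction p with
  | nil => exact h
  | cons a p ih =>
    cases h with
    | head h => exact absurd h (lt_irrefl _)
    | cons h => exact ih h

theorem MM.lt {g s : List α} (h : MM g s) : g < s := by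
  induction h with
  | head h => exact List.cons_lt_cons_iff.2 (.inl h)
  | cons _ ih => exact List.cons_lt_cons_iff.2 (.inr ⟨rfl, ih⟩)

theorem MM.tri (g s : List α) : MM g s ∨ MM s g ∨ g <+: s ∨ s <+: g := by
  induction g generalizing s with
  | nil => exact .inr (.inr (.inl List.nil_prefix))
  | cons a g ih =>
    cases s with
    | nil => exact .inr (.inr (.inr List.nil_prefix))
    | cons b s =>
      rcases lt_trichotomy a b with h | rfl | h
      · exact .inl (.head h)
      · rcases ih s with h | h | h | h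
        · exact .inl (.cons h)
        · exact .inr (.inl (.cons h))
        · exact .inr (.inr (.inl ((List.prefix_cons_inj a).2 h)))
        · exact .inr (.inr (.inr ((List.prefix_cons_inj a).2 h)))
      · exact .inr (.inl (.head h))

theorem le_of_pre {g s : List α} (h : g <+: s) : g ≤ s := by
  obtain ⟨t, rfl⟩ := h
  induction g with
  | nil => exact not_lt.1 (List.not_lt_nil _)
  | cons a g ih =>
    rcases ih.lt_or_eq with h | h
    · exact (List.cons_lt_cons_iff.2 (.inr ⟨rfl, h⟩)).le
    · exact le_of_eq (congrArg (a :: ·) h)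

theorem MM.of_lt {g s : List α} (h : g < s) (hl : s.length ≤ g.length) : MM g s := by
  rcases MM.tri g s with e | e | e | e
  · exact e
  · exact absurd h e.lt.not_gt
  · exact absurd (e.eq_of_length_le hl) h.ne
  · exact absurd h (le_of_pre e).not_gt

/-- Lyndon words. -/
def Lyn (g : List α) : Prop := g ≠ [] ∧ ∀ p s, g = p ++ s → p ≠ [] → s ≠ [] → MM g s

theorem Lyn.split {g : List α} (h : Lyn g) (h2 : 2 ≤ g.length) :
    ∃ r s, g = r ++ s ∧ Lyn r ∧ Lyn s ∧ MM (r ++ s) (s ++ r) := by
  have fin : {s : List α | ∃ p, g = p ++ s ∧ p ≠ [] ∧ s ≠ []}.Finite :=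
    (g.tails.finite_toSet).subset fun s ⟨p, e, _⟩ => (List.mem_tails _ _).2 ⟨p, e.symm⟩
  have ne : {s : List α | ∃ p, g = p ++ s ∧ p ≠ [] ∧ s ≠ []}.Nonempty := by
    match g, h2 with
    | a :: b :: t, _ => exact ⟨b :: t, [a], rfl, by simp, by simp⟩
  obtain ⟨s, ⟨r, e, hr, hs⟩, hmin⟩ := Set.exists_min_image _ id fin ne
  refine ⟨r, s, e, ⟨hr, fun p r' e' hp hr' => ?_⟩, ⟨hs, fun p s' e' hp hs' => ?_⟩, ?_⟩
  · have m1 : MM g (r' ++ s) := h.2 p (r' ++ s) (by rw [e, e', List.append_assoc]) hp (by simp [hr'])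
    have lp : 0 < p.length := List.length_pos_iff.2 hp
    have ll : r.length = p.length + r'.length := by rw [e', List.length_append]
    rcases MM.tri r r' with q | q | q | q
    · exact q
    · exact absurd (e ▸ m1).lt (q.append s s).lt.not_gt
    · have := q.length_le; omega
    · obtain ⟨t, ht⟩ := q
      rw [e, ← ht, List.append_assoc] at m1
      have := hmin (t ++ s) ⟨r', by rw [e, ← ht, List.append_assoc], hr', by simp [hs]⟩
      exact absurd (m1.cancel r').lt (not_lt.2 this)
  · have := hmin s' ⟨r ++ p, by rw [e, e', List.append_assoc], by simp [hr], hs'⟩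
    have lp : 0 < p.length := List.length_pos_iff.2 hp
    have ll : s.length = p.length + s'.length := by rw [e', List.length_append]
    refine MM.of_lt (lt_of_le_of_ne this fun q => ?_) (by omega)
    rw [q] at ll; omega
  · have := (h.2 r s e hr hs).append [] r
    rwa [List.append_nil, e] at this

/-- The word has a factor `y g y` or `g y g` with `y` a letter and `g` Lyndon (or `y y`). -/
def Bad (w : List α) : Prop :=
  ∃ (y : α) (g : List α), ((g = [] ∨ Lyn g) ∧ [y] ++ g ++ [y] <:+: w) ∨ (Lyn g ∧ g ++ [y] ++ g <:+: w)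

/-- Factor closed sets of words with a word of each length. -/
def Lang (F : Set (List α)) : Prop :=
  (∀ u v, u <:+: v → v ∈ F → u ∈ F) ∧ ∀ n, ∃ w ∈ F, w.length = n

omit [LinearOrder α] in
theorem exists_min_lang [Finite α] {F : Set (List α)} (h : Lang F) :
    ∃ G ⊆ F, Lang G ∧ ∀ u ∈ G, ∃ N, ∀ w ∈ G, w.length = N → u <:+: w := by
  obtain ⟨G, hG, hm⟩ := zorn_superset_nonempty {G | Lang G} (fun c hc ch ne => by
    refine ⟨⋂₀ c, ⟨fun u v e hv K hK => (hc hK).1 u v e (hv K hK), fun n => ?_⟩,
      fun K hK => Set.sInter_subset_of_mem hK⟩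
    obtain ⟨K, hK, hmin⟩ := exists_minimalFor_of_wellFoundedLT (· ∈ c)
      (fun K : Set (List α) => (K ∩ {w | w.length = n}).ncard) ne
    obtain ⟨w, hw, hl⟩ := (hc hK).2 n
    refine ⟨w, fun K' hK' => ?_, hl⟩
    rcases ch.total hK hK' with e | e
    · exact e hw
    · have fin : (K ∩ {w | w.length = n}).Finite :=
        (List.finite_length_eq α n).subset Set.inter_subset_right
      have sub : K' ∩ {w | w.length = n} ⊆ K ∩ {w | w.length = n} := Set.inter_subset_inter_left _ e
      have := Set.eq_of_subset_of_ncard_le sub (hmin hK' (Set.ncard_le_ncard sub fin)) fin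
      have q : w ∈ K' ∩ {w | w.length = n} := this ▸ ⟨hw, hl⟩
      exact q.1) F h
  refine ⟨G, hG, hm.prop, fun u hu => ?_⟩
  by_contra q
  push Not at q
  have : Lang {w ∈ G | ¬ u <:+: w} :=
    ⟨fun a b e hb => ⟨hm.prop.1 a b e hb.1, fun t => hb.2 (t.trans e)⟩, fun n => by
      obtain ⟨w, h1, h2, h3⟩ := q n; exact ⟨w, ⟨h1, h3⟩, h2⟩⟩
  exact (hm.le_of_le this (fun w hw => hw.1) hu).2 (List.infix_refl u)

/-- The segment of length `l` from position `i` of an infinite word. -/
def seg (m : ℕ → α) (i l : ℕ) : List α := (List.range' i l).map m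

omit [LinearOrder α] in
theorem seg_len (m : ℕ → α) (i l : ℕ) : (seg m i l).length = l := by simp [seg]

omit [LinearOrder α] in
theorem seg_add (m : ℕ → α) (i l l' : ℕ) : seg m i (l + l') = seg m i l ++ seg m (i + l) l' := by
  rw [seg, seg, seg, ← List.map_append, List.range'_append_1]

omit [LinearOrder α] in
theorem seg_one (m : ℕ → α) (i : ℕ) : seg m i 1 = [m i] := by simp [seg]

omit [LinearOrder α] in
theorem seg_congr {m : ℕ → α} {i j l : ℕ} (h : ∀ t < l, m (i + t) = m (j + t)) :
    seg m i l = seg m j l := by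
  apply List.ext_getElem (by simp [seg])
  intro t h1 _
  rw [seg_len] at h1
  simp [seg, h t h1]

omit [LinearOrder α] in
theorem seg_inj {m : ℕ → α} {i j l : ℕ} (h : seg m i l = seg m j l) :
    ∀ t < l, m (i + t) = m (j + t) := by
  intro t ht
  have := List.getElem_of_eq h (i := t) (by rw [seg_len]; exact ht)
  simpa [seg] using this

omit [LinearOrder α] in
theorem seg_split {m : ℕ → α} {i l : ℕ} {p s : List α} (h : seg m i l = p ++ s) :
    p = seg m i p.length ∧ s = seg m (i + p.length) s.length ∧ l = p.length + s.length := by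
  have hl : l = p.length + s.length := by rw [← List.length_append, ← h, seg_len]
  rw [hl, seg_add] at h
  obtain ⟨h1, h2⟩ := List.append_inj h (seg_len _ _ _)
  exact ⟨h1.symm, h2.symm, hl⟩

theorem exists_min_word [Finite α] {G : Set (List α)} (h : Lang G)
    (hr : ∀ u ∈ G, ∃ N, ∀ w ∈ G, w.length = N → u <:+: w) :
    ∃ m : ℕ → α, (∀ i l, seg m i l ∈ G) ∧ (∀ n a, seg m 0 n ++ [a] ∈ G → m n ≤ a) := by
  have ext : ∀ u : G, ∃ a, u.1 ++ [a] ∈ G ∧ ∀ b, u.1 ++ [b] ∈ G → a ≤ b := by
    rintro ⟨u, hu⟩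
    have ne : {a | u ++ [a] ∈ G}.Nonempty := by
      obtain ⟨N, hN⟩ := hr u hu
      obtain ⟨w, hw, hl⟩ := h.2 (N + 1)
      obtain ⟨w', a, rfl⟩ : ∃ w' a, w = w' ++ [a] := by
        rcases List.eq_nil_or_concat w with e | ⟨w', a, e⟩
        · rw [e] at hl; simp at hl
        · exact ⟨w', a, by simpa using e⟩
      obtain ⟨p, q, e⟩ := hN w' (h.1 _ _ (List.prefix_append _ _).isInfix hw) (by simpa using hl)
      cases q with
      | nil => exact ⟨a, h.1 _ _ ⟨p, [], by simp [← e]⟩ hw⟩
      | cons b q => exact ⟨b, h.1 _ _ ⟨p, q ++ [a], by simp [← e]⟩ hw⟩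
    obtain ⟨a, ha, hmin⟩ := Set.exists_min_image _ id (Set.toFinite _) ne
    exact ⟨a, ha, hmin⟩
  choose f hf using ext
  obtain ⟨w0, h0, l0⟩ := h.2 0
  rw [List.length_eq_zero_iff.1 l0] at h0
  let pre : ℕ → G := fun n => Nat.rec ⟨[], h0⟩ (fun _ u => ⟨u.1 ++ [f u], (hf u).1⟩) n
  have key : ∀ n, seg (fun n => f (pre n)) 0 n = (pre n).1 := by
    intro n
    induction n with
    | zero => rfl
    | succ n ih => rw [seg_add, ih, seg_one, zero_add]
  refine ⟨fun n => f (pre n), fun i l => ?_, fun n a ha => (hf (pre n)).2 a (key n ▸ ha)⟩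
  refine h.1 _ _ ⟨seg (fun n => f (pre n)) 0 i, [], ?_⟩ (pre (i + l)).2
  rw [← key, seg_add, zero_add, List.append_nil]

theorem lyn_of_unbordered {G : Set (List α)} {m : ℕ → α} (h1 : ∀ i l, seg m i l ∈ G)
    (h2 : ∀ n a, seg m 0 n ++ [a] ∈ G → m n ≤ a) {l : ℕ} (hl : 0 < l)
    (hb : ∀ i j, 0 < i → 0 < j → i + j = l → seg m i j ≠ seg m 0 j) : Lyn (seg m 0 l) := by
  refine ⟨fun e => by have := seg_len m 0 l; rw [e] at this; simp at this; omega,
    fun p s e hp hs => ?_⟩
  obtain ⟨_, e2, e3⟩ := seg_split e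
  rw [zero_add] at e2
  have ne := hb p.length s.length (List.length_pos_iff.2 hp) (List.length_pos_iff.2 hs) e3.symm
  have ex : ∃ t, t < s.length ∧ m (p.length + t) ≠ m t := by
    by_contra q
    push Not at q
    exact ne (seg_congr fun t ht => by rw [zero_add]; exact q t ht)
  classical
  obtain ⟨ht, hne⟩ := Nat.find_spec ex
  have hmin := fun t (h : t < Nat.find ex) => Nat.find_min ex h
  set t := Nat.find ex
  have eq : seg m p.length t = seg m 0 t := seg_congr fun j hj => by
    rw [zero_add]; by_contra q; exact hmin j hj ⟨by omega, q⟩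
  have le : m t ≤ m (p.length + t) := h2 t _ (by
    rw [← eq, ← seg_one, ← seg_add]; exact h1 _ _)
  obtain ⟨k, hk⟩ : ∃ k, s.length = t + (1 + k) := ⟨s.length - t - 1, by omega⟩
  obtain ⟨k', hk'⟩ : ∃ k', l = t + (1 + k') := ⟨l - t - 1, by omega⟩
  rw [e2, hk, hk', seg_add, seg_add, seg_add, seg_add, eq, seg_one, seg_one, zero_add]
  exact (MM.head (lt_of_le_of_ne le hne.symm)).pre _

theorem exists_bad (α : Type*) [LinearOrder α] [Finite α] :
    ∃ N, ∀ w : List α, w.length = N → Bad w := by
  classical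
  by_contra q
  push Not at q
  have hF : Lang {w : List α | ¬ Bad w} := by
    refine ⟨fun u v e hv ⟨y, g, hb⟩ => hv ⟨y, g, ?_⟩, fun n => ?_⟩
    · exact hb.imp (fun a => ⟨a.1, a.2.trans e⟩) fun a => ⟨a.1, a.2.trans e⟩
    · obtain ⟨w, h1, h2⟩ := q n; exact ⟨w, h2, h1⟩
  obtain ⟨G, hG, hL, hr⟩ := exists_min_lang hF
  obtain ⟨m, h1, h2⟩ := exists_min_word hL hr
  have ret : ∀ n, ∃ k, seg m (k + 1) n = seg m 0 n := by
    intro n
    obtain ⟨N, hN⟩ := hr _ (h1 0 n)
    obtain ⟨p, s, e⟩ := hN _ (h1 1 N) (seg_len _ _ _)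
    rw [List.append_assoc] at e
    obtain ⟨_, e2, _⟩ := seg_split e.symm
    obtain ⟨e3, _⟩ := seg_split e2.symm
    rw [seg_len] at e3
    exact ⟨p.length, by rw [add_comm]; exact e3.symm⟩
  obtain ⟨y, hy⟩ := Finite.exists_infinite_fiber fun n => m (Nat.find (ret n))
  have inf : ((fun n => m (Nat.find (ret n))) ⁻¹' {y}).Infinite := Set.infinite_coe_iff.1 hy
  obtain ⟨n, hn⟩ := inf.nonempty
  have hn : m (Nat.find (ret n)) = y := hn
  have sp := Nat.find_spec (ret n)
  have mn := fun j (h : j < Nat.find (ret n)) => Nat.find_min (ret n) h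
  set k := Nat.find (ret n)
  by_cases hb : ∃ j, 0 < j ∧ ∃ i, 0 < i ∧ i + j = k ∧ seg m i j = seg m 0 j
  · obtain ⟨j0, i, i0, hij, e⟩ := Nat.find_spec hb
    have mb := fun j (h : j < Nat.find hb) => Nat.find_min hb h
    set j := Nat.find hb
    have ly : Lyn (seg m 0 j) := by
      refine lyn_of_unbordered h1 h2 j0 fun i' j' a b c d => mb j' (by omega)
        ⟨b, i + i', by omega, by omega, ?_⟩
      rw [← d]
      exact seg_congr fun t ht => by
        have := seg_inj e (i' + t) (by omega); rwa [zero_add, ← add_assoc] at this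
    have jn : j < n := by
      by_contra c
      refine mn (i - 1) (by omega) ?_
      rw [show i - 1 + 1 = i by omega]
      exact seg_congr fun t ht => seg_inj e t (by omega)
    refine hG (h1 i (j + 1 + j)) ⟨y, seg m 0 j, .inr ⟨ly, ?_⟩⟩
    rw [seg_add, seg_add, seg_one, e, hij, hn, ← add_assoc, hij,
      seg_congr (i := k + 1) (j := 0) fun t ht => seg_inj sp t (by omega)]
  · have ly : seg m 0 k = [] ∨ Lyn (seg m 0 k) := by
      rcases Nat.eq_zero_or_pos k with e | e
      · left; rw [e]; rfl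
      · exact .inr (lyn_of_unbordered h1 h2 e fun i j a b c d => hb ⟨j, b, i, a, c, d⟩)
    obtain ⟨n', hn', lt⟩ := inf.exists_gt k
    have hn' : m (Nat.find (ret n')) = y := hn'
    have sp' := Nat.find_spec (ret n')
    set k' := Nat.find (ret n')
    refine hG (h1 k' (1 + (k + 1))) ⟨y, seg m 0 k, .inl ⟨ly, ?_⟩⟩
    rw [seg_add, seg_one, hn', seg_congr (i := k' + 1) (j := 0) fun t ht => seg_inj sp' t (by omega),
      seg_add, seg_one, zero_add, hn, List.append_assoc]

end Pool.Agent.P.MP_1307d3_al.Sandwich
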